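import Pool.Agent.NIF.NEA

/-!
ENA (110 lines). Algebra of the energies En A t u and vertex energies ve A t u a.

PROOF. ve_nonneg, En_nonneg: sums of nonnegative rpow's. le_ve: one term of the sum (t > 0 not needed: single_le_sum). En_mono_fun: termwise
Real.rpow_le_rpow for t ≥ 0. En_add_le (1 ≤ t): |x + y|^t ≤ 2^(t-1) (|x|^t + |y|^t) (convexity: Real.rpow_arith_mean_le_arith_mean2_rpow or
inner_le_nnorm... any form; the statement rpow_add_le below is the scalar version). En_smul: abs_mul, Real.mul_rpow.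
En_le_sum: for near a, b: |u a - u b|^t ≤ 2^(t-1)(|u a|^t + |u b|^t); for fixed a at most 9 cells b (near_card), and by symmetry the same for b:
total ≤ 2^(t-1) · (9 + 9) · Σ |u|^t = 9 · 2^t · Σ |u|^t. En_congr: only values on A matter. En_image_le: if e : ℕ×ℕ → ℕ×ℕ is injective on A,
maps A into B and preserves nearness (near a b → near (e a) (e b) for a, b ∈ A) then En A t (u ∘ e) ≤ En B t u (sum over a subset of the pairs,
terms nonnegative). En_anc: Σ over x = emb k v z and y ∈ G (n+k) near x of |g (anc x) - g (anc y)|^t ≤ 9 · ve (G n) t g v because anc y is near v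
and there are at most 9 such y, each term at most ve (le_ve); then sum over the 8^k cells z.
-/

set_option autoImplicit false

namespace Pool.Agent.NIF

/-- the energy as a sum over pairs -/
private theorem En_pairs (A : Finset (ℕ × ℕ)) (t : ℝ) (u : ℕ × ℕ → ℝ) :
    En A t u = ∑ p ∈ (A ×ˢ A).filter (fun p => near p.1 p.2), |u p.1 - u p.2| ^ t := by
  unfold En ve
  rw [Finset.sum_filter, Finset.sum_product]

private theorem term_nonneg (t : ℝ) (u : ℕ × ℕ → ℝ) (a b : ℕ × ℕ) : 0 ≤ (if near a b then |u a - u b| ^ t else 0) := by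
  split_ifs
  · positivity
  · exact le_refl _

private theorem sum_near_le (A : Finset (ℕ × ℕ)) (a : ℕ × ℕ) {c : ℝ} (hc : 0 ≤ c) :
    ∑ b ∈ A, (if near a b then c else 0) ≤ 9 * c := by
  rw [← Finset.sum_filter, Finset.sum_const, nsmul_eq_mul]
  have h : ((A.filter (near a)).card : ℝ) ≤ 9 := by exact_mod_cast near_card A a
  exact mul_le_mul_of_nonneg_right h hc


theorem rpow_add_le {t : ℝ} (ht : 1 ≤ t) {x y : ℝ} (hx : 0 ≤ x) (hy : 0 ≤ y) : (x + y) ^ t ≤ 2 ^ (t - 1) * (x ^ t + y ^ t) := by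
  lift x to NNReal using hx
  lift y to NNReal using hy
  have h := NNReal.rpow_add_le_mul_rpow_add_rpow x y ht
  exact_mod_cast h

theorem rpow_abs_add_le {t : ℝ} (ht : 1 ≤ t) (x y : ℝ) : |x + y| ^ t ≤ 2 ^ (t - 1) * (|x| ^ t + |y| ^ t) := by
  calc |x + y| ^ t ≤ (|x| + |y|) ^ t := Real.rpow_le_rpow (abs_nonneg _) (abs_add_le x y) (by linarith)
    _ ≤ 2 ^ (t - 1) * (|x| ^ t + |y| ^ t) := rpow_add_le ht (abs_nonneg x) (abs_nonneg y)

/-- power mean for finite sums -/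
theorem rpow_sum_le' {t : ℝ} (ht : 1 ≤ t) {ι : Type} (s : Finset ι) (x : ι → ℝ) :
    |∑ i ∈ s, x i| ^ t ≤ (s.card : ℝ) ^ (t - 1) * ∑ i ∈ s, |x i| ^ t := by
  calc |∑ i ∈ s, x i| ^ t ≤ (∑ i ∈ s, |x i|) ^ t :=
        Real.rpow_le_rpow (abs_nonneg _) (Finset.abs_sum_le_sum_abs _ _) (by linarith)
    _ ≤ (s.card : ℝ) ^ (t - 1) * ∑ i ∈ s, |x i| ^ t := Real.rpow_sum_le_const_mul_sum_rpow s x ht

theorem ve_nonneg (A : Finset (ℕ × ℕ)) (t : ℝ) (u : ℕ × ℕ → ℝ) (a : ℕ × ℕ) : 0 ≤ ve A t u a := 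
  Finset.sum_nonneg fun b _ => term_nonneg t u a b

theorem En_nonneg (A : Finset (ℕ × ℕ)) (t : ℝ) (u : ℕ × ℕ → ℝ) : 0 ≤ En A t u := 
  Finset.sum_nonneg fun a _ => ve_nonneg A t u a

theorem le_ve {A : Finset (ℕ × ℕ)} {t : ℝ} {u : ℕ × ℕ → ℝ} {a b : ℕ × ℕ} (hb : b ∈ A) (h : near a b) :
    |u a - u b| ^ t ≤ ve A t u a := by
  have h1 := Finset.single_le_sum (f := fun b => if near a b then |u a - u b| ^ t else 0) (fun b _ => term_nonneg t u a b) hb
  simp only [if_pos h] at h1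
  exact h1

theorem ve_le_En {A : Finset (ℕ × ℕ)} {t : ℝ} {u : ℕ × ℕ → ℝ} {a : ℕ × ℕ} (ha : a ∈ A) : ve A t u a ≤ En A t u := 
  Finset.single_le_sum (f := fun a => ve A t u a) (fun b _ => ve_nonneg A t u b) ha

theorem En_congr {A : Finset (ℕ × ℕ)} {t : ℝ} {u v : ℕ × ℕ → ℝ} (h : ∀ a ∈ A, u a = v a) : En A t u = En A t v := by
  unfold En ve
  refine Finset.sum_congr rfl fun a ha => Finset.sum_congr rfl fun b hb => ?_
  rw [h a ha, h b hb]

theorem En_mono_fun {A : Finset (ℕ × ℕ)} {t : ℝ} (ht : 0 ≤ t) {u v : ℕ × ℕ → ℝ}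
    (h : ∀ a ∈ A, ∀ b ∈ A, near a b → |u a - u b| ≤ |v a - v b|) : En A t u ≤ En A t v := by
  unfold En ve
  refine Finset.sum_le_sum fun a ha => Finset.sum_le_sum fun b hb => ?_
  split_ifs with hn
  · exact Real.rpow_le_rpow (abs_nonneg _) (h a ha b hb hn) ht
  · exact le_refl _

theorem En_smul (A : Finset (ℕ × ℕ)) (t : ℝ) (c : ℝ) (u : ℕ × ℕ → ℝ) :
    En A t (fun a => c * u a) = |c| ^ t * En A t u := by
  unfold En ve
  rw [Finset.mul_sum]
  refine Finset.sum_congr rfl fun a _ => ?_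
  rw [Finset.mul_sum]
  refine Finset.sum_congr rfl fun b _ => ?_
  split_ifs
  · rw [← mul_sub, abs_mul, Real.mul_rpow (abs_nonneg _) (abs_nonneg _)]
  · rw [mul_zero]

theorem En_add_le {A : Finset (ℕ × ℕ)} {t : ℝ} (ht : 1 ≤ t) (u v : ℕ × ℕ → ℝ) :
    En A t (fun a => u a + v a) ≤ 2 ^ (t - 1) * (En A t u + En A t v) := by
  unfold En ve
  rw [← Finset.sum_add_distrib, Finset.mul_sum]
  refine Finset.sum_le_sum fun a _ => ?_
  rw [← Finset.sum_add_distrib, Finset.mul_sum]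
  refine Finset.sum_le_sum fun b _ => ?_
  split_ifs
  · have h := rpow_abs_add_le ht (u a - u b) (v a - v b)
    have e : u a + v a - (u b + v b) = (u a - u b) + (v a - v b) := by ring
    rw [e]
    exact h
  · simp

/-- the t-th root of the energy is subadditive (Minkowski: Real.Lp_add_le over the finite set of pairs) -/
theorem En_minkowski {A : Finset (ℕ × ℕ)} {t : ℝ} (ht : 1 ≤ t) (u v : ℕ × ℕ → ℝ) :
    En A t (fun a => u a + v a) ^ (1 / t) ≤ En A t u ^ (1 / t) + En A t v ^ (1 / t) := by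
  rw [En_pairs, En_pairs, En_pairs]
  have h := Real.Lp_add_le ((A ×ˢ A).filter (fun p => near p.1 p.2)) (fun p => u p.1 - u p.2) (fun p => v p.1 - v p.2) ht
  have e : ∀ p : (ℕ × ℕ) × (ℕ × ℕ), u p.1 + v p.1 - (u p.2 + v p.2) = (u p.1 - u p.2) + (v p.1 - v p.2) := fun p => by ring
  simp only [e]
  exact h

theorem En_le_sum {A : Finset (ℕ × ℕ)} {t : ℝ} (ht : 1 ≤ t) (u : ℕ × ℕ → ℝ) :
    En A t u ≤ 9 * 2 ^ t * ∑ a ∈ A, |u a| ^ t := by
  have h2 : (0 : ℝ) ≤ 2 ^ (t - 1) := by positivity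
  have e2 : (2 : ℝ) ^ t = 2 * 2 ^ (t - 1) := by
    rw [Real.rpow_sub_one two_ne_zero]
    ring
  have key : ∀ a ∈ A, ∀ b ∈ A, (if near a b then |u a - u b| ^ t else 0) ≤
      (if near a b then 2 ^ (t - 1) * |u a| ^ t else 0) + (if near b a then 2 ^ (t - 1) * |u b| ^ t else 0) := by
    intro a _ b _
    by_cases hn : near a b
    · rw [if_pos hn, if_pos hn, if_pos (near_symm hn), ← mul_add]
      have h := rpow_abs_add_le ht (u a) (-u b)
      rw [abs_neg, ← sub_eq_add_neg] at h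
      exact h
    · rw [if_neg hn, if_neg hn, if_neg (fun h => hn (near_symm h)), add_zero]
  have s1 : ∑ a ∈ A, ∑ b ∈ A, (if near a b then 2 ^ (t - 1) * |u a| ^ t else 0) ≤ ∑ a ∈ A, 9 * (2 ^ (t - 1) * |u a| ^ t) :=
    Finset.sum_le_sum fun a _ => sum_near_le A a (by positivity)
  have s2 : ∑ a ∈ A, ∑ b ∈ A, (if near b a then 2 ^ (t - 1) * |u b| ^ t else 0) ≤ ∑ a ∈ A, 9 * (2 ^ (t - 1) * |u a| ^ t) := by
    rw [Finset.sum_comm]
    exact s1
  have s3 : En A t u ≤ ∑ a ∈ A, ∑ b ∈ A, ((if near a b then 2 ^ (t - 1) * |u a| ^ t else 0) +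
      (if near b a then 2 ^ (t - 1) * |u b| ^ t else 0)) :=
    Finset.sum_le_sum fun a ha => Finset.sum_le_sum fun b hb => key a ha b hb
  have s4 : ∑ a ∈ A, ∑ b ∈ A, ((if near a b then 2 ^ (t - 1) * |u a| ^ t else 0) +
      (if near b a then 2 ^ (t - 1) * |u b| ^ t else 0)) =
      ∑ a ∈ A, ∑ b ∈ A, (if near a b then 2 ^ (t - 1) * |u a| ^ t else 0) +
      ∑ a ∈ A, ∑ b ∈ A, (if near b a then 2 ^ (t - 1) * |u b| ^ t else 0) := by
    rw [← Finset.sum_add_distrib]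
    exact Finset.sum_congr rfl fun a _ => Finset.sum_add_distrib
  have s5 : ∑ a ∈ A, 9 * (2 ^ (t - 1) * |u a| ^ t) = 9 * 2 ^ (t - 1) * ∑ a ∈ A, |u a| ^ t := by
    rw [Finset.mul_sum]
    exact Finset.sum_congr rfl fun a _ => by ring
  calc En A t u ≤ 9 * 2 ^ (t - 1) * ∑ a ∈ A, |u a| ^ t + 9 * 2 ^ (t - 1) * ∑ a ∈ A, |u a| ^ t := by
        rw [← s5]
        exact s3.trans (s4.le.trans (add_le_add s1 s2))
    _ = 9 * 2 ^ t * ∑ a ∈ A, |u a| ^ t := by
        rw [e2]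
        ring

theorem En_image_le {A B : Finset (ℕ × ℕ)} {t : ℝ} {e : ℕ × ℕ → ℕ × ℕ} (hAB : ∀ a ∈ A, e a ∈ B)
    (hinj : ∀ a ∈ A, ∀ b ∈ A, e a = e b → a = b) (hnear : ∀ a ∈ A, ∀ b ∈ A, near a b → near (e a) (e b)) (u : ℕ × ℕ → ℝ) :
    En A t (fun a => u (e a)) ≤ En B t u := by
  rw [En_pairs, En_pairs]
  have hi : Set.InjOn (fun p : (ℕ × ℕ) × (ℕ × ℕ) => (e p.1, e p.2)) ((A ×ˢ A).filter (fun p => near p.1 p.2) : Finset _) := by
    intro p hp q hq h
    have hp' := Finset.mem_product.1 (Finset.mem_filter.1 (Finset.mem_coe.1 hp)).1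
    have hq' := Finset.mem_product.1 (Finset.mem_filter.1 (Finset.mem_coe.1 hq)).1
    have h1 : e p.1 = e q.1 := congrArg Prod.fst h
    have h2 : e p.2 = e q.2 := congrArg Prod.snd h
    exact Prod.ext (hinj _ hp'.1 _ hq'.1 h1) (hinj _ hp'.2 _ hq'.2 h2)
  have h1 : ∑ p ∈ (A ×ˢ A).filter (fun p => near p.1 p.2), |u (e p.1) - u (e p.2)| ^ t =
      ∑ q ∈ ((A ×ˢ A).filter (fun p => near p.1 p.2)).image (fun p => (e p.1, e p.2)), |u q.1 - u q.2| ^ t := by
    rw [Finset.sum_image hi]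
  rw [h1]
  refine Finset.sum_le_sum_of_subset_of_nonneg ?_ fun _ _ _ => by positivity
  intro q hq
  obtain ⟨p, hp, rfl⟩ := Finset.mem_image.1 hq
  have hp1 := Finset.mem_filter.1 hp
  have hp2 := Finset.mem_product.1 hp1.1
  exact Finset.mem_filter.2 ⟨Finset.mem_product.2 ⟨hAB _ hp2.1, hAB _ hp2.2⟩, hnear _ hp2.1 _ hp2.2 hp1.2⟩

theorem En_anc {n k : ℕ} {t : ℝ} (ht : 0 < t) (g : ℕ × ℕ → ℝ) :
    En (G (n + k)) t (fun x => g (anc k x)) ≤ 9 * 8 ^ k * En (G n) t g := by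
  have h1 : ∀ x ∈ G (n + k), ve (G (n + k)) t (fun x => g (anc k x)) x ≤ 9 * ve (G n) t g (anc k x) := by
    intro x _
    refine le_trans (Finset.sum_le_sum fun y hy => ?_) (sum_near_le (G (n + k)) x (ve_nonneg (G n) t g (anc k x)))
    split_ifs with hn
    · exact le_ve (mem_G_add.1 hy).1 (near_anc hn)
    · exact le_refl _
  have h2 : ∑ x ∈ G (n + k), 9 * ve (G n) t g (anc k x) = 9 * 8 ^ k * En (G n) t g := by
    rw [sum_G_add (n := n) (m := k) (f := fun x => 9 * ve (G n) t g (anc k x))]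
    have h3 : ∀ w ∈ G n, ∑ z ∈ G k, 9 * ve (G n) t g (anc k (emb k w z)) = 9 * 8 ^ k * ve (G n) t g w := by
      intro w _
      have h4 : ∀ z ∈ G k, 9 * ve (G n) t g (anc k (emb k w z)) = 9 * ve (G n) t g w := by
        intro z hz
        rw [anc_emb (G_lt hz).1 (G_lt hz).2]
      rw [Finset.sum_congr rfl h4, Finset.sum_const, card_G, nsmul_eq_mul]
      push_cast
      ring
    rw [Finset.sum_congr rfl h3, ← Finset.mul_sum]
    rfl
  calc En (G (n + k)) t (fun x => g (anc k x)) ≤ ∑ x ∈ G (n + k), 9 * ve (G n) t g (anc k x) := Finset.sum_le_sum h1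
    _ = 9 * 8 ^ k * En (G n) t g := h2

end Pool.Agent.NIF
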