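import Pool.Agent.NIF.STP
import Pool.Agent.NIF.ENA

/-!
AVP (120 lines). Properties of the averages av m f n c = ∫ f (Fc n c z) dm(z), c ∈ G n.

PROOF. av_congr: f = g m-a.e. implies f ∘ Fc n c = g ∘ Fc n c m-a.e.: the set {f ≠ g} is contained in a measurable null set N; the indicator of N is
integrable with integral 0 = 8^(-n) Σ_c ∫ 1_N (Fc n c z) (integral_split), all terms ≥ 0, so each m (Fc n c ⁻¹' N) = 0.
av_refine: Fc (n+k) (emb k c z) = Fc n c ∘ Fc k z and integral_split applied to f ∘ Fc n c. sum_av: integral_split. av_add, av_smul, av_sub: linearity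
with integrable_Fc. av_fl: g ∘ fl n at level n + k: fl_Fc_hi a.e. av_pow_le: Jensen, (∫ |h|)^t ≤ ∫ |h|^t on a probability measure
(for instance from Real convexity ConvexOn.map_integral_le, or MemLp / eLpNorm monotonicity); f ∘ Fc n c is in L^t because |f|^t ∘ Fc is
integrable (integrable_Fc for |f|^t; MemLp.integrable_norm_rpow). sum_av_pow: sum over c and sum_av for |f|^t. En_av_le: En_le_sum and sum_av_pow.
-/

set_option autoImplicit false

namespace Pool.Agent.NIF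

open MeasureTheory Pool.Agent.SCI

theorem ae_Fc {K : Set (ℝ × ℝ)} {m : Measure (ℝ × ℝ)} (hK : IsCarpet K) (hm : IsCarpetMeasure K m) {P : ℝ × ℝ → Prop}
    (h : ∀ᵐ z ∂m, P z) {n : ℕ} {c : ℕ × ℕ} (hc : c ∈ G n) : ∀ᵐ z ∂m, P (Fc n c z) := by
  have := hm.prob
  set N := toMeasurable m {z | ¬ P z} with hN
  have hN0 : m N = 0 := by
    rw [hN, measure_toMeasurable]
    exact ae_iff.1 h
  have hNm : MeasurableSet N := measurableSet_toMeasurable _ _
  have hi : Integrable (N.indicator (1 : ℝ × ℝ → ℝ)) m := (integrable_const (1 : ℝ)).indicator hNm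
  have h1 := integral_split hK hm hi n
  rw [integral_indicator_one hNm, measureReal_def, hN0, ENNReal.toReal_zero] at h1
  have h2 : ∑ c ∈ G n, ∫ z, N.indicator (1 : ℝ × ℝ → ℝ) (Fc n c z) ∂m = 0 := by
    have h8 : (8 : ℝ) ^ n ≠ 0 := by positivity
    rcases (div_eq_zero_iff.1 h1.symm) with h3 | h3
    · exact h3
    · exact absurd h3 h8
  have h3 := (Finset.sum_eq_zero_iff_of_nonneg (fun c _ =>
    integral_nonneg fun z => Set.indicator_nonneg (fun _ _ => zero_le_one) _)).1 h2 c hc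
  have h4 : ∫ z, N.indicator (1 : ℝ × ℝ → ℝ) (Fc n c z) ∂m = m.real (Fc n c ⁻¹' N) := by
    rw [← integral_indicator_one (hNm.preimage (measurable_Fc n c))]
    rfl
  rw [h4, measureReal_def, ENNReal.toReal_eq_zero_iff] at h3
  have h5 : m (Fc n c ⁻¹' N) = 0 := by
    rcases h3 with h3 | h3
    · exact h3
    · exact absurd h3 (measure_ne_top _ _)
  rw [ae_iff]
  refine measure_mono_null ?_ h5
  intro z hz
  exact subset_toMeasurable _ _ hz

theorem av_congr {K : Set (ℝ × ℝ)} {m : Measure (ℝ × ℝ)} (hK : IsCarpet K) (hm : IsCarpetMeasure K m) {f g : ℝ × ℝ → ℝ}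
    (h : f =ᵐ[m] g) {n : ℕ} {c : ℕ × ℕ} (hc : c ∈ G n) : av m f n c = av m g n c :=
  integral_congr_ae (ae_Fc hK hm h hc)

theorem av_refine {K : Set (ℝ × ℝ)} {m : Measure (ℝ × ℝ)} (hK : IsCarpet K) (hm : IsCarpetMeasure K m) {f : ℝ × ℝ → ℝ}
    (hf : Integrable f m) {n : ℕ} (k : ℕ) {c : ℕ × ℕ} (hc : c ∈ G n) :
    av m f n c = (∑ z ∈ G k, av m f (n + k) (emb k c z)) / 8 ^ k := by
  have h1 := integral_split hK hm (integrable_Fc hK hm hf hc) k
  unfold av
  rw [h1]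
  congr 1
  refine Finset.sum_congr rfl fun z _ => ?_
  refine integral_congr_ae (Filter.Eventually.of_forall fun x => ?_)
  show f (Fc n c (Fc k z x)) = f (Fc (n + k) (emb k c z) x)
  rw [Fc_Fc]

theorem sum_av {K : Set (ℝ × ℝ)} {m : Measure (ℝ × ℝ)} (hK : IsCarpet K) (hm : IsCarpetMeasure K m) {f : ℝ × ℝ → ℝ}
    (hf : Integrable f m) (n : ℕ) : ∑ c ∈ G n, av m f n c = 8 ^ n * ∫ z, f z ∂m := by
  rw [integral_split hK hm hf n, mul_div_cancel₀]
  · rfl
  · positivity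

theorem av_add {K : Set (ℝ × ℝ)} {m : Measure (ℝ × ℝ)} (hK : IsCarpet K) (hm : IsCarpetMeasure K m) {f g : ℝ × ℝ → ℝ}
    (hf : Integrable f m) (hg : Integrable g m) {n : ℕ} {c : ℕ × ℕ} (hc : c ∈ G n) :
    av m (fun z => f z + g z) n c = av m f n c + av m g n c :=
  integral_add (integrable_Fc hK hm hf hc) (integrable_Fc hK hm hg hc)

theorem av_sub {K : Set (ℝ × ℝ)} {m : Measure (ℝ × ℝ)} (hK : IsCarpet K) (hm : IsCarpetMeasure K m) {f g : ℝ × ℝ → ℝ}
    (hf : Integrable f m) (hg : Integrable g m) {n : ℕ} {c : ℕ × ℕ} (hc : c ∈ G n) :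
    av m (fun z => f z - g z) n c = av m f n c - av m g n c :=
  integral_sub (integrable_Fc hK hm hf hc) (integrable_Fc hK hm hg hc)

theorem av_smul (m : Measure (ℝ × ℝ)) (a : ℝ) (f : ℝ × ℝ → ℝ) (n : ℕ) (c : ℕ × ℕ) :
    av m (fun z => a * f z) n c = a * av m f n c :=
  integral_const_mul a _

theorem av_fl {K : Set (ℝ × ℝ)} {m : Measure (ℝ × ℝ)} (hK : IsCarpet K) (hm : IsCarpetMeasure K m) (g : ℕ × ℕ → ℝ)
    (n k : ℕ) (c : ℕ × ℕ) : av m (fun z => g (fl n z)) (n + k) c = g (anc k c) := by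
  have := hm.prob
  have h1 : ∀ᵐ z ∂m, g (fl n (Fc (n + k) c z)) = g (anc k c) := by
    filter_upwards [ae_unit hK hm] with z hz
    rw [fl_Fc_hi hz]
  show ∫ z, g (fl n (Fc (n + k) c z)) ∂m = g (anc k c)
  rw [integral_congr_ae h1]
  simp

theorem sum_av_pow {K : Set (ℝ × ℝ)} {m : Measure (ℝ × ℝ)} (hK : IsCarpet K) (hm : IsCarpetMeasure K m) {t : ℝ} (ht : 1 ≤ t)
    {f : ℝ × ℝ → ℝ} (hf : MemLp f (ENNReal.ofReal t) m) (n : ℕ) :
    ∑ c ∈ G n, |av m f n c| ^ t ≤ 8 ^ n * ∫ z, |f z| ^ t ∂m := by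
  have := hm.prob
  have ht0 : 0 < t := by linarith
  have h1 : Integrable f m := hf.integrable (by
    rw [show (1 : ENNReal) = ENNReal.ofReal 1 by simp]
    exact ENNReal.ofReal_le_ofReal ht)
  have h2 : Integrable (fun z => |f z| ^ t) m := by
    have h3 := hf.integrable_norm_rpow (by
      rw [Ne, ENNReal.ofReal_eq_zero, not_le]
      exact ht0) ENNReal.ofReal_ne_top
    rw [ENNReal.toReal_ofReal ht0.le] at h3
    exact h3
  rw [← sum_av hK hm h2 n]
  refine Finset.sum_le_sum fun c hc => ?_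
  have i1 := integrable_Fc hK hm h1 hc
  have i2 : Integrable (fun z => |f (Fc n c z)| ^ t) m := integrable_Fc hK hm h2 hc
  have h4 : |av m f n c| ≤ ∫ z, |f (Fc n c z)| ∂m := abs_integral_le_integral_abs
  have h5 : (∫ z, |f (Fc n c z)| ∂m) ^ t ≤ ∫ z, |f (Fc n c z)| ^ t ∂m :=
    ConvexOn.map_integral_le (g := fun x : ℝ => x ^ t) (s := Set.Ici 0) (convexOn_rpow ht)
      (fun x _ => (Real.continuousAt_rpow_const x t (Or.inr ht0.le)).continuousWithinAt)
      isClosed_Ici (Filter.Eventually.of_forall fun z => Set.mem_Ici.2 (abs_nonneg _)) i1.abs i2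
  exact (Real.rpow_le_rpow (abs_nonneg _) h4 ht0.le).trans h5

theorem En_av_le {K : Set (ℝ × ℝ)} {m : Measure (ℝ × ℝ)} (hK : IsCarpet K) (hm : IsCarpetMeasure K m) {t : ℝ} (ht : 1 ≤ t)
    {f : ℝ × ℝ → ℝ} (hf : MemLp f (ENNReal.ofReal t) m) (n : ℕ) :
    En (G n) t (av m f n) ≤ 9 * 2 ^ t * 8 ^ n * ∫ z, |f z| ^ t ∂m := by
  refine (En_le_sum ht _).trans ?_
  rw [mul_assoc (9 * 2 ^ t)]
  exact mul_le_mul_of_nonneg_left (sum_av_pow hK hm ht hf n) (by positivity)

end Pool.Agent.NIF
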