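import Pool.Agent.NIF.LPB
import Pool.Agent.SCI.TEST
import Pool.Agent.SCI.NUM

/-!
BMP (110 lines). A bump function in F_t supported in (1/9,1/3)².

PROOF. ρ ≥ slab t ≥ 1/2 > 1/8 (slab_le, slab_ge_half). z0 = (2/9,2/9) = Fc 2 (2,2) (0,0) ∈ K ((2,2) ∈ G 2, (0,0) ∈ K by corner_mem, Fc_mem).
g z = max 0 (1 - 9 max |z.1 - 2/9| |z.2 - 2/9|); IsRho.dense with ε = 1/4: h continuous on K, Mem, |g - h| ≤ 1/4 on K. ψ = K.indicator (fun z => max (h z - 1/4) 0): measurable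
(continuous on the closed set K: ContinuousOn.measurable_piecewise or measurable_of... indicator of a ContinuousOn function on a closed set), 0 ≤ ψ ≤ 1 (h ≤ 5/4 on K), ψ = 0 where
g = 0, i.e. outside (1/9,1/3)². Mem: mem_comp with φ x = max (x - 1/4) 0, and Mem is invariant under a.e. equality (ψ = φ ∘ h on K, m Kᶜ = 0; MemLp.ae_eq, av_congr, mem_iff).
Nondegenerate: h (z0) ≥ 3/4, so ψ z0 ≥ 1/2 and by continuity there is δ > 0 with ψ ≥ 1/4 on the points of K with both coordinates within δ of 2/9. Take n ≥ 2 with 3^(-n) < δ,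
c = (2 · 3^(n-2), 2 · 3^(n-2)) ∈ G n: a.e. z: Fc n c z ∈ K with coordinates in [2/9, 2/9 + 3^(-n)], so av ψ n c ≥ 1/4. All cells (2 · 3^(n-2), y), y < 3^n, are in G n (the digits of
2 · 3^(n-2) are never 1; mem_G_add with (2, n-2): anc = (2, y / 3^(n-2)), loc = (0, ·)). If En (G n) s (av ψ n) = 0 (it is ≥ 0) then |av a - av b|^s = 0, av a = av b for near a, b ∈ G n,
so av is constant along this column; but at y = 0 the cell has second coordinate ≤ 3^(-n) ≤ 1/9, ψ = 0 there and av = 0. Contradiction.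
-/

set_option autoImplicit false

namespace Pool.Agent.NIF

open MeasureTheory Pool.Agent.SCI

/-- bump functions of F_{t,r} -/
structure Bump (K : Set (ℝ × ℝ)) (m : Measure (ℝ × ℝ)) (t r : ℝ) (ψ : ℝ × ℝ → ℝ) : Prop where
  meas : Measurable ψ
  unit : ∀ z, 0 ≤ ψ z ∧ ψ z ≤ 1
  mem : Mem K m t r ψ
  supp : ∀ z : ℝ × ℝ, ¬ (1 / 9 < z.1 ∧ z.1 < 1 / 3 ∧ 1 / 9 < z.2 ∧ z.2 < 1 / 3) → ψ z = 0
  nondeg : ∃ n : ℕ, 2 ≤ n ∧ ∀ s : ℝ, 0 < s → 0 < En (G n) s (av m ψ n)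

private theorem bmp_digit (m k : ℕ) (hk : k < m + 2) : 2 * 3 ^ m / 3 ^ k % 3 ≠ 1 := by
  rcases Nat.lt_or_ge k m with h | h
  · obtain ⟨d, rfl⟩ := Nat.exists_eq_add_of_lt h
    have e : 2 * 3 ^ (k + d + 1) = (3 * (2 * 3 ^ d)) * 3 ^ k := by ring
    rw [e, Nat.mul_div_cancel _ (by positivity), Nat.mul_mod_right]
    decide
  · rcases Nat.eq_or_lt_of_le h with h | h
    · subst h
      rw [Nat.mul_div_cancel _ (by positivity)]
      decide
    · have hk' : k = m + 1 := by omega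
      subst hk'
      have : 2 * 3 ^ m / 3 ^ (m + 1) = 0 := by
        apply Nat.div_eq_of_lt
        rw [pow_succ]
        have : 0 < 3 ^ m := by positivity
        omega
      rw [this]
      decide

private theorem bmp_mem (m y : ℕ) (hy : y < 3 ^ (m + 2)) : (2 * 3 ^ m, y) ∈ G (m + 2) := by
  rw [mem_G]
  refine ⟨?_, hy, ?_⟩
  · show 2 * 3 ^ m < 3 ^ (m + 2)
    have : 0 < 3 ^ m := by positivity
    rw [pow_add]
    omega
  · intro k hk h
    exact bmp_digit m k hk h.1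

private theorem bmp_near (x y : ℕ) : near (x, y) (x, y + 1) := by
  refine ⟨?_, ?_, ?_, ?_⟩ <;> simp <;> omega

private theorem bmp_en {K : Set (ℝ × ℝ)} {m : Measure (ℝ × ℝ)} (hK : IsCarpet K) (hm : IsCarpetMeasure K m) {ψ : ℝ × ℝ → ℝ}
    (h0 : ∀ z, 0 ≤ ψ z) (hsupp : ∀ z : ℝ × ℝ, ¬ (1 / 9 < z.1 ∧ z.1 < 1 / 3 ∧ 1 / 9 < z.2 ∧ z.2 < 1 / 3) → ψ z = 0) (k : ℕ)
    (hav : 0 < av m ψ (k + 2) (2 * 3 ^ k, 2 * 3 ^ k)) (s : ℝ) (hs : 0 < s) :
    0 < En (G (k + 2)) s (av m ψ (k + 2)) := by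
  by_contra hcon
  have hE : En (G (k + 2)) s (av m ψ (k + 2)) = 0 := le_antisymm (not_lt.1 hcon) (En_nonneg _ _ _)
  have hstep : ∀ y, y + 1 < 3 ^ (k + 2) → av m ψ (k + 2) (2 * 3 ^ k, y) = av m ψ (k + 2) (2 * 3 ^ k, y + 1) := by
    intro y hy
    have h1 := (le_ve (t := s) (u := av m ψ (k + 2)) (bmp_mem k (y + 1) hy) (bmp_near (2 * 3 ^ k) y)).trans
      (ve_le_En (bmp_mem k y (by omega)))
    rw [hE] at h1
    have h2 : |av m ψ (k + 2) (2 * 3 ^ k, y) - av m ψ (k + 2) (2 * 3 ^ k, y + 1)| ^ s = 0 :=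
      le_antisymm h1 (Real.rpow_nonneg (abs_nonneg _) _)
    have h3 := (Real.rpow_eq_zero (abs_nonneg _) hs.ne').1 h2
    linarith [abs_eq_zero.1 h3]
  have hcol : ∀ y, y < 3 ^ (k + 2) → av m ψ (k + 2) (2 * 3 ^ k, y) = av m ψ (k + 2) (2 * 3 ^ k, 0) := by
    intro y
    induction y with
    | zero => intro _; rfl
    | succ y ih => intro hy; rw [← hstep y hy]; exact ih (by omega)
  have hzero : av m ψ (k + 2) (2 * 3 ^ k, 0) = 0 := by
    unfold av
    have hKae : ∀ᵐ z ∂m, z ∈ K := by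
      rw [ae_iff]
      exact hm.onK
    have : (fun z => ψ (Fc (k + 2) (2 * 3 ^ k, 0) z)) =ᵐ[m] fun _ => 0 := by
      filter_upwards [hKae] with z hz
      obtain ⟨_, _, p3, p4⟩ := carpet_sub hK z hz
      apply hsupp
      rintro ⟨_, _, q, _⟩
      have h9 : (9 : ℝ) ≤ 3 ^ (k + 2) := by
        have : (1 : ℝ) ≤ 3 ^ k := one_le_pow₀ (by norm_num)
        rw [pow_add]
        linarith
      have h3 : (0 : ℝ) < 3 ^ (k + 2) := by positivity
      have e : (Fc (k + 2) (2 * 3 ^ k, 0) z).2 = z.2 / 3 ^ (k + 2) := by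
        unfold Fc
        simp
      rw [e, lt_div_iff₀ h3] at q
      linarith
    rw [integral_congr_ae this]
    simp
  have hlt : 2 * 3 ^ k < 3 ^ (k + 2) := by
    have : 0 < 3 ^ k := by positivity
    rw [pow_add]
    omega
  rw [hcol _ hlt, hzero] at hav
  exact lt_irrefl _ hav

theorem exists_bump {K : Set (ℝ × ℝ)} {m : Measure (ℝ × ℝ)} (hK : IsCarpet K) (hm : IsCarpetMeasure K m) {t ρ : ℝ} (ht : 1 < t)
    (h : IsRho K m t ρ) : ∃ ψ : ℝ × ℝ → ℝ, Bump K m t ρ ψ := by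
  classical
  have := hm.prob
  have hρ : 1 / 8 < ρ := by
    have h1 := slab_le hK hm t ρ ht h
    have h2 := slab_ge_half t ht
    linarith
  set g : ℝ × ℝ → ℝ := fun z => max 0 (1 - 9 * max |z.1 - 2 / 9| |z.2 - 2 / 9|) with hg
  have hgc : Continuous g := by
    rw [hg]
    fun_prop
  obtain ⟨f, hfc, hfm, hgf⟩ := h.dense g hgc.continuousOn (1 / 4) (by norm_num)
  set φ : ℝ → ℝ := fun x => max (x - 1 / 4) 0 with hφ
  have hφl : ∀ x y, |φ x - φ y| ≤ |x - y| := by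
    intro x y
    have h1 := abs_max_sub_max_le_abs (x - 1 / 4) (y - 1 / 4) 0
    have e : x - 1 / 4 - (y - 1 / 4) = x - y := by ring
    rw [e] at h1
    exact h1
  have hφc : Continuous φ := by
    rw [hφ]
    fun_prop
  have hKm : MeasurableSet K := hK.compact.isClosed.measurableSet
  set ψ : ℝ × ℝ → ℝ := K.indicator (fun z => φ (f z)) with hψ
  have hKae : ∀ᵐ z ∂m, z ∈ K := by
    rw [ae_iff]
    exact hm.onK
  have hae : ψ =ᵐ[m] fun z => φ (f z) := by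
    filter_upwards [hKae] with z hz
    rw [hψ, Set.indicator_of_mem hz]
  have hψm : Measurable ψ := by
    have h1 : ContinuousOn (fun z => φ (f z)) K := hφc.comp_continuousOn hfc
    have h2 := ContinuousOn.measurable_piecewise h1 (continuousOn_const (c := (0 : ℝ)) (s := Kᶜ)) hKm
    have e : K.piecewise (fun z => φ (f z)) (fun _ => (0 : ℝ)) = ψ := by
      rw [hψ]
      funext z
      by_cases hz : z ∈ K
      · simp [hz]
      · simp [hz]
    rw [e] at h2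
    exact h2
  have hφ0 : ∀ x, 0 ≤ φ x := fun x => le_max_right _ _
  have hg1 : ∀ z, g z ≤ 1 := by
    intro z
    rw [hg]
    apply max_le (by norm_num)
    have : 0 ≤ max |z.1 - 2 / 9| |z.2 - 2 / 9| := le_max_of_le_left (abs_nonneg _)
    linarith
  have hψ0 : ∀ z, 0 ≤ ψ z := fun z => Set.indicator_nonneg (fun _ _ => hφ0 _) z
  have hψ1 : ∀ z, ψ z ≤ 1 := by
    intro z
    by_cases hz : z ∈ K
    · rw [hψ, Set.indicator_of_mem hz]
      have h1 := abs_le.1 (hgf z hz)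
      have h2 := hg1 z
      exact max_le (by linarith [h1.1]) (by norm_num)
    · rw [hψ, Set.indicator_of_notMem hz]
      norm_num
  have hmemφ := mem_comp hK hm ht hρ hfc hfm hφl
  have hmem : Mem K m t ρ ψ := by
    rw [mem_iff hK hm ht] at hmemφ ⊢
    obtain ⟨h1, C, hC⟩ := hmemφ
    refine ⟨h1.ae_eq hae.symm, C, fun n => ?_⟩
    rw [En_congr (v := av m (fun z => φ (f z)) n) fun a ha => av_congr hK hm hae ha]
    exact hC n
  have hsupp : ∀ z : ℝ × ℝ, ¬ (1 / 9 < z.1 ∧ z.1 < 1 / 3 ∧ 1 / 9 < z.2 ∧ z.2 < 1 / 3) → ψ z = 0 := by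
    intro z hz
    by_cases hzK : z ∈ K
    · have hg0 : g z = 0 := by
        rw [hg]
        apply max_eq_left
        have h9 : 1 / 9 ≤ max |z.1 - 2 / 9| |z.2 - 2 / 9| := by
          by_contra hlt
          rw [not_le, max_lt_iff, abs_lt, abs_lt] at hlt
          exact hz ⟨by linarith [hlt.1.1], by linarith [hlt.1.2], by linarith [hlt.2.1], by linarith [hlt.2.2]⟩
        linarith
      rw [hψ, Set.indicator_of_mem hzK]
      have h1 := abs_le.1 (hgf z hzK)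
      rw [hg0] at h1
      exact max_eq_right (by linarith [h1.1])
    · rw [hψ, Set.indicator_of_notMem hzK]
  refine ⟨ψ, hψm, fun z => ⟨hψ0 z, hψ1 z⟩, hmem, hsupp, ?_⟩
  -- the centre
  have hz0 : ((2 / 9, 2 / 9) : ℝ × ℝ) ∈ K := by
    have h1 := Fc_mem hK (bmp_mem 0 2 (by norm_num)) (corner_mem hK).1
    have e : Fc (0 + 2) (2 * 3 ^ 0, 2) (0, 0) = ((2 / 9, 2 / 9) : ℝ × ℝ) := by
      unfold Fc
      norm_num
    rw [e] at h1
    exact h1
  have hf0 : 3 / 4 ≤ f (2 / 9, 2 / 9) := by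
    have h1 := abs_le.1 (hgf _ hz0)
    have e : g (2 / 9, 2 / 9) = 1 := by
      rw [hg]
      norm_num
    rw [e] at h1
    linarith [h1.2]
  obtain ⟨δ, hδ, hd⟩ := Metric.continuousWithinAt_iff.1 (hfc _ hz0) (1 / 4) (by norm_num)
  obtain ⟨k, hk⟩ := exists_pow_lt_of_lt_one hδ (by norm_num : (1 / 3 : ℝ) < 1)
  refine ⟨k + 2, by omega, fun s hs => bmp_en hK hm hψ0 hsupp k ?_ s hs⟩
  have hcm : (2 * 3 ^ k, 2 * 3 ^ k) ∈ G (k + 2) := bmp_mem k (2 * 3 ^ k) (by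
    have : 0 < 3 ^ k := by positivity
    rw [pow_add]
    omega)
  have hlow : ∀ᵐ z ∂m, 1 / 4 ≤ ψ (Fc (k + 2) (2 * 3 ^ k, 2 * 3 ^ k) z) := by
    filter_upwards [hKae] with z hz
    have hFK := Fc_mem hK hcm hz
    obtain ⟨p1, p2, p3, p4⟩ := carpet_sub hK z hz
    have hk3 : (0 : ℝ) < 3 ^ k := by positivity
    have e1 : (Fc (k + 2) (2 * 3 ^ k, 2 * 3 ^ k) z).1 - 2 / 9 = z.1 / 9 * (1 / 3) ^ k := by
      unfold Fc
      push_cast
      rw [pow_add, one_div, inv_pow]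
      field_simp
      ring
    have e2 : (Fc (k + 2) (2 * 3 ^ k, 2 * 3 ^ k) z).2 - 2 / 9 = z.2 / 9 * (1 / 3) ^ k := by
      unfold Fc
      push_cast
      rw [pow_add, one_div, inv_pow]
      field_simp
      ring
    have hk0 : (0 : ℝ) < (1 / 3) ^ k := by positivity
    have hdist : dist (Fc (k + 2) (2 * 3 ^ k, 2 * 3 ^ k) z) ((2 / 9, 2 / 9) : ℝ × ℝ) < δ := by
      rw [Prod.dist_eq, max_lt_iff, Real.dist_eq, Real.dist_eq]
      refine ⟨?_, ?_⟩
      · show |(Fc (k + 2) (2 * 3 ^ k, 2 * 3 ^ k) z).1 - 2 / 9| < δ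
        rw [e1, abs_of_nonneg (by positivity)]
        nlinarith
      · show |(Fc (k + 2) (2 * 3 ^ k, 2 * 3 ^ k) z).2 - 2 / 9| < δ
        rw [e2, abs_of_nonneg (by positivity)]
        nlinarith
    have h1 := hd hFK hdist
    rw [Real.dist_eq, abs_lt] at h1
    rw [hψ, Set.indicator_of_mem hFK]
    exact le_max_of_le_left (by linarith [h1.1])
  have hint : Integrable (fun z => ψ (Fc (k + 2) (2 * 3 ^ k, 2 * 3 ^ k) z)) m := by
    refine Integrable.of_bound (C := 1) (hψm.comp (measurable_Fc _ _)).aestronglyMeasurable ?_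
    filter_upwards with z
    rw [Real.norm_eq_abs, abs_of_nonneg (hψ0 _)]
    exact hψ1 _
  have h2 : ∫ _z, (1 / 4 : ℝ) ∂m ≤ av m ψ (k + 2) (2 * 3 ^ k, 2 * 3 ^ k) :=
    integral_mono_ae (integrable_const _) hint hlow
  rw [integral_const, probReal_univ, one_smul] at h2
  linarith

end Pool.Agent.NIF
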