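import Pool.Agent.NIF.NEA
import Pool.Agent.SCI.GEO1
import Pool.Agent.SCI.GEO2
import Pool.Agent.SCI.EN

/-!
BRI (150 lines). From words to lattice cells: the energy of SCI.Defs is half of En (G n).

PROOF. pos_lt, pos_append: induction on the list (pow_add). pos_mem: induction, the digits of pos (i :: l) at place l.length are i.1.1, i.1.2 and
below that those of pos l; with GEO: pos (i :: l) = emb l.length (i.1.1, i.1.2) (pos l), (i.1.1,i.1.2) ∈ G 1 (decide over S), mem_G_add with
n = 1 (1 + l.length = l.length + 1: Nat.add_comm). Fl_pos: induction (Fl (i :: w) z = Fi i (Fl w z)), field_simp. pos_inj: Fl_inj of SCI.GEO1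
with Fl_pos at (0,0), or directly by induction (mod and div by 3^length). pos_surj: induction on n with mem_G_add (1, n) and surjectivity of
S → G 1. adj_iff: (→) a common point z = Fl v a = Fl w b with a, b ∈ K ⊂ [0,1]² (carpet_sub): pos v + a = pos w + b (times 3^n), so the coordinates
differ by at most 1. (←) near cells that are different share a corner of the unit square picture: the four corners (0,0), (1,0), (0,1), (1,1)
are in K (corner_mem gives three of them; (1,1) is the fixed point of F_(2,2): geo2_fixed). For every coordinate with (pos v).i + 1 = (pos w).i take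
a_i = 1, b_i = 0; with (pos w).i + 1 = (pos v).i take a_i = 0, b_i = 1; with equality a_i = b_i = 0. sum_pos: bijection w ↦ pos (ofFn w) of W n with
G n (pos_mem, pos_inj, pos_surj; enF of SCI.EN converts lists of length n to W n). energy_eq: sum_pos twice; v = w contributes 0 since t ≠ 0
(Real.zero_rpow), so the condition v ≠ w may be dropped.
-/

set_option autoImplicit false

namespace Pool.Agent.NIF

open MeasureTheory Pool.Agent.SCI

private theorem bri_cons (i : S) (l : List S) : pos (i :: l) = emb l.length ((i.1.1 : ℕ), (i.1.2 : ℕ)) (pos l) := by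
  unfold emb
  show ((i.1.1 : ℕ) * 3 ^ l.length + (pos l).1, (i.1.2 : ℕ) * 3 ^ l.length + (pos l).2) = _
  rw [Nat.mul_comm, Nat.mul_comm (i.1.2 : ℕ)]

private theorem bri_G1 (i : S) : ((i.1.1 : ℕ), (i.1.2 : ℕ)) ∈ G 1 := by
  rw [mem_G]
  have h1 := i.1.1.isLt
  have h2 := i.1.2.isLt
  refine ⟨by show (i.1.1 : ℕ) < 3 ^ 1; omega, by show (i.1.2 : ℕ) < 3 ^ 1; omega, ?_⟩
  intro k hk h
  have hk0 : k = 0 := by omega
  subst hk0
  obtain ⟨h3, h4⟩ := h
  rw [pow_zero, Nat.div_one] at h3 h4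
  rw [Nat.mod_eq_of_lt h1] at h3
  rw [Nat.mod_eq_of_lt h2] at h4
  exact i.2 (Prod.ext (Fin.ext h3) (Fin.ext h4))

theorem pos_mem (l : List S) : pos l ∈ G l.length := by
  induction l with
  | nil =>
    show ((0, 0) : ℕ × ℕ) ∈ G 0
    rw [G_zero, Finset.mem_singleton]
  | cons i l ih =>
    rw [bri_cons, List.length_cons, Nat.add_comm]
    exact emb_mem (bri_G1 i) ih

theorem pos_append (v w : List S) : pos (v ++ w) = emb w.length (pos v) (pos w) := by
  induction v with
  | nil =>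
    unfold emb
    show pos w = (3 ^ w.length * 0 + (pos w).1, 3 ^ w.length * 0 + (pos w).2)
    rw [Nat.mul_zero, Nat.zero_add, Nat.zero_add]
  | cons i v ih =>
    rw [List.cons_append, bri_cons, bri_cons, ih, emb_emb, List.length_append]

theorem pos_inj {v w : List S} (h : v.length = w.length) (h2 : pos v = pos w) : v = w := by
  induction v generalizing w with
  | nil =>
    cases w with
    | nil => rfl
    | cons j w => simp at h
  | cons i v ih =>
    cases w with
    | nil => simp at h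
    | cons j w =>
      have hl : v.length = w.length := by simpa using h
      rw [bri_cons, bri_cons, ← hl] at h2
      obtain ⟨a1, a2⟩ := G_lt (pos_mem v)
      obtain ⟨b1, b2⟩ := G_lt (pos_mem w)
      rw [← hl] at b1 b2
      have e1 := congrArg (anc v.length) h2
      rw [anc_emb a1 a2, anc_emb b1 b2] at e1
      have e2 := congrArg (loc v.length) h2
      rw [loc_emb a1 a2, loc_emb b1 b2] at e2
      have hij : i = j := Subtype.ext (Prod.ext (Fin.ext (congrArg Prod.fst e1)) (Fin.ext (congrArg Prod.snd e1)))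
      rw [hij, ih hl e2]

private theorem bri_surj_list (n : ℕ) : ∀ c : ℕ × ℕ, c ∈ G n → ∃ l : List S, l.length = n ∧ pos l = c := by
  induction n with
  | zero =>
    intro c hc
    rw [G_zero, Finset.mem_singleton] at hc
    exact ⟨[], rfl, hc.symm⟩
  | succ n ih =>
    intro c hc
    rw [Nat.add_comm, mem_G_add] at hc
    obtain ⟨hc1, hc2⟩ := hc
    obtain ⟨l, hl, hp⟩ := ih _ hc2
    obtain ⟨h1, h2, h3⟩ := mem_G.1 hc1
    have h4 := h3 0 (by norm_num)
    rw [pow_zero, Nat.div_one, Nat.div_one] at h4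
    rw [pow_one] at h1 h2
    rw [Nat.mod_eq_of_lt h1, Nat.mod_eq_of_lt h2] at h4
    refine ⟨⟨(⟨(anc n c).1, h1⟩, ⟨(anc n c).2, h2⟩), ?_⟩ :: l, by rw [List.length_cons, hl], ?_⟩
    · intro h
      apply h4
      exact ⟨congrArg (fun z : Fin 3 × Fin 3 => (z.1 : ℕ)) h, congrArg (fun z : Fin 3 × Fin 3 => (z.2 : ℕ)) h⟩
    · rw [bri_cons, hl, hp]
      exact emb_anc_loc n c

theorem pos_surj {n : ℕ} {c : ℕ × ℕ} (hc : c ∈ G n) : ∃ w : W n, pos (List.ofFn w) = c := by
  obtain ⟨l, hl, hp⟩ := bri_surj_list n c hc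
  exact ⟨enF n l, by rw [enF_spec n l hl, hp]⟩

theorem Fl_pos (w : List S) (z : ℝ × ℝ) : Fl w z = Fc w.length (pos w) z := by
  induction w with
  | nil => simp [Fl, Fc, pos]
  | cons i w ih =>
    simp only [Fl, List.length_cons]
    rw [ih]
    simp only [Fi, Fc, pos]
    push_cast
    refine Prod.ext ?_ ?_
    · simp only
      rw [pow_succ]
      field_simp
      ring
    · simp only
      rw [pow_succ]
      field_simp
      ring

private theorem bri_one {P : ℝ} (hP : 0 < P) {x y : ℕ} {a b : ℝ} (ha0 : 0 ≤ a) (ha1 : a ≤ 1) (hb0 : 0 ≤ b) (hb1 : b ≤ 1)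
    (h : ((x : ℝ) + a) / P = ((y : ℝ) + b) / P) : x ≤ y + 1 ∧ y ≤ x + 1 := by
  have h1 : (x : ℝ) + a = y + b := by
    field_simp at h
    exact h
  constructor
  · have : (x : ℝ) ≤ y + 1 := by linarith
    exact_mod_cast this
  · have : (y : ℝ) ≤ x + 1 := by linarith
    exact_mod_cast this

private theorem bri_two {x y : ℕ} (h1 : x ≤ y + 1) (h2 : y ≤ x + 1) :
    ∃ a b : ℝ, (a = 0 ∨ a = 1) ∧ (b = 0 ∨ b = 1) ∧ (x : ℝ) + a = y + b := by
  rcases Nat.lt_trichotomy x y with h | h | h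
  · have : y = x + 1 := by omega
    subst this
    exact ⟨1, 0, Or.inr rfl, Or.inl rfl, by push_cast; ring⟩
  · subst h
    exact ⟨0, 0, Or.inl rfl, Or.inl rfl, rfl⟩
  · have : x = y + 1 := by omega
    subst this
    exact ⟨0, 1, Or.inl rfl, Or.inr rfl, by push_cast; ring⟩

private theorem bri_corner {K : Set (ℝ × ℝ)} (hK : IsCarpet K) {a b : ℝ} (ha : a = 0 ∨ a = 1) (hb : b = 0 ∨ b = 1) :
    (a, b) ∈ K := by
  obtain ⟨c1, c2, c3⟩ := corner_mem hK
  have c4 : ((1, 1) : ℝ × ℝ) ∈ K := by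
    refine geo2_fixed hK ⟨(2, 2), by decide⟩ _ ?_
    apply Prod.ext <;> simp [Fi] <;> norm_num
  rcases ha with rfl | rfl <;> rcases hb with rfl | rfl
  · exact c1
  · exact c3
  · exact c2
  · exact c4

private theorem bri_near {K : Set (ℝ × ℝ)} (hK : IsCarpet K) {n : ℕ} (v w : W n) :
    (cell K (List.ofFn v) ∩ cell K (List.ofFn w)).Nonempty ↔ near (pos (List.ofFn v)) (pos (List.ofFn w)) := by
  have hP : (0 : ℝ) < 3 ^ n := by positivity
  constructor
  · rintro ⟨z, ⟨a, ha, hza⟩, ⟨b, hb, hzb⟩⟩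
    obtain ⟨a1, a2, a3, a4⟩ := carpet_sub hK a ha
    obtain ⟨b1, b2, b3, b4⟩ := carpet_sub hK b hb
    rw [Fl_pos, List.length_ofFn] at hza hzb
    have h := hza.trans hzb.symm
    unfold Fc at h
    obtain ⟨h1, h2⟩ := Prod.mk.inj h
    obtain ⟨c1, c2⟩ := bri_one hP a1 a2 b1 b2 h1
    obtain ⟨c3, c4⟩ := bri_one hP a3 a4 b3 b4 h2
    exact ⟨c1, c2, c3, c4⟩
  · rintro ⟨h1, h2, h3, h4⟩
    obtain ⟨a, b, ha, hb, e⟩ := bri_two h1 h2
    obtain ⟨a', b', ha', hb', e'⟩ := bri_two h3 h4
    refine ⟨Fl (List.ofFn v) (a, a'), ⟨(a, a'), bri_corner hK ha ha', rfl⟩, ⟨(b, b'), bri_corner hK hb hb', ?_⟩⟩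
    rw [Fl_pos, Fl_pos, List.length_ofFn, List.length_ofFn]
    unfold Fc
    simp only
    rw [e, e']

theorem adj_iff {K : Set (ℝ × ℝ)} (hK : IsCarpet K) {n : ℕ} (v w : W n) :
    adj K v w ↔ v ≠ w ∧ near (pos (List.ofFn v)) (pos (List.ofFn w)) := by
  unfold adj
  rw [bri_near hK]

theorem sum_pos {n : ℕ} (f : ℕ × ℕ → ℝ) : ∑ w : W n, f (pos (List.ofFn w)) = ∑ c ∈ G n, f c := by
  refine Finset.sum_bij (fun w _ => pos (List.ofFn w)) ?_ ?_ ?_ ?_
  · intro w _
    have h := pos_mem (List.ofFn w)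
    rw [List.length_ofFn] at h
    exact h
  · intro v _ w _ h
    exact List.ofFn_injective (pos_inj (by rw [List.length_ofFn, List.length_ofFn]) h)
  · intro c hc
    obtain ⟨w, hw⟩ := pos_surj hc
    exact ⟨w, Finset.mem_univ _, hw⟩
  · intro w _
    rfl

theorem energy_eq {K : Set (ℝ × ℝ)} (hK : IsCarpet K) {t : ℝ} (ht : 0 < t) {n : ℕ} (g : ℕ × ℕ → ℝ) :
    energy K t n (fun w => g (pos (List.ofFn w))) = 1 / 2 * En (G n) t g := by
  classical
  unfold energy En ve
  congr 1
  rw [← sum_pos (n := n) (fun a => ∑ b ∈ G n, if near a b then |g a - g b| ^ t else 0)]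
  refine Finset.sum_congr rfl fun v _ => ?_
  rw [← sum_pos (n := n) (fun b => if near (pos (List.ofFn v)) b then |g (pos (List.ofFn v)) - g b| ^ t else 0)]
  refine Finset.sum_congr rfl fun w _ => ?_
  by_cases hvw : v = w
  · subst hvw
    rw [sub_self, abs_zero, Real.zero_rpow ht.ne', ite_self, ite_self]
  · by_cases hn : near (pos (List.ofFn v)) (pos (List.ofFn w))
    · rw [if_pos ((adj_iff hK v w).2 ⟨hvw, hn⟩), if_pos hn]
    · rw [if_neg (fun h => hn ((adj_iff hK v w).1 h).2), if_neg hn]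

end Pool.Agent.NIF
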