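import Pool.Agent.NIF.ENA

/-!
CMP (120 lines). The competitor: cut off the minimiser inside a closed curve on which it is almost constant.

PROOF. Let R x y := near x y ∧ y ∈ G n ∧ y ∉ Nb and I = {x | ∃ x0 ∈ V0, Relation.ReflTransGen R x0 x}. V0 ⊆ I; elements of I are in G n, not in Nb (for x0 ∈ V0: χ x0 = 1 by
hχ1 with y = x0, but χ = 0 on Nb) and not boundary cells (hsep). If x ∈ I, y ∈ G n near x then y ∈ I or y ∈ Nb.
w x = max (min (max (u x) a) b) (a + (b - a) χ x), v x = if x ∈ I then w x else u x. For x ∈ Nb: w x = max (u x) a = u x. So for near x, y ∈ G n: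
if x, y ∉ I: |v x - v y| = |u x - u y|; otherwise both are in I ∪ Nb and |v x - v y| = |w x - w y| ≤ max (|u x - u y|) ((b-a) |χ x - χ y|) (abs_max_sub_max_le_max).
In all cases |v x - v y|^t ≤ |u x - u y|^t + (b-a)^t |χ x - χ y|^t, so ve v x ≤ ve u x + (b-a)^t ve χ x. For x ∈ V0 all near y ∈ G n have χ y = 1 (so y ∉ Nb, y ∈ I) and
v y = max (min .. b) b = b, so ve v x = 0 (t ≠ 0). v = u on boundary cells (they are not in I), so hmin: En u ≤ En v ≤ Σ_{x ∈ G n \ V0} ve u x + (b-a)^t En χ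
= En u - Σ_{V0} ve u + (b-a)^t En χ.
-/

set_option autoImplicit false

namespace Pool.Agent.NIF

theorem competitor {t : ℝ} (ht : 1 ≤ t) {n : ℕ} {u χ : ℕ × ℕ → ℝ} {a b : ℝ} (hab : a ≤ b) {Nb V0 : Finset (ℕ × ℕ)} (hV0 : V0 ⊆ G n)
    (hN : ∀ x ∈ Nb, a ≤ u x ∧ u x ≤ b) (hχ : ∀ x ∈ G n, 0 ≤ χ x ∧ χ x ≤ 1) (hχ0 : ∀ x ∈ Nb, χ x = 0)
    (hχ1 : ∀ x ∈ V0, ∀ y ∈ G n, near x y → χ y = 1)
    (hsep : ∀ x0 ∈ V0, ∀ x, Relation.ReflTransGen (fun c d => near c d ∧ d ∈ G n ∧ d ∉ Nb) x0 x → ¬ Bd n x)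
    (hmin : ∀ v : ℕ × ℕ → ℝ, (∀ z ∈ G n, Bd n z → v z = u z) → En (G n) t u ≤ En (G n) t v) :
    ∑ x ∈ V0, ve (G n) t u x ≤ (b - a) ^ t * En (G n) t χ := by
  classical
  have ht0 : 0 ≤ t := by linarith
  have htne : t ≠ 0 := by intro h; rw [h] at ht; norm_num at ht
  have hba : 0 ≤ b - a := sub_nonneg.2 hab
  set R : ℕ × ℕ → ℕ × ℕ → Prop := fun c d => near c d ∧ d ∈ G n ∧ d ∉ Nb with hR
  set I : Set (ℕ × ℕ) := {x | ∃ x0 ∈ V0, Relation.ReflTransGen R x0 x} with hI
  have hV0I : ∀ x ∈ V0, x ∈ I := fun x hx => ⟨x, hx, Relation.ReflTransGen.refl⟩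
  have hnr : ∀ x : ℕ × ℕ, near x x := fun x => ⟨by omega, by omega, by omega, by omega⟩
  have hns : ∀ x y : ℕ × ℕ, near x y → near y x := fun x y h => ⟨h.2.1, h.1, h.2.2.2, h.2.2.1⟩
  have hV0Nb : ∀ x ∈ V0, x ∉ Nb := by
    intro x hx hN'
    have h1 := hχ1 x hx x (hV0 hx) (hnr x)
    rw [hχ0 x hN'] at h1
    norm_num at h1
  have hIB : ∀ x ∈ I, ¬ Bd n x := by
    rintro x ⟨x0, hx0, hr⟩
    exact hsep x0 hx0 x hr
  have hIstep : ∀ x ∈ I, ∀ y ∈ G n, near x y → y ∈ I ∨ y ∈ Nb := by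
    rintro x ⟨x0, hx0, hr⟩ y hy hxy
    by_cases hyN : y ∈ Nb
    · right
      exact hyN
    · left
      exact ⟨x0, hx0, hr.tail ⟨hxy, hy, hyN⟩⟩
  set w : ℕ × ℕ → ℝ := fun x => max (min (max (u x) a) b) (a + (b - a) * χ x) with hw
  set v : ℕ × ℕ → ℝ := fun x => if x ∈ I then w x else u x with hv
  have hwN : ∀ x ∈ Nb, w x = u x := by
    intro x hx
    have h := hN x hx
    simp only [hw, hχ0 x hx, mul_zero, add_zero]
    rw [max_eq_left h.1, min_eq_left h.2, max_eq_left h.1]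
  have hwd : ∀ x y, |w x - w y| ≤ max |u x - u y| ((b - a) * |χ x - χ y|) := by
    intro x y
    simp only [hw]
    refine le_trans (abs_max_sub_max_le_max _ _ _ _) (max_le_max ?_ ?_)
    · refine le_trans (abs_min_sub_min_le_max _ _ _ _) (max_le ?_ ?_)
      · refine le_trans (abs_max_sub_max_le_max _ _ _ _) (max_le le_rfl ?_)
        rw [sub_self, abs_zero]
        exact abs_nonneg _
      · rw [sub_self, abs_zero]
        exact abs_nonneg _
    · have : a + (b - a) * χ x - (a + (b - a) * χ y) = (b - a) * (χ x - χ y) := by ring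
      rw [this, abs_mul, abs_of_nonneg hba]
  have hterm : ∀ x ∈ G n, ∀ y ∈ G n, near x y →
      |v x - v y| ^ t ≤ |u x - u y| ^ t + (b - a) ^ t * |χ x - χ y| ^ t := by
    intro x hx y hy hxy
    have hn1 : (0 : ℝ) ≤ |u x - u y| ^ t := Real.rpow_nonneg (abs_nonneg _) _
    have hn2 : (0 : ℝ) ≤ (b - a) ^ t * |χ x - χ y| ^ t :=
      mul_nonneg (Real.rpow_nonneg hba _) (Real.rpow_nonneg (abs_nonneg _) _)
    have hmain : (v x = w x ∧ v y = w y) ∨ (v x = u x ∧ v y = u y) := by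
      by_cases hxI : x ∈ I
      · left
        refine ⟨by simp only [hv, if_pos hxI], ?_⟩
        rcases hIstep x hxI y hy hxy with h | h
        · simp only [hv, if_pos h]
        · by_cases hyI : y ∈ I
          · simp only [hv, if_pos hyI]
          · simp only [hv, if_neg hyI]
            exact (hwN y h).symm
      · by_cases hyI : y ∈ I
        · left
          refine ⟨?_, by simp only [hv, if_pos hyI]⟩
          rcases hIstep y hyI x hx (hns _ _ hxy) with h | h
          · exact absurd h hxI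
          · simp only [hv, if_neg hxI]
            exact (hwN x h).symm
        · right
          exact ⟨by simp only [hv, if_neg hxI], by simp only [hv, if_neg hyI]⟩
    rcases hmain with ⟨h1, h2⟩ | ⟨h1, h2⟩
    · rw [h1, h2]
      refine le_trans (Real.rpow_le_rpow (abs_nonneg _) (hwd x y) ht0) ?_
      rcases max_cases |u x - u y| ((b - a) * |χ x - χ y|) with ⟨h, _⟩ | ⟨h, _⟩
      · rw [h]
        linarith
      · rw [h, Real.mul_rpow hba (abs_nonneg _)]
        linarith
    · rw [h1, h2]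
      linarith
  have hve : ∀ x ∈ G n, ve (G n) t v x ≤ ve (G n) t u x + (b - a) ^ t * ve (G n) t χ x := by
    intro x hx
    unfold ve
    rw [Finset.mul_sum, ← Finset.sum_add_distrib]
    refine Finset.sum_le_sum fun y hy => ?_
    by_cases h : near x y
    · rw [if_pos h, if_pos h, if_pos h]
      exact hterm x hx y hy h
    · rw [if_neg h, if_neg h, if_neg h]
      simp
  have hvb : ∀ x ∈ V0, ∀ y ∈ G n, near x y → v y = b := by
    intro x hx y hy hxy
    have h1 := hχ1 x hx y hy hxy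
    have hyI : y ∈ I := by
      rcases hIstep x (hV0I x hx) y hy hxy with h | h
      · exact h
      · rw [hχ0 y h] at h1
        norm_num at h1
    simp only [hv, if_pos hyI, hw, h1]
    have : a + (b - a) * 1 = b := by ring
    rw [this]
    exact max_eq_right (min_le_right _ _)
  have hve0 : ∀ x ∈ V0, ve (G n) t v x = 0 := by
    intro x hx
    unfold ve
    refine Finset.sum_eq_zero fun y hy => ?_
    by_cases h : near x y
    · rw [if_pos h, hvb x hx x (hV0 hx) (hnr x), hvb x hx y hy h, sub_self, abs_zero, Real.zero_rpow htne]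
    · rw [if_neg h]
  have hfin := hmin v (fun z _ hz => by
    have : z ∉ I := fun h => hIB z h hz
    simp only [hv, if_neg this])
  have hsum : En (G n) t v ≤ ∑ x ∈ G n, (ve (G n) t u x - (if x ∈ V0 then ve (G n) t u x else 0) + (b - a) ^ t * ve (G n) t χ x) := by
    unfold En
    refine Finset.sum_le_sum fun x hx => ?_
    by_cases h : x ∈ V0
    · rw [if_pos h, hve0 x h, sub_self, zero_add]
      exact mul_nonneg (Real.rpow_nonneg hba _) (ve_nonneg _ _ _ _)
    · rw [if_neg h, sub_zero]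
      exact hve x hx
  rw [Finset.sum_add_distrib, Finset.sum_sub_distrib, Finset.sum_ite_mem, Finset.inter_eq_right.2 hV0, ← Finset.mul_sum] at hsum
  have e1 : ∑ x ∈ G n, ve (G n) t u x = En (G n) t u := rfl
  have e2 : ∑ x ∈ G n, ve (G n) t χ x = En (G n) t χ := rfl
  rw [e1, e2] at hsum
  linarith

end Pool.Agent.NIF
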