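import Pool.Agent.NIF.BRI
import Pool.Agent.NIF.ENA
import Pool.Agent.SCI.MEAS

/-!
MEQ (40 lines). Membership in F_{t,r} in terms of the averages av m f n.

PROOF. MemLp f t with t ≥ 1 on a probability measure gives Integrable f (MemLp.integrable). Mn_eq (SCI.MEAS) and Fl_pos:
Mn K m n f w = ∫ f (Fc n (pos (ofFn w)) z) = av m f n (pos (ofFn w)) (List.length_ofFn). So by energy_eq
energy K t n (Mn K m n f) = 1/2 En (G n) t (av m f n); replace C by 2 C, resp. C / 2.
-/

set_option autoImplicit false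

namespace Pool.Agent.NIF

open MeasureTheory Pool.Agent.SCI

theorem mem_iff {K : Set (ℝ × ℝ)} {m : Measure (ℝ × ℝ)} (hK : IsCarpet K) (hm : IsCarpetMeasure K m) {t : ℝ} (ht : 1 < t)
    {r : ℝ} {f : ℝ × ℝ → ℝ} :
    Mem K m t r f ↔ MemLp f (ENNReal.ofReal t) m ∧ ∃ C : ℝ, ∀ n : ℕ, r ^ n * En (G n) t (av m f n) ≤ C := by
  have hprob : IsProbabilityMeasure m := hm.prob
  have hint : MemLp f (ENNReal.ofReal t) m → Integrable f m := by
    intro h
    exact h.integrable (by rw [ENNReal.one_le_ofReal]; exact ht.le)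
  have key : Integrable f m → ∀ n : ℕ,
      energy K t n (Mn K m n f) = 1 / 2 * En (G n) t (av m f n) := by
    intro hf n
    have h1 : Mn K m n f = fun w => av m f n (pos (List.ofFn w)) := by
      funext w
      rw [Mn_eq hK hm f hf n w]
      unfold av
      congr 1
      funext z
      rw [Fl_pos, List.length_ofFn]
    rw [h1]
    exact energy_eq hK (by linarith) (av m f n)
  constructor
  · rintro ⟨h1, C, hC⟩
    refine ⟨h1, 2 * C, fun n => ?_⟩
    have h2 := hC n
    rw [key (hint h1) n] at h2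
    have e : r ^ n * (1 / 2 * En (G n) t (av m f n)) = 1 / 2 * (r ^ n * En (G n) t (av m f n)) := by
      ring
    rw [e] at h2
    linarith
  · rintro ⟨h1, C, hC⟩
    refine ⟨h1, C / 2, fun n => ?_⟩
    have h2 := hC n
    rw [key (hint h1) n]
    have e : r ^ n * (1 / 2 * En (G n) t (av m f n)) = 1 / 2 * (r ^ n * En (G n) t (av m f n)) := by
      ring
    rw [e]
    linarith

end Pool.Agent.NIF
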