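import Pool.Agent.NIF.LMA
import Pool.Agent.NIF.MEQ

/-!
LMC. The limit belongs to F_{t,r} with r^m0 R = 1.
-/

set_option autoImplicit false

namespace Pool.Agent.NIF

open MeasureTheory Pool.Agent.SCI

private noncomputable def phc (m0 : ℕ) (f : ℕ → ℕ × ℕ → ℝ) (j : ℕ) (z : ℝ × ℝ) : ℝ := f j (fl (2 + j * m0) z)

private theorem phc_memLp {K : Set (ℝ × ℝ)} {m : Measure (ℝ × ℝ)} (hK : IsCarpet K) (hm : IsCarpetMeasure K m) {t : ℝ}
    {m0 : ℕ} {B R : ℝ} {f : ℕ → ℕ × ℕ → ℝ} (h : Hier t m0 B R f) (p : ENNReal) (j : ℕ) : MemLp (phc m0 f j) p m := by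
  have := hm.prob
  refine MemLp.of_bound (C := 1) ?_ ?_
  · exact ((Measurable.of_discrete (f := f j)).comp (measurable_fl _)).aestronglyMeasurable
  · filter_upwards [ae_fl hK hm (2 + j * m0)] with z hz
    obtain ⟨h1, h2⟩ := h.unit j _ hz
    rw [Real.norm_eq_abs]
    exact abs_le.2 ⟨by unfold phc; linarith, h2⟩

theorem hier_mem {K : Set (ℝ × ℝ)} {m : Measure (ℝ × ℝ)} (hK : IsCarpet K) (hm : IsCarpetMeasure K m) {t : ℝ} (ht : 1 < t)
    {m0 : ℕ} (hm0 : 1 ≤ m0) {B R r : ℝ} (hB : 0 < B) (hR : 0 < R) (hr : 0 < r) (hrR : r ^ m0 * R = 1) {f : ℕ → ℕ × ℕ → ℝ}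
    (h : Hier t m0 B R f) {F : ℝ × ℝ → ℝ} (hF : MemLp F (ENNReal.ofReal t) m) {C : ℝ}
    (hC : ∀ j, ∫ z, |F z - f j (fl (2 + j * m0) z)| ^ t ∂m ≤ C * (R / 8 ^ m0) ^ j) : Mem K m t r F := by
  have := hm.prob
  have ht0 : 0 < t := by linarith
  rw [mem_iff hK hm ht]
  refine ⟨hF, ?_⟩
  have hI0 : 0 ≤ ∫ z, |F z| ^ t ∂m := integral_nonneg fun z => by positivity
  have hC0 : 0 ≤ C := by
    have h1 : 0 ≤ ∫ z, |F z - f 0 (fl (2 + 0 * m0) z)| ^ t ∂m := integral_nonneg fun z => by positivity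
    have h2 := hC 0
    rw [pow_zero, mul_one] at h2
    linarith
  set M : ℝ := max 1 r with hM
  have hM1 : 1 ≤ M := le_max_left _ _
  have hrM : r ≤ M := le_max_right _ _
  have hrpow : ∀ a b : ℕ, a ≤ b → r ^ a ≤ M ^ b := fun a b hab =>
    (pow_le_pow_left₀ hr.le hrM a).trans (pow_le_pow_right₀ hM1 hab)
  have h2t : (0 : ℝ) < 2 ^ (t - 1) := Real.rpow_pos_of_pos (by norm_num) _
  have h2t' : (0 : ℝ) < 2 ^ t := Real.rpow_pos_of_pos (by norm_num) _
  set C1 : ℝ := 2 ^ (t - 1) * (9 * 8 ^ m0 * B + 9 * 2 ^ t * 8 ^ (2 + m0) * C) with hC1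
  have hC10 : 0 ≤ C1 := by positivity
  refine ⟨M ^ 2 * (9 * 2 ^ t * 8 ^ 2 * ∫ z, |F z| ^ t ∂m) + M ^ (2 + m0) * C1, fun n => ?_⟩
  have hp1 : 0 ≤ M ^ 2 * (9 * 2 ^ t * 8 ^ 2 * ∫ z, |F z| ^ t ∂m) := by positivity
  have hp2 : 0 ≤ M ^ (2 + m0) * C1 := by positivity
  by_cases hn : n < 2
  · have h1 := En_av_le hK hm ht.le hF n
    have h2 : (9 * 2 ^ t * 8 ^ n * ∫ z, |F z| ^ t ∂m) ≤ 9 * 2 ^ t * 8 ^ 2 * ∫ z, |F z| ^ t ∂m := by
      refine mul_le_mul_of_nonneg_right ?_ hI0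
      exact mul_le_mul_of_nonneg_left (pow_le_pow_right₀ (by norm_num) hn.le) (by positivity)
    have h3 : r ^ n * En (G n) t (av m F n) ≤ M ^ 2 * (9 * 2 ^ t * 8 ^ 2 * ∫ z, |F z| ^ t ∂m) :=
      mul_le_mul (hrpow n 2 hn.le) (h1.trans h2) (En_nonneg _ _ _) (by positivity)
    linarith
  · push Not at hn
    obtain ⟨j, k, hk, hnjk⟩ : ∃ j k : ℕ, k < m0 ∧ n = 2 + j * m0 + k := by
      refine ⟨(n - 2) / m0, (n - 2) % m0, Nat.mod_lt _ (by omega), ?_⟩
      have := Nat.div_add_mod (n - 2) m0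
      rw [mul_comm] at this
      omega
    subst hnjk
    have hphc := phc_memLp hK hm h (ENNReal.ofReal t) j
    have hone : (1 : ENNReal) ≤ ENNReal.ofReal t := by
      rw [show (1 : ENNReal) = ENNReal.ofReal 1 by simp]
      exact ENNReal.ofReal_le_ofReal ht.le
    have hFi : Integrable F m := hF.integrable hone
    have hphi : Integrable (phc m0 f j) m := hphc.integrable hone
    have hG : MemLp (fun z => F z - phc m0 f j z) (ENNReal.ofReal t) m := hF.sub hphc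
    have key : ∀ c ∈ G (2 + j * m0 + k), av m F (2 + j * m0 + k) c =
        f j (anc k c) + av m (fun z => F z - phc m0 f j z) (2 + j * m0 + k) c := by
      intro c hc
      rw [av_sub hK hm hFi hphi hc]
      have e := av_fl hK hm (f j) (2 + j * m0) k c
      have e' : av m (phc m0 f j) (2 + j * m0 + k) c = f j (anc k c) := e
      rw [e']
      ring
    rw [En_congr key]
    have h1 := En_add_le (A := G (2 + j * m0 + k)) ht.le (fun c => f j (anc k c))
      (av m (fun z => F z - phc m0 f j z) (2 + j * m0 + k))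
    have h2 : En (G (2 + j * m0 + k)) t (fun c => f j (anc k c)) ≤ 9 * 8 ^ m0 * B * R ^ j := by
      refine (En_anc ht0 (f j)).trans ?_
      have a1 : En (G (2 + j * m0)) t (f j) ≤ B * R ^ j := h.energy j
      have a2 : (8 : ℝ) ^ k ≤ 8 ^ m0 := pow_le_pow_right₀ (by norm_num) hk.le
      calc 9 * 8 ^ k * En (G (2 + j * m0)) t (f j) ≤ 9 * 8 ^ k * (B * R ^ j) :=
            mul_le_mul_of_nonneg_left a1 (by positivity)
        _ ≤ 9 * 8 ^ m0 * (B * R ^ j) := by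
            refine mul_le_mul_of_nonneg_right ?_ (by positivity)
            linarith
        _ = 9 * 8 ^ m0 * B * R ^ j := by ring
    have h3 : En (G (2 + j * m0 + k)) t (av m (fun z => F z - phc m0 f j z) (2 + j * m0 + k)) ≤
        9 * 2 ^ t * 8 ^ (2 + m0) * C * R ^ j := by
      refine (En_av_le hK hm ht.le hG _).trans ?_
      have a1 : ∫ z, |F z - phc m0 f j z| ^ t ∂m ≤ C * (R / 8 ^ m0) ^ j := hC j
      have a2 : (8 : ℝ) ^ (2 + k) ≤ 8 ^ (2 + m0) := pow_le_pow_right₀ (by norm_num) (by omega)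
      calc 9 * 2 ^ t * 8 ^ (2 + j * m0 + k) * ∫ z, |F z - phc m0 f j z| ^ t ∂m
          ≤ 9 * 2 ^ t * 8 ^ (2 + j * m0 + k) * (C * (R / 8 ^ m0) ^ j) :=
            mul_le_mul_of_nonneg_left a1 (by positivity)
        _ = 9 * 2 ^ t * 8 ^ (2 + k) * (C * R ^ j) := by
            rw [show 2 + j * m0 + k = (2 + k) + m0 * j by ring, pow_add (8 : ℝ) (2 + k), pow_mul, div_pow]
            have : ((8 : ℝ) ^ m0) ^ j ≠ 0 := by positivity
            field_simp
        _ ≤ 9 * 2 ^ t * 8 ^ (2 + m0) * (C * R ^ j) := by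
            refine mul_le_mul_of_nonneg_right ?_ (by positivity)
            exact mul_le_mul_of_nonneg_left a2 (by positivity)
        _ = 9 * 2 ^ t * 8 ^ (2 + m0) * C * R ^ j := by ring
    have h4 : En (G (2 + j * m0 + k)) t (fun c => f j (anc k c) +
        av m (fun z => F z - phc m0 f j z) (2 + j * m0 + k) c) ≤ C1 * R ^ j := by
      refine h1.trans ?_
      rw [hC1]
      calc 2 ^ (t - 1) * (En (G (2 + j * m0 + k)) t (fun c => f j (anc k c)) +
            En (G (2 + j * m0 + k)) t (av m (fun z => F z - phc m0 f j z) (2 + j * m0 + k)))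
          ≤ 2 ^ (t - 1) * (9 * 8 ^ m0 * B * R ^ j + 9 * 2 ^ t * 8 ^ (2 + m0) * C * R ^ j) :=
            mul_le_mul_of_nonneg_left (add_le_add h2 h3) h2t.le
        _ = 2 ^ (t - 1) * (9 * 8 ^ m0 * B + 9 * 2 ^ t * 8 ^ (2 + m0) * C) * R ^ j := by ring
    have h5 : r ^ (2 + j * m0 + k) * (C1 * R ^ j) = r ^ (2 + k) * C1 := by
      have e1 : r ^ (2 + j * m0 + k) = r ^ (2 + k) * (r ^ m0) ^ j := by
        rw [← pow_mul, ← pow_add]
        congr 1
        ring
      have e2 : (r ^ m0) ^ j * R ^ j = 1 := by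
        rw [← mul_pow, hrR, one_pow]
      rw [e1]
      linear_combination (r ^ (2 + k) * C1) * e2
    have h6 : r ^ (2 + j * m0 + k) * En (G (2 + j * m0 + k)) t (fun c => f j (anc k c) +
        av m (fun z => F z - phc m0 f j z) (2 + j * m0 + k) c) ≤ M ^ (2 + m0) * C1 := by
      refine (mul_le_mul_of_nonneg_left h4 (by positivity)).trans ?_
      rw [h5]
      exact mul_le_mul_of_nonneg_right (hrpow _ _ (by omega)) hC10
    linarith

end Pool.Agent.NIF
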