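import Pool.Agent.NIF.LMB
import Pool.Agent.NIF.LMC
import Pool.Agent.SCI.TEST
import Pool.Agent.SCI.NUM

/-!
CPL (70 lines). Lower bound for the capacities: cap t n ≥ c ρ(t)^(-n).

PROOF. A from exists_hier (level of u = n). Claim: 1 ≤ A · cap t n · ρ^n for all n ≥ 1 and all ρ with IsRho; then c = 1/A.
Suppose A cap ρ^n < 1. u symmetric with e = En u ≤ cap (exists_sym); e > 0 because cap ≤ e (cap_le) and cap > 0 (cap_pos); so e = cap. Put R = A e > 0 and
r = R^(-1/n) (Real.rpow), so r^n R = 1 and r^n = 1/R > ρ^n, hence r > ρ (lt_of_pow_lt_pow_left₀). ρ ≥ slab t ≥ 1/2 (slab_le, slab_ge_half), so r > 1/8 and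
R = r^(-n) < 8^n. exists_hier, hier_limit, hier_mem (m0 = n), hier_nonconst: a function F ∈ F_{t,r} which is not a.e. constant, but IsRho.max says that
it is constant. Contradiction.
-/

set_option autoImplicit false

namespace Pool.Agent.NIF

open MeasureTheory Pool.Agent.SCI

theorem cap_lower {K : Set (ℝ × ℝ)} {m : Measure (ℝ × ℝ)} (hK : IsCarpet K) (hm : IsCarpetMeasure K m) {t ρ : ℝ} (ht : 1 < t)
    (h : IsRho K m t ρ) : ∃ c : ℝ, 0 < c ∧ ∀ n : ℕ, 1 ≤ n → c ≤ cap t n * ρ ^ n := by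
  obtain ⟨A, hA1, hA⟩ := exists_hier (t := t) ht.le
  have hA0 : 0 < A := by linarith
  have hρ := h.pos
  refine ⟨1 / A, by positivity, fun n hn => ?_⟩
  by_contra hcon
  rw [not_le] at hcon
  obtain ⟨u, hu⟩ := exists_sym ht.le hn
  obtain ⟨B, f, hB, hf⟩ := hA n u hn hu
  have he : En (G n) t u = cap t n := le_antisymm hu.le (cap_le hu.adm)
  have hc := cap_pos ht.le hn
  rw [he] at hf
  have hR0 : 0 < A * cap t n := mul_pos hA0 hc
  have hRρ : A * cap t n * ρ ^ n < 1 := by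
    have h1 := mul_lt_mul_of_pos_left hcon hA0
    rw [mul_one_div_cancel hA0.ne', ← mul_assoc] at h1
    exact h1
  generalize A * cap t n = R at hf hR0 hRρ
  have hn0 : (n : ℝ) ≠ 0 := by
    have : 0 < n := hn
    positivity
  have hr0 : 0 < R ^ (-(1 / (n : ℝ))) := Real.rpow_pos_of_pos hR0 _
  have hrn : (R ^ (-(1 / (n : ℝ)))) ^ n = R⁻¹ := by
    rw [← Real.rpow_natCast, ← Real.rpow_mul hR0.le, show -(1 / (n : ℝ)) * n = -1 by field_simp,
      Real.rpow_neg_one]
  generalize R ^ (-(1 / (n : ℝ))) = r at hr0 hrn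
  have hrR : r ^ n * R = 1 := by
    rw [hrn]
    exact inv_mul_cancel₀ hR0.ne'
  have hlt : ρ < r := by
    refine lt_of_pow_lt_pow_left₀ n hr0.le ?_
    rw [hrn, ← one_div, lt_div_iff₀ hR0, mul_comm]
    exact hRρ
  have h12 : 1 / 2 ≤ ρ := (slab_ge_half t ht).trans (slab_le hK hm t ρ ht h)
  have hR8 : R < 8 ^ n := by
    have h1 : 1 < (r * 8) ^ n := one_lt_pow₀ (by linarith) (by omega)
    rw [mul_pow, hrn] at h1
    have h2 := mul_lt_mul_of_pos_left h1 hR0
    rw [mul_one, ← mul_assoc, mul_inv_cancel₀ hR0.ne', one_mul] at h2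
    exact h2
  obtain ⟨F, hF, C, hC⟩ := hier_limit hK hm ht hn hB hR0 hR8 hf
  have hmem := hier_mem hK hm ht hn hB hR0 hr0 hrR hf hF hC
  exact hier_nonconst hK hm ht hn hR0 hR8 hf hF hC (h.max r hlt F hmem)

end Pool.Agent.NIF
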