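import Pool.Agent.NIF.ENA

/-!
MIN (120 lines). Minimal crossing functions exist; the capacity is positive.

PROOF. n ≥ 1, so 0 + 1 ≠ 3^n and u0 = (if c.1 + 1 = 3^n then 1 else 0) is admissible. clampAdm: for admissible v the clamped function
min 1 (max 0 (v c)) is admissible, has values in [0,1] and En ≤ En v (En_mono_fun, the clamp is 1-Lipschitz). Existence: the set
X = {u : ℕ×ℕ → ℝ | ∀ c, u c ∈ Icc 0 1} = Set.pi univ (fun _ => Icc 0 1) is compact (isCompact_univ_pi), the admissible functions form a closed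
subset (intersection of closed conditions u c = 0, u c = 1), nonempty by u0; u ↦ En (G n) t u is continuous (finite sums of continuous
functions of finitely many coordinates; Real.continuousAt_rpow_const / Continuous.rpow_const with t ≥ 0). IsCompact.exists_isMinOn gives u
minimal among admissible functions with values in [0,1], hence among all by clampAdm. cap t n = En u: the image set has least element En u
(IsLeast.csInf_eq). cap_le: csInf_le with lower bound 0.
cap_pos: t ≥ 1, so t ≠ 0; if En u = 0 for the minimiser then |u a - u b|^t = 0 for near a, b ∈ G n (le_ve, ve_le_En), so u a = u b; along the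
bottom row (x,0), x = 0,...,3^n - 1 (row_mem), u is constant, but u (0,0) = 0 and u (3^n - 1, 0) = 1.
-/

set_option autoImplicit false

namespace Pool.Agent.NIF

private theorem pow_ge_three {n : ℕ} (hn : 1 ≤ n) : 3 ≤ 3 ^ n := by
  calc 3 = 3 ^ 1 := by norm_num
    _ ≤ 3 ^ n := Nat.pow_le_pow_right (by norm_num) hn

private noncomputable def cl (x : ℝ) : ℝ := min 1 (max 0 x)

private theorem cl_lip (x y : ℝ) : |cl x - cl y| ≤ |x - y| := by
  unfold cl
  have h1 := abs_min_sub_min_le_max (1 : ℝ) (max 0 x) 1 (max 0 y)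
  have h2 := abs_max_sub_max_le_max (0 : ℝ) x 0 y
  rw [sub_self, abs_zero, max_eq_right (abs_nonneg (max 0 x - max 0 y))] at h1
  rw [sub_self, abs_zero, max_eq_right (abs_nonneg (x - y))] at h2
  exact h1.trans h2

private theorem cl_mem (x : ℝ) : 0 ≤ cl x ∧ cl x ≤ 1 := by
  unfold cl
  exact ⟨le_min zero_le_one (le_max_left _ _), min_le_left _ _⟩

private theorem clampAdm {n : ℕ} {v : ℕ × ℕ → ℝ} (hv : Adm n v) : Adm n (fun c => cl (v c)) := by
  refine ⟨fun c hc h => ?_, fun c hc h => ?_⟩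
  · simp only [hv.left c hc h, cl]; norm_num
  · simp only [hv.right c hc h, cl]; norm_num

private theorem En_cont (A : Finset (ℕ × ℕ)) {t : ℝ} (ht : 0 ≤ t) : Continuous (fun u : ℕ × ℕ → ℝ => En A t u) := by
  unfold En ve
  refine continuous_finsetSum _ (fun a _ => continuous_finsetSum _ (fun b _ => ?_))
  by_cases h : near a b
  · simp only [h, if_true]
    exact (((continuous_apply a).sub (continuous_apply b)).abs).rpow_const (fun _ => Or.inr ht)
  · simp only [h, if_false]
    exact continuous_const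

theorem exists_adm {n : ℕ} (hn : 1 ≤ n) : ∃ u, Adm n u := by
  have h3 := pow_ge_three hn
  refine ⟨fun c => if c.1 + 1 = 3 ^ n then 1 else 0, fun c _ h => ?_, fun c _ h => ?_⟩
  · have : ¬ (c.1 + 1 = 3 ^ n) := by omega
    simp [this]
  · simp [h]

/-- a minimal crossing function with values in [0,1] -/
theorem exists_min {t : ℝ} (ht : 1 ≤ t) {n : ℕ} (hn : 1 ≤ n) : ∃ u : ℕ × ℕ → ℝ, IsMin t n u := by
  set K : Set (ℕ × ℕ → ℝ) := Set.pi Set.univ (fun _ => Set.Icc (0 : ℝ) 1) with hK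
  have hKc : IsCompact K := isCompact_univ_pi (fun _ => isCompact_Icc)
  have hAc : IsClosed {u : ℕ × ℕ → ℝ | Adm n u} := by
    have : {u : ℕ × ℕ → ℝ | Adm n u} =
        (⋂ c : ℕ × ℕ, ⋂ (_ : c ∈ G n), ⋂ (_ : c.1 = 0), {u : ℕ × ℕ → ℝ | u c = 0}) ∩
        (⋂ c : ℕ × ℕ, ⋂ (_ : c ∈ G n), ⋂ (_ : c.1 + 1 = 3 ^ n), {u : ℕ × ℕ → ℝ | u c = 1}) := by
      ext u
      simp only [Set.mem_ofPred_eq, Set.mem_inter_iff, Set.mem_iInter]
      exact ⟨fun h => ⟨h.left, h.right⟩, fun h => ⟨h.1, h.2⟩⟩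
    rw [this]
    refine IsClosed.inter ?_ ?_
    · exact isClosed_iInter fun c => isClosed_iInter fun _ => isClosed_iInter fun _ =>
        isClosed_eq (continuous_apply c) continuous_const
    · exact isClosed_iInter fun c => isClosed_iInter fun _ => isClosed_iInter fun _ =>
        isClosed_eq (continuous_apply c) continuous_const
  have hcomp : IsCompact (K ∩ {u : ℕ × ℕ → ℝ | Adm n u}) := hKc.inter_right hAc
  obtain ⟨u0, hu0⟩ := exists_adm hn
  have hne : (K ∩ {u : ℕ × ℕ → ℝ | Adm n u}).Nonempty :=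
    ⟨fun c => cl (u0 c), by
      rw [hK]
      intro c _
      exact cl_mem _, clampAdm hu0⟩
  obtain ⟨u, hu, hmin⟩ := hcomp.exists_isMinOn hne (En_cont (G n) (by linarith : (0:ℝ) ≤ t)).continuousOn
  refine ⟨u, hu.2, fun c => ?_, fun v hv => ?_⟩
  · exact hu.1 c (Set.mem_univ c)
  · have h1 : (fun c => cl (v c)) ∈ K ∩ {u : ℕ × ℕ → ℝ | Adm n u} :=
      ⟨by
        rw [hK]
        intro c _
        exact cl_mem _, clampAdm hv⟩
    have h2 : En (G n) t u ≤ En (G n) t (fun c => cl (v c)) := hmin h1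
    refine h2.trans (En_mono_fun (by linarith) (fun a _ b _ _ => cl_lip _ _))

private theorem isLeast_cap {t : ℝ} {n : ℕ} {u : ℕ × ℕ → ℝ} (h : IsMin t n u) :
    IsLeast (En (G n) t '' {u | Adm n u}) (En (G n) t u) := by
  refine ⟨⟨u, h.1, rfl⟩, ?_⟩
  rintro _ ⟨v, hv, rfl⟩
  exact h.2.2 v hv

theorem IsMin.eq_cap {t : ℝ} {n : ℕ} {u : ℕ × ℕ → ℝ} (h : IsMin t n u) : En (G n) t u = cap t n :=
  (isLeast_cap h).csInf_eq.symm

theorem cap_le {t : ℝ} {n : ℕ} {v : ℕ × ℕ → ℝ} (hv : Adm n v) : cap t n ≤ En (G n) t v := by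
  refine csInf_le ⟨0, ?_⟩ ⟨v, hv, rfl⟩
  rintro _ ⟨w, _, rfl⟩
  exact En_nonneg _ _ _

theorem cap_pos {t : ℝ} (ht : 1 ≤ t) {n : ℕ} (hn : 1 ≤ n) : 0 < cap t n := by
  obtain ⟨u, hu⟩ := exists_min ht hn
  rw [← hu.eq_cap]
  refine lt_of_le_of_ne (En_nonneg _ _ _) (fun h0 => ?_)
  have h3 := pow_ge_three hn
  have key : ∀ a ∈ G n, ∀ b ∈ G n, near a b → u a = u b := by
    intro a ha b hb hab
    have h1 : |u a - u b| ^ t ≤ 0 := (le_ve hb hab).trans ((ve_le_En ha).trans h0.symm.le)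
    have h2 : |u a - u b| ^ t = 0 := le_antisymm h1 (Real.rpow_nonneg (abs_nonneg _) _)
    have h4 : |u a - u b| = 0 := by
      by_contra hne
      have hpos : 0 < |u a - u b| := lt_of_le_of_ne (abs_nonneg _) (Ne.symm hne)
      exact absurd h2 (Real.rpow_pos_of_pos hpos t).ne'
    exact sub_eq_zero.mp (abs_eq_zero.mp h4)
  have hrow : ∀ x : ℕ, x < 3 ^ n → u (x, 0) = u (0, 0) := by
    intro x
    induction x with
    | zero => intro _; rfl
    | succ x ih =>
      intro hx
      rw [← ih (by omega)]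
      refine key _ (row_mem hx) _ (row_mem (by omega)) ?_
      unfold near
      refine ⟨?_, ?_, ?_, ?_⟩ <;> simp
      omega
  have h5 := hrow (3 ^ n - 1) (by omega)
  have h6 : u (0, 0) = 0 := hu.1.left (0, 0) (row_mem (by omega)) rfl
  have h7 : u (3 ^ n - 1, 0) = 1 := hu.1.right (3 ^ n - 1, 0) (row_mem (by omega)) (by show 3 ^ n - 1 + 1 = 3 ^ n; omega)
  rw [h7, h6] at h5
  norm_num at h5

end Pool.Agent.NIF
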