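import Pool.Agent.NIF.AVP
import Pool.Agent.NIF.MEQ
import Pool.Agent.NIF.MIN

/-!
CPU (120 lines). Upper bounds for the capacities.

PROOF. IsRho.dense for g z = z.1 and ε = 1/8: h continuous on K, Mem K m t ρ h, |z.1 - h z| ≤ 1/8 on K. For c ∈ G n, n ≥ 1, a.e. z: Fc n c z ∈ K (Fc_mem), first
coordinate (c.1 + z.1)/3^n. c.1 = 0: it is ≤ 3^(-n) ≤ 1/3, so av h n c ≤ 1/3 + 1/8 = 11/24 (integral of a function ≤ constant over a probability measure;
h ∘ Fc n c integrable, MemLp.integrable). c.1 + 1 = 3^n: it is ≥ (3^n - 1)/3^n ≥ 2/3, av h n c ≥ 2/3 - 1/8 = 13/24. Put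
u c = min 1 (max 0 (12 (av h n c - 11/24))): admissible (12 · 2/24 = 1), |u a - u b| ≤ 12 |av h n a - av h n b|, so
cap t n ≤ En u ≤ 12^t En (G n) t (av h n) (cap_le, En_mono_fun, En_smul) ≤ 12^t C ρ^(-n) by mem_iff. This is cap_upper.
cap_upper_lt (1 < p < q, IsRho for p): the same u; for near a, b ∈ G n: |av h n a - av h n b| ≤ ω_n, where ω_n → 0 by uniform continuity of h on the compact set K
(IsCompact.uniformContinuousOn_of_continuous): the points Fc n a z and Fc n b z ∈ K differ by at most 1/3^n in each coordinate (near), and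
av h n a - av h n b = ∫ (h (Fc n a z) - h (Fc n b z)) dm. Then |d|^q = |d|^(q-p) |d|^p ≤ ω_n^(q-p) |d|^p, so
cap q n ≤ 12^q En (G n) q (av h n) ≤ 12^q ω_n^(q-p) En (G n) p (av h n) ≤ 12^q ω_n^(q-p) C ρ^(-n).
-/

set_option autoImplicit false

namespace Pool.Agent.NIF

open MeasureTheory Pool.Agent.SCI

private theorem cpu_ae {K : Set (ℝ × ℝ)} {m : Measure (ℝ × ℝ)} (hm : IsCarpetMeasure K m) :
    ∀ᵐ z ∂m, z ∈ K := by
  rw [ae_iff]
  exact hm.onK

private theorem cpu_test {K : Set (ℝ × ℝ)} {m : Measure (ℝ × ℝ)} (hK : IsCarpet K) (hm : IsCarpetMeasure K m) {t ρ : ℝ} (ht : 1 < t)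
    (h : IsRho K m t ρ) : ∃ f : ℝ × ℝ → ℝ, ContinuousOn f K ∧ Mem K m t ρ f ∧ Integrable f m ∧
      ∀ n : ℕ, 1 ≤ n → ∀ c ∈ G n, (c.1 = 0 → av m f n c ≤ 11 / 24) ∧
        (c.1 + 1 = 3 ^ n → 13 / 24 ≤ av m f n c) := by
  have := hm.prob
  obtain ⟨f, hf1, hf2, hf3⟩ := h.dense (fun z => z.1) continuous_fst.continuousOn (1 / 8)
    (by norm_num)
  have hint : Integrable f m := by
    refine hf2.1.integrable ?_
    rw [← ENNReal.ofReal_one]
    exact ENNReal.ofReal_le_ofReal ht.le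
  refine ⟨f, hf1, hf2, hint, fun n hn c hc => ?_⟩
  have hi := integrable_Fc hK hm hint hc
  have h3 : (3 : ℝ) ≤ 3 ^ n := by
    calc (3 : ℝ) = 3 ^ 1 := by norm_num
      _ ≤ 3 ^ n := pow_le_pow_right₀ (by norm_num) hn
  have h3' : (0 : ℝ) < 3 ^ n := by positivity
  have hconst : ∀ a : ℝ, ∫ _z, a ∂m = a := fun a => by
    rw [integral_const]; simp
  constructor
  · intro h0
    unfold av
    rw [← hconst (11 / 24)]
    refine integral_mono_ae hi (integrable_const _) ?_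
    filter_upwards [cpu_ae hm] with z hz
    have h1 := hf3 _ (Fc_mem hK hc hz)
    have h2 := carpet_sub hK z hz
    have h4 : (Fc n c z).1 ≤ 1 / 3 := by
      unfold Fc
      dsimp only
      rw [h0, Nat.cast_zero, zero_add, div_le_div_iff₀ h3' (by norm_num)]
      nlinarith [h2.1, h2.2.1]
    have h5 := (abs_le.1 h1).1
    have h6 : (fun z : ℝ × ℝ => z.1) (Fc n c z) = (Fc n c z).1 := rfl
    show f (Fc n c z) ≤ 11 / 24
    linarith
  · intro h0
    unfold av
    rw [← hconst (13 / 24)]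
    refine integral_mono_ae (integrable_const _) hi ?_
    filter_upwards [cpu_ae hm] with z hz
    have h1 := hf3 _ (Fc_mem hK hc hz)
    have h2 := carpet_sub hK z hz
    have h7 : (c.1 : ℝ) + 1 = 3 ^ n := by exact_mod_cast h0
    have h4 : 2 / 3 ≤ (Fc n c z).1 := by
      unfold Fc
      dsimp only
      rw [div_le_div_iff₀ (by norm_num) h3']
      nlinarith [h2.1, h2.2.1]
    have h5 := (abs_le.1 h1).2
    have h6 : (fun z : ℝ × ℝ => z.1) (Fc n c z) = (Fc n c z).1 := rfl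
    show 13 / 24 ≤ f (Fc n c z)
    linarith

private theorem cpu_cap {m : Measure (ℝ × ℝ)} {f : ℝ × ℝ → ℝ} {n : ℕ} {s : ℝ} (hs : 0 ≤ s)
    (h : ∀ c ∈ G n, (c.1 = 0 → av m f n c ≤ 11 / 24) ∧ (c.1 + 1 = 3 ^ n → 13 / 24 ≤ av m f n c)) :
    cap s n ≤ 12 ^ s * En (G n) s (av m f n) := by
  set u : ℕ × ℕ → ℝ := fun c => min 1 (max 0 (12 * (av m f n c - 11 / 24))) with hu
  have hadm : Adm n u := by
    constructor
    · intro c hc h0
      have h1 := (h c hc).1 h0
      simp only [hu]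
      rw [max_eq_left (by linarith)]
      norm_num
    · intro c hc h0
      have h1 := (h c hc).2 h0
      simp only [hu]
      have h2 : 1 ≤ 12 * (av m f n c - 11 / 24) := by linarith
      rw [max_eq_right (by linarith), min_eq_left h2]
  refine (cap_le hadm).trans ?_
  have h1 : En (G n) s u ≤ En (G n) s (fun c => 12 * av m f n c) := by
    refine En_mono_fun hs fun a _ b _ _ => ?_
    simp only [hu]
    refine (abs_min_sub_min_le_max _ _ _ _).trans ?_
    rw [sub_self, abs_zero, max_eq_right (abs_nonneg _)]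
    refine (abs_max_sub_max_le_max _ _ _ _).trans ?_
    rw [sub_self, abs_zero, max_eq_right (abs_nonneg _)]
    refine le_of_eq ?_
    congr 1
    ring
  rw [En_smul, abs_of_pos (by norm_num : (0 : ℝ) < 12)] at h1
  exact h1

theorem cap_upper {K : Set (ℝ × ℝ)} {m : Measure (ℝ × ℝ)} (hK : IsCarpet K) (hm : IsCarpetMeasure K m) {t ρ : ℝ} (ht : 1 < t)
    (h : IsRho K m t ρ) : ∃ C : ℝ, ∀ n : ℕ, 1 ≤ n → cap t n * ρ ^ n ≤ C := by
  obtain ⟨f, -, hf2, -, hf4⟩ := cpu_test hK hm ht h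
  obtain ⟨-, C, hC⟩ := (mem_iff hK hm ht).1 hf2
  refine ⟨12 ^ t * C, fun n hn => ?_⟩
  have h1 := cpu_cap (s := t) (by linarith) (hf4 n hn)
  have hρ : 0 < ρ ^ n := pow_pos h.pos n
  calc cap t n * ρ ^ n ≤ 12 ^ t * En (G n) t (av m f n) * ρ ^ n :=
        mul_le_mul_of_nonneg_right h1 hρ.le
    _ = 12 ^ t * (ρ ^ n * En (G n) t (av m f n)) := by ring
    _ ≤ 12 ^ t * C := mul_le_mul_of_nonneg_left (hC n) (Real.rpow_nonneg (by norm_num) _)

theorem cap_upper_lt {K : Set (ℝ × ℝ)} {m : Measure (ℝ × ℝ)} (hK : IsCarpet K) (hm : IsCarpetMeasure K m) {p q ρ : ℝ} (hp : 1 < p)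
    (hpq : p < q) (h : IsRho K m p ρ) : ∀ ε : ℝ, 0 < ε → ∃ N : ℕ, ∀ n : ℕ, N ≤ n → cap q n * ρ ^ n ≤ ε := by
  intro ε hε
  have := hm.prob
  obtain ⟨f, hf1, hf2, hf3, hf4⟩ := cpu_test hK hm hp h
  obtain ⟨-, C, hC⟩ := (mem_iff hK hm hp).1 hf2
  set C' := max C 1 with hC'
  have hC'0 : 0 < C' := lt_of_lt_of_le one_pos (le_max_right _ _)
  have h12 : (0 : ℝ) < 12 ^ q := Real.rpow_pos_of_pos (by norm_num) _
  have hqp : 0 < q - p := by linarith
  set ω := (ε / (12 ^ q * C')) ^ (1 / (q - p)) with hω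
  have hbase : 0 < ε / (12 ^ q * C') := div_pos hε (mul_pos h12 hC'0)
  have hω0 : 0 < ω := Real.rpow_pos_of_pos hbase _
  have hωp : ω ^ (q - p) = ε / (12 ^ q * C') := by
    rw [hω, ← Real.rpow_mul hbase.le, one_div, inv_mul_cancel₀ hqp.ne', Real.rpow_one]
  have huc := hK.compact.uniformContinuousOn_of_continuous hf1
  rw [Metric.uniformContinuousOn_iff] at huc
  obtain ⟨δ, hδ0, hδ⟩ := huc ω hω0
  obtain ⟨N, hN⟩ := exists_pow_lt_of_lt_one hδ0 (by norm_num : (1 / 3 : ℝ) < 1)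
  refine ⟨max N 1, fun n hn => ?_⟩
  have hn1 : 1 ≤ n := le_trans (le_max_right _ _) hn
  have hnN : N ≤ n := le_trans (le_max_left _ _) hn
  have hsmall : (1 : ℝ) / 3 ^ n < δ := by
    have h1 : (1 / 3 : ℝ) ^ n ≤ (1 / 3) ^ N := pow_le_pow_of_le_one (by norm_num) (by norm_num) hnN
    rw [one_div_pow] at h1
    linarith
  have h3' : (0 : ℝ) < 3 ^ n := by positivity
  have hav : ∀ a ∈ G n, ∀ b ∈ G n, near a b → |av m f n a - av m f n b| ≤ ω := by
    intro a ha b hb hab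
    have hia := integrable_Fc hK hm hf3 ha
    have hib := integrable_Fc hK hm hf3 hb
    unfold av
    rw [← integral_sub hia hib]
    have h1 : ‖∫ z, (f (Fc n a z) - f (Fc n b z)) ∂m‖ ≤ ω * m.real Set.univ := by
      refine norm_integral_le_of_norm_le_const ?_
      filter_upwards [cpu_ae hm] with z hz
      have h2 := hδ _ (Fc_mem hK ha hz) _ (Fc_mem hK hb hz) ?_
      · rw [Real.dist_eq] at h2
        exact h2.le
      · refine lt_of_le_of_lt ?_ hsmall
        have hcoord : ∀ x y : ℕ, x ≤ y + 1 → y ≤ x + 1 → ∀ w : ℝ,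
            dist (((x : ℝ) + w) / 3 ^ n) (((y : ℝ) + w) / 3 ^ n) ≤ 1 / 3 ^ n := by
          intro x y hxy hyx w
          rw [Real.dist_eq, ← sub_div, abs_div, abs_of_pos h3']
          refine div_le_div_of_nonneg_right ?_ h3'.le
          have e1 : (x : ℝ) ≤ y + 1 := by exact_mod_cast hxy
          have e2 : (y : ℝ) ≤ x + 1 := by exact_mod_cast hyx
          rw [abs_le]
          constructor <;> linarith
        rw [Prod.dist_eq]
        exact max_le (hcoord _ _ hab.1 hab.2.1 _) (hcoord _ _ hab.2.2.1 hab.2.2.2 _)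
    rw [probReal_univ, mul_one, Real.norm_eq_abs] at h1
    exact h1
  have hEn : En (G n) q (av m f n) ≤ ω ^ (q - p) * En (G n) p (av m f n) := by
    unfold En ve
    rw [Finset.mul_sum]
    refine Finset.sum_le_sum fun a ha => ?_
    rw [Finset.mul_sum]
    refine Finset.sum_le_sum fun b hb => ?_
    split_ifs with hab
    · have h2 : |av m f n a - av m f n b| ^ q =
          |av m f n a - av m f n b| ^ (q - p) * |av m f n a - av m f n b| ^ p := by
        rw [← Real.rpow_add_of_nonneg (abs_nonneg _) (by linarith) (by linarith)]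
        congr 1; ring
      rw [h2]
      exact mul_le_mul_of_nonneg_right
        (Real.rpow_le_rpow (abs_nonneg _) (hav a ha b hb hab) hqp.le)
        (Real.rpow_nonneg (abs_nonneg _) _)
    · rw [mul_zero]
  have h1 := cpu_cap (s := q) (by linarith) (hf4 n hn1)
  have hρ : 0 < ρ ^ n := pow_pos h.pos n
  have hωn : 0 ≤ ω ^ (q - p) := Real.rpow_nonneg hω0.le _
  calc cap q n * ρ ^ n ≤ 12 ^ q * En (G n) q (av m f n) * ρ ^ n :=
        mul_le_mul_of_nonneg_right h1 hρ.le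
    _ ≤ 12 ^ q * (ω ^ (q - p) * En (G n) p (av m f n)) * ρ ^ n :=
        mul_le_mul_of_nonneg_right (mul_le_mul_of_nonneg_left hEn h12.le) hρ.le
    _ = 12 ^ q * ω ^ (q - p) * (ρ ^ n * En (G n) p (av m f n)) := by ring
    _ ≤ 12 ^ q * ω ^ (q - p) * C' :=
        mul_le_mul_of_nonneg_left ((hC n).trans (le_max_left _ _)) (mul_nonneg h12.le hωn)
    _ = ε := by
        rw [hωp]
        field_simp

end Pool.Agent.NIF
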