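import Pool.Agent.NIF.AVP

/-!
CPY (150 lines). Copies of a bump function: averages and energies of cp k T ψ.

Hypotheses on ψ: measurable, 0 ≤ ψ ≤ 1, ψ = 0 outside (1/9,1/3)².

PROOF. cp measurable: measurable_fl, measurable_fr, {z | fl k z ∈ T} measurable (preimage of a subset of the countable discrete space). cp_Fc: for w ∈ G k (any w), z ∈ U:
cp k T ψ (Fc k w z) = if w ∈ T then ψ z else 0 (fl_Fc, fr_Fc). av_cp: Fc (k+n) (emb n w c) z = Fc k w (Fc n c z) and Fc n c z ∈ U (Fc_unit).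
av_bdry: for n ≥ 2 and c ∈ G n with Bd n c: av m ψ n c = 0 (the square of c has a coordinate ≤ 3^(-n) ≤ 1/9 or ≥ 1 - 3^(-n) ≥ 8/9).
Write U x for the average av (cp k T ψ) (k+n) x, x = emb n w c. cp_lower: the near pairs with both ancestors (n levels up) equal to w ∈ T give En (G n) s (av ψ n) each.
cp_upper: pairs with the same ancestor w: En (G n) t (av ψ n) if w ∈ T, 0 otherwise (t ≠ 0). Pairs x, y near with different ancestors: both local positions are boundary cells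
(near_cross); n ≥ 2: U x = U y = 0. n < 2: |U x - U y| ≤ 1 (values in [0,1]) and it is 0 unless one of the ancestors is in T: at most 2 · |T| · 8^n · 9 ≤ 144 |T| ordered pairs.
cp_int: integral_split: ∫ |cp|^t = 8^(-k) Σ_w ∫ |cp (Fc k w z)|^t = 8^(-k) |T| ∫ ψ^t ≤ |T|/8^k.
cp_low_single: T = {w}, n ≤ k: av cp n c = 8^(-(k-n)) Σ_{z ∈ G (k-n)} av cp k (emb (k-n) c z) (av_refine) and av cp k x = if x = w then ∫ ψ else 0 (av_cp with n = 0): so the value is
≤ 8^(-(k-n)) for c = anc (k-n) w and 0 for the other c: En_le_sum gives ≤ 9 · 2^t (8^(-(k-n)))^t. cp_low_all: T = G k: av cp n c = ∫ ψ for all c ∈ G n, the energy is 0 (0^t = 0).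
-/

set_option autoImplicit false

namespace Pool.Agent.NIF

open MeasureTheory Pool.Agent.SCI

/-- the hypotheses on ψ -/
structure Small (ψ : ℝ × ℝ → ℝ) : Prop where
  meas : Measurable ψ
  unit : ∀ z, 0 ≤ ψ z ∧ ψ z ≤ 1
  supp : ∀ z : ℝ × ℝ, ¬ (1 / 9 < z.1 ∧ z.1 < 1 / 3 ∧ 1 / 9 < z.2 ∧ z.2 < 1 / 3) → ψ z = 0

theorem measurable_cp {ψ : ℝ × ℝ → ℝ} (h : Small ψ) (k : ℕ) (T : Finset (ℕ × ℕ)) : Measurable (cp k T ψ) := by
  unfold cp
  refine Measurable.ite ?_ (h.meas.comp (measurable_fr k)) measurable_const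
  exact measurable_fl k T.finite_toSet.measurableSet

theorem cp_unit {ψ : ℝ × ℝ → ℝ} (h : Small ψ) (k : ℕ) (T : Finset (ℕ × ℕ)) (z : ℝ × ℝ) : 0 ≤ cp k T ψ z ∧ cp k T ψ z ≤ 1 := by
  unfold cp
  split_ifs
  · exact h.unit _
  · exact ⟨le_refl _, zero_le_one⟩

private theorem cp_Fc (ψ : ℝ × ℝ → ℝ) {k : ℕ} (T : Finset (ℕ × ℕ)) (w : ℕ × ℕ) {z : ℝ × ℝ} (hz : z ∈ U) :
    cp k T ψ (Fc k w z) = if w ∈ T then ψ z else 0 := by
  unfold cp
  rw [fl_Fc hz, fr_Fc hz]

private theorem cp_integrable {K : Set (ℝ × ℝ)} {m : Measure (ℝ × ℝ)} (hm : IsCarpetMeasure K m) {f : ℝ × ℝ → ℝ} (hf : Measurable f)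
    (h : ∀ z, 0 ≤ f z ∧ f z ≤ 1) : Integrable f m := by
  have := hm.prob
  refine Integrable.of_bound hf.aestronglyMeasurable 1 (Filter.Eventually.of_forall fun z => ?_)
  rw [Real.norm_eq_abs, abs_of_nonneg (h z).1]
  exact (h z).2

theorem av_cp {K : Set (ℝ × ℝ)} {m : Measure (ℝ × ℝ)} (hK : IsCarpet K) (hm : IsCarpetMeasure K m) {ψ : ℝ × ℝ → ℝ} (h : Small ψ)
    {k n : ℕ} (T : Finset (ℕ × ℕ)) {w c : ℕ × ℕ} (hw : w ∈ G k) (hc : c ∈ G n) :
    av m (cp k T ψ) (k + n) (emb n w c) = if w ∈ T then av m ψ n c else 0 := by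
  have h1 : av m (cp k T ψ) (k + n) (emb n w c) = ∫ z, (if w ∈ T then ψ (Fc n c z) else 0) ∂m := by
    unfold av
    refine integral_congr_ae ?_
    filter_upwards [ae_unit hK hm] with z hz
    rw [← Fc_Fc, cp_Fc ψ T w (Fc_unit hc hz)]
  rw [h1]
  split_ifs
  · rfl
  · simp

private theorem cpy_av_unit {K : Set (ℝ × ℝ)} {m : Measure (ℝ × ℝ)} (hm : IsCarpetMeasure K m) {f : ℝ × ℝ → ℝ} (hf : Measurable f)
    (h : ∀ z, 0 ≤ f z ∧ f z ≤ 1) (n : ℕ) (c : ℕ × ℕ) : 0 ≤ av m f n c ∧ av m f n c ≤ 1 := by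
  have := hm.prob
  have h1 : Integrable (fun z => f (Fc n c z)) m := cp_integrable hm (hf.comp (measurable_Fc n c)) fun z => h _
  refine ⟨integral_nonneg fun z => (h _).1, ?_⟩
  have h2 : ∫ z, f (Fc n c z) ∂m ≤ ∫ _z, (1:ℝ) ∂m := integral_mono h1 (integrable_const _) fun z => (h _).2
  simpa [av] using h2

private theorem cpy_bdry {K : Set (ℝ × ℝ)} {m : Measure (ℝ × ℝ)} (hK : IsCarpet K) (hm : IsCarpetMeasure K m) {ψ : ℝ × ℝ → ℝ}
    (h : Small ψ) {n : ℕ} (hn : 2 ≤ n) {c : ℕ × ℕ} (hb : Bd n c) : av m ψ n c = 0 := by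
  have h9 : (9:ℝ) ≤ 3 ^ n := by
    calc (9:ℝ) = 3 ^ 2 := by norm_num
      _ ≤ 3 ^ n := pow_le_pow_right₀ (by norm_num) hn
  have hpos : (0:ℝ) < 3 ^ n := by positivity
  have h1 : ∀ᵐ z ∂m, ψ (Fc n c z) = 0 := by
    filter_upwards [ae_unit hK hm] with z hz
    obtain ⟨⟨z1, z2⟩, z3, z4⟩ := hz
    apply h.supp
    rintro ⟨a1, a2, a3, a4⟩
    simp only [Fc] at a1 a2 a3 a4
    rw [lt_div_iff₀ hpos] at a1 a3
    rw [div_lt_iff₀ hpos] at a2 a4
    rcases hb with hb | hb | hb | hb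
    · rw [hb] at a1
      push_cast at a1
      linarith
    · rw [hb] at a3
      push_cast at a3
      linarith
    · have : (c.1 : ℝ) + 1 = 3 ^ n := by exact_mod_cast hb
      linarith
    · have : (c.2 : ℝ) + 1 = 3 ^ n := by exact_mod_cast hb
      linarith
  unfold av
  rw [integral_congr_ae h1]
  simp

private theorem cpy_ve {K : Set (ℝ × ℝ)} {m : Measure (ℝ × ℝ)} (hK : IsCarpet K) (hm : IsCarpetMeasure K m) {ψ : ℝ × ℝ → ℝ} (h : Small ψ)
    {s : ℝ} {k n : ℕ} {T : Finset (ℕ × ℕ)} {w z : ℕ × ℕ} (hw : w ∈ G k) (hwT : w ∈ T) (hz : z ∈ G n) :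
    ∑ z' ∈ G n, (if near (emb n w z) (emb n w z') then |av m (cp k T ψ) (k + n) (emb n w z) -
      av m (cp k T ψ) (k + n) (emb n w z')| ^ s else 0) = ve (G n) s (av m ψ n) z := by
  unfold ve
  refine Finset.sum_congr rfl fun z' hz' => ?_
  rw [av_cp hK hm h T hw hz, av_cp hK hm h T hw hz', if_pos hwT, if_pos hwT]
  by_cases hn : near z z'
  · rw [if_pos hn, if_pos (near_emb.2 hn)]
  · rw [if_neg hn, if_neg fun hh => hn (near_emb.1 hh)]

theorem cp_lower {K : Set (ℝ × ℝ)} {m : Measure (ℝ × ℝ)} (hK : IsCarpet K) (hm : IsCarpetMeasure K m) {ψ : ℝ × ℝ → ℝ} (h : Small ψ)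
    {s : ℝ} {k n : ℕ} {T : Finset (ℕ × ℕ)} (hT : T ⊆ G k) :
    (T.card : ℝ) * En (G n) s (av m ψ n) ≤ En (G (k + n)) s (av m (cp k T ψ) (k + n)) := by
  have h1 : (T.card : ℝ) * En (G n) s (av m ψ n) = ∑ w ∈ T, ∑ z ∈ G n, ve (G n) s (av m ψ n) z := by
    rw [Finset.sum_const, nsmul_eq_mul]
    rfl
  rw [h1]
  unfold En
  rw [sum_G_add]
  have h2 : ∑ w ∈ T, ∑ z ∈ G n, ve (G n) s (av m ψ n) z ≤
      ∑ w ∈ T, ∑ z ∈ G n, ve (G (k + n)) s (av m (cp k T ψ) (k + n)) (emb n w z) := by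
    refine Finset.sum_le_sum fun w hw => Finset.sum_le_sum fun z hz => ?_
    rw [← cpy_ve hK hm h (hT hw) hw hz]
    unfold ve
    rw [sum_G_add (fun b => if near (emb n w z) b then |av m (cp k T ψ) (k + n) (emb n w z) -
      av m (cp k T ψ) (k + n) b| ^ s else 0)]
    refine Finset.single_le_sum (f := fun w' => ∑ z' ∈ G n, (if near (emb n w z) (emb n w' z') then
      |av m (cp k T ψ) (k + n) (emb n w z) - av m (cp k T ψ) (k + n) (emb n w' z')| ^ s else 0))
      (fun w' _ => Finset.sum_nonneg fun z' _ => ?_) (hT hw)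
    split_ifs
    · exact Real.rpow_nonneg (abs_nonneg _) _
    · exact le_refl _
  refine h2.trans (Finset.sum_le_sum_of_subset_of_nonneg hT fun w _ _ => Finset.sum_nonneg fun z _ => ve_nonneg _ _ _ _)

private theorem cpy_zero {K : Set (ℝ × ℝ)} {m : Measure (ℝ × ℝ)} (hK : IsCarpet K) (hm : IsCarpetMeasure K m) {ψ : ℝ × ℝ → ℝ} (h : Small ψ)
    {k n : ℕ} (hn : 2 ≤ n) {T : Finset (ℕ × ℕ)} {w z : ℕ × ℕ} (hw : w ∈ G k) (hz : z ∈ G n) (hb : Bd n z) :
    av m (cp k T ψ) (k + n) (emb n w z) = 0 := by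
  rw [av_cp hK hm h T hw hz, cpy_bdry hK hm h hn hb]
  split_ifs <;> rfl

theorem cp_upper {K : Set (ℝ × ℝ)} {m : Measure (ℝ × ℝ)} (hK : IsCarpet K) (hm : IsCarpetMeasure K m) {ψ : ℝ × ℝ → ℝ} (h : Small ψ)
    {t : ℝ} (ht : 1 ≤ t) {k n : ℕ} {T : Finset (ℕ × ℕ)} (hT : T ⊆ G k) :
    En (G (k + n)) t (av m (cp k T ψ) (k + n)) ≤ (T.card : ℝ) * (En (G n) t (av m ψ n) + if n < 2 then 144 else 0) := by
  classical
  have ht0 : t ≠ 0 := by linarith
  by_cases hn : n < 2
  · rw [if_pos hn]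
    set g := av m (cp k T ψ) (k + n) with hg
    have hg0 : ∀ x ∈ G (k + n), anc n x ∉ T → g x = 0 := by
      intro x hx hxT
      have h1 := av_cp hK hm h T (anc_mem hx) (loc_mem hx)
      rw [emb_anc_loc, if_neg hxT] at h1
      exact h1
    have hg1 : ∀ x, 0 ≤ g x ∧ g x ≤ 1 := fun x => cpy_av_unit hm (measurable_cp h k T) (cp_unit h k T) _ _
    set I : ℕ × ℕ → ℝ := fun x => if anc n x ∈ T then 1 else 0 with hI
    have hI0 : ∀ x, 0 ≤ I x := fun x => by simp only [hI]; split_ifs <;> norm_num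
    have h1 : ∀ x ∈ G (k + n), ∀ y ∈ G (k + n), |g x - g y| ^ t ≤ I x + I y := by
      intro x hx y hy
      have hle : |g x - g y| ≤ 1 := by
        rw [abs_le]
        constructor <;> linarith [(hg1 x).1, (hg1 x).2, (hg1 y).1, (hg1 y).2]
      by_cases hxT : anc n x ∈ T
      · have e1 : I x = 1 := by simp only [hI, if_pos hxT]
        have e2 := Real.rpow_le_one (abs_nonneg _) hle (by linarith : (0:ℝ) ≤ t)
        linarith [hI0 y]
      · by_cases hyT : anc n y ∈ T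
        · have e1 : I y = 1 := by simp only [hI, if_pos hyT]
          have e2 := Real.rpow_le_one (abs_nonneg _) hle (by linarith : (0:ℝ) ≤ t)
          linarith [hI0 x]
        · rw [hg0 x hx hxT, hg0 y hy hyT, sub_zero, abs_zero, Real.zero_rpow ht0]
          linarith [hI0 x, hI0 y]
    have h2 : En (G (k + n)) t g ≤ ∑ x ∈ G (k + n), ∑ y ∈ G (k + n), (if near x y then I x + I y else 0) := by
      unfold En ve
      refine Finset.sum_le_sum fun x hx => Finset.sum_le_sum fun y hy => ?_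
      split_ifs
      · exact h1 x hx y hy
      · exact le_refl _
    have h3 : ∑ x ∈ G (k + n), ∑ y ∈ G (k + n), (if near x y then I x + I y else 0) =
        2 * ∑ x ∈ G (k + n), ∑ y ∈ G (k + n), (if near x y then I x else 0) := by
      have e1 : ∑ x ∈ G (k + n), ∑ y ∈ G (k + n), (if near x y then I x + I y else 0) =
          ∑ x ∈ G (k + n), ∑ y ∈ G (k + n), (if near x y then I x else 0) +
          ∑ x ∈ G (k + n), ∑ y ∈ G (k + n), (if near x y then I y else 0) := by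
        rw [← Finset.sum_add_distrib]
        refine Finset.sum_congr rfl fun x _ => ?_
        rw [← Finset.sum_add_distrib]
        refine Finset.sum_congr rfl fun y _ => ?_
        split_ifs <;> simp
      have e2 : ∑ x ∈ G (k + n), ∑ y ∈ G (k + n), (if near x y then I y else 0) =
          ∑ x ∈ G (k + n), ∑ y ∈ G (k + n), (if near x y then I x else 0) := by
        rw [Finset.sum_comm]
        refine Finset.sum_congr rfl fun x _ => Finset.sum_congr rfl fun y _ => ?_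
        simp only [near_comm]
      rw [e1, e2]
      ring
    have h4 : ∀ x ∈ G (k + n), ∑ y ∈ G (k + n), (if near x y then I x else 0) ≤ 9 * I x := by
      intro x _
      rw [← Finset.sum_filter, Finset.sum_const, nsmul_eq_mul]
      refine mul_le_mul_of_nonneg_right ?_ (hI0 x)
      exact_mod_cast near_card (G (k + n)) x
    have h5 : ∑ x ∈ G (k + n), I x = T.card * 8 ^ n := by
      rw [sum_G_add]
      have e1 : ∀ w ∈ G k, ∑ z ∈ G n, I (emb n w z) = (if w ∈ T then 1 else 0) * 8 ^ n := by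
        intro w _
        have e2 : ∀ z ∈ G n, I (emb n w z) = if w ∈ T then 1 else 0 := by
          intro z hz
          have := G_lt hz
          simp only [hI, anc_emb this.1 this.2]
        rw [Finset.sum_congr rfl e2, Finset.sum_const, card_G, nsmul_eq_mul]
        push_cast
        ring
      rw [Finset.sum_congr rfl e1, ← Finset.sum_mul]
      congr 1
      rw [← Finset.sum_filter, Finset.sum_const, nsmul_eq_mul, mul_one]
      congr 2
      ext w
      simp only [Finset.mem_filter]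
      exact ⟨fun hh => hh.2, fun hh => ⟨hT hh, hh⟩⟩
    have h6 : (8:ℝ) ^ n ≤ 8 := by
      calc (8:ℝ) ^ n ≤ 8 ^ 1 := pow_le_pow_right₀ (by norm_num) (by omega)
        _ = 8 := by norm_num
    have h7 : ∑ x ∈ G (k + n), ∑ y ∈ G (k + n), (if near x y then I x else 0) ≤ 9 * (T.card * 8 ^ n) := by
      refine (Finset.sum_le_sum h4).trans ?_
      rw [← Finset.mul_sum, h5]
    have h8 := En_nonneg (G n) t (av m ψ n)
    have h9 : (0:ℝ) ≤ T.card := Nat.cast_nonneg _
    nlinarith [mul_le_mul_of_nonneg_left h6 h9, mul_nonneg h9 h8]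
  · rw [if_neg hn, add_zero]
    have hn2 : 2 ≤ n := by omega
    apply le_of_eq
    have h1 : (T.card : ℝ) * En (G n) t (av m ψ n) =
        ∑ w ∈ G k, ∑ z ∈ G n, (if w ∈ T then ve (G n) t (av m ψ n) z else 0) := by
      have e1 : ∀ w ∈ G k, ∑ z ∈ G n, (if w ∈ T then ve (G n) t (av m ψ n) z else 0) =
          if w ∈ T then En (G n) t (av m ψ n) else 0 := by
        intro w _
        split_ifs
        · rfl
        · simp
      rw [Finset.sum_congr rfl e1, ← Finset.sum_filter, Finset.sum_const, nsmul_eq_mul]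
      congr 2
      congr 1
      ext w
      simp only [Finset.mem_filter]
      exact ⟨fun hh => ⟨hT hh, hh⟩, fun hh => hh.2⟩
    rw [h1]
    unfold En
    rw [sum_G_add]
    refine Finset.sum_congr rfl fun w hw => Finset.sum_congr rfl fun z hz => ?_
    unfold ve
    rw [sum_G_add (fun b => if near (emb n w z) b then |av m (cp k T ψ) (k + n) (emb n w z) -
      av m (cp k T ψ) (k + n) b| ^ t else 0)]
    rw [Finset.sum_eq_single w]
    · by_cases hwT : w ∈ T
      · rw [if_pos hwT]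
        exact cpy_ve hK hm h hw hwT hz
      · rw [if_neg hwT]
        refine Finset.sum_eq_zero fun z' hz' => ?_
        rw [av_cp hK hm h T hw hz, av_cp hK hm h T hw hz', if_neg hwT, if_neg hwT, sub_zero, abs_zero,
          Real.zero_rpow ht0]
        simp
    · intro w' hw' hne
      refine Finset.sum_eq_zero fun z' hz' => ?_
      split_ifs with hnear
      · have l1 := G_lt hz
        have l2 := G_lt hz'
        have b1 : Bd n z := by
          have := near_cross (m := n) hnear (by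
            rw [anc_emb l1.1 l1.2, anc_emb l2.1 l2.2]
            exact hne.symm)
          rwa [loc_emb l1.1 l1.2] at this
        have b2 : Bd n z' := by
          have := near_cross (m := n) (near_symm hnear) (by
            rw [anc_emb l1.1 l1.2, anc_emb l2.1 l2.2]
            exact hne)
          rwa [loc_emb l2.1 l2.2] at this
        rw [cpy_zero hK hm h hn2 hw hz b1, cpy_zero hK hm h hn2 hw' hz' b2, sub_zero, abs_zero, Real.zero_rpow ht0]
      · rfl
    · intro hh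
      exact absurd hw hh

theorem cp_int {K : Set (ℝ × ℝ)} {m : Measure (ℝ × ℝ)} (hK : IsCarpet K) (hm : IsCarpetMeasure K m) {ψ : ℝ × ℝ → ℝ} (h : Small ψ)
    {t : ℝ} (ht : 1 ≤ t) {k : ℕ} {T : Finset (ℕ × ℕ)} (hT : T ⊆ G k) : ∫ z, |cp k T ψ z| ^ t ∂m ≤ (T.card : ℝ) / 8 ^ k := by
  classical
  have ht0 : t ≠ 0 := by linarith
  have := hm.prob
  have hu : ∀ z, 0 ≤ |cp k T ψ z| ^ t ∧ |cp k T ψ z| ^ t ≤ 1 := by
    intro z
    have h1 := cp_unit h k T z
    refine ⟨Real.rpow_nonneg (abs_nonneg _) _, Real.rpow_le_one (abs_nonneg _) ?_ (by linarith)⟩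
    rw [abs_of_nonneg h1.1]
    exact h1.2
  have hmeas : Measurable fun z => |cp k T ψ z| ^ t := by
    have h1 : Measurable fun z => |cp k T ψ z| := (measurable_cp h k T).abs
    exact h1.pow_const t
  have hint : Integrable (fun z => |cp k T ψ z| ^ t) m := cp_integrable hm hmeas hu
  rw [integral_split hK hm hint k]
  refine div_le_div_of_nonneg_right ?_ (by positivity)
  have h1 : ∀ c ∈ G k, ∫ z, |cp k T ψ (Fc k c z)| ^ t ∂m ≤ if c ∈ T then 1 else 0 := by
    intro c hc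
    split_ifs with hcT
    · have h2 : Integrable (fun z => |cp k T ψ (Fc k c z)| ^ t) m := integrable_Fc hK hm hint hc
      have h3 : ∫ z, |cp k T ψ (Fc k c z)| ^ t ∂m ≤ ∫ _z, (1:ℝ) ∂m :=
        integral_mono h2 (integrable_const _) fun z => (hu _).2
      simpa using h3
    · apply le_of_eq
      have h2 : (fun z => |cp k T ψ (Fc k c z)| ^ t) =ᵐ[m] fun _ => (0:ℝ) := by
        filter_upwards [ae_unit hK hm] with z hz
        rw [cp_Fc ψ T c hz, if_neg hcT, abs_zero, Real.zero_rpow ht0]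
      rw [integral_congr_ae h2]
      simp
  refine (Finset.sum_le_sum h1).trans ?_
  rw [← Finset.sum_filter, Finset.sum_const, nsmul_eq_mul, mul_one]
  exact_mod_cast Finset.card_le_card (fun x hx => (Finset.mem_filter.1 hx).2)

private theorem cpy_level {K : Set (ℝ × ℝ)} {m : Measure (ℝ × ℝ)} (hK : IsCarpet K) (hm : IsCarpetMeasure K m) {ψ : ℝ × ℝ → ℝ}
    (h : Small ψ) {N : ℕ} (T : Finset (ℕ × ℕ)) {x : ℕ × ℕ} (hx : x ∈ G N) :
    av m (cp N T ψ) N x = if x ∈ T then av m ψ 0 (0, 0) else 0 := by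
  have h1 := av_cp hK hm h T (k := N) (n := 0) hx (show ((0, 0) : ℕ × ℕ) ∈ G 0 by decide)
  have h2 : emb 0 x (0, 0) = x := by simp [emb]
  rw [h2] at h1
  exact h1

private theorem cpy_coarse {K : Set (ℝ × ℝ)} {m : Measure (ℝ × ℝ)} (hK : IsCarpet K) (hm : IsCarpetMeasure K m) {ψ : ℝ × ℝ → ℝ}
    (h : Small ψ) {n i : ℕ} (T : Finset (ℕ × ℕ)) {c : ℕ × ℕ} (hc : c ∈ G n) :
    av m (cp (n + i) T ψ) n c = (∑ z ∈ G i, if emb i c z ∈ T then av m ψ 0 (0, 0) else 0) / 8 ^ i := by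
  rw [av_refine hK hm (cp_integrable hm (measurable_cp h (n + i) T) (cp_unit h (n + i) T)) i hc]
  congr 1
  refine Finset.sum_congr rfl fun z hz => ?_
  rw [cpy_level hK hm h T (emb_mem hc hz)]

theorem cp_low_single {K : Set (ℝ × ℝ)} {m : Measure (ℝ × ℝ)} (hK : IsCarpet K) (hm : IsCarpetMeasure K m) {ψ : ℝ × ℝ → ℝ}
    (h : Small ψ) {t : ℝ} (ht : 1 ≤ t) {n i : ℕ} {w : ℕ × ℕ} (hw : w ∈ G (n + i)) :
    En (G n) t (av m (cp (n + i) {w} ψ) n) ≤ 9 * 2 ^ t * ((8 : ℝ) ^ i)⁻¹ ^ t := by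
  have ht0 : t ≠ 0 := by linarith
  refine (En_le_sum ht _).trans (mul_le_mul_of_nonneg_left ?_ (by positivity))
  have hI := cpy_av_unit hm h.meas h.unit 0 (0, 0)
  have hval : ∀ c ∈ G n, av m (cp (n + i) {w} ψ) n c = if c = anc i w then av m ψ 0 (0, 0) / 8 ^ i else 0 := by
    intro c hc
    rw [cpy_coarse hK hm h {w} hc]
    by_cases hcw : c = anc i w
    · rw [if_pos hcw]
      congr 1
      rw [Finset.sum_eq_single (loc i w)]
      · rw [hcw, emb_anc_loc]
        simp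
      · intro z hz hne
        rw [if_neg]
        rw [Finset.mem_singleton]
        intro hh
        apply hne
        rw [← hh, loc_emb (G_lt hz).1 (G_lt hz).2]
      · intro hh
        exact absurd (loc_mem hw) hh
    · rw [if_neg hcw]
      rw [Finset.sum_eq_zero, zero_div]
      intro z hz
      rw [if_neg]
      rw [Finset.mem_singleton]
      intro hh
      apply hcw
      rw [← hh, anc_emb (G_lt hz).1 (G_lt hz).2]
  rw [Finset.sum_eq_single_of_mem (anc i w) (anc_mem hw)]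
  · rw [hval _ (anc_mem hw), if_pos rfl]
    refine Real.rpow_le_rpow (abs_nonneg _) ?_ (by linarith)
    rw [abs_of_nonneg (div_nonneg hI.1 (by positivity)), div_eq_mul_inv]
    exact mul_le_of_le_one_left (by positivity) hI.2
  · intro c hc hne
    rw [hval c hc, if_neg hne, abs_zero, Real.zero_rpow ht0]

theorem cp_low_all {K : Set (ℝ × ℝ)} {m : Measure (ℝ × ℝ)} (hK : IsCarpet K) (hm : IsCarpetMeasure K m) {ψ : ℝ × ℝ → ℝ}
    (h : Small ψ) {t : ℝ} (ht : 1 ≤ t) {n i : ℕ} : En (G n) t (av m (cp (n + i) (G (n + i)) ψ) n) = 0 := by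
  have ht0 : t ≠ 0 := by linarith
  have hval : ∀ c ∈ G n, av m (cp (n + i) (G (n + i)) ψ) n c = (8 ^ i * av m ψ 0 (0, 0)) / 8 ^ i := by
    intro c hc
    rw [cpy_coarse hK hm h _ hc]
    congr 1
    rw [Finset.sum_congr rfl fun z hz => if_pos (emb_mem hc hz), Finset.sum_const, card_G, nsmul_eq_mul]
    push_cast
    rfl
  rw [En_congr (v := fun _ => (8 ^ i * av m ψ 0 (0, 0)) / 8 ^ i) hval]
  unfold En ve
  simp [Real.zero_rpow ht0]

end Pool.Agent.NIF
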