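import Pool.Agent.NIF.MIN

/-!
SYM (50 lines). A crossing function with energy at most the capacity which is symmetric in the second coordinate.

PROOF. Let u be minimal (exists_min). Put v c = (u c + u (ry n c')) / 2 where for c with c.2 < 3^n, c' = c; for all c take simply
v c = (u c + u (ry n c)) / 2: values in [0,1]; ry n (ry n c) = c for c ∈ G n so v (ry n c) = v c; admissible because ry keeps the first
coordinate and maps G n to G n (ry_mem). Energy: v = (1/2) (u + u ∘ ry): En_smul and En_add_le give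
En v ≤ (1/2)^t 2^(t-1) (En u + En (u ∘ ry)) and En (u ∘ ry) ≤ En u (En_image_le with e = ry n, near_ry, injective on G n), so En v ≤ En u = cap.
-/

set_option autoImplicit false

namespace Pool.Agent.NIF

/-- symmetric crossing functions -/
structure SymAdm (t : ℝ) (n : ℕ) (u : ℕ × ℕ → ℝ) : Prop where
  adm : Adm n u
  unit : ∀ c, 0 ≤ u c ∧ u c ≤ 1
  sym : ∀ c ∈ G n, u (ry n c) = u c
  le : En (G n) t u ≤ cap t n

private theorem sym_ry_ry {n : ℕ} {c : ℕ × ℕ} (h : c ∈ G n) : ry n (ry n c) = c := by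
  have h2 := (G_lt h).2
  unfold ry
  ext
  · rfl
  · dsimp only
    generalize 3 ^ n = N at *
    omega

private theorem sym_energy {t : ℝ} (ht : 1 ≤ t) {n : ℕ} (u : ℕ × ℕ → ℝ) :
    En (G n) t (fun c => (1 / 2 : ℝ) * (u c + u (ry n c))) ≤ En (G n) t u := by
  have h1 : En (G n) t (fun a => u (ry n a)) ≤ En (G n) t u := by
    refine En_image_le (fun a ha => ry_mem ha) ?_ ?_ u
    · intro a ha b hb hab
      rw [← sym_ry_ry ha, ← sym_ry_ry hb, hab]
    · intro a ha b hb hab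
      exact (near_ry (G_lt ha).2 (G_lt hb).2).2 hab
  have h2 := En_add_le (A := G n) ht u (fun a => u (ry n a))
  rw [En_smul]
  have h3 : |(1 / 2 : ℝ)| ^ t = (1 / 2 : ℝ) ^ t := by
    rw [abs_of_pos (by norm_num)]
  rw [h3]
  have h4 : (0 : ℝ) ≤ (1 / 2 : ℝ) ^ t := by positivity
  have h5 : (0 : ℝ) ≤ (2 : ℝ) ^ (t - 1) := by positivity
  have h6 : (1 / 2 : ℝ) ^ t * ((2 : ℝ) ^ (t - 1) * 2) = 1 := by
    rw [Real.rpow_sub_one two_ne_zero, div_mul_cancel₀ _ two_ne_zero,
      ← Real.mul_rpow (by norm_num) (by norm_num)]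
    norm_num
  calc (1 / 2 : ℝ) ^ t * En (G n) t (fun a => u a + u (ry n a))
      ≤ (1 / 2 : ℝ) ^ t * (2 ^ (t - 1) * (En (G n) t u + En (G n) t (fun a => u (ry n a)))) :=
        mul_le_mul_of_nonneg_left h2 h4
    _ ≤ (1 / 2 : ℝ) ^ t * (2 ^ (t - 1) * (En (G n) t u + En (G n) t u)) :=
        mul_le_mul_of_nonneg_left (mul_le_mul_of_nonneg_left (by linarith) h5) h4
    _ = (1 / 2 : ℝ) ^ t * ((2 : ℝ) ^ (t - 1) * 2) * En (G n) t u := by ring
    _ = En (G n) t u := by rw [h6, one_mul]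

theorem exists_sym {t : ℝ} (ht : 1 ≤ t) {n : ℕ} (hn : 1 ≤ n) : ∃ u : ℕ × ℕ → ℝ, SymAdm t n u := by
  obtain ⟨u, hu⟩ := exists_min ht hn
  refine ⟨fun c => (1 / 2 : ℝ) * (u c + u (ry n c)), ⟨⟨?_, ?_⟩, ?_, ?_, ?_⟩⟩
  · intro c hc h0
    have h1 := hu.1.left c hc h0
    have h2 := hu.1.left (ry n c) (ry_mem hc) h0
    change (1 / 2 : ℝ) * (u c + u (ry n c)) = 0
    rw [h1, h2]
    norm_num
  · intro c hc h0
    have h1 := hu.1.right c hc h0
    have h2 := hu.1.right (ry n c) (ry_mem hc) h0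
    change (1 / 2 : ℝ) * (u c + u (ry n c)) = 1
    rw [h1, h2]
    norm_num
  · intro c
    have h1 := hu.2.1 c
    have h2 := hu.2.1 (ry n c)
    constructor
    · linarith [h1.1, h2.1]
    · linarith [h1.2, h2.2]
  · intro c hc
    rw [sym_ry_ry hc, add_comm]
  · refine (sym_energy ht u).trans ?_
    exact hu.eq_cap.le

end Pool.Agent.NIF
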