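import Pool.Agent.NIF.SUB
import Pool.Agent.NIF.SYM

/-!
CUT (50 lines). A cutoff function of level 3 + s: 1 around the cell (6,6) of level 3, 0 near the boundary of the square, energy ≤ C cap t s.

PROOF. g c = if 4 ≤ c.1 ∧ c.1 ≤ 8 ∧ 4 ≤ c.2 ∧ c.2 ≤ 8 then 1 else 0 on G 3 (27 × 27 grid), C = A · En (G 3) t g with A of exists_subst; u from exists_sym (level s),
χ = h of exists_subst (n = 3, m = s). Energy ≤ A En u En g ≤ C cap t s. Values in [0,1]: hull with lo = 0, hi = 1. Near (6,6): if near (6,6) (anc s x) and v is near anc s x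
then 4 ≤ v.i ≤ 8, g v = 1: hull with lo = hi = 1. Far: if (anc s x).1 ≤ 2 or ≥ 10 or the same for the second coordinate, every v near it has g v = 0.
-/

set_option autoImplicit false

namespace Pool.Agent.NIF

theorem cutoff {t : ℝ} (ht : 1 ≤ t) : ∃ C : ℝ, 0 ≤ C ∧ ∀ s : ℕ, 1 ≤ s → ∃ χ : ℕ × ℕ → ℝ,
    (∀ x ∈ G (3 + s), 0 ≤ χ x ∧ χ x ≤ 1) ∧
    (∀ x ∈ G (3 + s), near (6, 6) (anc s x) → χ x = 1) ∧
    (∀ x ∈ G (3 + s), ((anc s x).1 ≤ 2 ∨ 10 ≤ (anc s x).1 ∨ (anc s x).2 ≤ 2 ∨ 10 ≤ (anc s x).2) → χ x = 0) ∧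
    En (G (3 + s)) t χ ≤ C * cap t s := by
  obtain ⟨A, hA, hA2⟩ := exists_subst ht
  set g : ℕ × ℕ → ℝ := fun c => if 4 ≤ c.1 ∧ c.1 ≤ 8 ∧ 4 ≤ c.2 ∧ c.2 ≤ 8 then 1 else 0 with hg
  have hA0 : 0 ≤ A := by linarith
  have hEg : 0 ≤ En (G 3) t g := En_nonneg _ _ _
  refine ⟨A * En (G 3) t g, mul_nonneg hA0 hEg, ?_⟩
  intro s hs
  obtain ⟨u, hu⟩ := exists_sym ht hs
  obtain ⟨h, hE, hh, _⟩ := hA2 s u hs hu.adm hu.unit hu.sym 3 g
  refine ⟨h, ?_, ?_, ?_, ?_⟩
  · intro x hx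
    refine hh x hx 0 1 (fun v _ _ => ?_)
    simp only [hg]
    split_ifs <;> norm_num
  · intro x hx hn
    have h1 := hh x hx 1 1 (fun v _ hvn => by
      have h2 : g v = 1 := by
        simp only [hg]
        rw [if_pos]
        unfold near at hn hvn
        simp only at hn
        omega
      rw [h2]
      exact ⟨le_rfl, le_rfl⟩)
    exact le_antisymm h1.2 h1.1
  · intro x hx hn
    have h1 := hh x hx 0 0 (fun v _ hvn => by
      have h2 : g v = 0 := by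
        simp only [hg]
        rw [if_neg]
        unfold near at hvn
        omega
      rw [h2]
      exact ⟨le_rfl, le_rfl⟩)
    exact le_antisymm h1.2 h1.1
  · calc En (G (3 + s)) t h ≤ A * En (G s) t u * En (G 3) t g := hE
      _ ≤ A * cap t s * En (G 3) t g :=
        mul_le_mul_of_nonneg_right (mul_le_mul_of_nonneg_left hu.le hA0) hEg
      _ = A * En (G 3) t g * cap t s := by ring

end Pool.Agent.NIF
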