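import Pool.Agent.NIF.FLD

/-!
DST (120 lines). A short path along the strip.

PROOF. C' from strip_cap, C = C' · 9 · 2^t. Let A = strip j s, L > 0. For x ∈ A let D x be the infimum of L and of all path sums Σ_{i ≤ N} ℓ (γ i), γ a path in A with
(γ 0).1 = 0 and γ N = x (sInf of a nonempty set bounded below by 0; nonempty because of L). Facts: 0 ≤ D ≤ L; D x ≤ ℓ x if x.1 = 0 (the path with N = 0);
D y ≤ D x + ℓ y for near x, y ∈ A (append y to the path: N + 1, γ' i = if i ≤ N then γ i else y; le_csInf).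
Φ x = if x.1 = 0 then 0 else D x / L. For near x, y ∈ A: |Φ x - Φ y| ≤ (ℓ x + ℓ y)/L (cases: none, one or both in the left column). Suppose there is no path as
claimed; then D x = L, Φ x = 1 for x ∈ A with x.1 + 1 = 3^(j+s) (x.1 ≠ 0 as s ≥ 1). strip_cap: cap t s ≤ C' (3^j)^(t-1) En A t Φ and
En A t Φ ≤ L^(-t) Σ_{near x,y ∈ A} (ℓ x + ℓ y)^t ≤ L^(-t) · 2^(t-1) · 18 Σ_A ℓ^t (rpow_add_le, near_card twice) = L^(-t) · 9 · 2^t Σ_A ℓ^t. So
L^t cap t s ≤ C (3^j)^(t-1) Σ_A ℓ^t, contradiction to the hypothesis.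
-/

set_option autoImplicit false

namespace Pool.Agent.NIF

/-- path sums from the left column to x, together with L -/
private def dstT (A : Finset (ℕ × ℕ)) (ℓ : ℕ × ℕ → ℝ) (L : ℝ) (x : ℕ × ℕ) : Set ℝ :=
  {r | r = L ∨ ∃ (N : ℕ) (γ : ℕ → ℕ × ℕ), IsPath A N γ ∧ (γ 0).1 = 0 ∧ γ N = x ∧
    r = ∑ i ∈ Finset.range (N + 1), ℓ (γ i)}

/-- the truncated distance from the left column -/
private noncomputable def dstD (A : Finset (ℕ × ℕ)) (ℓ : ℕ × ℕ → ℝ) (L : ℝ) (x : ℕ × ℕ) : ℝ :=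
  sInf (dstT A ℓ L x)

private theorem dst_low {A : Finset (ℕ × ℕ)} {ℓ : ℕ × ℕ → ℝ} {L : ℝ} (hℓ : ∀ c, 0 ≤ ℓ c) (hL : 0 < L) (x : ℕ × ℕ) :
    ∀ r ∈ dstT A ℓ L x, 0 ≤ r := by
  rintro r (rfl | ⟨N, γ, -, -, -, rfl⟩)
  · exact hL.le
  · exact Finset.sum_nonneg fun i _ => hℓ _

private theorem dst_bdd {A : Finset (ℕ × ℕ)} {ℓ : ℕ × ℕ → ℝ} {L : ℝ} (hℓ : ∀ c, 0 ≤ ℓ c) (hL : 0 < L) (x : ℕ × ℕ) :
    BddBelow (dstT A ℓ L x) := ⟨0, fun r hr => dst_low hℓ hL x r hr⟩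

private theorem dst_ne {A : Finset (ℕ × ℕ)} {ℓ : ℕ × ℕ → ℝ} {L : ℝ} (x : ℕ × ℕ) : (dstT A ℓ L x).Nonempty :=
  ⟨L, Or.inl rfl⟩

private theorem dst_nonneg {A : Finset (ℕ × ℕ)} {ℓ : ℕ × ℕ → ℝ} {L : ℝ} (hℓ : ∀ c, 0 ≤ ℓ c) (hL : 0 < L) (x : ℕ × ℕ) :
    0 ≤ dstD A ℓ L x := le_csInf (dst_ne x) (dst_low hℓ hL x)

private theorem dst_le {A : Finset (ℕ × ℕ)} {ℓ : ℕ × ℕ → ℝ} {L : ℝ} (hℓ : ∀ c, 0 ≤ ℓ c) (hL : 0 < L) (x : ℕ × ℕ) :
    dstD A ℓ L x ≤ L := csInf_le (dst_bdd hℓ hL x) (Or.inl rfl)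

private theorem dst_left {A : Finset (ℕ × ℕ)} {ℓ : ℕ × ℕ → ℝ} {L : ℝ} (hℓ : ∀ c, 0 ≤ ℓ c) (hL : 0 < L) {x : ℕ × ℕ}
    (hx : x ∈ A) (h0 : x.1 = 0) : dstD A ℓ L x ≤ ℓ x := by
  refine csInf_le (dst_bdd hℓ hL x) (Or.inr ⟨0, fun _ => x, ⟨fun _ _ => hx, fun i hi => absurd hi (Nat.not_lt_zero i)⟩,
    h0, rfl, ?_⟩)
  simp

private theorem dst_step {A : Finset (ℕ × ℕ)} {ℓ : ℕ × ℕ → ℝ} {L : ℝ} (hℓ : ∀ c, 0 ≤ ℓ c) (hL : 0 < L) {x y : ℕ × ℕ}
    (hy : y ∈ A) (hxy : near x y) : dstD A ℓ L y ≤ dstD A ℓ L x + ℓ y := by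
  rw [← sub_le_iff_le_add]
  refine le_csInf (dst_ne x) ?_
  rintro r (rfl | ⟨N, γ, ⟨h1, h2⟩, h3, h4, rfl⟩)
  · have := dst_le (A := A) hℓ hL y
    have := hℓ y
    linarith
  · rw [sub_le_iff_le_add]
    refine csInf_le (dst_bdd hℓ hL y) (Or.inr ⟨N + 1, fun i => if i ≤ N then γ i else y, ⟨?_, ?_⟩, ?_, ?_, ?_⟩)
    · intro i _
      show (if i ≤ N then γ i else y) ∈ A
      by_cases h : i ≤ N
      · rw [if_pos h]
        exact h1 i h
      · rw [if_neg h]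
        exact hy
    · intro i hi
      show near (if i ≤ N then γ i else y) (if i + 1 ≤ N then γ (i + 1) else y)
      rw [if_pos (by omega)]
      by_cases h : i + 1 ≤ N
      · rw [if_pos h]
        exact h2 i (by omega)
      · rw [if_neg h]
        have : i = N := by omega
        rw [this, h4]
        exact hxy
    · show (if 0 ≤ N then γ 0 else y).1 = 0
      rw [if_pos (Nat.zero_le N)]
      exact h3
    · show (if N + 1 ≤ N then γ (N + 1) else y) = y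
      rw [if_neg (by omega)]
    · rw [Finset.sum_range_succ _ (N + 1)]
      congr 1
      · refine Finset.sum_congr rfl fun i hi => ?_
        show ℓ (γ i) = ℓ (if i ≤ N then γ i else y)
        rw [if_pos (by have := Finset.mem_range.1 hi; omega)]
      · show ℓ y = ℓ (if N + 1 ≤ N then γ (N + 1) else y)
        rw [if_neg (by omega)]

/-- the test function -/
private noncomputable def dstP (A : Finset (ℕ × ℕ)) (ℓ : ℕ × ℕ → ℝ) (L : ℝ) (x : ℕ × ℕ) : ℝ :=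
  if x.1 = 0 then 0 else dstD A ℓ L x / L

private theorem dstP_diff {A : Finset (ℕ × ℕ)} {ℓ : ℕ × ℕ → ℝ} {L : ℝ} (hℓ : ∀ c, 0 ≤ ℓ c) (hL : 0 < L) {x y : ℕ × ℕ}
    (hx : x ∈ A) (hy : y ∈ A) (hxy : near x y) : |dstP A ℓ L x - dstP A ℓ L y| ≤ (ℓ x + ℓ y) / L := by
  have hyx := near_symm hxy
  have hx0 := hℓ x
  have hy0 := hℓ y
  have s1 := dst_step (A := A) hℓ hL hy hxy
  have s2 := dst_step (A := A) hℓ hL hx hyx
  have n1 := dst_nonneg (A := A) hℓ hL x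
  have n2 := dst_nonneg (A := A) hℓ hL y
  unfold dstP
  by_cases h1 : x.1 = 0
  · by_cases h2 : y.1 = 0
    · rw [if_pos h1, if_pos h2, sub_self, abs_zero]
      positivity
    · have l1 := dst_left hℓ hL hx h1
      rw [if_pos h1, if_neg h2, zero_sub, abs_neg, abs_of_nonneg (div_nonneg n2 hL.le)]
      exact div_le_div_of_nonneg_right (by linarith) hL.le
  · by_cases h2 : y.1 = 0
    · have l1 := dst_left hℓ hL hy h2
      rw [if_neg h1, if_pos h2, sub_zero, abs_of_nonneg (div_nonneg n1 hL.le)]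
      exact div_le_div_of_nonneg_right (by linarith) hL.le
    · rw [if_neg h1, if_neg h2, ← sub_div, abs_div, abs_of_pos hL]
      refine div_le_div_of_nonneg_right ?_ hL.le
      rw [abs_le]
      constructor <;> linarith

private theorem dst_pairs (A : Finset (ℕ × ℕ)) (X : ℕ × ℕ → ℝ) (hX : ∀ c, 0 ≤ X c) :
    ∑ a ∈ A, ∑ b ∈ A, (if near a b then X a + X b else 0) ≤ 18 * ∑ a ∈ A, X a := by
  have h1 : ∀ a b : ℕ × ℕ, (if near a b then X a + X b else 0) =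
      (if near a b then X a else 0) + (if near a b then X b else 0) := by
    intro a b
    by_cases h : near a b
    · rw [if_pos h, if_pos h, if_pos h]
    · rw [if_neg h, if_neg h, if_neg h, add_zero]
  have h2 : ∀ a : ℕ × ℕ, ∑ b ∈ A, (if near a b then X a else 0) ≤ 9 * X a := by
    intro a
    rw [← Finset.sum_filter, Finset.sum_const, nsmul_eq_mul]
    have h : ((A.filter (near a)).card : ℝ) ≤ 9 := by exact_mod_cast near_card A a
    exact mul_le_mul_of_nonneg_right h (hX a)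
  have h3 : ∑ a ∈ A, ∑ b ∈ A, (if near a b then X a else 0) ≤ 9 * ∑ a ∈ A, X a := by
    rw [Finset.mul_sum]
    exact Finset.sum_le_sum fun a _ => h2 a
  have h4 : ∑ a ∈ A, ∑ b ∈ A, (if near a b then X b else 0) = ∑ a ∈ A, ∑ b ∈ A, (if near a b then X a else 0) := by
    rw [Finset.sum_comm]
    refine Finset.sum_congr rfl fun a _ => Finset.sum_congr rfl fun b _ => ?_
    by_cases h : near a b
    · rw [if_pos h, if_pos (near_symm h)]
    · rw [if_neg h, if_neg (fun h' => h (near_symm h'))]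
  simp only [h1, Finset.sum_add_distrib]
  rw [h4]
  linarith

theorem strip_path {t : ℝ} (ht : 1 ≤ t) : ∃ C : ℝ, 1 ≤ C ∧ ∀ (j s : ℕ) (ℓ : ℕ × ℕ → ℝ) (L : ℝ), 1 ≤ s → (∀ c, 0 ≤ ℓ c) → 0 < L →
    C * ((3 : ℝ) ^ j) ^ (t - 1) * ∑ c ∈ strip j s, ℓ c ^ t < L ^ t * cap t s →
    ∃ (N : ℕ) (γ : ℕ → ℕ × ℕ), IsPath (strip j s) N γ ∧ (γ 0).1 = 0 ∧ (γ N).1 + 1 = 3 ^ (j + s) ∧
      ∑ i ∈ Finset.range (N + 1), ℓ (γ i) < L := by
  obtain ⟨C', hC', hcap⟩ := strip_cap ht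
  have h2t : (1 : ℝ) ≤ 2 ^ (t - 1) := Real.one_le_rpow (by norm_num) (by linarith)
  refine ⟨C' * (18 * 2 ^ (t - 1)), ?_, ?_⟩
  · nlinarith
  intro j s ℓ L hs hℓ hL hlt
  by_contra hno
  set A := strip j s with hA
  have hend : ∀ c ∈ A, c.1 + 1 = 3 ^ (j + s) → dstP A ℓ L c = 1 := by
    intro c hc he
    have h0 : c.1 ≠ 0 := by
      intro h0
      rw [h0] at he
      have : 3 ^ 1 ≤ 3 ^ (j + s) := Nat.pow_le_pow_right (by norm_num) (by omega)
      omega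
    unfold dstP
    rw [if_neg h0]
    have hD : dstD A ℓ L c = L := by
      refine le_antisymm (dst_le hℓ hL c) (le_csInf (dst_ne c) ?_)
      rintro r (rfl | ⟨N, γ, h1, h2, h3, rfl⟩)
      · exact le_rfl
      · by_contra hn
        refine hno ⟨N, γ, h1, h2, ?_, not_le.1 hn⟩
        rw [h3]
        exact he
    rw [hD, div_self hL.ne']
  have hleft : ∀ c ∈ A, c.1 = 0 → dstP A ℓ L c = 0 := by
    intro c _ h0
    unfold dstP
    rw [if_pos h0]
  have h1 := hcap j s (dstP A ℓ L) hs hleft hend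
  have hLt : 0 < L ^ t := Real.rpow_pos_of_pos hL t
  have h3j : (0 : ℝ) ≤ ((3 : ℝ) ^ j) ^ (t - 1) := by positivity
  have hEn : En A t (dstP A ℓ L) ≤ 2 ^ (t - 1) / L ^ t * (18 * ∑ c ∈ A, ℓ c ^ t) := by
    calc En A t (dstP A ℓ L) ≤ ∑ a ∈ A, ∑ b ∈ A, (2 ^ (t - 1) / L ^ t) * (if near a b then ℓ a ^ t + ℓ b ^ t else 0) := by
          unfold En ve
          refine Finset.sum_le_sum fun a ha => Finset.sum_le_sum fun b hb => ?_
          by_cases h : near a b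
          · rw [if_pos h, if_pos h]
            have k1 := dstP_diff hℓ hL ha hb h
            have k2 : |dstP A ℓ L a - dstP A ℓ L b| ^ t ≤ ((ℓ a + ℓ b) / L) ^ t :=
              Real.rpow_le_rpow (abs_nonneg _) k1 (by linarith)
            have k3 : ((ℓ a + ℓ b) / L) ^ t = (ℓ a + ℓ b) ^ t / L ^ t :=
              Real.div_rpow (add_nonneg (hℓ a) (hℓ b)) hL.le t
            have k4 := rpow_add_le ht (hℓ a) (hℓ b)
            rw [k3] at k2
            refine k2.trans ?_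
            rw [div_mul_eq_mul_div]
            exact div_le_div_of_nonneg_right k4 hLt.le
          · rw [if_neg h, if_neg h, mul_zero]
      _ = 2 ^ (t - 1) / L ^ t * ∑ a ∈ A, ∑ b ∈ A, (if near a b then ℓ a ^ t + ℓ b ^ t else 0) := by
          rw [Finset.mul_sum]
          refine Finset.sum_congr rfl fun a _ => ?_
          rw [Finset.mul_sum]
      _ ≤ _ := mul_le_mul_of_nonneg_left (dst_pairs A (fun c => ℓ c ^ t) fun c => Real.rpow_nonneg (hℓ c) t)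
          (by positivity)
  have h2 : L ^ t * cap t s ≤ C' * (18 * 2 ^ (t - 1)) * ((3 : ℝ) ^ j) ^ (t - 1) * ∑ c ∈ A, ℓ c ^ t := by
    calc L ^ t * cap t s ≤ L ^ t * (C' * ((3 : ℝ) ^ j) ^ (t - 1) * (2 ^ (t - 1) / L ^ t * (18 * ∑ c ∈ A, ℓ c ^ t))) :=
          mul_le_mul_of_nonneg_left (h1.trans (mul_le_mul_of_nonneg_left hEn (by positivity))) hLt.le
      _ = _ := by
          field_simp
  exact absurd hlt (not_lt.2 h2)

end Pool.Agent.NIF
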