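import Mathlib
import Pool.Agent.SCI.Defs

/-!
Project NIF (MP_f5a4a4_an: no inclusion between the spaces F_p and F_q on the Sierpinski carpet): definitions.
Cells of level n are lattice points (x,y) with 0 ≤ x,y < 3^n; near = king distance at most 1.
-/

set_option autoImplicit false

namespace Pool.Agent.NIF

open MeasureTheory Pool.Agent.SCI

/-- (x,y) is a cell of level n of the carpet: no base 3 digit position k < n carries the pair (1,1) -/
def inG (n x y : ℕ) : Prop := x < 3 ^ n ∧ y < 3 ^ n ∧ ∀ k < n, ¬ (x / 3 ^ k % 3 = 1 ∧ y / 3 ^ k % 3 = 1)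

instance (n x y : ℕ) : Decidable (inG n x y) := by unfold inG; infer_instance

/-- the cells of level n -/
def G (n : ℕ) : Finset (ℕ × ℕ) :=
  (Finset.range (3 ^ n) ×ˢ Finset.range (3 ^ n)).filter (fun c => inG n c.1 c.2)

/-- nearness in the king graph (equality allowed) -/
def near (a b : ℕ × ℕ) : Prop := a.1 ≤ b.1 + 1 ∧ b.1 ≤ a.1 + 1 ∧ a.2 ≤ b.2 + 1 ∧ b.2 ≤ a.2 + 1

instance : DecidableRel near := fun a b => by unfold near; infer_instance

/-- the vertex energy of u at a inside the set of cells A -/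
noncomputable def ve (A : Finset (ℕ × ℕ)) (t : ℝ) (u : ℕ × ℕ → ℝ) (a : ℕ × ℕ) : ℝ :=
  ∑ b ∈ A, if near a b then |u a - u b| ^ t else 0

/-- the t-energy of u on A: the sum over ordered pairs of near cells, i.e. twice the sum over the edges -/
noncomputable def En (A : Finset (ℕ × ℕ)) (t : ℝ) (u : ℕ × ℕ → ℝ) : ℝ := ∑ a ∈ A, ve A t u a

/-- the cell z of level m inside the cell w -/
def emb (m : ℕ) (w z : ℕ × ℕ) : ℕ × ℕ := (3 ^ m * w.1 + z.1, 3 ^ m * w.2 + z.2)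

/-- the ancestor m levels up -/
def anc (m : ℕ) (c : ℕ × ℕ) : ℕ × ℕ := (c.1 / 3 ^ m, c.2 / 3 ^ m)

/-- the position inside the ancestor m levels up -/
def loc (m : ℕ) (c : ℕ × ℕ) : ℕ × ℕ := (c.1 % 3 ^ m, c.2 % 3 ^ m)

/-- reflection of the first coordinate -/
def rx (n : ℕ) (c : ℕ × ℕ) : ℕ × ℕ := (3 ^ n - 1 - c.1, c.2)

/-- reflection of the second coordinate -/
def ry (n : ℕ) (c : ℕ × ℕ) : ℕ × ℕ := (c.1, 3 ^ n - 1 - c.2)

/-- transposition -/
def sw (c : ℕ × ℕ) : ℕ × ℕ := (c.2, c.1)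

/-- crossing functions of level n: 0 on the left column, 1 on the right column -/
structure Adm (n : ℕ) (u : ℕ × ℕ → ℝ) : Prop where
  left : ∀ c ∈ G n, c.1 = 0 → u c = 0
  right : ∀ c ∈ G n, c.1 + 1 = 3 ^ n → u c = 1

/-- the t-capacity between the left and the right column at level n (ordered pairs) -/
noncomputable def cap (t : ℝ) (n : ℕ) : ℝ := sInf (En (G n) t '' {u | Adm n u})

/-- the boundary cells of the level n square -/
def Bd (n : ℕ) (c : ℕ × ℕ) : Prop := c.1 = 0 ∨ c.2 = 0 ∨ c.1 + 1 = 3 ^ n ∨ c.2 + 1 = 3 ^ n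

/-- the bottom strip: 3^j cells of size 3^s in a row, inside the square of level j+s -/
def strip (j s : ℕ) : Finset (ℕ × ℕ) := (G (j + s)).filter (fun c => c.2 < 3 ^ s)

/-- γ 0, ..., γ N is a king path in A -/
def IsPath (A : Finset (ℕ × ℕ)) (N : ℕ) (γ : ℕ → ℕ × ℕ) : Prop :=
  (∀ i ≤ N, γ i ∈ A) ∧ ∀ i < N, near (γ i) (γ (i + 1))

/-- u is a crossing function of minimal energy -/
def IsMin (t : ℝ) (n : ℕ) (u : ℕ × ℕ → ℝ) : Prop :=
  Adm n u ∧ (∀ c, 0 ≤ u c ∧ u c ≤ 1) ∧ ∀ v, Adm n v → En (G n) t u ≤ En (G n) t v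

/-- position of a word -/
def pos : List S → ℕ × ℕ
  | [] => (0, 0)
  | i :: l => ((i.1.1 : ℕ) * 3 ^ l.length + (pos l).1, (i.1.2 : ℕ) * 3 ^ l.length + (pos l).2)

/-- the contraction onto the square of the cell c of level n -/
noncomputable def Fc (n : ℕ) (c : ℕ × ℕ) (z : ℝ × ℝ) : ℝ × ℝ :=
  (((c.1 : ℝ) + z.1) / 3 ^ n, ((c.2 : ℝ) + z.2) / 3 ^ n)

/-- the average of f over the cell c of level n -/
noncomputable def av (m : Measure (ℝ × ℝ)) (f : ℝ × ℝ → ℝ) (n : ℕ) (c : ℕ × ℕ) : ℝ := ∫ z, f (Fc n c z) ∂m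

/-- the half-open cell of level n containing z -/
noncomputable def fl (n : ℕ) (z : ℝ × ℝ) : ℕ × ℕ := (⌊3 ^ n * z.1⌋₊, ⌊3 ^ n * z.2⌋₊)

/-- the local coordinate of z in its half-open cell of level n -/
noncomputable def fr (n : ℕ) (z : ℝ × ℝ) : ℝ × ℝ :=
  (3 ^ n * z.1 - (⌊3 ^ n * z.1⌋₊ : ℝ), 3 ^ n * z.2 - (⌊3 ^ n * z.2⌋₊ : ℝ))

/-- the sum of the copies of ψ in the cells w ∈ T of level k -/
noncomputable def cp (k : ℕ) (T : Finset (ℕ × ℕ)) (ψ : ℝ × ℝ → ℝ) (z : ℝ × ℝ) : ℝ :=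
  if fl k z ∈ T then ψ (fr k z) else 0

/-- two-sided capacity bounds at exponent t with constant ρ -/
structure CapData (t ρ : ℝ) : Prop where
  pos : 0 < ρ
  lower : ∃ c : ℝ, 0 < c ∧ ∀ n : ℕ, 1 ≤ n → c ≤ cap t n * ρ ^ n
  upper : ∃ C : ℝ, ∀ n : ℕ, 1 ≤ n → cap t n * ρ ^ n ≤ C

end Pool.Agent.NIF
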