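import Pool.Agent.NIF.GHB
import Pool.Agent.NIF.CPY
import Pool.Agent.NIF.BMP

/-!
NOI (110 lines). No inclusion from the growth of copies.

PROOF. ψ bump of F_s (exists_bump), Small ψ. M ≥ 0 with ρs^n En (G n) s (av ψ n) ≤ M (mem_iff). 8 ρs ≥ 8/2 > 1. Let T k be {(0,0)} for all k, or G k for all k; τ = card (T k) (1 or 8^k);
a k = (τ ρs^k)^(-1/s) > 0, f k = a k · cp k (T k) ψ (MemLp: bounded measurable). ∫ |f k|^s = a^s ∫ |cp|^s ≤ (τ ρs^k)^(-1) τ / 8^k = (8 ρs)^(-k) ≤ 1 (cp_int).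
hf2: levels k + n: ρs^(k+n) a^s En ≤ ρs^n (En (av ψ n) + [n<2] 144) ≤ M + 144 max(1,ρs) (cp_upper). Levels n < k (write k = n + i): single: ρs^n a^s · 9 · 2^s 8^(-is) =
9 · 2^s ρs^(n-k) 8^(-is) = 9 · 2^s (8^s ρs)^(-i) ≤ 9 · 2^s; all: 0. Every level n is either ≥ k or < k.
hf3: n0 from Bump.nondeg, e0 = En (G n0) t (av ψ n0) > 0: ρt^(k+n0) En (G (k+n0)) t (av (f k)) ≥ ρt^(k+n0) a^t τ e0 (cp_lower, En_smul) = ρt^n0 e0 · (τ ρt^k) (τ ρs^k)^(-t/s)
= ρt^n0 e0 · [ (τ ρt^k)^(1/t) / (τ ρs^k)^(1/s) ]^t. With τ = 1: [..] = exp (k (log ρt / t - log ρs / s)) → ∞ under hgrow1; with τ = 8^k: [..] = exp (k ((log 8 + log ρt)/t -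
(log 8 + log ρs)/s)) → ∞ under hgrow2.
-/

set_option autoImplicit false

namespace Pool.Agent.NIF

open MeasureTheory Pool.Agent.SCI

private theorem noi_growth {s t ρs ρt c : ℝ} (hs : 1 < s) (ht : 1 < t) (hρs : 0 < ρs) (hρt : 0 < ρt) (hc : 0 < c)
    (hgrow : (Real.log c + Real.log ρs) / s < (Real.log c + Real.log ρt) / t) {A : ℝ} (hA : 0 < A) (B : ℝ) :
    ∃ k : ℕ, B ≤ A * ((c * ρt) ^ k * (((c * ρs) ^ k)⁻¹) ^ (t / s)) := by
  have h1 : 0 < c * ρt := mul_pos hc hρt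
  have h2 : 0 < c * ρs := mul_pos hc hρs
  set L : ℝ := Real.log (c * ρt) - t / s * Real.log (c * ρs) with hL
  have hL0 : 0 < L := by
    rw [hL, Real.log_mul hc.ne' hρt.ne', Real.log_mul hc.ne' hρs.ne']
    have h3 : t * ((Real.log c + Real.log ρs) / s) < t * ((Real.log c + Real.log ρt) / t) :=
      mul_lt_mul_of_pos_left hgrow (by linarith)
    have h4 : t * ((Real.log c + Real.log ρt) / t) = Real.log c + Real.log ρt := by
      field_simp
    have h5 : t * ((Real.log c + Real.log ρs) / s) = t / s * (Real.log c + Real.log ρs) := by ring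
    linarith
  have hE : 1 < Real.exp L := by rwa [Real.one_lt_exp_iff]
  obtain ⟨k, hk⟩ := pow_unbounded_of_one_lt (B / A) hE
  refine ⟨k, ?_⟩
  have h3 : (c * ρt) ^ k * (((c * ρs) ^ k)⁻¹) ^ (t / s) = Real.exp L ^ k := by
    rw [← Real.exp_nat_mul, Real.rpow_def_of_pos (by positivity), Real.log_inv, Real.log_pow]
    nth_rewrite 1 [← Real.exp_log h1]
    rw [← Real.exp_nat_mul, ← Real.exp_add]
    congr 1
    rw [hL]
    ring
  rw [h3]
  rw [div_lt_iff₀ hA] at hk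
  linarith

private theorem noi_core {K : Set (ℝ × ℝ)} {m : Measure (ℝ × ℝ)} (hK : IsCarpet K) (hm : IsCarpetMeasure K m) {s t ρs ρt c : ℝ}
    (hs : 1 < s) (ht : 1 < t) (h : IsRho K m s ρs) (hρt : 0 < ρt) (hc : 0 < c)
    (T : ℕ → Finset (ℕ × ℕ)) (hT : ∀ k, T k ⊆ G k) (hcard : ∀ k, ((T k).card : ℝ) = c ^ k) {D0 : ℝ}
    (hlow : ∀ ψ : ℝ × ℝ → ℝ, Small ψ → ∀ n i : ℕ,
      ρs ^ n * (((c * ρs) ^ (n + i))⁻¹ * En (G n) s (av m (cp (n + i) (T (n + i)) ψ) n)) ≤ D0)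
    (hgrow : (Real.log c + Real.log ρs) / s < (Real.log c + Real.log ρt) / t) :
    ∃ f : ℝ × ℝ → ℝ, Mem K m s ρs f ∧ ¬ Mem K m t ρt f := by
  have := hm.prob
  have hρs : 0 < ρs := h.pos
  have hs0 : s ≠ 0 := by linarith
  obtain ⟨ψ, hψ⟩ := exists_bump hK hm hs h
  have hS : Small ψ := ⟨hψ.meas, hψ.unit, hψ.supp⟩
  obtain ⟨-, M, hM⟩ := (mem_iff hK hm hs).1 hψ.mem
  obtain ⟨n0, -, hn0⟩ := hψ.nondeg
  have he0 := hn0 t (by linarith)
  have h8 : 1 ≤ 8 * ρs := by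
    have e1 := slab_le hK hm s ρs hs h
    have e2 := slab_ge_half s hs
    linarith
  have hcρ : 0 < c * ρs := mul_pos hc hρs
  set a : ℕ → ℝ := fun k => (((c * ρs) ^ k)⁻¹) ^ (1 / s) with ha
  have hx : ∀ k : ℕ, 0 < ((c * ρs) ^ k)⁻¹ := fun k => by positivity
  have ha0 : ∀ k, 0 < a k := fun k => Real.rpow_pos_of_pos (hx k) _
  have has : ∀ k, a k ^ s = ((c * ρs) ^ k)⁻¹ := by
    intro k
    rw [ha]
    simp only
    rw [← Real.rpow_mul (hx k).le, one_div, inv_mul_cancel₀ hs0, Real.rpow_one]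
  have hat : ∀ k, a k ^ t = (((c * ρs) ^ k)⁻¹) ^ (t / s) := by
    intro k
    rw [ha]
    simp only
    rw [← Real.rpow_mul (hx k).le]
    congr 1
    ring
  have hEn : ∀ (r : ℝ) (k n : ℕ), En (G n) r (av m (fun z => a k * cp k (T k) ψ z) n) =
      a k ^ r * En (G n) r (av m (cp k (T k) ψ) n) := by
    intro r k n
    have e1 : av m (fun z => a k * cp k (T k) ψ z) n = fun x => a k * av m (cp k (T k) ψ) n x :=
      funext fun x => av_smul m _ _ n x
    rw [e1, En_smul, abs_of_pos (ha0 k)]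
  refine hump hK hm hs ht hρs hρt (fun k z => a k * cp k (T k) ψ z) ?_ ?_
    (D := max D0 (M + 144 * max 1 ρs)) ?_ ?_
  · intro k
    refine MemLp.of_bound ((measurable_cp hS k (T k)).const_mul (a k)).aestronglyMeasurable (a k)
      (Filter.Eventually.of_forall fun z => ?_)
    have e1 := cp_unit hS k (T k) z
    rw [Real.norm_eq_abs, abs_mul, abs_of_pos (ha0 k), abs_of_nonneg e1.1]
    exact mul_le_of_le_one_right (ha0 k).le e1.2
  · intro k
    have e1 : (fun z => |a k * cp k (T k) ψ z| ^ s) = fun z => a k ^ s * |cp k (T k) ψ z| ^ s := by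
      funext z
      rw [abs_mul, abs_of_pos (ha0 k), Real.mul_rpow (ha0 k).le (abs_nonneg _)]
    rw [e1, integral_const_mul, has]
    have e2 := cp_int hK hm hS hs.le (hT k)
    rw [hcard] at e2
    calc ((c * ρs) ^ k)⁻¹ * ∫ z, |cp k (T k) ψ z| ^ s ∂m ≤ ((c * ρs) ^ k)⁻¹ * (c ^ k / 8 ^ k) :=
          mul_le_mul_of_nonneg_left e2 (hx k).le
      _ = ((8 * ρs) ^ k)⁻¹ := by
          rw [mul_pow, mul_pow]
          field_simp
      _ ≤ 1 := inv_le_one_of_one_le₀ (one_le_pow₀ h8)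
  · intro k n
    rw [hEn, has]
    rcases le_or_gt k n with hkn | hkn
    · obtain ⟨j, rfl⟩ := Nat.exists_eq_add_of_le hkn
      refine le_max_of_le_right ?_
      have e1 := cp_upper hK hm hS hs.le (k := k) (n := j) (hT k)
      rw [hcard] at e1
      have e2 : ρs ^ (k + j) * (((c * ρs) ^ k)⁻¹ * En (G (k + j)) s (av m (cp k (T k) ψ) (k + j))) ≤
          ρs ^ (k + j) * (((c * ρs) ^ k)⁻¹ * (c ^ k * (En (G j) s (av m ψ j) + if j < 2 then 144 else 0))) := by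
        refine mul_le_mul_of_nonneg_left (mul_le_mul_of_nonneg_left e1 (hx k).le) (by positivity)
      have e3 : ρs ^ (k + j) * (((c * ρs) ^ k)⁻¹ * (c ^ k * (En (G j) s (av m ψ j) + if j < 2 then 144 else 0))) =
          ρs ^ j * En (G j) s (av m ψ j) + ρs ^ j * (if j < 2 then 144 else 0) := by
        rw [mul_pow, pow_add]
        field_simp
      have e4 : ρs ^ j * (if j < 2 then (144:ℝ) else 0) ≤ 144 * max 1 ρs := by
        have e5 : (0:ℝ) ≤ max 1 ρs := le_max_of_le_left zero_le_one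
        by_cases hj : j < 2
        · rw [if_pos hj, mul_comm]
          refine mul_le_mul_of_nonneg_left ?_ (by norm_num)
          interval_cases j
          · simp
          · simp
        · rw [if_neg hj, mul_zero]
          positivity
      rw [e3] at e2
      have e6 := hM j
      linarith
    · obtain ⟨i, rfl⟩ := Nat.exists_eq_add_of_le hkn.le
      exact le_max_of_le_left (hlow ψ hS n i)
  · intro B
    have hA : 0 < ρt ^ n0 * En (G n0) t (av m ψ n0) := by positivity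
    obtain ⟨k, hk⟩ := noi_growth hs ht hρs hρt hc hgrow hA B
    refine ⟨k, k + n0, hk.trans ?_⟩
    rw [hEn, hat]
    have e1 := cp_lower hK hm hS (s := t) (k := k) (n := n0) (hT k)
    rw [hcard] at e1
    have hy : 0 ≤ (((c * ρs) ^ k)⁻¹) ^ (t / s) := Real.rpow_nonneg (hx k).le _
    calc ρt ^ n0 * En (G n0) t (av m ψ n0) * ((c * ρt) ^ k * (((c * ρs) ^ k)⁻¹) ^ (t / s))
        = ρt ^ (k + n0) * ((((c * ρs) ^ k)⁻¹) ^ (t / s) * (c ^ k * En (G n0) t (av m ψ n0))) := by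
          rw [mul_pow, pow_add]
          ring
      _ ≤ ρt ^ (k + n0) * ((((c * ρs) ^ k)⁻¹) ^ (t / s) * En (G (k + n0)) t (av m (cp k (T k) ψ) (k + n0))) :=
          mul_le_mul_of_nonneg_left (mul_le_mul_of_nonneg_left e1 hy) (by positivity)

theorem no_incl_single {K : Set (ℝ × ℝ)} {m : Measure (ℝ × ℝ)} (hK : IsCarpet K) (hm : IsCarpetMeasure K m) {s t ρs ρt : ℝ} (hs : 1 < s)
    (ht : 1 < t) (h : IsRho K m s ρs) (hρt : 0 < ρt) (hgrow : Real.log ρs / s < Real.log ρt / t) :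
    ∃ f : ℝ × ℝ → ℝ, Mem K m s ρs f ∧ ¬ Mem K m t ρt f := by
  have hρs : 0 < ρs := h.pos
  have h8 : 1 ≤ 8 * ρs := by
    have e1 := slab_le hK hm s ρs hs h
    have e2 := slab_ge_half s hs
    linarith
  have h00 : ∀ k, ((0, 0) : ℕ × ℕ) ∈ G k := by
    intro k
    have h3 : 0 < 3 ^ k := by positivity
    simp [G, inG]
  refine noi_core hK hm hs ht h hρt (c := 1) one_pos (fun _ => {(0, 0)}) ?_ ?_ (D0 := 9 * 2 ^ s) ?_ ?_
  · intro k
    rw [Finset.singleton_subset_iff]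
    exact h00 k
  · intro k
    simp
  · intro ψ hψ n i
    have e1 := cp_low_single hK hm hψ hs.le (n := n) (i := i) (h00 (n + i))
    rw [one_mul]
    calc ρs ^ n * ((ρs ^ (n + i))⁻¹ * En (G n) s (av m (cp (n + i) {(0, 0)} ψ) n))
        ≤ ρs ^ n * ((ρs ^ (n + i))⁻¹ * (9 * 2 ^ s * ((8 : ℝ) ^ i)⁻¹ ^ s)) :=
          mul_le_mul_of_nonneg_left (mul_le_mul_of_nonneg_left e1 (by positivity)) (by positivity)
      _ ≤ ρs ^ n * ((ρs ^ (n + i))⁻¹ * (9 * 2 ^ s * ((8 : ℝ) ^ i)⁻¹)) := by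
          refine mul_le_mul_of_nonneg_left (mul_le_mul_of_nonneg_left (mul_le_mul_of_nonneg_left ?_
            (by positivity)) (by positivity)) (by positivity)
          have e2 : ((8 : ℝ) ^ i)⁻¹ ≤ 1 := inv_le_one_of_one_le₀ (one_le_pow₀ (by norm_num))
          calc ((8 : ℝ) ^ i)⁻¹ ^ s ≤ ((8 : ℝ) ^ i)⁻¹ ^ (1:ℝ) :=
                Real.rpow_le_rpow_of_exponent_ge (by positivity) e2 hs.le
            _ = ((8 : ℝ) ^ i)⁻¹ := Real.rpow_one _
      _ = 9 * 2 ^ s * ((8 * ρs) ^ i)⁻¹ := by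
          rw [mul_pow, pow_add]
          field_simp
      _ ≤ 9 * 2 ^ s * 1 := mul_le_mul_of_nonneg_left (inv_le_one_of_one_le₀ (one_le_pow₀ h8)) (by positivity)
      _ = 9 * 2 ^ s := mul_one _
  · simpa using hgrow

theorem no_incl_all {K : Set (ℝ × ℝ)} {m : Measure (ℝ × ℝ)} (hK : IsCarpet K) (hm : IsCarpetMeasure K m) {s t ρs ρt : ℝ} (hs : 1 < s)
    (ht : 1 < t) (h : IsRho K m s ρs) (hρt : 0 < ρt) (hgrow : (Real.log 8 + Real.log ρs) / s < (Real.log 8 + Real.log ρt) / t) :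
    ∃ f : ℝ × ℝ → ℝ, Mem K m s ρs f ∧ ¬ Mem K m t ρt f := by
  refine noi_core hK hm hs ht h hρt (c := 8) (by norm_num) (fun k => G k) (fun k => subset_rfl) ?_ (D0 := 0) ?_ hgrow
  · intro k
    rw [card_G]
    push_cast
    rfl
  · intro ψ hψ n i
    rw [cp_low_all hK hm hψ hs.le]
    simp

end Pool.Agent.NIF
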