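import Pool.Agent.SCI.Defs

/-!
SLB. 3^t < 8 slab t for t > 1 (weighted AM-GM).
-/

set_option autoImplicit false

namespace Pool.Agent.NIF

open Pool.Agent.SCI

theorem slab_gt {t : ℝ} (ht : 1 < t) : 3 ^ t < 8 * slab t := by
  unfold slab
  have ht1 : 0 < t - 1 := by linarith
  set x : ℝ := 1 / (t - 1) with hx
  have hx1 : x * (t - 1) = 1 := by rw [hx]; field_simp
  have hx0 : 0 < x := by positivity
  have h3 : (0 : ℝ) < 3 ^ (-x) := Real.rpow_pos_of_pos (by norm_num) _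
  have h2 : (0 : ℝ) < 2 ^ (-x) := Real.rpow_pos_of_pos (by norm_num) _
  have amgm := Real.geom_mean_le_arith_mean2_weighted (w₁ := 2 / 3) (w₂ := 1 / 3) (p₁ := (3 : ℝ) ^ (-x))
    (p₂ := (2 : ℝ) ^ (-x)) (by norm_num) (by norm_num) h3.le h2.le (by norm_num)
  have e1 : ((3 : ℝ) ^ (-x)) ^ ((2 : ℝ) / 3) * ((2 : ℝ) ^ (-x)) ^ ((1 : ℝ) / 3) = 18 ^ (-(x / 3)) := by
    rw [← Real.rpow_mul (by norm_num), ← Real.rpow_mul (by norm_num)]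
    have a1 : (3 : ℝ) ^ (-x * (2 / 3)) = 9 ^ (-(x / 3)) := by
      rw [show (9 : ℝ) = 3 ^ (2 : ℝ) by norm_num, ← Real.rpow_mul (by norm_num)]
      congr 1
      ring
    have a2 : (2 : ℝ) ^ (-x * (1 / 3)) = 2 ^ (-(x / 3)) := by
      congr 1
      ring
    rw [a1, a2, ← Real.mul_rpow (by norm_num) (by norm_num)]
    norm_num
  rw [e1] at amgm
  have h18 : (0 : ℝ) < 18 ^ (-(x / 3)) := Real.rpow_pos_of_pos (by norm_num) _
  have h5 : 3 * (18 : ℝ) ^ (-(x / 3)) ≤ 2 * 3 ^ (-x) + 2 ^ (-x) := by linarith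
  have h6 : (3 * (18 : ℝ) ^ (-(x / 3))) ^ (t - 1) ≤ (2 * 3 ^ (-x) + 2 ^ (-x)) ^ (t - 1) :=
    Real.rpow_le_rpow (by positivity) h5 ht1.le
  have h7 : (3 * (18 : ℝ) ^ (-(x / 3))) ^ (t - 1) = 3 ^ (t - 1) * 18 ^ (-(1 / 3 : ℝ)) := by
    rw [Real.mul_rpow (by norm_num) h18.le, ← Real.rpow_mul (by norm_num)]
    congr 2
    linear_combination (-1 / 3 : ℝ) * hx1
  have h8 : (18 : ℝ) ^ ((1 : ℝ) / 3) < 8 / 3 := by
    have a : (8 / 3 : ℝ) = (((8 / 3 : ℝ)) ^ (3 : ℝ)) ^ ((1 : ℝ) / 3) := by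
      rw [← Real.rpow_mul (by norm_num)]
      norm_num
    rw [a]
    refine Real.rpow_lt_rpow (by norm_num) ?_ (by norm_num)
    rw [show ((3 : ℝ)) = ((3 : ℕ) : ℝ) by norm_num, Real.rpow_natCast]
    norm_num
  have h9 : (3 / 8 : ℝ) < 18 ^ (-(1 / 3 : ℝ)) := by
    rw [Real.rpow_neg (by norm_num)]
    have hp : (0 : ℝ) < 18 ^ ((1 : ℝ) / 3) := Real.rpow_pos_of_pos (by norm_num) _
    rw [show (3 / 8 : ℝ) = (8 / 3)⁻¹ by norm_num]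
    exact (inv_lt_inv₀ (by norm_num) hp).2 h8
  have h10 : (0 : ℝ) < 3 ^ (t - 1) := Real.rpow_pos_of_pos (by norm_num) _
  have h11 : (3 : ℝ) ^ t = 3 ^ (t - 1) * 3 := by
    rw [Real.rpow_sub_one (by norm_num)]
    field_simp
  rw [h11]
  have h12 : (3 : ℝ) ^ (t - 1) * 3 < 8 * (3 ^ (t - 1) * 18 ^ (-(1 / 3 : ℝ))) := by
    nlinarith [mul_lt_mul_of_pos_left h9 h10]
  rw [← h7] at h12
  linarith

end Pool.Agent.NIF
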