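import Pool.Agent.NIF.REC
import Pool.Agent.NIF.CPL
import Pool.Agent.NIF.CPU
import Pool.Agent.NIF.SLB

/-!
SS2 (60 lines). Strict monotonicity of (8 ρ(p))^(1/p): (log 8 + log ρq)/q < (log 8 + log ρp)/p for 1 < p < q.

PROOF. CapData q ρq from IsRho.pos, cap_lower, cap_upper. slab_le: slab q ≤ ρq, slab_gt: 3^q < 8 slab q ≤ 8 ρq. cap_rec: C, η. c > 0 with c ≤ cap p n ρp^n (cap_lower for p), C' > 0 with
cap q n ≤ C' ρq^(-n). θ = p/q. c ≤ C (η 8^(1-θ))^n C'^θ (ρq^(-θ))^n ρp^n for all n ≥ 1: so x = η 8^(1-θ) ρq^(-θ) ρp ≥ 1 (otherwise x^n → 0). Take logarithms: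
0 ≤ log η + (1-θ) log 8 - θ log ρq + log ρp, so log 8 + log ρp ≥ θ (log 8 + log ρq) - log η > θ (log 8 + log ρq); divide by p, θ/p = 1/q.
-/

set_option autoImplicit false

namespace Pool.Agent.NIF

open MeasureTheory Pool.Agent.SCI

theorem anti_strict {K : Set (ℝ × ℝ)} {m : Measure (ℝ × ℝ)} (hK : IsCarpet K) (hm : IsCarpetMeasure K m) {p q ρp ρq : ℝ} (hp : 1 < p)
    (hpq : p < q) (h1 : IsRho K m p ρp) (h2 : IsRho K m q ρq) :
    (Real.log 8 + Real.log ρq) / q < (Real.log 8 + Real.log ρp) / p := by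
  have hq : 1 < q := hp.trans hpq
  have hp0 : 0 < p := by linarith
  have hq0 : 0 < q := by linarith
  obtain ⟨c, hc0, hc⟩ := cap_lower hK hm hp h1
  obtain ⟨C', hC'⟩ := cap_upper hK hm hq h2
  have hcd : CapData q ρq := ⟨h2.pos, cap_lower hK hm hq h2, cap_upper hK hm hq h2⟩
  have hρ : 3 ^ q < 8 * ρq := lt_of_lt_of_le (slab_gt hq)
    (by have := Pool.Agent.SCI.slab_le hK hm q ρq hq h2; linarith)
  obtain ⟨C, η, hC0, hη0, hη1, hrec⟩ := cap_rec hp hpq hcd hρ
  have hC'0 : 0 < C' := lt_of_lt_of_le (mul_pos (cap_pos hq.le le_rfl) (pow_pos h2.pos 1)) (hC' 1 le_rfl)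
  set θ := p / q with hθ
  have hθ0 : 0 < θ := div_pos hp0 hq0
  have h8 : (0 : ℝ) < 8 ^ (1 - θ) := Real.rpow_pos_of_pos (by norm_num) _
  have key : ∀ n : ℕ, 1 ≤ n → Real.log c ≤ (Real.log C + θ * Real.log C') +
      n * (Real.log η + (1 - θ) * Real.log 8 - θ * Real.log ρq + Real.log ρp) := by
    intro n hn
    have hcq : 0 < cap q n := cap_pos hq.le hn
    have hcp : 0 < cap p n := cap_pos hp.le hn
    have a1 : Real.log c ≤ Real.log (cap p n) + n * Real.log ρp := by
      have := Real.log_le_log hc0 (hc n hn)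
      rwa [Real.log_mul hcp.ne' (pow_pos h1.pos n).ne', Real.log_pow] at this
    have a2 : Real.log (cap q n) + n * Real.log ρq ≤ Real.log C' := by
      have := Real.log_le_log (mul_pos hcq (pow_pos h2.pos n)) (hC' n hn)
      rwa [Real.log_mul hcq.ne' (pow_pos h2.pos n).ne', Real.log_pow] at this
    have a3 : Real.log (cap p n) ≤ Real.log C + n * (Real.log η + (1 - θ) * Real.log 8)
        + θ * Real.log (cap q n) := by
      have := Real.log_le_log hcp (hrec n hn)
      rwa [Real.log_mul (mul_pos hC0 (pow_pos (mul_pos hη0 h8) n)).ne' (Real.rpow_pos_of_pos hcq _).ne',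
        Real.log_mul hC0.ne' (pow_pos (mul_pos hη0 h8) n).ne', Real.log_pow,
        Real.log_mul hη0.ne' h8.ne', Real.log_rpow (by norm_num), Real.log_rpow hcq] at this
    have a4 : θ * Real.log (cap q n) ≤ θ * (Real.log C' - n * Real.log ρq) :=
      mul_le_mul_of_nonneg_left (by linarith) hθ0.le
    nlinarith
  have hL : 0 ≤ Real.log η + (1 - θ) * Real.log 8 - θ * Real.log ρq + Real.log ρp := by
    by_contra hneg
    push Not at hneg
    set L := Real.log η + (1 - θ) * Real.log 8 - θ * Real.log ρq + Real.log ρp with hLdef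
    obtain ⟨n, hn⟩ := exists_nat_gt ((Real.log C + θ * Real.log C' - Real.log c) / (-L))
    have hn' : (Real.log C + θ * Real.log C' - Real.log c) < n * (-L) :=
      (div_lt_iff₀ (by linarith)).1 hn
    have h := key (n + 1) (by omega)
    push_cast at h
    nlinarith
  have hηl : Real.log η < 0 := Real.log_neg hη0 hη1
  have hfin : θ * (Real.log 8 + Real.log ρq) < Real.log 8 + Real.log ρp := by nlinarith
  rw [lt_div_iff₀ hp0]
  calc (Real.log 8 + Real.log ρq) / q * p = θ * (Real.log 8 + Real.log ρq) := by rw [hθ]; field_simp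
    _ < _ := hfin

end Pool.Agent.NIF
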