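import Pool.Agent.NIF.SS1
import Pool.Agent.NIF.SS2
import Pool.Agent.NIF.NOI

/-!
FIN. Final assembly (done from the stubs): for p ≠ q neither space is contained in the other.
-/

set_option autoImplicit false

namespace Pool.Agent.NIF

open MeasureTheory Pool.Agent.SCI

theorem no_inclusion {K : Set (ℝ × ℝ)} {m : Measure (ℝ × ℝ)} (hK : IsCarpet K) (hm : IsCarpetMeasure K m) {p q ρp ρq : ℝ} (hp : 1 < p)
    (hq : 1 < q) (hpq : p ≠ q) (h1 : IsRho K m p ρp) (h2 : IsRho K m q ρq) :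
    ∃ f : ℝ × ℝ → ℝ, Mem K m p ρp f ∧ ¬ Mem K m q ρq f := by
  rcases lt_or_gt_of_ne hpq with h | h
  · exact no_incl_single hK hm hp hq h1 h2.pos (mono_strict hK hm hp h h1 h2)
  · exact no_incl_all hK hm hp hq h1 h2.pos (anti_strict hK hm hq h h2 h1)

end Pool.Agent.NIF
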