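import Pool.Agent.NIF.MIN

/-!
FLX (100 lines). Flux bound for minimisers: cap q n ≤ (cap p n)^((q-1)/(p-1)) for 1 < p < q.

PROOF. u minimal for p (exists_min, IsMin.eq_cap), E = En (G n) p u = cap p n > 0.
CLAIM: |u a - u b|^(p-1) ≤ E for near a, b ∈ G n. WLOG δ = u b - u a > 0 (u a = u b is trivial since p > 1). Let U = {c | u a < u c}; a ∉ U, b ∈ U; cells of the
left column are not in U (u = 0 ≤ u a), cells of the right column are in U (u = 1 ≥ u b > u a). Let ε0 > 0 be smaller than 1 and than all differences u c - u d with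
c, d ∈ G n, u d ≤ u a < u c (finitely many positive numbers; e.g. ε0 = min 1 (inf' of u c - u a) / 2: for d ∉ U, u c - u d ≥ u c - u a). For 0 < ε ≤ ε0
v c = if c ∈ U then u c - ε else u c; w = v / (1 - ε) is admissible, so E ≤ En w = (1-ε)^(-p) En v: (1-ε)^p E ≤ En v. For every pair |v c - v d| ≤ |u c - u d| (equal
unless exactly one of c, d is in U, and then it is |u c - u d| - ε ≥ 0), and for the two ordered pairs (a,b), (b,a): δ^p is replaced by (δ-ε)^p. So
En v ≤ E - 2 (δ^p - (δ-ε)^p). Bernoulli: (1-ε)^p ≥ 1 - p ε (one_add_mul_self_le_rpow_one_add) and δ^p - (δ-ε)^p ≥ p ε (δ-ε)^(p-1) (convexity; or from Bernoulli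
(1+x)^p ≥ 1 + p x with x = ε/(δ-ε)). Hence 2 p ε (δ-ε)^(p-1) ≤ p ε E, 2 (δ-ε)^(p-1) ≤ E for all small ε > 0, and by continuity 2 δ^(p-1) ≤ E.
CONCLUSION: |u a - u b| ≤ E^(1/(p-1)), so |d|^q = |d|^(q-p) |d|^p ≤ E^((q-p)/(p-1)) |d|^p and
cap q n ≤ En (G n) q u ≤ E^((q-p)/(p-1)) · E = E^((q-1)/(p-1)).
-/

set_option autoImplicit false

namespace Pool.Agent.NIF

private theorem flx_conv {p δ ε : ℝ} (hp : 1 < p) (hε : 0 < ε) (hδ : ε < δ) :
    p * ε * (δ - ε) ^ (p - 1) ≤ δ ^ p - (δ - ε) ^ p := by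
  have h0 : 0 < δ - ε := by linarith
  have h1 : 1 + p * (ε / (δ - ε)) ≤ (1 + ε / (δ - ε)) ^ p :=
    one_add_mul_self_le_rpow_one_add (by have := div_pos hε h0; linarith) hp.le
  have h2 : 1 + ε / (δ - ε) = δ / (δ - ε) := by field_simp; ring
  rw [h2, Real.div_rpow (by linarith) h0.le] at h1
  have h3 : 0 < (δ - ε) ^ p := Real.rpow_pos_of_pos h0 p
  rw [le_div_iff₀ h3] at h1
  have h4 : (δ - ε) ^ p = (δ - ε) ^ (p - 1) * (δ - ε) := by
    rw [← Real.rpow_add_one h0.ne' (p - 1)]; ring_nf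
  have h5 : p * (ε / (δ - ε)) * (δ - ε) ^ p = p * ε * (δ - ε) ^ (p - 1) := by
    rw [h4]; field_simp
  have h6 : (1 + p * (ε / (δ - ε))) * (δ - ε) ^ p =
      (δ - ε) ^ p + p * (ε / (δ - ε)) * (δ - ε) ^ p := by ring
  rw [h6, h5] at h1
  linarith

private theorem flx_main {p : ℝ} (hp : 1 < p) {n : ℕ} {u : ℕ × ℕ → ℝ} (h : IsMin p n u)
    {a b : ℕ × ℕ} (ha : a ∈ G n) (hb : b ∈ G n) (hab : near a b) (hlt : u a < u b) :
    |u a - u b| ^ (p - 1) ≤ En (G n) p u := by
  obtain ⟨hA, h01, hmin⟩ := h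
  set E := En (G n) p u with hE
  have hE0 : 0 ≤ E := En_nonneg _ _ _
  have hp0 : 0 < p := by linarith
  have hba : near b a := ⟨hab.2.1, hab.1, hab.2.2.2, hab.2.2.1⟩
  obtain ⟨c0, hc0, hc0min⟩ := Finset.exists_min_image ((G n).filter fun c => u a < u c) u
    ⟨b, Finset.mem_filter.2 ⟨hb, hlt⟩⟩
  have hc0' : u a < u c0 := (Finset.mem_filter.1 hc0).2
  set δ := u b - u a with hδ
  have hδ0 : 0 < δ := by rw [hδ]; linarith
  have habs : |u a - u b| = δ := by
    rw [abs_sub_comm, abs_of_pos hδ0]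
  rw [habs]
  set ε0 := min (1 / 2) (u c0 - u a) with hε0
  have hε0pos : 0 < ε0 := lt_min (by norm_num) (by linarith)
  have hkey : ∀ ε, 0 < ε → ε < ε0 → (δ - ε) ^ (p - 1) ≤ E := by
    intro ε hε hεlt
    have h1 : ε < 1 / 2 := lt_of_lt_of_le hεlt (min_le_left _ _)
    have h2 : ∀ c ∈ G n, u a < u c → ε ≤ u c - u a := by
      intro c hc hac
      have := hc0min c (Finset.mem_filter.2 ⟨hc, hac⟩)
      have h3 : ε < u c0 - u a := lt_of_lt_of_le hεlt (min_le_right _ _)
      linarith
    have hεδ : ε < δ := by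
      have := hc0min b (Finset.mem_filter.2 ⟨hb, hlt⟩)
      have h3 : ε < u c0 - u a := lt_of_lt_of_le hεlt (min_le_right _ _)
      rw [hδ]; linarith
    have h1ε : 0 < 1 - ε := by linarith
    set v : ℕ × ℕ → ℝ := fun c => if u a < u c then u c - ε else u c with hv
    have hvle : ∀ c ∈ G n, ∀ d ∈ G n, |v c - v d| ≤ |u c - u d| := by
      intro c hc d hd
      by_cases hcU : u a < u c <;> by_cases hdU : u a < u d
      · simp only [hv, if_pos hcU, if_pos hdU]
        have : u c - ε - (u d - ε) = u c - u d := by ring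
        rw [this]
      · simp only [hv, if_pos hcU, if_neg hdU]
        have h5 := h2 c hc hcU
        rw [abs_of_nonneg (by linarith), abs_of_nonneg (by linarith)]
        linarith
      · simp only [hv, if_neg hcU, if_pos hdU]
        have h5 := h2 d hd hdU
        rw [abs_of_nonpos (by linarith), abs_of_nonpos (by linarith)]
        linarith
      · simp only [hv, if_neg hcU, if_neg hdU]
        exact le_refl _
    have hw : Adm n (fun c => (1 - ε)⁻¹ * v c) := by
      constructor
      · intro c hc hc1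
        have h5 := hA.left c hc hc1
        have h6 : ¬ u a < u c := by rw [h5]; exact not_lt.2 (h01 a).1
        simp only [hv, if_neg h6, h5, mul_zero]
      · intro c hc hc1
        have h5 := hA.right c hc hc1
        have h6 : u a < u c := by rw [h5]; exact lt_of_lt_of_le hlt (h01 b).2
        simp only [hv, if_pos h6]
        rw [h5]
        exact inv_mul_cancel₀ h1ε.ne'
    have h7 := hmin _ hw
    rw [En_smul, abs_of_pos (inv_pos.2 h1ε), Real.inv_rpow h1ε.le] at h7
    have h8 : 0 < (1 - ε) ^ p := Real.rpow_pos_of_pos h1ε p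
    have h9 : (1 - ε) ^ p * E ≤ En (G n) p v := by
      have := mul_le_mul_of_nonneg_left h7 h8.le
      rwa [← mul_assoc, mul_inv_cancel₀ h8.ne', one_mul] at this
    -- the energy of v
    have hterm : ∀ c ∈ G n, ∀ d ∈ G n,
        (if near c d then |v c - v d| ^ p else 0) ≤ (if near c d then |u c - u d| ^ p else 0) := by
      intro c hc d hd
      split_ifs
      · exact Real.rpow_le_rpow (abs_nonneg _) (hvle c hc d hd) hp0.le
      · exact le_refl _
    have hve : ∀ c ∈ G n, ve (G n) p v c ≤ ve (G n) p u c := fun c hc =>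
      Finset.sum_le_sum fun d hd => hterm c hc d hd
    have hgain : ∀ c ∈ G n, ∀ d ∈ G n, near c d → |u c - u d| = δ → |v c - v d| = δ - ε →
        δ ^ p - (δ - ε) ^ p ≤ ve (G n) p u c - ve (G n) p v c := by
      intro c hc d hd hcd e1 e2
      unfold ve
      rw [← Finset.sum_sub_distrib]
      have h10 := Finset.single_le_sum (f := fun d =>
        (if near c d then |u c - u d| ^ p else 0) - (if near c d then |v c - v d| ^ p else 0))
        (fun d hd => sub_nonneg.2 (hterm c hc d hd)) hd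
      refine le_trans (le_of_eq ?_) h10
      simp only [if_pos hcd, e1, e2]
    have hva : v a = u a := by simp only [hv, if_neg (lt_irrefl _)]
    have hvb : v b = u b - ε := by simp only [hv, if_pos hlt]
    have g1 := hgain a ha b hb hab habs (by
      rw [hva, hvb, abs_of_nonpos (by rw [hδ] at hεδ; linarith), hδ]; ring)
    have g2 := hgain b hb a ha hba (by rw [abs_sub_comm]; exact habs) (by
      rw [hva, hvb, abs_of_nonneg (by rw [hδ] at hεδ; linarith), hδ]; ring)
    have hne : a ≠ b := fun e => by rw [e] at hlt; exact lt_irrefl _ hlt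
    have hsum : 2 * (δ ^ p - (δ - ε) ^ p) ≤ E - En (G n) p v := by
      have h11 : E - En (G n) p v = ∑ c ∈ G n, (ve (G n) p u c - ve (G n) p v c) := by
        rw [Finset.sum_sub_distrib]; rfl
      rw [h11]
      have h12 : ∑ c ∈ ({a, b} : Finset (ℕ × ℕ)), (ve (G n) p u c - ve (G n) p v c) ≤
          ∑ c ∈ G n, (ve (G n) p u c - ve (G n) p v c) := by
        refine Finset.sum_le_sum_of_subset_of_nonneg ?_ fun c hc _ => sub_nonneg.2 (hve c hc)
        intro c hc
        rw [Finset.mem_insert, Finset.mem_singleton] at hc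
        rcases hc with rfl | rfl
        · exact ha
        · exact hb
      rw [Finset.sum_pair hne] at h12
      linarith
    have hbern : 1 + p * (-ε) ≤ (1 + -ε) ^ p :=
      one_add_mul_self_le_rpow_one_add (by linarith) hp.le
    have hbern' : 1 - p * ε ≤ (1 - ε) ^ p := by
      have e : (1 + -ε : ℝ) = 1 - ε := by ring
      rw [e] at hbern
      linarith
    have h13 : (1 - p * ε) * E ≤ (1 - ε) ^ p * E := mul_le_mul_of_nonneg_right hbern' hE0
    have h14 := flx_conv hp hε hεδ
    have h15 : 2 * (p * ε * (δ - ε) ^ (p - 1)) ≤ p * ε * E := by nlinarith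
    have hpε : 0 < p * ε := mul_pos hp0 hε
    have h16 : 0 ≤ (δ - ε) ^ (p - 1) := Real.rpow_nonneg (by linarith) _
    have h17 : p * ε * (2 * (δ - ε) ^ (p - 1)) ≤ p * ε * E := by linarith
    have h18 := le_of_mul_le_mul_left h17 hpε
    linarith
  have htend : Filter.Tendsto (fun ε : ℝ => (δ - ε) ^ (p - 1)) (nhdsWithin 0 (Set.Ioi 0))
      (nhds (δ ^ (p - 1))) := by
    have hc : Filter.Tendsto (fun ε : ℝ => (δ - ε) ^ (p - 1)) (nhds 0)
        (nhds ((δ - 0) ^ (p - 1))) := by
      have h1 : ContinuousAt (fun ε : ℝ => (δ - ε) ^ (p - 1)) 0 := by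
        refine ContinuousAt.rpow_const (by fun_prop) (Or.inr (by linarith))
      exact h1
    rw [sub_zero] at hc
    exact hc.mono_left nhdsWithin_le_nhds
  refine le_of_tendsto htend ?_
  filter_upwards [Ioo_mem_nhdsGT hε0pos] with ε hε
  exact hkey ε hε.1 hε.2

theorem min_flux {p : ℝ} (hp : 1 < p) {n : ℕ} (hn : 1 ≤ n) {u : ℕ × ℕ → ℝ} (h : IsMin p n u) {a b : ℕ × ℕ} (ha : a ∈ G n) (hb : b ∈ G n)
    (hab : near a b) : |u a - u b| ^ (p - 1) ≤ En (G n) p u := by
  rcases lt_trichotomy (u a) (u b) with h1 | h1 | h1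
  · exact flx_main hp h ha hb hab h1
  · rw [h1, sub_self, abs_zero, Real.zero_rpow (by linarith)]
    exact En_nonneg _ _ _
  · rw [abs_sub_comm]
    exact flx_main hp h hb ha ⟨hab.2.1, hab.1, hab.2.2.2, hab.2.2.1⟩ h1

theorem cap_flux {p q : ℝ} (hp : 1 < p) (hpq : p < q) {n : ℕ} (hn : 1 ≤ n) : cap q n ≤ cap p n ^ ((q - 1) / (p - 1)) := by
  obtain ⟨u, hu⟩ := exists_min hp.le hn
  have hE : En (G n) p u = cap p n := hu.eq_cap
  have hc0 : 0 < cap p n := cap_pos hp.le hn
  have hp1 : 0 < p - 1 := by linarith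
  have hterm : ∀ a ∈ G n, ∀ b ∈ G n, near a b →
      |u a - u b| ^ q ≤ cap p n ^ ((q - p) / (p - 1)) * |u a - u b| ^ p := by
    intro a ha b hb hab
    have h1 := min_flux hp hn hu ha hb hab
    rw [hE] at h1
    have h2 : |u a - u b| ^ q = |u a - u b| ^ (q - p) * |u a - u b| ^ p := by
      rw [← Real.rpow_add_of_nonneg (abs_nonneg _) (by linarith) (by linarith)]
      congr 1; ring
    have h3 : |u a - u b| ^ (q - p) = (|u a - u b| ^ (p - 1)) ^ ((q - p) / (p - 1)) := by
      rw [← Real.rpow_mul (abs_nonneg _)]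
      congr 1
      field_simp
    rw [h2, h3]
    refine mul_le_mul_of_nonneg_right ?_ (Real.rpow_nonneg (abs_nonneg _) _)
    exact Real.rpow_le_rpow (Real.rpow_nonneg (abs_nonneg _) _) h1
      (div_nonneg (by linarith) hp1.le)
  have h4 : En (G n) q u ≤ cap p n ^ ((q - p) / (p - 1)) * En (G n) p u := by
    unfold En ve
    rw [Finset.mul_sum]
    refine Finset.sum_le_sum fun a ha => ?_
    rw [Finset.mul_sum]
    refine Finset.sum_le_sum fun b hb => ?_
    split_ifs with hab
    · exact hterm a ha b hb hab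
    · rw [mul_zero]
  calc cap q n ≤ En (G n) q u := cap_le hu.1
    _ ≤ cap p n ^ ((q - p) / (p - 1)) * cap p n := by rw [← hE] at *; exact h4
    _ = cap p n ^ ((q - p) / (p - 1) + 1) := by rw [Real.rpow_add_one hc0.ne']
    _ = cap p n ^ ((q - 1) / (p - 1)) := by
        congr 1
        field_simp
        ring

end Pool.Agent.NIF
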