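import Pool.Agent.NIF.Defs

/-!
GEO (100 lines). Arithmetic of the cells G n.

PROOF. inG n x y says x, y < 3^n and for no k < n both base 3 digits number k are 1. mem_G: the filter over the product of ranges.
mem_G_add: digit k of c.1 / 3^m is digit m + k of c.1 (Nat.div_div_eq_div_mul, pow_add), digit k < m of c.1 % 3^m is digit k of c.1
(Nat.mod_pow_div? or: (c.1 % 3^m) / 3^k % 3 = c.1 / 3^k % 3, for instance from Nat.mod_mul / Nat.div_mod_eq_mod_mul_div with 3^m = 3^k * 3^(m-k)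
and 3 ∣ 3^(m-k)); c.1 < 3^(n+m) iff c.1 / 3^m < 3^n (Nat.div_lt_iff_lt_mul). emb_anc_loc: Nat.div_add_mod. anc_emb, loc_emb:
Nat.mul_add_div, Nat.mul_add_mod. emb_mem from mem_G_add. sum_G_add: Finset.sum_product' and Finset.sum_bij' with (w,z) ↦ emb m w z,
inverse c ↦ (anc m c, loc m c). card_G: card (G (n+1)) = card (G n) * card (G 1) by the same bijection and card (G 1) = 8 (decide).
ry_mem: digit k of 3^n - 1 - y is 2 - (digit k of y); easiest by induction on n with mem_G_add (n, 1): for y = 3 a + b with b < 3: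
3^(n+1) - 1 - y = 3 (3^n - 1 - a) + (2 - b); so anc 1 (ry (n+1) c) = ry n (anc 1 c), loc 1 (ry (n+1) c) = ry 1 (loc 1 c), and level 1 is decide.
sw_mem: the condition is symmetric. rx = sw ∘ ry ∘ sw.
-/

set_option autoImplicit false

namespace Pool.Agent.NIF

private theorem dig_mod {x m k : ℕ} (hk : k < m) : x % 3 ^ m / 3 ^ k % 3 = x / 3 ^ k % 3 := by
  obtain ⟨j, rfl⟩ : ∃ j, m = k + (j + 1) := ⟨m - k - 1, by omega⟩
  rw [pow_add, Nat.mod_mul_right_div_self, Nat.mod_mod_of_dvd]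
  exact dvd_pow_self 3 (Nat.succ_ne_zero j)

private theorem dig_div (x m k : ℕ) : x / 3 ^ m / 3 ^ k % 3 = x / 3 ^ (m + k) % 3 := by
  rw [Nat.div_div_eq_div_mul, pow_add]

theorem mem_G {n : ℕ} {c : ℕ × ℕ} : c ∈ G n ↔ inG n c.1 c.2 := by
  unfold G
  rw [Finset.mem_filter, Finset.mem_product, Finset.mem_range, Finset.mem_range]
  exact ⟨fun h => h.2, fun h => ⟨⟨h.1, h.2.1⟩, h⟩⟩

theorem G_lt {n : ℕ} {c : ℕ × ℕ} (h : c ∈ G n) : c.1 < 3 ^ n ∧ c.2 < 3 ^ n := by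
  have h' := mem_G.1 h
  exact ⟨h'.1, h'.2.1⟩

theorem G_zero : G 0 = {(0, 0)} := by
  ext c
  rw [mem_G, Finset.mem_singleton]
  constructor
  · rintro ⟨h1, h2, -⟩
    rw [pow_zero] at h1 h2
    exact Prod.ext (by simp; omega) (by simp; omega)
  · rintro rfl
    exact ⟨by norm_num, by norm_num, fun k hk => absurd hk (Nat.not_lt_zero k)⟩

theorem mem_G_add {n m : ℕ} {c : ℕ × ℕ} : c ∈ G (n + m) ↔ anc m c ∈ G n ∧ loc m c ∈ G m := by
  rw [mem_G, mem_G, mem_G]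
  have hm : 0 < 3 ^ m := by positivity
  unfold anc loc
  constructor
  · rintro ⟨h1, h2, h3⟩
    refine ⟨⟨?_, ?_, fun k hk => ?_⟩, ⟨Nat.mod_lt _ hm, Nat.mod_lt _ hm, fun k hk => ?_⟩⟩
    · rw [Nat.div_lt_iff_lt_mul hm, ← pow_add]
      exact h1
    · rw [Nat.div_lt_iff_lt_mul hm, ← pow_add]
      exact h2
    · rw [dig_div, dig_div]
      exact h3 (m + k) (by omega)
    · rw [dig_mod hk, dig_mod hk]
      exact h3 k (by omega)
  · rintro ⟨⟨h1, h2, h3⟩, ⟨h4, h5, h6⟩⟩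
    refine ⟨?_, ?_, fun k hk => ?_⟩
    · rw [Nat.div_lt_iff_lt_mul hm, ← pow_add] at h1
      exact h1
    · rw [Nat.div_lt_iff_lt_mul hm, ← pow_add] at h2
      exact h2
    · rcases lt_or_ge k m with h7 | h7
      · have := h6 k h7
        rw [dig_mod h7, dig_mod h7] at this
        exact this
      · obtain ⟨j, rfl⟩ := Nat.exists_eq_add_of_le h7
        have := h3 j (by omega)
        rw [dig_div, dig_div] at this
        exact this

theorem emb_anc_loc (m : ℕ) (c : ℕ × ℕ) : emb m (anc m c) (loc m c) = c := by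
  exact Prod.ext (Nat.div_add_mod _ _) (Nat.div_add_mod _ _)

theorem anc_emb {m : ℕ} {w z : ℕ × ℕ} (h1 : z.1 < 3 ^ m) (h2 : z.2 < 3 ^ m) : anc m (emb m w z) = w := by
  have hm : 0 < 3 ^ m := by positivity
  refine Prod.ext ?_ ?_
  · show (3 ^ m * w.1 + z.1) / 3 ^ m = w.1
    rw [Nat.mul_add_div hm, Nat.div_eq_of_lt h1, add_zero]
  · show (3 ^ m * w.2 + z.2) / 3 ^ m = w.2
    rw [Nat.mul_add_div hm, Nat.div_eq_of_lt h2, add_zero]

theorem loc_emb {m : ℕ} {w z : ℕ × ℕ} (h1 : z.1 < 3 ^ m) (h2 : z.2 < 3 ^ m) : loc m (emb m w z) = z := by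
  refine Prod.ext ?_ ?_
  · show (3 ^ m * w.1 + z.1) % 3 ^ m = z.1
    rw [Nat.mul_add_mod, Nat.mod_eq_of_lt h1]
  · show (3 ^ m * w.2 + z.2) % 3 ^ m = z.2
    rw [Nat.mul_add_mod, Nat.mod_eq_of_lt h2]

theorem emb_mem {n m : ℕ} {w z : ℕ × ℕ} (hw : w ∈ G n) (hz : z ∈ G m) : emb m w z ∈ G (n + m) := by
  obtain ⟨h1, h2⟩ := G_lt hz
  rw [mem_G_add, anc_emb h1 h2, loc_emb h1 h2]
  exact ⟨hw, hz⟩

theorem anc_mem {n m : ℕ} {c : ℕ × ℕ} (h : c ∈ G (n + m)) : anc m c ∈ G n := (mem_G_add.1 h).1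

theorem loc_mem {n m : ℕ} {c : ℕ × ℕ} (h : c ∈ G (n + m)) : loc m c ∈ G m := (mem_G_add.1 h).2

theorem emb_emb (a b : ℕ) (w y z : ℕ × ℕ) : emb b (emb a w y) z = emb (a + b) w (emb b y z) := by
  refine Prod.ext ?_ ?_
  · show 3 ^ b * (3 ^ a * w.1 + y.1) + z.1 = 3 ^ (a + b) * w.1 + (3 ^ b * y.1 + z.1)
    rw [pow_add]
    ring
  · show 3 ^ b * (3 ^ a * w.2 + y.2) + z.2 = 3 ^ (a + b) * w.2 + (3 ^ b * y.2 + z.2)
    rw [pow_add]
    ring

theorem anc_anc (a b : ℕ) (c : ℕ × ℕ) : anc a (anc b c) = anc (a + b) c := by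
  refine Prod.ext ?_ ?_
  · show c.1 / 3 ^ b / 3 ^ a = c.1 / 3 ^ (a + b)
    rw [Nat.div_div_eq_div_mul, ← pow_add, Nat.add_comm b a]
  · show c.2 / 3 ^ b / 3 ^ a = c.2 / 3 ^ (a + b)
    rw [Nat.div_div_eq_div_mul, ← pow_add, Nat.add_comm b a]

theorem sum_G_add {n m : ℕ} (f : ℕ × ℕ → ℝ) : ∑ c ∈ G (n + m), f c = ∑ w ∈ G n, ∑ z ∈ G m, f (emb m w z) := by
  rw [← Finset.sum_product']
  refine (Finset.sum_bij' (fun p _ => emb m p.1 p.2) (fun c _ => (anc m c, loc m c)) ?_ ?_ ?_ ?_ ?_).symm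
  · rintro ⟨w, z⟩ h
    obtain ⟨h1, h2⟩ := Finset.mem_product.1 h
    exact emb_mem h1 h2
  · intro c h
    exact Finset.mem_product.2 ⟨anc_mem h, loc_mem h⟩
  · rintro ⟨w, z⟩ h
    obtain ⟨h1, h2⟩ := Finset.mem_product.1 h
    obtain ⟨h3, h4⟩ := G_lt h2
    exact Prod.ext (anc_emb h3 h4) (loc_emb h3 h4)
  · intro c h
    exact emb_anc_loc m c
  · rintro ⟨w, z⟩ h
    rfl

theorem card_G (n : ℕ) : (G n).card = 8 ^ n := by
  induction n with
  | zero => rw [G_zero]; rfl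
  | succ n ih =>
    have h1 : ((G (n + 1)).card : ℝ) = ((G n).card : ℝ) * ((G 1).card : ℝ) := by
      have h2 := sum_G_add (n := n) (m := 1) (fun _ => (1 : ℝ))
      simp only [Finset.sum_const, nsmul_eq_mul, mul_one] at h2
      exact h2
    have h3 : (G 1).card = 8 := by decide
    rw [ih, h3] at h1
    have h4 : ((G (n + 1)).card : ℝ) = ((8 ^ (n + 1) : ℕ) : ℝ) := by
      rw [h1]
      push_cast
      ring
    exact_mod_cast h4

theorem ry_mem {n : ℕ} {c : ℕ × ℕ} (h : c ∈ G n) : ry n c ∈ G n := by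
  induction n generalizing c with
  | zero =>
    rw [G_zero, Finset.mem_singleton] at h
    subst h
    rw [G_zero]
    decide
  | succ n ih =>
    obtain ⟨h1, h2⟩ := G_lt h
    have h3 : anc 1 (ry (n + 1) c) = ry n (anc 1 c) := by
      refine Prod.ext rfl ?_
      show (3 ^ (n + 1) - 1 - c.2) / 3 ^ 1 = 3 ^ n - 1 - c.2 / 3 ^ 1
      rw [pow_succ, pow_one] at *
      omega
    have h4 : loc 1 (ry (n + 1) c) = ry 1 (loc 1 c) := by
      refine Prod.ext rfl ?_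
      show (3 ^ (n + 1) - 1 - c.2) % 3 ^ 1 = 3 ^ 1 - 1 - c.2 % 3 ^ 1
      rw [pow_succ] at h2 ⊢
      rw [pow_one]
      omega
    have h5 : ∀ z ∈ G 1, ry 1 z ∈ G 1 := by decide
    rw [mem_G_add, h3, h4]
    exact ⟨ih (anc_mem h), h5 _ (loc_mem h)⟩

theorem rx_mem {n : ℕ} {c : ℕ × ℕ} (h : c ∈ G n) : rx n c ∈ G n := by
  have h1 : inG n c.2 c.1 := by
    obtain ⟨h2, h3, h4⟩ := mem_G.1 h
    exact ⟨h3, h2, fun k hk h5 => h4 k hk ⟨h5.2, h5.1⟩⟩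
  have h2 : ry n (sw c) ∈ G n := ry_mem (mem_G.2 h1)
  obtain ⟨h3, h4, h5⟩ := mem_G.1 h2
  exact mem_G.2 ⟨h4, h3, fun k hk h6 => h5 k hk ⟨h6.2, h6.1⟩⟩

theorem sw_mem {n : ℕ} {c : ℕ × ℕ} : sw c ∈ G n ↔ c ∈ G n := by
  rw [mem_G, mem_G]
  constructor
  · rintro ⟨h3, h4, h5⟩
    exact ⟨h4, h3, fun k hk h6 => h5 k hk ⟨h6.2, h6.1⟩⟩
  · rintro ⟨h3, h4, h5⟩
    exact ⟨h4, h3, fun k hk h6 => h5 k hk ⟨h6.2, h6.1⟩⟩

/-- the bottom row belongs to the carpet -/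
theorem row_mem {n x : ℕ} (hx : x < 3 ^ n) : (x, 0) ∈ G n := by
  refine mem_G.2 ⟨hx, by positivity, fun k _ h => ?_⟩
  have h2 := h.2
  simp at h2

/-- a point of the first 3^s rows of G (j+s): its ancestor s levels up is in the bottom row -/
theorem mem_strip {j s : ℕ} {c : ℕ × ℕ} : c ∈ strip j s ↔ (anc s c).1 < 3 ^ j ∧ (anc s c).2 = 0 ∧ loc s c ∈ G s := by
  unfold strip
  rw [Finset.mem_filter, mem_G_add]
  have hs : 0 < 3 ^ s := by positivity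
  constructor
  · rintro ⟨⟨h1, h2⟩, h3⟩
    exact ⟨(G_lt h1).1, Nat.div_eq_of_lt h3, h2⟩
  · rintro ⟨h1, h2, h3⟩
    refine ⟨⟨?_, h3⟩, ?_⟩
    · have h4 : anc s c = ((anc s c).1, 0) := Prod.ext rfl h2
      rw [h4]
      exact row_mem h1
    · have h4 : c.2 / 3 ^ s = 0 := h2
      rcases Nat.div_eq_zero_iff.1 h4 with h5 | h5
      · omega
      · exact h5

end Pool.Agent.NIF
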