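import Mathlib

/-!
GHA. Gliding hump (Sokal's proof of the uniform boundedness principle) for two sequences of continuous seminorms.
-/

set_option autoImplicit false

namespace Pool.Agent.NIF

private lemma sn_zero {V : Type*} [NormedAddCommGroup V] [NormedSpace ℝ V] {Q : V → ℝ}
    (hQ1 : ∀ (c : ℝ) x, Q (c • x) = |c| * Q x) : Q 0 = 0 := by
  have h := hQ1 0 0
  simpa using h

private lemma sn_neg {V : Type*} [NormedAddCommGroup V] [NormedSpace ℝ V] {Q : V → ℝ}
    (hQ1 : ∀ (c : ℝ) x, Q (c • x) = |c| * Q x) (x : V) : Q (-x) = Q x := by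
  have h := hQ1 (-1) x
  simpa using h

private lemma sn_nonneg {V : Type*} [NormedAddCommGroup V] [NormedSpace ℝ V] {Q : V → ℝ}
    (hQ : ∀ x y, Q (x + y) ≤ Q x + Q y)
    (hQ1 : ∀ (c : ℝ) x, Q (c • x) = |c| * Q x) (x : V) : 0 ≤ Q x := by
  have h := hQ x (-x)
  rw [add_neg_cancel, sn_zero hQ1, sn_neg hQ1] at h
  linarith

private lemma sn_sub {V : Type*} [NormedAddCommGroup V] [NormedSpace ℝ V] {Q : V → ℝ}
    (hQ : ∀ x y, Q (x + y) ≤ Q x + Q y)
    (hQ1 : ∀ (c : ℝ) x, Q (c • x) = |c| * Q x) (x y : V) : Q (x - y) ≤ Q x + Q y := by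
  have h := hQ x (-y)
  rw [sn_neg hQ1] at h
  rwa [sub_eq_add_neg]

/-- the recursive sequence -/
private noncomputable def hump {V : Type*} [NormedAddCommGroup V] [NormedSpace ℝ V]
    (Q : ℕ → V → ℝ) (y : ℕ → V) : ℕ → V
  | 0 => 0
  | i + 1 => if Q i (y i) ≤ Q i (hump Q y i + y i) then hump Q y i + y i else hump Q y i - y i

private lemma hump_succ {V : Type*} [NormedAddCommGroup V] [NormedSpace ℝ V]
    (Q : ℕ → V → ℝ) (y : ℕ → V) (i : ℕ) :
    (hump Q y (i + 1) = hump Q y i + y i) ∨ (hump Q y (i + 1) = hump Q y i - y i) := by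
  rw [hump]
  split_ifs with h
  · exact Or.inl rfl
  · exact Or.inr rfl

private lemma hump_ge {V : Type*} [NormedAddCommGroup V] [NormedSpace ℝ V]
    (Q : ℕ → V → ℝ) (y : ℕ → V) (hQ : ∀ n x y, Q n (x + y) ≤ Q n x + Q n y)
    (hQ1 : ∀ n (c : ℝ) x, Q n (c • x) = |c| * Q n x) (i : ℕ) :
    Q i (y i) ≤ Q i (hump Q y (i + 1)) := by
  rw [hump]
  split_ifs with h
  · exact h
  · push Not at h
    have h2 : Q i ((2 : ℝ) • y i) ≤ Q i (hump Q y i + y i) + Q i (hump Q y i - y i) := by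
      have h3 := sn_sub (hQ i) (hQ1 i) (hump Q y i + y i) (hump Q y i - y i)
      have h4 : hump Q y i + y i - (hump Q y i - y i) = (2 : ℝ) • y i := by
        rw [two_smul]; abel
      rwa [h4] at h3
    rw [hQ1] at h2
    norm_num at h2
    linarith

/-- any subadditive homogeneous function grows along the sequence at most like the sum of the steps -/
private lemma hump_diff {V : Type*} [NormedAddCommGroup V] [NormedSpace ℝ V]
    (Q : ℕ → V → ℝ) (y : ℕ → V) (R : V → ℝ) (hR : ∀ x y, R (x + y) ≤ R x + R y)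
    (hR1 : ∀ (c : ℝ) x, R (c • x) = |c| * R x) (S : ℝ)
    (hy : ∀ i, R (y i) ≤ (1 / 3 : ℝ) ^ (i + 1) * S) (s j : ℕ) :
    R (hump Q y (s + j) - hump Q y s) ≤ S * ((1 / 3 : ℝ) ^ s / 2 - (1 / 3 : ℝ) ^ (s + j) / 2) := by
  induction j with
  | zero => simp [sn_zero hR1]
  | succ j ih =>
    have hstep : R (hump Q y (s + (j + 1)) - hump Q y s) ≤
        R (hump Q y (s + j) - hump Q y s) + R (y (s + j)) := by
      rw [← add_assoc]
      rcases hump_succ Q y (s + j) with h | h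
      · rw [h]
        have : hump Q y (s + j) + y (s + j) - hump Q y s =
            (hump Q y (s + j) - hump Q y s) + y (s + j) := by abel
        rw [this]
        exact hR _ _
      · rw [h]
        have : hump Q y (s + j) - y (s + j) - hump Q y s =
            (hump Q y (s + j) - hump Q y s) - y (s + j) := by abel
        rw [this]
        exact sn_sub hR hR1 _ _
    have h2 := hy (s + j)
    have e1 : (1 / 3 : ℝ) ^ (s + (j + 1)) = (1 / 3 : ℝ) ^ (s + j) * (1 / 3) := by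
      rw [← add_assoc, pow_succ]
    have e2 : (1 / 3 : ℝ) ^ (s + j + 1) = (1 / 3 : ℝ) ^ (s + j) * (1 / 3) := by
      rw [pow_succ]
    rw [e1]
    rw [e2] at h2
    nlinarith [hstep, ih, h2]

theorem gliding {V : Type*} [NormedAddCommGroup V] [NormedSpace ℝ V] [CompleteSpace V] (P Q : ℕ → V → ℝ)
    (hP : ∀ n x y, P n (x + y) ≤ P n x + P n y) (hP1 : ∀ n (c : ℝ) x, P n (c • x) = |c| * P n x)
    (hP2 : ∀ n, ∃ C : ℝ, ∀ x, P n x ≤ C * ‖x‖)
    (hQ : ∀ n x y, Q n (x + y) ≤ Q n x + Q n y) (hQ1 : ∀ n (c : ℝ) x, Q n (c • x) = |c| * Q n x)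
    (hQ2 : ∀ n, ∃ C : ℝ, ∀ x, Q n x ≤ C * ‖x‖)
    (e : ℕ → V) (h1 : ∀ k, ‖e k‖ ≤ 1) (h2 : ∀ k n, P n (e k) ≤ 1) (h3 : ∀ B : ℝ, ∃ k n, B ≤ Q n (e k)) :
    ∃ x : V, (∀ n, P n x ≤ 1) ∧ ∀ B : ℝ, ∃ n, B ≤ Q n x := by
  -- the suprema
  have hbdd : ∀ n, BddAbove (Set.range fun k => Q n (e k)) := by
    intro n
    obtain ⟨C, hC⟩ := hQ2 n
    refine ⟨|C|, ?_⟩
    rintro _ ⟨k, rfl⟩
    calc Q n (e k) ≤ C * ‖e k‖ := hC _
      _ ≤ |C| * ‖e k‖ := by gcongr; exact le_abs_self C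
      _ ≤ |C| * 1 := by gcongr; exact h1 k
      _ = |C| := mul_one _
  set S : ℕ → ℝ := fun n => sSup (Set.range fun k => Q n (e k)) with hS
  have hSle : ∀ n k, Q n (e k) ≤ S n := fun n k => le_csSup (hbdd n) ⟨k, rfl⟩
  have hex : ∀ i : ℕ, ∃ n k, (4 : ℝ) ^ i ≤ S n ∧ (9 / 10 : ℝ) * S n ≤ Q n (e k) := by
    intro i
    obtain ⟨k0, n, hkn⟩ := h3 ((4 : ℝ) ^ i)
    have h4 : (4 : ℝ) ^ i ≤ S n := hkn.trans (hSle n k0)
    have hpos : 0 < S n := lt_of_lt_of_le (by positivity) h4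
    have hlt : (9 / 10 : ℝ) * S n < S n := by linarith
    obtain ⟨_, ⟨k, rfl⟩, hk⟩ := exists_lt_of_lt_csSup (Set.range_nonempty _) hlt
    exact ⟨n, k, h4, hk.le⟩
  choose N K hN hK using hex
  set y : ℕ → V := fun i => ((1 / 3 : ℝ) ^ (i + 1)) • e (K i) with hy
  set x : ℕ → V := hump (fun i => Q (N i)) y with hx
  have hynorm : ∀ (R : V → ℝ), (∀ (c : ℝ) x, R (c • x) = |c| * R x) → ∀ i,
      R (y i) = (1 / 3 : ℝ) ^ (i + 1) * R (e (K i)) := by
    intro R hR1 i
    rw [hy]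
    simp only
    rw [hR1, abs_of_nonneg (by positivity)]
  -- Cauchy
  have hdist : ∀ i, dist (x i) (x (i + 1)) ≤ (1 / 3 : ℝ) * (1 / 3 : ℝ) ^ i := by
    intro i
    have hyi : ‖y i‖ ≤ (1 / 3 : ℝ) * (1 / 3 : ℝ) ^ i := by
      rw [hy]
      simp only
      rw [norm_smul, Real.norm_of_nonneg (by positivity), pow_succ]
      have := h1 (K i)
      have hp : (0 : ℝ) ≤ (1 / 3) ^ i * (1 / 3) := by positivity
      nlinarith
    rcases hump_succ (fun i => Q (N i)) y i with h | h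
    · rw [dist_comm, dist_eq_norm, hx, h]
      simpa using hyi
    · rw [dist_eq_norm, hx, h]
      simpa using hyi
  have hcau : CauchySeq x := cauchySeq_of_le_geometric (1 / 3) (1 / 3) (by norm_num) hdist
  obtain ⟨z, hz⟩ := cauchySeq_tendsto_of_complete hcau
  have hclose : ∀ (C : ℝ) (ε : ℝ), 0 < ε → ∀ s : ℕ, ∃ j : ℕ, C * ‖z - x (s + j)‖ ≤ ε := by
    intro C ε hε s
    have h5 : Filter.Tendsto (fun j => C * ‖z - x (s + j)‖) Filter.atTop (nhds (C * 0)) := by
      apply Filter.Tendsto.const_mul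
      have h6 : Filter.Tendsto (fun j => x (s + j)) Filter.atTop (nhds z) := by
        have := (Filter.tendsto_add_atTop_iff_nat (f := x) s).2 hz
        simpa [add_comm] using this
      have h7 := (tendsto_const_nhds (x := z)).sub h6
      simpa using h7.norm
    rw [mul_zero] at h5
    obtain ⟨j, hj⟩ := ((h5.eventually (gt_mem_nhds hε))).exists
    exact ⟨j, hj.le⟩
  refine ⟨z, ?_, ?_⟩
  · intro n
    obtain ⟨C, hC⟩ := hP2 n
    obtain ⟨j, hj⟩ := hclose C (1 / 2) (by norm_num) 0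
    have h6 := hump_diff (fun i => Q (N i)) y (P n) (hP n) (hP1 n) 1 (by
      intro i
      rw [hynorm (P n) (hP1 n) i, mul_one]
      have := h2 (K i) n
      have hp : (0 : ℝ) ≤ (1 / 3) ^ (i + 1) := by positivity
      nlinarith) 0 j
    have h7 : hump (fun i => Q (N i)) y 0 = 0 := rfl
    rw [h7, sub_zero] at h6
    have h8 : P n z ≤ P n (x (0 + j)) + P n (z - x (0 + j)) := by
      have := hP n (x (0 + j)) (z - x (0 + j))
      simpa using this
    have h9 := hC (z - x (0 + j))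
    have h10 : (0 : ℝ) ≤ (1 / 3) ^ (0 + j) := by positivity
    have h11 : P n (x (0 + j)) ≤ 1 / 2 := by
      refine h6.trans ?_
      norm_num
      have : (0 : ℝ) ≤ (1 / 3) ^ j := by positivity
      linarith
    linarith
  · intro B
    -- choose i with (2/15) (4/3)^i ≥ B
    obtain ⟨i, hi⟩ := pow_unbounded_of_one_lt (B * (15 / 2)) (by norm_num : (1 : ℝ) < 4 / 3)
    refine ⟨N i, ?_⟩
    obtain ⟨C, hC⟩ := hQ2 (N i)
    set c : ℝ := (1 / 3 : ℝ) ^ (i + 1) with hc
    have hcpos : 0 < c := by positivity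
    have hSpos : 0 < S (N i) := lt_of_lt_of_le (by positivity) (hN i)
    have hge : c * Q (N i) (e (K i)) ≤ Q (N i) (x (i + 1)) := by
      have h12 := hump_ge (fun i => Q (N i)) y (fun n => hQ (N n)) (fun n => hQ1 (N n)) i
      rw [hynorm (Q (N i)) (hQ1 (N i)) i] at h12
      exact h12
    have hmain : ∀ ε : ℝ, 0 < ε → B ≤ Q (N i) z + ε := by
      intro ε hε
      obtain ⟨j, hj⟩ := hclose C ε hε (i + 1)
      have h6 := hump_diff (fun i => Q (N i)) y (Q (N i)) (hQ (N i)) (hQ1 (N i)) (S (N i)) (by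
        intro l
        rw [hynorm (Q (N i)) (hQ1 (N i)) l]
        have := hSle (N i) (K l)
        have hp : (0 : ℝ) ≤ (1 / 3) ^ (l + 1) := by positivity
        nlinarith) (i + 1) j
      have h13 : Q (N i) (x (i + 1)) ≤ Q (N i) z + Q (N i) (z - x (i + 1 + j)) +
          Q (N i) (x (i + 1 + j) - x (i + 1)) := by
        have a1 := sn_sub (hQ (N i)) (hQ1 (N i)) z
          ((z - x (i + 1 + j)) + (x (i + 1 + j) - x (i + 1)))
        have a2 : z - ((z - x (i + 1 + j)) + (x (i + 1 + j) - x (i + 1))) = x (i + 1) := by abel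
        rw [a2] at a1
        have a3 := hQ (N i) (z - x (i + 1 + j)) (x (i + 1 + j) - x (i + 1))
        linarith
      have h14 := hC (z - x (i + 1 + j))
      have h15 : Q (N i) (x (i + 1 + j) - x (i + 1)) ≤ S (N i) * (c / 2) := by
        refine h6.trans ?_
        have : (0 : ℝ) ≤ (1 / 3) ^ (i + 1 + j) := by positivity
        apply mul_le_mul_of_nonneg_left _ hSpos.le
        linarith
      have h16 : c * ((9 / 10 : ℝ) * S (N i)) ≤ c * Q (N i) (e (K i)) :=
        mul_le_mul_of_nonneg_left (hK i) hcpos.le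
      have h17 : c * (4 : ℝ) ^ i ≤ c * S (N i) := mul_le_mul_of_nonneg_left (hN i) hcpos.le
      have h18 : c * (4 : ℝ) ^ i = (1 / 3) * (4 / 3 : ℝ) ^ i := by
        rw [hc, pow_succ]
        have : (4 / 3 : ℝ) ^ i = (1 / 3 : ℝ) ^ i * 4 ^ i := by
          rw [← mul_pow]; norm_num
        rw [this]; ring
      nlinarith
    have h19 : B ≤ Q (N i) z := by
      by_contra hcon
      push Not at hcon
      have := hmain ((B - Q (N i) z) / 2) (by linarith)
      linarith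
    exact h19

end Pool.Agent.NIF
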