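import Pool.Agent.NIF.GHA
import Pool.Agent.NIF.MEQ
import Pool.Agent.NIF.AVP

/-!
GHB (110 lines). The gliding hump in the spaces F_{s,r}.

sn m t r n f = (r^n En (G n) t (av m f n))^(1/t).

PROOF. V = Lp ℝ (ENNReal.ofReal s) m (s > 1: Fact (1 ≤ ENNReal.ofReal s)), P n x = sn m s a n x, Q n x = sn m t b n x. Elements of V are integrable (probability measure).
Subadditive: av_add with the a.e. representative (Lp.coeFn_add, av_congr), En_congr, En_minkowski, Real.mul_rpow. Homogeneous: av_smul, En_smul, (|c|^t)^(1/t) = |c|.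
Bounded: En_le_sum: En (av f n) ≤ 9 2^t Σ_c |av f n c|^t and |av f n c| ≤ ∫ |f ∘ Fc| ≤ 8^n ∫ |f| ≤ 8^n ‖f‖ (integral_split; L^1 norm ≤ L^s norm on a probability measure), so
sn ≤ C_n ‖f‖. e k = (toLp of f k)/M with M ≥ 1 bounding ‖f k‖ and all P n (f k): choose M = max 1 (max D^(1/s) 1). gliding gives x ∈ V with P n x ≤ 1 and sup Q n x = ∞; as a
function x is in L^s, s^th powers: a^n En ≤ 1, so Mem K m s a x (mem_iff); not Mem K m t b x: otherwise b^n En (G n) t (av x n) ≤ C and Q n x ≤ (max C 0)^(1/t) for all n.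
-/

set_option autoImplicit false

namespace Pool.Agent.NIF

open MeasureTheory Pool.Agent.SCI

/-- the seminorm of f at level n -/
private noncomputable def sn (m : Measure (ℝ × ℝ)) (t r : ℝ) (n : ℕ) (f : ℝ × ℝ → ℝ) : ℝ :=
  (r ^ n * En (G n) t (av m f n)) ^ (1 / t)

private theorem a1_congr {K : Set (ℝ × ℝ)} {m : Measure (ℝ × ℝ)} (hK : IsCarpet K) (hm : IsCarpetMeasure K m) {t r : ℝ}
    {f g : ℝ × ℝ → ℝ} (h : f =ᵐ[m] g) (n : ℕ) : sn m t r n f = sn m t r n g := by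
  unfold sn
  rw [En_congr (fun c hc => av_congr hK hm h hc)]

private theorem a2_add {K : Set (ℝ × ℝ)} {m : Measure (ℝ × ℝ)} (hK : IsCarpet K) (hm : IsCarpetMeasure K m) {t r : ℝ}
    (ht : 1 < t) (hr : 0 < r) {f g : ℝ × ℝ → ℝ} (hf : Integrable f m) (hg : Integrable g m) (n : ℕ) :
    sn m t r n (fun z => f z + g z) ≤ sn m t r n f + sn m t r n g := by
  unfold sn
  rw [En_congr (fun c hc => av_add hK hm hf hg hc), Real.mul_rpow (by positivity) (En_nonneg _ _ _),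
    Real.mul_rpow (by positivity) (En_nonneg _ _ _), Real.mul_rpow (by positivity) (En_nonneg _ _ _), ← mul_add]
  exact mul_le_mul_of_nonneg_left (En_minkowski ht.le _ _) (by positivity)

private theorem a3_smul (m : Measure (ℝ × ℝ)) {t r : ℝ} (ht : 1 < t) (hr : 0 < r) (c : ℝ) (f : ℝ × ℝ → ℝ) (n : ℕ) :
    sn m t r n (fun z => c * f z) = |c| * sn m t r n f := by
  unfold sn
  rw [En_congr (fun x _ => av_smul m c f n x), En_smul]
  have h1 : 0 ≤ r ^ n * En (G n) t (av m f n) := mul_nonneg (by positivity) (En_nonneg _ _ _)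
  have h2 : r ^ n * (|c| ^ t * En (G n) t (av m f n)) = |c| ^ t * (r ^ n * En (G n) t (av m f n)) := by ring
  rw [h2, Real.mul_rpow (by positivity) h1, ← Real.rpow_mul (abs_nonneg c), mul_one_div_cancel (by linarith), Real.rpow_one]

private theorem a4_bdd {K : Set (ℝ × ℝ)} {m : Measure (ℝ × ℝ)} (hK : IsCarpet K) (hm : IsCarpetMeasure K m) {s t r : ℝ}
    (hs : 1 < s) (ht : 1 < t) (hr : 0 < r) (n : ℕ) : ∃ C : ℝ, ∀ f : ℝ × ℝ → ℝ, MemLp f (ENNReal.ofReal s) m → ∀ N : ℝ, 0 ≤ N →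
      ∫ z, |f z| ^ s ∂m ≤ N ^ s → sn m t r n f ≤ C * N := by
  refine ⟨(r ^ n * (9 * 2 ^ t * 8 ^ n * (8 ^ n) ^ (t / s))) ^ (1 / t), fun f hf N hN hfN => ?_⟩
  have hs0 : 0 < s := by linarith
  have ht0 : 0 < t := by linarith
  have h1 := sum_av_pow hK hm hs.le hf n
  have h2 : ∀ c ∈ G n, |av m f n c| ^ t ≤ (8 ^ n) ^ (t / s) * N ^ t := by
    intro c hc
    have h3 : |av m f n c| ^ s ≤ 8 ^ n * N ^ s := by
      calc |av m f n c| ^ s ≤ ∑ c ∈ G n, |av m f n c| ^ s :=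
            Finset.single_le_sum (f := fun c => |av m f n c| ^ s) (fun c _ => by positivity) hc
        _ ≤ 8 ^ n * ∫ z, |f z| ^ s ∂m := h1
        _ ≤ 8 ^ n * N ^ s := mul_le_mul_of_nonneg_left hfN (by positivity)
    have h4 : |av m f n c| ^ t = (|av m f n c| ^ s) ^ (t / s) := by
      rw [← Real.rpow_mul (abs_nonneg _), mul_div_cancel₀ _ hs0.ne']
    have h5 : (8 ^ n * N ^ s : ℝ) ^ (t / s) = (8 ^ n) ^ (t / s) * N ^ t := by
      rw [Real.mul_rpow (by positivity) (by positivity), ← Real.rpow_mul hN, mul_div_cancel₀ _ hs0.ne']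
    rw [h4, ← h5]
    exact Real.rpow_le_rpow (by positivity) h3 (by positivity)
  have h6 : ∑ c ∈ G n, |av m f n c| ^ t ≤ 8 ^ n * ((8 ^ n) ^ (t / s) * N ^ t) := by
    calc ∑ c ∈ G n, |av m f n c| ^ t ≤ ∑ c ∈ G n, (8 ^ n) ^ (t / s) * N ^ t := Finset.sum_le_sum h2
      _ = 8 ^ n * ((8 ^ n) ^ (t / s) * N ^ t) := by
          rw [Finset.sum_const, card_G, nsmul_eq_mul]
          push_cast
          rfl
  have h7 := En_le_sum (A := G n) ht.le (av m f n)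
  unfold sn
  have h8 : r ^ n * En (G n) t (av m f n) ≤ r ^ n * (9 * 2 ^ t * 8 ^ n * (8 ^ n) ^ (t / s)) * N ^ t := by
    calc r ^ n * En (G n) t (av m f n) ≤ r ^ n * (9 * 2 ^ t * (8 ^ n * ((8 ^ n) ^ (t / s) * N ^ t))) := by
          refine mul_le_mul_of_nonneg_left (h7.trans ?_) (by positivity)
          exact mul_le_mul_of_nonneg_left h6 (by positivity)
      _ = _ := by ring
  calc (r ^ n * En (G n) t (av m f n)) ^ (1 / t) ≤ (r ^ n * (9 * 2 ^ t * 8 ^ n * (8 ^ n) ^ (t / s)) * N ^ t) ^ (1 / t) :=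
        Real.rpow_le_rpow (mul_nonneg (by positivity) (En_nonneg _ _ _)) h8 (by positivity)
    _ = _ := by
        rw [Real.mul_rpow (by positivity) (by positivity), ← Real.rpow_mul hN, mul_one_div_cancel ht0.ne', Real.rpow_one]

private theorem a5_norm {m : Measure (ℝ × ℝ)} {s : ℝ} (hs : 1 < s) (x : Lp ℝ (ENNReal.ofReal s) m) :
    ∫ z, |x z| ^ s ∂m = ‖x‖ ^ s := by
  have hs0 : 0 < s := by linarith
  have h1 : ENNReal.ofReal s ≠ 0 := by simp [hs0]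
  have h2 := (Lp.memLp x).eLpNorm_eq_integral_rpow_norm h1 ENNReal.ofReal_ne_top
  rw [ENNReal.toReal_ofReal hs0.le] at h2
  have h3 : 0 ≤ ∫ z, ‖x z‖ ^ s ∂m := integral_nonneg fun z => by positivity
  rw [Lp.norm_def, h2, ENNReal.toReal_ofReal (by positivity), Real.rpow_inv_rpow h3 hs0.ne']
  rfl

/-- the seminorm of an element of L^s -/
private noncomputable def snL {m : Measure (ℝ × ℝ)} {s : ℝ} (t r : ℝ) (n : ℕ) (x : Lp ℝ (ENNReal.ofReal s) m) : ℝ :=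
  sn m t r n (x : ℝ × ℝ → ℝ)

private theorem b1_add {K : Set (ℝ × ℝ)} {m : Measure (ℝ × ℝ)} (hK : IsCarpet K) (hm : IsCarpetMeasure K m) {s t r : ℝ}
    (hs : 1 < s) (ht : 1 < t) (hr : 0 < r) (n : ℕ) (x y : Lp ℝ (ENNReal.ofReal s) m) : snL t r n (x + y) ≤ snL t r n x + snL t r n y := by
  have : IsProbabilityMeasure m := hm.prob
  have hp : 1 ≤ ENNReal.ofReal s := by
    rw [← ENNReal.ofReal_one]
    exact ENNReal.ofReal_le_ofReal hs.le
  have h1 : snL t r n (x + y) = sn m t r n (fun z => x z + y z) := a1_congr hK hm (Lp.coeFn_add x y) n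
  rw [h1]
  exact a2_add hK hm ht hr ((Lp.memLp x).integrable hp) ((Lp.memLp y).integrable hp) n

private theorem b2_smul {K : Set (ℝ × ℝ)} {m : Measure (ℝ × ℝ)} (hK : IsCarpet K) (hm : IsCarpetMeasure K m) {s t r : ℝ}
    (ht : 1 < t) (hr : 0 < r) (n : ℕ) (c : ℝ) (x : Lp ℝ (ENNReal.ofReal s) m) : snL t r n (c • x) = |c| * snL t r n x := by
  have h1 : snL t r n (c • x) = sn m t r n (fun z => c * x z) := a1_congr hK hm (Lp.coeFn_smul c x) n
  rw [h1]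
  exact a3_smul m ht hr c x n

private theorem b3_bdd {K : Set (ℝ × ℝ)} {m : Measure (ℝ × ℝ)} (hK : IsCarpet K) (hm : IsCarpetMeasure K m) {s t r : ℝ}
    (hs : 1 < s) (ht : 1 < t) (hr : 0 < r) (n : ℕ) : ∃ C : ℝ, ∀ x : Lp ℝ (ENNReal.ofReal s) m, snL t r n x ≤ C * ‖x‖ := by
  obtain ⟨C, hC⟩ := a4_bdd hK hm hs ht hr n
  have hp : 1 ≤ ENNReal.ofReal s := by
    rw [← ENNReal.ofReal_one]
    exact ENNReal.ofReal_le_ofReal hs.le
  have : Fact (1 ≤ ENNReal.ofReal s) := ⟨hp⟩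
  exact ⟨C, fun x => hC x (Lp.memLp x) ‖x‖ (norm_nonneg x) (a5_norm hs x).le⟩

private theorem b4_toLp {K : Set (ℝ × ℝ)} {m : Measure (ℝ × ℝ)} (hK : IsCarpet K) (hm : IsCarpetMeasure K m) {s t r : ℝ}
    {f : ℝ × ℝ → ℝ} (hf : MemLp f (ENNReal.ofReal s) m) (n : ℕ) : snL t r n (hf.toLp f) = sn m t r n f :=
  a1_congr hK hm (MemLp.coeFn_toLp hf) n

private theorem b5_norm {m : Measure (ℝ × ℝ)} {s : ℝ} (hs : 1 < s) {f : ℝ × ℝ → ℝ} (hf : MemLp f (ENNReal.ofReal s) m)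
    (hf1 : ∫ z, |f z| ^ s ∂m ≤ 1) : ‖hf.toLp f‖ ≤ 1 := by
  have hs0 : 0 < s := by linarith
  have h1 : ‖hf.toLp f‖ ^ s ≤ 1 := by
    rw [← a5_norm hs]
    refine le_trans (le_of_eq ?_) hf1
    refine integral_congr_ae ?_
    filter_upwards [MemLp.coeFn_toLp hf] with z hz
    rw [hz]
  by_contra h2
  push Not at h2
  have h3 : 1 < ‖hf.toLp f‖ ^ s := Real.one_lt_rpow h2 hs0
  linarith

private theorem b6_main {K : Set (ℝ × ℝ)} {m : Measure (ℝ × ℝ)} (hK : IsCarpet K) (hm : IsCarpetMeasure K m) {s t a b : ℝ} (hs : 1 < s)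
    (ht : 1 < t) (ha : 0 < a) (hb : 0 < b) (e : ℕ → Lp ℝ (ENNReal.ofReal s) m) (h1 : ∀ k, ‖e k‖ ≤ 1)
    (h2 : ∀ k n, snL s a n (e k) ≤ 1) (h3 : ∀ B : ℝ, ∃ k n, B ≤ snL t b n (e k)) :
    ∃ x : Lp ℝ (ENNReal.ofReal s) m, (∀ n, snL s a n x ≤ 1) ∧ ∀ B : ℝ, ∃ n, B ≤ snL t b n x := by
  have hp : 1 ≤ ENNReal.ofReal s := by
    rw [← ENNReal.ofReal_one]
    exact ENNReal.ofReal_le_ofReal hs.le
  have : Fact (1 ≤ ENNReal.ofReal s) := ⟨hp⟩
  exact gliding (V := Lp ℝ (ENNReal.ofReal s) m) (fun n x => snL s a n x) (fun n x => snL t b n x)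
    (b1_add hK hm hs hs ha) (b2_smul hK hm hs ha) (b3_bdd hK hm hs hs ha)
    (b1_add hK hm hs ht hb) (b2_smul hK hm ht hb) (b3_bdd hK hm hs ht hb) e h1 h2 h3

theorem hump {K : Set (ℝ × ℝ)} {m : Measure (ℝ × ℝ)} (hK : IsCarpet K) (hm : IsCarpetMeasure K m) {s t a b : ℝ} (hs : 1 < s) (ht : 1 < t)
    (ha : 0 < a) (hb : 0 < b) (f : ℕ → ℝ × ℝ → ℝ) (hf : ∀ k, MemLp (f k) (ENNReal.ofReal s) m) (hf1 : ∀ k, ∫ z, |f k z| ^ s ∂m ≤ 1)
    {D : ℝ} (hf2 : ∀ k n, a ^ n * En (G n) s (av m (f k) n) ≤ D)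
    (hf3 : ∀ B : ℝ, ∃ k n, B ≤ b ^ n * En (G n) t (av m (f k) n)) : ∃ g : ℝ × ℝ → ℝ, Mem K m s a g ∧ ¬ Mem K m t b g := by
  have hs0 : 0 < s := by linarith
  have ht0 : 0 < t := by linarith
  obtain ⟨M, hM⟩ : ∃ M : ℝ, M = max 1 (D ^ (1 / s)) := ⟨_, rfl⟩
  have hM1 : 1 ≤ M := by rw [hM]; exact le_max_left _ _
  have hM2 : D ^ (1 / s) ≤ M := by rw [hM]; exact le_max_right _ _
  have hM0 : 0 < M := by linarith
  have hMi : 0 < M⁻¹ := inv_pos.2 hM0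
  obtain ⟨x, hx1, hx2⟩ := b6_main hK hm hs ht ha hb (fun k => M⁻¹ • (hf k).toLp (f k))
    (by
      intro k
      have hp : 1 ≤ ENNReal.ofReal s := by
        rw [← ENNReal.ofReal_one]
        exact ENNReal.ofReal_le_ofReal hs.le
      have : Fact (1 ≤ ENNReal.ofReal s) := ⟨hp⟩
      have h0 : ‖M⁻¹ • (hf k).toLp (f k)‖ = |M⁻¹| * ‖(hf k).toLp (f k)‖ := norm_smul _ _
      show ‖M⁻¹ • (hf k).toLp (f k)‖ ≤ 1
      rw [h0, abs_of_pos hMi]
      have h1 := b5_norm hs (hf k) (hf1 k)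
      have h2 : M⁻¹ ≤ 1 := inv_le_one_of_one_le₀ hM1
      nlinarith)
    (by
      intro k n
      show snL s a n (M⁻¹ • (hf k).toLp (f k)) ≤ 1
      rw [b2_smul hK hm hs ha, b4_toLp hK hm, abs_of_pos hMi]
      have h1 : sn m s a n (f k) ≤ D ^ (1 / s) :=
        Real.rpow_le_rpow (mul_nonneg (by positivity) (En_nonneg _ _ _)) (hf2 k n) (by positivity)
      calc M⁻¹ * sn m s a n (f k) ≤ M⁻¹ * M := mul_le_mul_of_nonneg_left (h1.trans hM2) hMi.le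
        _ = 1 := inv_mul_cancel₀ hM0.ne')
    (by
      intro B
      obtain ⟨k, n, hkn⟩ := hf3 ((M * |B|) ^ t)
      refine ⟨k, n, ?_⟩
      show B ≤ snL t b n (M⁻¹ • (hf k).toLp (f k))
      rw [b2_smul hK hm ht hb, b4_toLp hK hm, abs_of_pos hMi]
      have h1 : M * |B| ≤ sn m t b n (f k) := by
        have h2 := Real.rpow_le_rpow (by positivity) hkn (show (0 : ℝ) ≤ 1 / t by positivity)
        rw [← Real.rpow_mul (by positivity), mul_one_div_cancel ht0.ne', Real.rpow_one] at h2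
        exact h2
      calc B ≤ |B| := le_abs_self B
        _ = M⁻¹ * (M * |B|) := by rw [← mul_assoc, inv_mul_cancel₀ hM0.ne', one_mul]
        _ ≤ M⁻¹ * sn m t b n (f k) := mul_le_mul_of_nonneg_left h1 hMi.le)
  refine ⟨x, (mem_iff hK hm hs).2 ⟨Lp.memLp x, 1, fun n => ?_⟩, fun hmem => ?_⟩
  · have h1 : (a ^ n * En (G n) s (av m x n)) ^ (1 / s) ≤ 1 := hx1 n
    by_contra h2
    push Not at h2
    have h3 := Real.one_lt_rpow h2 (show (0 : ℝ) < 1 / s by positivity)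
    linarith
  · obtain ⟨-, C, hC⟩ := (mem_iff hK hm ht).1 hmem
    obtain ⟨n, hn⟩ := hx2 (C ^ (1 / t) + 1)
    have h1 : (b ^ n * En (G n) t (av m x n)) ^ (1 / t) ≤ C ^ (1 / t) :=
      Real.rpow_le_rpow (mul_nonneg (by positivity) (En_nonneg _ _ _)) (hC n) (by positivity)
    have h2 : C ^ (1 / t) + 1 ≤ (b ^ n * En (G n) t (av m x n)) ^ (1 / t) := hn
    linarith

end Pool.Agent.NIF
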