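import Mathlib

/-!
HLD (90 lines). Quantitative strict Jensen for x ↦ x^θ, 0 < θ < 1.

PROOF. S = Σ a. If S = 0 all a i = 0 and both sides are 0 (0^θ = 0). Otherwise divide by S: Σ a = 1, a i0 = x ∈ [(1+ε)/N, 1] (if (1+ε)/N > 1 there is nothing to show).
The other N - 1 numbers: Σ_{i ≠ i0} a i^θ ≤ (N-1)^(1-θ) (1-x)^θ (Jensen: Real.inner_le_nnorm_mul_nnorm or concavity of rpow: ConcaveOn.le_map_sum, Real.concaveOn_rpow).
φ x = x^θ + (N-1)^(1-θ) (1-x)^θ = N [ (1/N) x^θ + ((N-1)/N) ((1-x)/(N-1))^θ ] < N (1/N)^θ = N^(1-θ) for x ∈ [0,1], x ≠ 1/N, by strict concavity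
(Real.strictConcaveOn_rpow on [0,∞)). φ is continuous on the compact interval [(1+ε)/N, 1] which does not contain 1/N: its maximum there is (1-κ') N^(1-θ) with κ' > 0
(if the interval is empty take κ' = 1/2); κ = min κ' (1/2) (so κ < 1).
-/

set_option autoImplicit false

namespace Pool.Agent.NIF

/-- plain Jensen -/
private theorem jensen_pow' {θ : ℝ} (h0 : 0 < θ) (h1 : θ < 1) (s : Finset (ℕ × ℕ)) (a : ℕ × ℕ → ℝ)
    (ha : ∀ i ∈ s, 0 ≤ a i) : ∑ i ∈ s, a i ^ θ ≤ (s.card : ℝ) ^ (1 - θ) * (∑ i ∈ s, a i) ^ θ := by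
  have hp : 1 ≤ 1 / θ := by rw [le_div_iff₀ h0]; linarith
  have hS : 0 ≤ ∑ i ∈ s, a i ^ θ := Finset.sum_nonneg fun i hi => Real.rpow_nonneg (ha i hi) _
  have h2 := Real.rpow_sum_le_const_mul_sum_rpow_of_nonneg s (f := fun i => a i ^ θ) hp
    (fun i hi => Real.rpow_nonneg (ha i hi) _)
  have h3 : ∑ i ∈ s, (a i ^ θ) ^ (1 / θ) = ∑ i ∈ s, a i := by
    refine Finset.sum_congr rfl fun i hi => ?_
    rw [← Real.rpow_mul (ha i hi), mul_one_div_cancel h0.ne', Real.rpow_one]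
  rw [h3] at h2
  have h4 := Real.rpow_le_rpow (Real.rpow_nonneg hS _) h2 h0.le
  rw [← Real.rpow_mul hS, one_div_mul_cancel h0.ne', Real.rpow_one] at h4
  refine h4.trans (le_of_eq ?_)
  rw [Real.mul_rpow (by positivity) (Finset.sum_nonneg ha), ← Real.rpow_mul (by positivity)]
  congr 2
  field_simp

private theorem phi_lt {θ : ℝ} (h0 : 0 < θ) (h1 : θ < 1) {N : ℕ} (hN : 2 ≤ N) {x : ℝ} (hx : 1 / (N : ℝ) < x)
    (hx1 : x ≤ 1) : x ^ θ + ((N : ℝ) - 1) ^ (1 - θ) * (1 - x) ^ θ < (N : ℝ) ^ (1 - θ) := by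
  have hN' : (2 : ℝ) ≤ N := by exact_mod_cast hN
  have hNp : (0 : ℝ) < N := by linarith
  have hM : (0 : ℝ) < (N : ℝ) - 1 := by linarith
  have hx0 : 0 < x := lt_trans (by positivity) hx
  obtain ⟨-, hsc⟩ := Real.strictConcaveOn_rpow h0 h1
  have hne : x ≠ (1 - x) / ((N : ℝ) - 1) := by
    intro h
    rw [eq_div_iff hM.ne'] at h
    rw [div_lt_iff₀ hNp] at hx
    linarith
  have hab : 1 / (N : ℝ) + ((N : ℝ) - 1) / N = 1 := by
    field_simp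
    ring
  have h2 := hsc (Set.mem_Ici.mpr hx0.le) (Set.mem_Ici.mpr (div_nonneg (by linarith) hM.le)) hne
    (by positivity : 0 < 1 / (N : ℝ)) (by positivity : 0 < ((N : ℝ) - 1) / N) hab
  simp only [smul_eq_mul] at h2
  have h3 : 1 / (N : ℝ) * x + ((N : ℝ) - 1) / N * ((1 - x) / ((N : ℝ) - 1)) = 1 / N := by
    field_simp
    ring
  rw [h3] at h2
  have h4 := mul_lt_mul_of_pos_left h2 hNp
  have h5 : (N : ℝ) * (1 / (N : ℝ)) ^ θ = (N : ℝ) ^ (1 - θ) := by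
    rw [Real.rpow_sub hNp, Real.rpow_one, Real.div_rpow zero_le_one hNp.le, Real.one_rpow]
    ring
  rw [h5] at h4
  refine lt_of_eq_of_lt ?_ h4
  rw [Real.rpow_sub hM, Real.rpow_one, Real.div_rpow (by linarith) hM.le]
  field_simp

theorem jensen_strict {θ ε : ℝ} (h0 : 0 < θ) (h1 : θ < 1) (hε : 0 < ε) {N : ℕ} (hN : 2 ≤ N) : ∃ κ : ℝ, 0 < κ ∧ κ < 1 ∧
    ∀ (s : Finset (ℕ × ℕ)) (a : ℕ × ℕ → ℝ), s.card = N → (∀ i ∈ s, 0 ≤ a i) →
      (∃ i0 ∈ s, (1 + ε) / N * ∑ i ∈ s, a i ≤ a i0) →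
      ∑ i ∈ s, a i ^ θ ≤ (1 - κ) * (N : ℝ) ^ (1 - θ) * (∑ i ∈ s, a i) ^ θ := by
  have hN' : (2 : ℝ) ≤ N := by exact_mod_cast hN
  have hNp : (0 : ℝ) < N := by linarith
  have hM : (0 : ℝ) < (N : ℝ) - 1 := by linarith
  have hNθ : 0 < (N : ℝ) ^ (1 - θ) := by positivity
  have hlt : 1 / (N : ℝ) < (1 + ε) / N := by
    rw [div_lt_div_iff_of_pos_right hNp]; linarith
  -- the bound for the function of one variable
  obtain ⟨κ, hκ0, hκ1, hκ⟩ : ∃ κ : ℝ, 0 < κ ∧ κ < 1 ∧ ∀ x : ℝ, (1 + ε) / N ≤ x → x ≤ 1 →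
      x ^ θ + ((N : ℝ) - 1) ^ (1 - θ) * (1 - x) ^ θ ≤ (1 - κ) * (N : ℝ) ^ (1 - θ) := by
    rcases lt_or_ge 1 ((1 + ε) / (N : ℝ)) with hem | hne
    · exact ⟨1 / 2, by norm_num, by norm_num, fun x hx hx1 => absurd (hx.trans hx1) (not_le.mpr hem)⟩
    · have hcont : ContinuousOn (fun x : ℝ => x ^ θ + ((N : ℝ) - 1) ^ (1 - θ) * (1 - x) ^ θ)
          (Set.Icc ((1 + ε) / (N : ℝ)) 1) := by
        refine Continuous.continuousOn ?_
        refine (Real.continuous_rpow_const h0.le).add (continuous_const.mul ?_)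
        exact (Real.continuous_rpow_const h0.le).comp (continuous_const.sub continuous_id)
      obtain ⟨xm, hxm, hmax⟩ := isCompact_Icc.exists_isMaxOn (Set.nonempty_Icc.mpr hne) hcont
      have hlt' := phi_lt h0 h1 hN (lt_of_lt_of_le hlt hxm.1) hxm.2
      set Mx : ℝ := xm ^ θ + ((N : ℝ) - 1) ^ (1 - θ) * (1 - xm) ^ θ with hMx
      refine ⟨min (1 - Mx / (N : ℝ) ^ (1 - θ)) (1 / 2), ?_, ?_, ?_⟩
      · refine lt_min ?_ (by norm_num)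
        have : Mx / (N : ℝ) ^ (1 - θ) < 1 := (div_lt_one hNθ).mpr hlt'
        linarith
      · exact lt_of_le_of_lt (min_le_right _ _) (by norm_num)
      · intro x hx hx1
        have h3 : x ^ θ + ((N : ℝ) - 1) ^ (1 - θ) * (1 - x) ^ θ ≤ Mx := hmax ⟨hx, hx1⟩
        have h4 : Mx / (N : ℝ) ^ (1 - θ) ≤ 1 - min (1 - Mx / (N : ℝ) ^ (1 - θ)) (1 / 2) := by
          have := min_le_left (1 - Mx / (N : ℝ) ^ (1 - θ)) (1 / 2)
          linarith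
        have h5 : Mx = Mx / (N : ℝ) ^ (1 - θ) * (N : ℝ) ^ (1 - θ) := by field_simp
        calc _ ≤ Mx := h3
          _ = Mx / (N : ℝ) ^ (1 - θ) * (N : ℝ) ^ (1 - θ) := h5
          _ ≤ _ := mul_le_mul_of_nonneg_right h4 hNθ.le
  refine ⟨κ, hκ0, hκ1, fun s a hs ha hi0 => ?_⟩
  obtain ⟨i0, hi0s, hi0⟩ := hi0
  have hS : 0 ≤ ∑ i ∈ s, a i := Finset.sum_nonneg ha
  rcases hS.eq_or_lt with hS0 | hSp
  · have hz : ∀ i ∈ s, a i = 0 := (Finset.sum_eq_zero_iff_of_nonneg ha).mp hS0.symm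
    have : ∑ i ∈ s, a i ^ θ = 0 := Finset.sum_eq_zero fun i hi => by rw [hz i hi, Real.zero_rpow h0.ne']
    rw [this, ← hS0, Real.zero_rpow h0.ne', mul_zero]
  · set Sm : ℝ := ∑ i ∈ s, a i with hSm
    have hsum : a i0 + ∑ i ∈ s.erase i0, a i = Sm := Finset.add_sum_erase s a hi0s
    have hle : a i0 ≤ Sm := Finset.single_le_sum ha hi0s
    have h3 := jensen_pow' h0 h1 (s.erase i0) a (fun i hi => ha i (Finset.mem_of_mem_erase hi))
    have hc : ((s.erase i0).card : ℝ) = (N : ℝ) - 1 := by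
      rw [Finset.card_erase_of_mem hi0s, hs, Nat.cast_sub (by omega)]
      simp
    rw [hc] at h3
    have h4 : ∑ i ∈ s.erase i0, a i = Sm - a i0 := by linarith
    rw [h4] at h3
    have h5 : a i0 ^ θ + ∑ i ∈ s.erase i0, a i ^ θ = ∑ i ∈ s, a i ^ θ :=
      Finset.add_sum_erase s (fun i => a i ^ θ) hi0s
    have hx1 : a i0 / Sm ≤ 1 := (div_le_one hSp).mpr hle
    have hx0 : 0 ≤ a i0 / Sm := div_nonneg (ha i0 hi0s) hSp.le
    have h6 := hκ (a i0 / Sm) (by rw [le_div_iff₀ hSp]; exact hi0) hx1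
    have h7 := mul_le_mul_of_nonneg_right h6 (Real.rpow_nonneg hSp.le θ)
    have h8 : (a i0 / Sm) ^ θ * Sm ^ θ = a i0 ^ θ := by
      rw [← Real.mul_rpow hx0 hSp.le, div_mul_cancel₀ _ hSp.ne']
    have h9 : (1 - a i0 / Sm) ^ θ * Sm ^ θ = (Sm - a i0) ^ θ := by
      rw [← Real.mul_rpow (by linarith) hSp.le, sub_mul, div_mul_cancel₀ _ hSp.ne', one_mul]
    rw [← h5]
    calc a i0 ^ θ + ∑ i ∈ s.erase i0, a i ^ θ ≤ a i0 ^ θ + ((N : ℝ) - 1) ^ (1 - θ) * (Sm - a i0) ^ θ := by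
          linarith
      _ = ((a i0 / Sm) ^ θ + ((N : ℝ) - 1) ^ (1 - θ) * (1 - a i0 / Sm) ^ θ) * Sm ^ θ := by
          rw [← h8, ← h9]; ring
      _ ≤ _ := h7

/-- plain Jensen -/
theorem jensen_pow {θ : ℝ} (h0 : 0 < θ) (h1 : θ < 1) (s : Finset (ℕ × ℕ)) (a : ℕ × ℕ → ℝ) (ha : ∀ i ∈ s, 0 ≤ a i) :
    ∑ i ∈ s, a i ^ θ ≤ (s.card : ℝ) ^ (1 - θ) * (∑ i ∈ s, a i) ^ θ := jensen_pow' h0 h1 s a ha

end Pool.Agent.NIF
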