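import Pool.Agent.NIF.SUB
import Pool.Agent.NIF.SYM

/-!
ITR (110 lines). Iterated substitution.

PROOF. A from exists_subst. f 0 c = if c.1 < 4 then 0 else 1 on G 2 (9 × 9 grid), f (j+1) = the function h of exists_subst for n = 2 + j*m,
g = f j, level 2 + j*m + m = 2 + (j+1)*m (cast the level: (j+1)*m = j*m + m). Define f by recursion with choice (Classical.choose) or prove
∃ f by Nat.rec on a subtype. B = En (G 2) t (f 0) (plus 1 if you like). Energy: induction, En (f (j+1)) ≤ A En u · En (f j).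
Bounds 0 ≤ f ≤ 1: hull with lo = 0, hi = 1 (on G; f 0 has values 0, 1).
Zero region: INVARIANT 2 * x.1 < 5 * 3^(j*m) + 3 → f j x = 0 for x ∈ G (2 + j*m). j = 0: 2 x.1 < 8. Step: 2 x.1 < 5 · 3^(j*m+m) + 3 and v near anc m x:
v.1 ≤ x.1 / 3^m + 1, 2 · 3^m · (x.1 / 3^m) ≤ 2 x.1 < 5 · 3^(jm) 3^m + 3; since 3 ≤ 3^m: 2 · 3^m (v.1 - 1) < 3^m (5 · 3^(jm) + 1), so
2 v.1 < 5 · 3^(jm) + 3, f j v = 0 for all near v, hull with lo = hi = 0. In particular x.1 < 2 · 3^(jm) gives f j x = 0.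
One region: INVARIANT 2 * (9 * 3^(j*m) - 1 - x.1) < 5 * 3^(j*m) + 3, i.e. 13 * 3^(j*m) < 2 * x.1 + 5 → f j x = 1: j = 0: 13 < 2 x.1 + 5 iff x.1 ≥ 5
(fine, f 0 = 1 for x.1 ≥ 4). Step: 13 · 3^(jm) 3^m < 2 x.1 + 5 and v near anc m x: x.1 ≤ 3^m (x.1/3^m) + 3^m - 1 and v.1 + 1 ≥ x.1/3^m, so
13 · 3^(jm) 3^m < 2 · 3^m (v.1 + 2) + 3 ≤ 3^m (2 v.1 + 5): 13 · 3^(jm) < 2 v.1 + 5. And 7 · 3^(jm) ≤ x.1 implies 13 · 3^(jm) < 14 · 3^(jm) + 5 ≤ 2 x.1 + 5.
Closeness: x ∈ G (2+(j+1)m), v0 = anc m x, δ = (ve (G (2+jm)) t (f j) v0)^(1/t): all v near v0 have |f j v0 - f j v| ≤ δ (le_ve), hull with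
lo = f j v0 - δ, hi = f j v0 + δ gives |f (j+1) x - f j v0|^t ≤ δ^t = ve.
-/

set_option autoImplicit false

namespace Pool.Agent.NIF

/-- a hierarchical sequence of functions: level 2 + j m, energies ≤ B R^j, stable zero and one regions -/
structure Hier (t : ℝ) (m : ℕ) (B R : ℝ) (f : ℕ → ℕ × ℕ → ℝ) : Prop where
  unit : ∀ j, ∀ x ∈ G (2 + j * m), 0 ≤ f j x ∧ f j x ≤ 1
  energy : ∀ j, En (G (2 + j * m)) t (f j) ≤ B * R ^ j
  zero : ∀ j, ∀ x ∈ G (2 + j * m), x.1 < 2 * 3 ^ (j * m) → f j x = 0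
  one : ∀ j, ∀ x ∈ G (2 + j * m), 7 * 3 ^ (j * m) ≤ x.1 → f j x = 1
  close : ∀ j, ∀ x ∈ G (2 + (j + 1) * m), |f (j + 1) x - f j (anc m x)| ^ t ≤ ve (G (2 + j * m)) t (f j) (anc m x)

private theorem ITR_zero_arith {N T a x v : ℕ} (hN : 3 ≤ N) (h1 : N * a ≤ x) (h2 : 2 * x < 5 * (T * N) + 3)
    (h3 : v ≤ a + 1) : 2 * v < 5 * T + 3 := by
  by_contra hcon
  push Not at hcon
  have h4 : 5 * T + 1 ≤ 2 * a := by omega
  have h5 : N * (5 * T + 1) ≤ N * (2 * a) := Nat.mul_le_mul_left N h4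
  nlinarith

private theorem ITR_one_arith {N T a x v : ℕ} (hN : 3 ≤ N) (h1 : x < N * a + N) (h2 : 13 * (T * N) < 2 * x + 5)
    (h3 : a ≤ v + 1) : 13 * T < 2 * v + 5 := by
  by_contra hcon
  push Not at hcon
  have h4 : 2 * a + 3 ≤ 13 * T := by omega
  have h5 : N * (2 * a + 3) ≤ N * (13 * T) := Nat.mul_le_mul_left N h4
  nlinarith

theorem exists_hier {t : ℝ} (ht : 1 ≤ t) : ∃ A : ℝ, 1 ≤ A ∧ ∀ (m : ℕ) (u : ℕ × ℕ → ℝ), 1 ≤ m → SymAdm t m u →
    ∃ (B : ℝ) (f : ℕ → ℕ × ℕ → ℝ), 0 < B ∧ Hier t m B (A * En (G m) t u) f := by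
  classical
  obtain ⟨A, hA1, hA⟩ := exists_subst ht
  refine ⟨A, hA1, ?_⟩
  intro m u hm hu
  have hAu := hA m u hm hu.adm hu.unit hu.sym
  choose S hS using hAu
  set f0 : ℕ × ℕ → ℝ := fun c => if c.1 < 4 then 0 else 1 with hf0
  set f : ℕ → ℕ × ℕ → ℝ := fun j => Nat.rec f0 (fun j g => S (2 + j * m) g) j with hf
  have f_zero : f 0 = f0 := rfl
  have f_succ : ∀ j, f (j + 1) = S (2 + j * m) (f j) := fun j => rfl
  have hlev : ∀ j, 2 + (j + 1) * m = 2 + j * m + m := fun j => by ring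
  have hN : 3 ≤ 3 ^ m := by
    calc 3 = 3 ^ 1 := by norm_num
      _ ≤ 3 ^ m := Nat.pow_le_pow_right (by norm_num) hm
  have hpow : ∀ j, 3 ^ ((j + 1) * m) = 3 ^ (j * m) * 3 ^ m := fun j => by
    rw [← pow_add]; congr 1; ring
  have hE0 : 0 ≤ En (G 2) t (f 0) := En_nonneg _ _ _
  have hEu : 0 ≤ En (G m) t u := En_nonneg _ _ _
  -- hull property of one step
  have hull : ∀ j, ∀ x ∈ G (2 + (j + 1) * m), ∀ lo hi : ℝ,
      (∀ v ∈ G (2 + j * m), near v (anc m x) → lo ≤ f j v ∧ f j v ≤ hi) →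
      lo ≤ f (j + 1) x ∧ f (j + 1) x ≤ hi := by
    intro j x hx lo hi h
    rw [hlev j] at hx
    exact (hS (2 + j * m) (f j)).2.1 x hx lo hi h
  have hunit : ∀ j, ∀ x ∈ G (2 + j * m), 0 ≤ f j x ∧ f j x ≤ 1 := by
    intro j
    induction j with
    | zero =>
      intro x _
      rw [f_zero, hf0]
      dsimp only
      split_ifs <;> norm_num
    | succ j ih =>
      intro x hx
      exact hull j x hx 0 1 fun v hv _ => ih v hv
  have hzero : ∀ j, ∀ x ∈ G (2 + j * m), 2 * x.1 < 5 * 3 ^ (j * m) + 3 → f j x = 0 := by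
    intro j
    induction j with
    | zero =>
      intro x _ h
      rw [Nat.zero_mul, pow_zero] at h
      rw [f_zero, hf0]
      dsimp only
      rw [if_pos (by omega)]
    | succ j ih =>
      intro x hx h
      rw [hpow j] at h
      have := hull j x hx 0 0 fun v hv hn => by
        have h3 : v.1 ≤ x.1 / 3 ^ m + 1 := hn.1
        have h4 : 3 ^ m * (x.1 / 3 ^ m) ≤ x.1 := Nat.mul_div_le _ _
        have h5 := ITR_zero_arith hN h4 h h3
        rw [ih v hv h5]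
        exact ⟨le_refl _, le_refl _⟩
      exact le_antisymm this.2 this.1
  have hone : ∀ j, ∀ x ∈ G (2 + j * m), 13 * 3 ^ (j * m) < 2 * x.1 + 5 → f j x = 1 := by
    intro j
    induction j with
    | zero =>
      intro x _ h
      rw [Nat.zero_mul, pow_zero] at h
      rw [f_zero, hf0]
      dsimp only
      rw [if_neg (by omega)]
    | succ j ih =>
      intro x hx h
      rw [hpow j] at h
      have := hull j x hx 1 1 fun v hv hn => by
        have h3 : x.1 / 3 ^ m ≤ v.1 + 1 := hn.2.1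
        have h4 : x.1 < 3 ^ m * (x.1 / 3 ^ m) + 3 ^ m := by
          have h6 := Nat.div_add_mod x.1 (3 ^ m)
          have h7 := Nat.mod_lt x.1 (show 0 < 3 ^ m by positivity)
          omega
        have h5 := ITR_one_arith hN h4 h h3
        rw [ih v hv h5]
        exact ⟨le_refl _, le_refl _⟩
      exact le_antisymm this.2 this.1
  refine ⟨En (G 2) t (f 0) + 1, f, by linarith, ⟨hunit, ?_, ?_, ?_, ?_⟩⟩
  · intro j
    induction j with
    | zero =>
      rw [Nat.zero_mul, pow_zero, mul_one]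
      linarith
    | succ j ih =>
      rw [hlev j, f_succ j]
      refine (hS (2 + j * m) (f j)).1.trans ?_
      calc A * En (G m) t u * En (G (2 + j * m)) t (f j)
          ≤ A * En (G m) t u * ((En (G 2) t (f 0) + 1) * (A * En (G m) t u) ^ j) := by
            apply mul_le_mul_of_nonneg_left ih
            positivity
        _ = (En (G 2) t (f 0) + 1) * (A * En (G m) t u) ^ (j + 1) := by ring
  · intro j x hx h
    exact hzero j x hx (by omega)
  · intro j x hx h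
    exact hone j x hx (by omega)
  · intro j x hx
    set v0 := anc m x with hv0
    set E := ve (G (2 + j * m)) t (f j) v0 with hE
    have hEn : 0 ≤ E := ve_nonneg _ _ _ _
    have ht0 : t ≠ 0 := by linarith
    have hδ : 0 ≤ E ^ (1 / t) := Real.rpow_nonneg hEn _
    have key := hull j x hx (f j v0 - E ^ (1 / t)) (f j v0 + E ^ (1 / t)) fun v hv hn => by
      have h1 : |f j v0 - f j v| ^ t ≤ E := le_ve hv (near_symm hn)
      have h2 : |f j v0 - f j v| ≤ E ^ (1 / t) := by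
        have h3 := Real.rpow_le_rpow (Real.rpow_nonneg (abs_nonneg _) _) h1
          (show (0 : ℝ) ≤ 1 / t by positivity)
        rwa [← Real.rpow_mul (abs_nonneg _), mul_one_div_cancel ht0, Real.rpow_one] at h3
      have h4 := abs_le.mp h2
      constructor <;> linarith [h4.1, h4.2]
    have h5 : |f (j + 1) x - f j v0| ≤ E ^ (1 / t) := by
      rw [abs_le]
      constructor <;> linarith [key.1, key.2]
    calc |f (j + 1) x - f j v0| ^ t ≤ (E ^ (1 / t)) ^ t :=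
          Real.rpow_le_rpow (abs_nonneg _) h5 (by linarith)
      _ = E := by rw [← Real.rpow_mul hEn, one_div_mul_cancel ht0, Real.rpow_one]

end Pool.Agent.NIF
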