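import Pool.Agent.NIF.NEA

/-!
RNG (50 lines). Oscillation in the neighbourhood of a short path.
-/

set_option autoImplicit false

namespace Pool.Agent.NIF

private lemma path_inc {A : Finset (ℕ × ℕ)} {N : ℕ} {γ : ℕ → ℕ × ℕ} (hγ : IsPath A N γ) {u ℓ : ℕ × ℕ → ℝ}
    (h : ∀ x ∈ A, ∀ y ∈ A, near x y → |u x - u y| ≤ ℓ x) {i : ℕ} (d : ℕ) (hd : i + d ≤ N) :
    |u (γ i) - u (γ (i + d))| ≤ ∑ l ∈ Finset.Ico i (i + d), ℓ (γ l) := by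
  induction d with
  | zero => simp
  | succ d ih =>
    have h1 := ih (by omega)
    have h2 : |u (γ (i + d)) - u (γ (i + d + 1))| ≤ ℓ (γ (i + d)) :=
      h _ (hγ.1 _ (by omega)) _ (hγ.1 _ (by omega)) (hγ.2 _ (by omega))
    have h3 : ∑ l ∈ Finset.Ico i (i + d + 1), ℓ (γ l) = ∑ l ∈ Finset.Ico i (i + d), ℓ (γ l) + ℓ (γ (i + d)) :=
      Finset.sum_Ico_succ_top (by omega) _
    have h4 := abs_sub_le (u (γ i)) (u (γ (i + d))) (u (γ (i + d + 1)))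
    have h5 : i + (d + 1) = i + d + 1 := by omega
    rw [h5, h3]
    linarith

private lemma path_le {A : Finset (ℕ × ℕ)} {N : ℕ} {γ : ℕ → ℕ × ℕ} (hγ : IsPath A N γ) {u ℓ : ℕ × ℕ → ℝ} (hℓ : ∀ c, 0 ≤ ℓ c)
    (h : ∀ x ∈ A, ∀ y ∈ A, near x y → |u x - u y| ≤ ℓ x) {i k : ℕ} (hik : i ≤ k) (hk : k ≤ N) :
    |u (γ i) - u (γ k)| ≤ ∑ l ∈ Finset.range (N + 1), ℓ (γ l) := by
  have h1 := path_inc hγ h (i := i) (k - i) (by omega)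
  have h2 : i + (k - i) = k := by omega
  rw [h2] at h1
  refine h1.trans (Finset.sum_le_sum_of_subset_of_nonneg ?_ (fun _ _ _ => hℓ _))
  intro l hl
  rw [Finset.mem_Ico] at hl
  rw [Finset.mem_range]
  omega

theorem path_osc {A : Finset (ℕ × ℕ)} {N : ℕ} {γ : ℕ → ℕ × ℕ} (hγ : IsPath A N γ) {u ℓ : ℕ × ℕ → ℝ} (hℓ : ∀ c, 0 ≤ ℓ c)
    (h : ∀ x ∈ A, ∀ y ∈ A, near x y → |u x - u y| ≤ ℓ x) {x y : ℕ × ℕ} (hx : x ∈ A) (hy : y ∈ A)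
    (hx1 : ∃ i ≤ N, near (γ i) x) (hy1 : ∃ i ≤ N, near (γ i) y) :
    |u x - u y| ≤ 3 * ∑ i ∈ Finset.range (N + 1), ℓ (γ i) := by
  obtain ⟨i, hi, hix⟩ := hx1
  obtain ⟨k, hk, hky⟩ := hy1
  have single : ∀ l ≤ N, ℓ (γ l) ≤ ∑ i ∈ Finset.range (N + 1), ℓ (γ i) := fun l hl =>
    Finset.single_le_sum (f := fun i => ℓ (γ i)) (fun _ _ => hℓ _) (Finset.mem_range.2 (by omega))
  have h1 : |u (γ i) - u x| ≤ ∑ i ∈ Finset.range (N + 1), ℓ (γ i) := (h _ (hγ.1 _ hi) _ hx hix).trans (single i hi)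
  have h2 : |u (γ k) - u y| ≤ ∑ i ∈ Finset.range (N + 1), ℓ (γ i) := (h _ (hγ.1 _ hk) _ hy hky).trans (single k hk)
  have h3 : |u (γ i) - u (γ k)| ≤ ∑ l ∈ Finset.range (N + 1), ℓ (γ l) := by
    rcases le_total i k with hik | hik
    · exact path_le hγ hℓ h hik hk
    · rw [abs_sub_comm]
      exact path_le hγ hℓ h hik hi
  have h4 : |u x - u (γ i)| ≤ ∑ i ∈ Finset.range (N + 1), ℓ (γ i) := by rw [abs_sub_comm]; exact h1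
  have h5 := abs_sub_le (u x) (u (γ i)) (u y)
  have h6 := abs_sub_le (u (γ i)) (u (γ k)) (u y)
  linarith

end Pool.Agent.NIF
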