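import Pool.Agent.NIF.PLN

/-!
SEP (120 lines). The four long paths in the boundary strips separate the inside of the square from its boundary cells.

Sq n = all (x,y) with x, y < 3^n. γ1 (bottom strip, left to right), γ2 (top strip, left to right), γ3 (left strip, bottom to top), γ4 (right strip, bottom to top).

PROOF. sep_bottom: σ 0, ..., σ L king path in the square with h ≤ (σ 0).2 and (σ L).2 = 0, 1 ≤ h. Let i0 be the last index ≤ L with h ≤ (σ i0).2 (Nat.findGreatest or strong
induction); i0 < L as (σ L).2 = 0 < h. Then (σ i).2 < h for i0 < i ≤ L and (σ (i0+1)).2 = h - 1 (near: h ≤ (σ i0).2 ≤ (σ (i0+1)).2 + 1). cross_rev with M = 3^n - 1, N = h - 1,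
γ = γ1, τ i = σ (i0 + 1 + i), l = L - i0 - 1: some γ1 k is near some σ i.
separation: let L' be the first index ≤ L with Bd n (σ L'). If (σ L').2 = 0: sep_bottom. If (σ L').2 + 1 = 3^n: apply sep_bottom to the reflected paths ry n ∘ γ2 and
ry n ∘ σ (near_ry). If (σ L').1 = 0: apply it to sw ∘ γ3, sw ∘ σ (γ3 goes from (·,0) to (·,3^n-1), so sw ∘ γ3 goes from left to right). If (σ L').1 + 1 = 3^n: first rx n, then sw.
(The first index is not needed: any L with Bd n (σ L) works, since all four cases only use that σ starts inside.)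
-/

set_option autoImplicit false

namespace Pool.Agent.NIF

/-- γ is a king path in the square of level n, inside the bottom strip of height h, from the left to the right side -/
def BotPath (n h N : ℕ) (γ : ℕ → ℕ × ℕ) : Prop :=
  (∀ i ≤ N, (γ i).1 < 3 ^ n ∧ (γ i).2 < h) ∧ (∀ i < N, near (γ i) (γ (i + 1))) ∧ (γ 0).1 = 0 ∧ (γ N).1 + 1 = 3 ^ n

theorem sep_bottom {n h N L : ℕ} (hh : 1 ≤ h) (hh2 : h ≤ 3 ^ n) {γ σ : ℕ → ℕ × ℕ} (hγ : BotPath n h N γ)
    (hσ : ∀ i ≤ L, (σ i).1 < 3 ^ n ∧ (σ i).2 < 3 ^ n) (hσ1 : ∀ i < L, near (σ i) (σ (i + 1)))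
    (h0 : h ≤ (σ 0).2) (h1 : (σ L).2 = 0) : ∃ k ≤ N, ∃ i ≤ L, near (γ k) (σ i) := by
  have hP0 : h ≤ (σ (Nat.findGreatest (fun i => h ≤ (σ i).2) L)).2 :=
    Nat.findGreatest_spec (P := fun i => h ≤ (σ i).2) (Nat.zero_le L) h0
  have hle : Nat.findGreatest (fun i => h ≤ (σ i).2) L ≤ L := Nat.findGreatest_le L
  have hgr : ∀ i, Nat.findGreatest (fun i => h ≤ (σ i).2) L < i → i ≤ L → ¬ h ≤ (σ i).2 :=
    fun i h2 h3 => Nat.findGreatest_is_greatest (P := fun i => h ≤ (σ i).2) h2 h3
  generalize Nat.findGreatest (fun i => h ≤ (σ i).2) L = i0 at hP0 hle hgr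
  have hne : i0 ≠ L := by
    rintro rfl
    omega
  have hlt : i0 < L := lt_of_le_of_ne hle hne
  have hn1 := hσ1 i0 hlt
  have hg1 := hgr (i0 + 1) (Nat.lt_succ_self _) hlt
  have hpos : 0 < 3 ^ n := by positivity
  have heL : i0 + 1 + (L - i0 - 1) = L := by omega
  obtain ⟨i, hi, j, hj, hij⟩ := cross_rev (M := 3 ^ n - 1) (N := h - 1) (k := N) (l := L - i0 - 1)
    (γ := γ) (τ := fun i => σ (i0 + 1 + i))
    (fun i hi => by
      have := hγ.1 i hi
      omega)
    hγ.2.1
    (fun i hi => by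
      have h2 := hσ (i0 + 1 + i) (by omega)
      have h3 := hgr (i0 + 1 + i) (by omega) (by omega)
      omega)
    (fun i hi => by
      have h2 := hσ1 (i0 + 1 + i) (by omega)
      exact h2)
    hγ.2.2.1
    (by
      have := hγ.2.2.2
      omega)
    (by
      have h2 := hn1.2.2.1
      dsimp
      omega)
    (by
      rw [heL]
      exact h1)
  exact ⟨i, hi, i0 + 1 + j, by omega, hij⟩

/-- the four paths, given in local coordinates by bottom paths: bottom γ1, top ry ∘ γ2, left sw ∘ γ3, right rx ∘ sw ∘ γ4 -/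
theorem separation {n h L N1 N2 N3 N4 : ℕ} (hh : 1 ≤ h) (hh2 : h ≤ 3 ^ n) {γ1 γ2 γ3 γ4 σ : ℕ → ℕ × ℕ} (h1 : BotPath n h N1 γ1)
    (h2 : BotPath n h N2 γ2) (h3 : BotPath n h N3 γ3) (h4 : BotPath n h N4 γ4)
    (hσ : ∀ i ≤ L, (σ i).1 < 3 ^ n ∧ (σ i).2 < 3 ^ n) (hσ1 : ∀ i < L, near (σ i) (σ (i + 1)))
    (h0 : h ≤ (σ 0).1 ∧ h ≤ (σ 0).2 ∧ (σ 0).1 + h < 3 ^ n ∧ (σ 0).2 + h < 3 ^ n) (hL : Bd n (σ L)) :
    ∃ i ≤ L, (∃ k ≤ N1, near (γ1 k) (σ i)) ∨ (∃ k ≤ N2, near (ry n (γ2 k)) (σ i)) ∨ (∃ k ≤ N3, near (sw (γ3 k)) (σ i)) ∨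
      (∃ k ≤ N4, near (rx n (sw (γ4 k))) (σ i)) := by
  have hpos : 0 < 3 ^ n := by positivity
  have hσ0 := hσ 0 (Nat.zero_le _)
  have hσL := hσ L le_rfl
  rcases hL with hL | hL | hL | hL
  · -- left side
    obtain ⟨k, hk, i, hi, hki⟩ := sep_bottom (σ := fun i => sw (σ i)) hh hh2 h3
      (fun i hi => ⟨(hσ i hi).2, (hσ i hi).1⟩) (fun i hi => near_sw.2 (hσ1 i hi)) h0.1 hL
    refine ⟨i, hi, Or.inr (Or.inr (Or.inl ⟨k, hk, ?_⟩))⟩
    exact near_sw.1 hki
  · obtain ⟨k, hk, i, hi, hki⟩ := sep_bottom hh hh2 h1 hσ hσ1 h0.2.1 hL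
    exact ⟨i, hi, Or.inl ⟨k, hk, hki⟩⟩
  · -- right side
    have hrx : ∀ i ≤ L, (rx n (σ i)).1 < 3 ^ n ∧ (rx n (σ i)).2 < 3 ^ n := by
      intro i hi
      have := hσ i hi
      unfold rx
      dsimp
      omega
    obtain ⟨k, hk, i, hi, hki⟩ := sep_bottom (σ := fun i => sw (rx n (σ i))) hh hh2 h4
      (fun i hi => ⟨(hrx i hi).2, (hrx i hi).1⟩)
      (fun i hi => near_sw.2 ((near_rx (hσ i (by omega)).1 (hσ (i + 1) (by omega)).1).2 (hσ1 i hi)))
      (by
        unfold sw rx
        dsimp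
        omega)
      (by
        unfold sw rx
        dsimp
        omega)
    refine ⟨i, hi, Or.inr (Or.inr (Or.inr ⟨k, hk, ?_⟩))⟩
    have hg := h4.1 k hk
    have h5 : near (sw (γ4 k)) (rx n (σ i)) := near_sw.1 hki
    have h6 := (near_rx (n := n) (a := sw (γ4 k)) (b := rx n (σ i))
      (by
        unfold sw
        dsimp
        omega) (hrx i hi).1).2 h5
    have h7 : rx n (rx n (σ i)) = σ i := by
      have := hσ i hi
      unfold rx
      refine Prod.ext ?_ rfl
      dsimp
      omega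
    rw [h7] at h6
    exact h6
  · -- top side
    have hry : ∀ i ≤ L, (ry n (σ i)).1 < 3 ^ n ∧ (ry n (σ i)).2 < 3 ^ n := by
      intro i hi
      have := hσ i hi
      unfold ry
      dsimp
      omega
    obtain ⟨k, hk, i, hi, hki⟩ := sep_bottom (σ := fun i => ry n (σ i)) hh hh2 h2
      hry
      (fun i hi => (near_ry (hσ i (by omega)).2 (hσ (i + 1) (by omega)).2).2 (hσ1 i hi))
      (by
        unfold ry
        dsimp
        omega)
      (by
        unfold ry
        dsimp
        omega)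
    refine ⟨i, hi, Or.inr (Or.inl ⟨k, hk, ?_⟩)⟩
    have hg := h2.1 k hk
    have h6 := (near_ry (n := n) (a := γ2 k) (b := ry n (σ i)) (by omega) (hry i hi).2).2 hki
    have h7 : ry n (ry n (σ i)) = σ i := by
      have := hσ i hi
      unfold ry
      refine Prod.ext rfl ?_
      dsimp
      omega
    rw [h7] at h6
    exact h6

/-- the four paths come near each other: bottom-left, bottom-right, top-left -/
theorem four_near {n h N1 N2 N3 N4 : ℕ} (hh : 1 ≤ h) (hh2 : h ≤ 3 ^ n) {γ1 γ2 γ3 γ4 : ℕ → ℕ × ℕ} (h1 : BotPath n h N1 γ1)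
    (h2 : BotPath n h N2 γ2) (h3 : BotPath n h N3 γ3) (h4 : BotPath n h N4 γ4) :
    (∃ i ≤ N1, ∃ k ≤ N3, near (γ1 i) (sw (γ3 k))) ∧ (∃ i ≤ N1, ∃ k ≤ N4, near (γ1 i) (rx n (sw (γ4 k)))) ∧
      (∃ i ≤ N2, ∃ k ≤ N3, near (ry n (γ2 i)) (sw (γ3 k))) := by
  have hpos : 0 < 3 ^ n := by positivity
  refine ⟨?_, ?_, ?_⟩
  · exact cross (M := 3 ^ n - 1) (N := 3 ^ n - 1) (γ := γ1) (τ := fun i => sw (γ3 i))
      (fun i hi => by
        have := h1.1 i hi
        omega)
      h1.2.1
      (fun i hi => by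
        have := h3.1 i hi
        unfold sw
        dsimp
        omega)
      (fun i hi => near_sw.2 (h3.2.1 i hi))
      h1.2.2.1
      (by
        have := h1.2.2.2
        omega)
      h3.2.2.1
      (by
        have := h3.2.2.2
        unfold sw
        dsimp
        omega)
  · exact cross (M := 3 ^ n - 1) (N := 3 ^ n - 1) (γ := γ1) (τ := fun i => rx n (sw (γ4 i)))
      (fun i hi => by
        have := h1.1 i hi
        omega)
      h1.2.1
      (fun i hi => by
        have := h4.1 i hi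
        unfold rx sw
        dsimp
        omega)
      (fun i hi => (near_rx
        (by
          have := h4.1 i (by omega)
          unfold sw
          dsimp
          omega)
        (by
          have := h4.1 (i + 1) (by omega)
          unfold sw
          dsimp
          omega)).2 (near_sw.2 (h4.2.1 i hi)))
      h1.2.2.1
      (by
        have := h1.2.2.2
        omega)
      h4.2.2.1
      (by
        have := h4.2.2.2
        unfold rx sw
        dsimp
        omega)
  · exact cross (M := 3 ^ n - 1) (N := 3 ^ n - 1) (γ := fun i => ry n (γ2 i)) (τ := fun i => sw (γ3 i))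
      (fun i hi => by
        have := h2.1 i hi
        unfold ry
        dsimp
        omega)
      (fun i hi => (near_ry
        (by
          have := h2.1 i (by omega)
          omega)
        (by
          have := h2.1 (i + 1) (by omega)
          omega)).2 (h2.2.1 i hi))
      (fun i hi => by
        have := h3.1 i hi
        unfold sw
        dsimp
        omega)
      (fun i hi => near_sw.2 (h3.2.1 i hi))
      h2.2.2.1
      (by
        have := h2.2.2.2
        unfold ry
        dsimp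
        omega)
      h3.2.2.1
      (by
        have := h3.2.2.2
        unfold sw
        dsimp
        omega)

end Pool.Agent.NIF
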