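import Pool.Agent.NIF.CMP
import Pool.Agent.NIF.CUT
import Pool.Agent.NIF.SEP
import Pool.Agent.NIF.RNG
import Pool.Agent.NIF.DST

/-!
LC1 (150 lines). If the strips of a cell carry little energy then so does the inner cell (6,6) of level 3.

Local data of level n = j + s (j ≥ 3): u, and ℓ with (i) |u x - u y| ≤ ℓ x for near x, y ∈ G n, (ii) (ℓ x)^t = ve (G n) t u x for non-boundary x, (iii) local minimality.

PROOF. C1 = constant of strip_path, C2 = constant of cutoff, C = max C1 (12^t C2) (so the strip condition with C implies the one with C1; Σ ≥ 0).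
Write j = 3 + i, n = 3 + (i + s), s' = i + s. For the four weights ℓ, ℓ ∘ ry n, ℓ ∘ sw, ℓ ∘ rx n ∘ sw on strip j s strip_path gives paths γ1, γ2, γ3, γ4 (bottom paths with
h = 3^s; strip j s ⊆ G n) with Σ ℓ (γ1 i) < L, Σ ℓ (ry n (γ2 i)) < L, ... Let P1 = γ1, P2 = ry n ∘ γ2, P3 = sw ∘ γ3, P4 = rx n ∘ sw ∘ γ4: king paths in G n (near_ry, near_sw, near_rx,
ry_mem, ...), Nb = {x ∈ G n | x is near a point of one of them} (Finset.filter). By path_osc the oscillation of u on the neighbourhood of each P is ≤ 3 L, and by four_near the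
neighbourhoods of P1, P3 have a common point (a point of P3 near P1), also P1, P4 and P2, P3: so |u x - u y| ≤ 12 L on Nb (chain P4, P1, P3, P2). a = min, b = max of u on Nb (nonempty), b - a ≤ 12 L.
χ from cutoff with level s' (≥ 1). On Nb: x is near a point with a coordinate < 3^s (or ≥ 3^n - 3^s), so some coordinate of x is ≤ 3^s ≤ 3^(s') < 3 · 3^(s') (ancestor ≤ 2) or
≥ 3^n - 3^s - 1, ancestor ≥ 25 ≥ 10: χ x = 0. V0 = {x ∈ G n | anc s' x = (6,6)}: for x ∈ V0, y ∈ G n near x: anc s' y near (6,6) (near_anc): χ y = 1. hsep: a chain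
(ReflTransGen) from x0 ∈ V0 to x in G n \ Nb gives σ : ℕ → ℕ × ℕ with σ 0 = x0, σ L = x, all σ i ∈ G n \ Nb (induction on the chain; x0 ∉ Nb since χ x0 = 1); if Bd n x then
separation (h = 3^s ≤ 3^(s') ≤ coordinates of x0, x0.i + 3^s < 3^n) gives a σ i ∈ Nb, contradiction. competitor: Σ_{V0} ve u ≤ (b-a)^t En χ ≤ (12 L)^t C2 cap t s'.
V0 = emb s' (6,6) '' G s' and its cells are not boundary cells, so ve (G n) t u x = (ℓ x)^t by (ii).
-/

set_option autoImplicit false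

namespace Pool.Agent.NIF

/-- local data in a cell of relative level n -/
structure LocData (t : ℝ) (n : ℕ) (u ℓ : ℕ × ℕ → ℝ) : Prop where
  nonneg : ∀ c, 0 ≤ ℓ c
  diff : ∀ x ∈ G n, ∀ y ∈ G n, near x y → |u x - u y| ≤ ℓ x
  inner : ∀ x ∈ G n, ¬ Bd n x → ℓ x ^ t = ve (G n) t u x
  min : ∀ v : ℕ × ℕ → ℝ, (∀ z ∈ G n, Bd n z → v z = u z) → En (G n) t u ≤ En (G n) t v

private theorem lc1_chain {r : ℕ × ℕ → ℕ × ℕ → Prop} {a b : ℕ × ℕ} (h : Relation.ReflTransGen r a b) :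
    ∃ (L : ℕ) (σ : ℕ → ℕ × ℕ), σ 0 = a ∧ σ L = b ∧ ∀ i < L, r (σ i) (σ (i + 1)) := by
  induction h with
  | refl => exact ⟨0, fun _ => a, rfl, rfl, fun i hi => absurd hi (Nat.not_lt_zero i)⟩
  | @tail b c _ hbc ih =>
    obtain ⟨L, σ, h0, h1, h2⟩ := ih
    refine ⟨L + 1, fun i => if i ≤ L then σ i else c, ?_, ?_, ?_⟩
    · simp [h0]
    · simp
    · intro i hi
      rcases Nat.lt_succ_iff_lt_or_eq.1 hi with h | h
      · have e1 : i ≤ L := h.le
        have e2 : i + 1 ≤ L := h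
        simp only [e1, e2, if_true]
        exact h2 i h
      · subst h
        have e2 : ¬ (i + 1 ≤ i) := by omega
        simp only [le_refl, if_true, e2, if_false, h1]
        exact hbc

private theorem lc1_path {j s N : ℕ} {γ : ℕ → ℕ × ℕ} (h : IsPath (strip j s) N γ) :
    (∀ i ≤ N, γ i ∈ G (j + s) ∧ (γ i).2 < 3 ^ s) := by
  intro i hi
  have := h.1 i hi
  unfold strip at this
  exact Finset.mem_filter.1 this

private theorem lc1_bot {j s N : ℕ} {γ : ℕ → ℕ × ℕ} (h : IsPath (strip j s) N γ) (h0 : (γ 0).1 = 0)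
    (h1 : (γ N).1 + 1 = 3 ^ (j + s)) : BotPath (j + s) (3 ^ s) N γ :=
  ⟨fun i hi => ⟨(G_lt (lc1_path h i hi).1).1, (lc1_path h i hi).2⟩, h.2, h0, h1⟩

theorem inner_le {t : ℝ} (ht : 1 ≤ t) : ∃ C : ℝ, 1 ≤ C ∧ ∀ (i s : ℕ) (u ℓ : ℕ × ℕ → ℝ) (L : ℝ), 1 ≤ s → 0 < L →
    LocData t (3 + i + s) u ℓ →
    (C * ((3 : ℝ) ^ (3 + i)) ^ (t - 1) * ∑ c ∈ strip (3 + i) s, ℓ c ^ t < L ^ t * cap t s) →
    (C * ((3 : ℝ) ^ (3 + i)) ^ (t - 1) * ∑ c ∈ strip (3 + i) s, ℓ (ry (3 + i + s) c) ^ t < L ^ t * cap t s) →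
    (C * ((3 : ℝ) ^ (3 + i)) ^ (t - 1) * ∑ c ∈ strip (3 + i) s, ℓ (sw c) ^ t < L ^ t * cap t s) →
    (C * ((3 : ℝ) ^ (3 + i)) ^ (t - 1) * ∑ c ∈ strip (3 + i) s, ℓ (rx (3 + i + s) (sw c)) ^ t < L ^ t * cap t s) →
    ∑ z ∈ G (i + s), ℓ (emb (i + s) (6, 6) z) ^ t ≤ C * L ^ t * cap t (i + s) := by
  classical
  obtain ⟨C1, hC1, H1⟩ := strip_path ht
  obtain ⟨C2, hC2, H2⟩ := cutoff ht
  refine ⟨max C1 (12 ^ t * C2), le_max_of_le_left hC1, ?_⟩
  intro i s u ℓ L hs hL hD c1 c2 c3 c4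
  have hmono : ∀ X : ℝ, 0 ≤ X → C1 * ((3 : ℝ) ^ (3 + i)) ^ (t - 1) * X ≤
      max C1 (12 ^ t * C2) * ((3 : ℝ) ^ (3 + i)) ^ (t - 1) * X := by
    intro X hX
    exact mul_le_mul_of_nonneg_right (mul_le_mul_of_nonneg_right (le_max_left _ _) (by positivity)) hX
  have hnn : ∀ g : ℕ × ℕ → ℕ × ℕ, 0 ≤ ∑ c ∈ strip (3 + i) s, ℓ (g c) ^ t := fun g =>
    Finset.sum_nonneg fun c _ => Real.rpow_nonneg (hD.nonneg _) _
  obtain ⟨N1, γ1, p1, a1, b1, l1⟩ := H1 (3 + i) s ℓ L hs hD.nonneg hL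
    (lt_of_le_of_lt (hmono _ (hnn id)) c1)
  obtain ⟨N2, γ2, p2, a2, b2, l2⟩ := H1 (3 + i) s (fun c => ℓ (ry (3 + i + s) c)) L hs (fun c => hD.nonneg _) hL
    (lt_of_le_of_lt (hmono _ (hnn _)) c2)
  obtain ⟨N3, γ3, p3, a3, b3, l3⟩ := H1 (3 + i) s (fun c => ℓ (sw c)) L hs (fun c => hD.nonneg _) hL
    (lt_of_le_of_lt (hmono _ (hnn _)) c3)
  obtain ⟨N4, γ4, p4, a4, b4, l4⟩ := H1 (3 + i) s (fun c => ℓ (rx (3 + i + s) (sw c))) L hs (fun c => hD.nonneg _) hL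
    (lt_of_le_of_lt (hmono _ (hnn _)) c4)
  have B1 := lc1_bot p1 a1 b1
  have B2 := lc1_bot p2 a2 b2
  have B3 := lc1_bot p3 a3 b3
  have B4 := lc1_bot p4 a4 b4
  have hX1 : 1 ≤ 3 ^ (i + s) := Nat.one_le_pow _ _ (by norm_num)
  have hXs : 3 ^ s ≤ 3 ^ (i + s) := Nat.pow_le_pow_right (by norm_num) (by omega)
  have hs1 : 1 ≤ 3 ^ s := Nat.one_le_pow _ _ (by norm_num)
  have hXn : 3 ^ (3 + i + s) = 27 * 3 ^ (i + s) := by rw [Nat.add_assoc, pow_add]; norm_num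
  have hsn : 3 ^ s ≤ 3 ^ (3 + i + s) := Nat.pow_le_pow_right (by norm_num) (by omega)
  set n := 3 + i + s with hn
  -- the four paths
  have g1 := lc1_path p1
  have g2 := lc1_path p2
  have g3 := lc1_path p3
  have g4 := lc1_path p4
  have P1 : IsPath (G n) N1 γ1 := ⟨fun k hk => (g1 k hk).1, p1.2⟩
  have P2 : IsPath (G n) N2 (fun k => ry n (γ2 k)) :=
    ⟨fun k hk => ry_mem (g2 k hk).1, fun k hk => (near_ry (G_lt (g2 k hk.le).1).2 (G_lt (g2 (k + 1) hk).1).2).2 (p2.2 k hk)⟩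
  have P3 : IsPath (G n) N3 (fun k => sw (γ3 k)) :=
    ⟨fun k hk => sw_mem.2 (g3 k hk).1, fun k hk => near_sw.2 (p3.2 k hk)⟩
  have P4 : IsPath (G n) N4 (fun k => rx n (sw (γ4 k))) := by
    refine ⟨fun k hk => rx_mem (sw_mem.2 (g4 k hk).1), fun k hk => ?_⟩
    exact (near_rx (G_lt (sw_mem.2 (g4 k hk.le).1)).1 (G_lt (sw_mem.2 (g4 (k + 1) hk).1)).1).2 (near_sw.2 (p4.2 k hk))
  have O : ∀ {N : ℕ} {P : ℕ → ℕ × ℕ}, IsPath (G n) N P → ∑ k ∈ Finset.range (N + 1), ℓ (P k) < L →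
      ∀ x ∈ G n, ∀ y ∈ G n, (∃ k ≤ N, near (P k) x) → (∃ k ≤ N, near (P k) y) → |u x - u y| ≤ 3 * L := by
    intro N P hP hl x hx y hy h1 h2
    have := path_osc hP hD.nonneg hD.diff hx hy h1 h2
    linarith
  obtain ⟨⟨i13, hi13, k13, hk13, n13⟩, ⟨i14, hi14, k14, hk14, n14⟩, ⟨i23, hi23, k23, hk23, n23⟩⟩ :=
    four_near hs1 hsn B1 B2 B3 B4
  set c13 := sw (γ3 k13) with hc13
  have m13 : c13 ∈ G n := sw_mem.2 (g3 k13 hk13).1
  have m14 : rx n (sw (γ4 k14)) ∈ G n := rx_mem (sw_mem.2 (g4 k14 hk14).1)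
  have m23 : sw (γ3 k23) ∈ G n := sw_mem.2 (g3 k23 hk23).1
  set Q : ℕ × ℕ → Prop := fun x => (∃ k ≤ N1, near (γ1 k) x) ∨ (∃ k ≤ N2, near (ry n (γ2 k)) x) ∨
    (∃ k ≤ N3, near (sw (γ3 k)) x) ∨ (∃ k ≤ N4, near (rx n (sw (γ4 k))) x) with hQ
  have hosc : ∀ x ∈ G n, Q x → |u x - u c13| ≤ 6 * L := by
    intro x hx hq
    rcases hq with h | h | h | h
    · have := O P1 l1 x hx c13 m13 h ⟨i13, hi13, n13⟩
      linarith
    · have e1 := O P2 l2 x hx _ m23 h ⟨i23, hi23, n23⟩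
      have e2 := O P3 l3 _ m23 c13 m13 ⟨k23, hk23, near_refl _⟩ ⟨k13, hk13, near_refl _⟩
      have e3 := abs_sub_le (u x) (u (sw (γ3 k23))) (u c13)
      linarith
    · have := O P3 l3 x hx c13 m13 h ⟨k13, hk13, near_refl _⟩
      linarith
    · have e1 := O P4 l4 x hx _ m14 h ⟨k14, hk14, near_refl _⟩
      have e2 := O P1 l1 _ m14 c13 m13 ⟨i14, hi14, n14⟩ ⟨i13, hi13, n13⟩
      have e3 := abs_sub_le (u x) (u (rx n (sw (γ4 k14)))) (u c13)
      linarith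
  set Nb := (G n).filter Q with hNb
  obtain ⟨χ, x0, x1, x2, x3⟩ := H2 (i + s) (by omega)
  have hass : 3 + (i + s) = n := by rw [hn]; omega
  rw [hass] at x0 x1 x2 x3
  set V0 := (G n).filter (fun x => anc (i + s) x = (6, 6)) with hV0
  -- the ancestors of points near the paths
  have hlow : ∀ y : ℕ, y ≤ 3 ^ s → y / 3 ^ (i + s) ≤ 2 := by
    intro y hy
    have : y / 3 ^ (i + s) < 3 := by
      rw [Nat.div_lt_iff_lt_mul (by positivity)]
      omega
    omega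
  have hhigh : ∀ y : ℕ, 3 ^ n ≤ y + 3 ^ s + 1 → 10 ≤ y / 3 ^ (i + s) := by
    intro y hy
    rw [Nat.le_div_iff_mul_le (by positivity)]
    omega
  have hχ0 : ∀ x ∈ Nb, χ x = 0 := by
    intro x hx
    obtain ⟨hxG, hq⟩ := Finset.mem_filter.1 hx
    apply x2 x hxG
    rcases hq with ⟨k, hk, h⟩ | ⟨k, hk, h⟩ | ⟨k, hk, h⟩ | ⟨k, hk, h⟩
    · right; right; left
      have h1 := (g1 k hk).2
      have h2 := h.2.2.2
      exact hlow _ (by omega)
    · right; right; right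
      have h1 := (g2 k hk).2
      have h2 := h.2.2.1
      simp only [ry] at h2
      exact hhigh _ (by omega)
    · left
      have h1 := (g3 k hk).2
      have h2 := h.2.1
      simp only [sw] at h2
      exact hlow _ (by omega)
    · right; left
      have h1 := (g4 k hk).2
      have h2 := h.1
      simp only [rx, sw] at h2
      exact hhigh _ (by omega)
  have hχ1 : ∀ x ∈ V0, ∀ y ∈ G n, near x y → χ y = 1 := by
    intro x hx y hy h
    apply x1 y hy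
    have h1 := near_anc (m := i + s) h
    rw [(Finset.mem_filter.1 hx).2] at h1
    exact h1
  have hVN : ∀ x ∈ V0, x ∈ G n ∧ x ∉ Nb := by
    intro x hx
    have hxG := (Finset.mem_filter.1 hx).1
    refine ⟨hxG, fun h => ?_⟩
    have e1 := hχ0 x h
    have e2 := hχ1 x hx x hxG (near_refl x)
    rw [e1] at e2
    exact zero_ne_one e2
  have hVc : ∀ x ∈ V0, 6 * 3 ^ (i + s) ≤ x.1 ∧ x.1 < 7 * 3 ^ (i + s) ∧ 6 * 3 ^ (i + s) ≤ x.2 ∧ x.2 < 7 * 3 ^ (i + s) := by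
    intro x hx
    have h1 := (Finset.mem_filter.1 hx).2
    simp only [anc, Prod.mk.injEq] at h1
    refine ⟨?_, ?_, ?_, ?_⟩
    · exact (Nat.le_div_iff_mul_le (by positivity)).1 h1.1.ge
    · exact (Nat.div_lt_iff_lt_mul (by positivity)).1 (by omega)
    · exact (Nat.le_div_iff_mul_le (by positivity)).1 h1.2.ge
    · exact (Nat.div_lt_iff_lt_mul (by positivity)).1 (by omega)
  have hVB : ∀ x ∈ V0, ¬ Bd n x := by
    intro x hx hb
    obtain ⟨e1, e2, e3, e4⟩ := hVc x hx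
    rcases hb with h | h | h | h <;> omega
  have hsep : ∀ x0 ∈ V0, ∀ x, Relation.ReflTransGen (fun c d => near c d ∧ d ∈ G n ∧ d ∉ Nb) x0 x → ¬ Bd n x := by
    intro y0 hy0 y hy hb
    obtain ⟨M, σ, s0, s1, s2⟩ := lc1_chain hy
    have hall : ∀ k ≤ M, σ k ∈ G n ∧ σ k ∉ Nb := by
      intro k hk
      cases k with
      | zero => rw [s0]; exact hVN y0 hy0
      | succ k => exact (s2 k hk).2
    obtain ⟨e1, e2, e3, e4⟩ := hVc y0 hy0
    obtain ⟨k, hk, hh⟩ := separation (n := n) hs1 hsn B1 B2 B3 B4 (σ := σ) (L := M)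
      (fun k hk => G_lt (hall k hk).1) (fun k hk => (s2 k hk).1)
      (by rw [s0]; refine ⟨?_, ?_, ?_, ?_⟩ <;> omega) (by rw [s1]; exact hb)
    exact (hall k hk).2 (Finset.mem_filter.2 ⟨(hall k hk).1, hh⟩)
  have hcomp := competitor ht (n := n) (u := u) (χ := χ) (a := u c13 - 6 * L) (b := u c13 + 6 * L) (by linarith)
    (Nb := Nb) (V0 := V0) (Finset.filter_subset _ _)
    (fun x hx => by
      have := hosc x (Finset.mem_filter.1 hx).1 (Finset.mem_filter.1 hx).2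
      rw [abs_le] at this
      constructor <;> linarith [this.1, this.2])
    x0 hχ0 hχ1 hsep hD.min
  have hsum : ∑ z ∈ G (i + s), ℓ (emb (i + s) (6, 6) z) ^ t = ∑ x ∈ V0, ve (G n) t u x := by
    refine Finset.sum_bij' (fun z _ => emb (i + s) (6, 6) z) (fun x _ => loc (i + s) x) ?_ ?_ ?_ ?_ ?_
    · intro z hz
      have hz' := G_lt hz
      refine Finset.mem_filter.2 ⟨?_, anc_emb hz'.1 hz'.2⟩
      rw [← hass]
      exact emb_mem (by decide) hz
    · intro x hx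
      have := (Finset.mem_filter.1 hx).1
      rw [← hass] at this
      exact loc_mem this
    · intro z hz
      have hz' := G_lt hz
      exact loc_emb hz'.1 hz'.2
    · intro x hx
      have h1 := (Finset.mem_filter.1 hx).2
      have h2 := emb_anc_loc (i + s) x
      rw [h1] at h2
      exact h2
    · intro z hz
      have hz' := G_lt hz
      have hmem : emb (i + s) (6, 6) z ∈ V0 := by
        refine Finset.mem_filter.2 ⟨?_, anc_emb hz'.1 hz'.2⟩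
        rw [← hass]
        exact emb_mem (by decide) hz
      exact hD.inner _ (Finset.mem_filter.1 hmem).1 (hVB _ hmem)
  rw [hsum]
  have hcap : 0 < cap t (i + s) := cap_pos ht (by omega)
  calc ∑ x ∈ V0, ve (G n) t u x ≤ (u c13 + 6 * L - (u c13 - 6 * L)) ^ t * En (G n) t χ := hcomp
    _ = (12 * L) ^ t * En (G n) t χ := by ring_nf
    _ ≤ (12 * L) ^ t * (C2 * cap t (i + s)) := mul_le_mul_of_nonneg_left x3 (by positivity)
    _ = 12 ^ t * C2 * (L ^ t * cap t (i + s)) := by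
        rw [Real.mul_rpow (by norm_num) hL.le]; ring
    _ ≤ max C1 (12 ^ t * C2) * (L ^ t * cap t (i + s)) :=
        mul_le_mul_of_nonneg_right (le_max_right _ _) (by positivity)
    _ = max C1 (12 ^ t * C2) * L ^ t * cap t (i + s) := by ring

end Pool.Agent.NIF
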