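import Pool.Agent.NIF.LC1

/-!
LC2 (130 lines). The local lemma: the energy is not equidistributed over the cells of level j.

PROOF. C from inner_le, c, C' with c ≤ cap t n ρ^n ≤ C' for n ≥ 1 (CapData), ε = 1/1024 = (1/2) 8^(-3). κ = 3^t / (8 ρ) < 1 (hρ). Choose i with
(4 C² C'/c) ρ³ κ^(3+i) < 1/1024 and j = 3 + i. Let μ v = Σ_{z ∈ G s} ℓ (emb s v z)^t for v ∈ G j, μ = Σ_{z ∈ G (j+s)} ℓ z^t = Σ_{v ∈ G j} μ v (sum_G_add), and suppose
μ v < (1+ε) 8^(-j) μ for all v ∈ G j. Then μ > 0 ((0,0) ∈ G j, μ v ≥ 0). STRIPS: strip j s = cells emb s (x,0) z, x < 3^j, z ∈ G s (mem_strip, row_mem), so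
Σ_{strip} ℓ^t = Σ_{x<3^j} μ (x,0) ≤ 3^j · 2 · 8^(-j) μ. The same for the other three: ry (j+s) (emb s v z) = emb s (ry j v) (ry s z), sw (emb s v z) = emb s (sw v) (sw z),
rx (j+s) (emb s v z) = emb s (rx j v) (rx s z), and z ↦ ry s z etc. are bijections of G s: Σ_{strip} ℓ(ry c)^t = Σ_{x<3^j} μ (ry j (x,0)) etc. (cells of G j).
Put L > 0 with L^t = 4 C (3^j)^t 8^(-j) μ ρ^s / c. Since cap t s ≥ c ρ^(-s): L^t cap t s ≥ 4 C (3^j)^t 8^(-j) μ > C (3^j)^(t-1) · 3^j · 2 · 8^(-j) μ. inner_le: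
Σ_{z ∈ G (i+s)} ℓ (emb (i+s) (6,6) z)^t ≤ C L^t cap t (i+s) ≤ C · 4 C (3^j)^t 8^(-j) μ ρ^s / c · C' ρ^(-(i+s)) = (4 C² C'/c) ρ³ κ^j μ < μ/1024
((3^t/8)^j ρ^(-i) = κ^j ρ^(j-i) = κ^j ρ³). LOWER BOUND: G (j+s) = G (3 + (i+s)): the sum over the cell (6,6) of level 3 is μ minus the sum over the 8^j - 8^i cells v ∈ G j
with anc i v ≠ (6,6) ((6,6) ∈ G 3), each μ v ≤ (1+ε) 8^(-j) μ: ≥ μ (1 - (1 - 8^(-3)) (1+ε)) ≥ μ (8^(-3) - ε) = μ/1024. Contradiction.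
-/

set_option autoImplicit false

namespace Pool.Agent.NIF

private theorem a1_strip {j s : ℕ} (f : ℕ × ℕ → ℝ) :
    ∑ c ∈ strip j s, f c = ∑ x ∈ Finset.range (3 ^ j), ∑ z ∈ G s, f (emb s (x, 0) z) := by
  rw [← Finset.sum_product' (f := fun x z => f (emb s (x, 0) z))]
  refine Finset.sum_bij' (fun c _ => ((anc s c).1, loc s c)) (fun p _ => emb s (p.1, 0) p.2) ?_ ?_ ?_ ?_ ?_
  · intro c hc
    have h := mem_strip.1 hc
    simp only [Finset.mem_product, Finset.mem_range]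
    exact ⟨h.1, h.2.2⟩
  · intro p hp
    simp only [Finset.mem_product, Finset.mem_range] at hp
    obtain ⟨hp1, hp2⟩ := hp
    have hl := G_lt hp2
    rw [mem_strip, anc_emb hl.1 hl.2, loc_emb hl.1 hl.2]
    exact ⟨hp1, rfl, hp2⟩
  · intro c hc
    have h := mem_strip.1 hc
    have e1 : (((anc s c).1, 0) : ℕ × ℕ) = anc s c := by
      rw [← h.2.1]
    show emb s ((anc s c).1, 0) (loc s c) = c
    rw [e1, emb_anc_loc]
  · intro p hp
    simp only [Finset.mem_product, Finset.mem_range] at hp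
    obtain ⟨hp1, hp2⟩ := hp
    have hl := G_lt hp2
    show ((anc s (emb s (p.1, 0) p.2)).1, loc s (emb s (p.1, 0) p.2)) = p
    rw [anc_emb hl.1 hl.2, loc_emb hl.1 hl.2]
  · intro c hc
    have h := mem_strip.1 hc
    have e1 : (((anc s c).1, 0) : ℕ × ℕ) = anc s c := by
      rw [← h.2.1]
    show f c = f (emb s ((anc s c).1, 0) (loc s c))
    rw [e1, emb_anc_loc]

private theorem a2_flip {a b y w : ℕ} (hy : y < a) (hw : w < b) :
    a * b - 1 - (b * y + w) = b * (a - 1 - y) + (b - 1 - w) := by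
  obtain ⟨d, rfl⟩ := Nat.exists_eq_add_of_lt hy
  obtain ⟨e, rfl⟩ := Nat.exists_eq_add_of_lt hw
  have e1 : y + d + 1 - 1 - y = d := by omega
  have e2 : w + e + 1 - 1 - w = e := by omega
  rw [e1, e2]
  have e3 : (y + d + 1) * (w + e + 1) = (w + e + 1) * y + w + ((w + e + 1) * d + e) + 1 := by ring
  rw [e3]
  omega

private theorem a3_ry {j s : ℕ} {v z : ℕ × ℕ} (hv : v ∈ G j) (hz : z ∈ G s) :
    ry (j + s) (emb s v z) = emb s (ry j v) (ry s z) := by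
  have h1 := (G_lt hv).2
  have h2 := (G_lt hz).2
  simp only [ry, emb, Prod.mk.injEq, true_and, pow_add]
  exact a2_flip h1 h2

private theorem a3_rx {j s : ℕ} {v z : ℕ × ℕ} (hv : v ∈ G j) (hz : z ∈ G s) :
    rx (j + s) (emb s v z) = emb s (rx j v) (rx s z) := by
  have h1 := (G_lt hv).1
  have h2 := (G_lt hz).1
  simp only [rx, emb, Prod.mk.injEq, and_true, pow_add]
  exact a2_flip h1 h2

private theorem a3_sw {s : ℕ} (v z : ℕ × ℕ) : sw (emb s v z) = emb s (sw v) (sw z) := rfl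

private theorem a4_ry {s : ℕ} (f : ℕ × ℕ → ℝ) : ∑ z ∈ G s, f (ry s z) = ∑ z ∈ G s, f z := by
  have key : ∀ z ∈ G s, ry s (ry s z) = z := by
    intro z hz
    have h := (G_lt hz).2
    simp only [ry]
    ext
    · rfl
    · show 3 ^ s - 1 - (3 ^ s - 1 - z.2) = z.2
      generalize 3 ^ s = a at h
      omega
  refine Finset.sum_bij' (fun z _ => ry s z) (fun z _ => ry s z) (fun z hz => ry_mem hz) (fun z hz => ry_mem hz)
    (fun z hz => key z hz) (fun z hz => key z hz) (fun z hz => rfl)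

private theorem a4_rx {s : ℕ} (f : ℕ × ℕ → ℝ) : ∑ z ∈ G s, f (rx s z) = ∑ z ∈ G s, f z := by
  have key : ∀ z ∈ G s, rx s (rx s z) = z := by
    intro z hz
    have h := (G_lt hz).1
    simp only [rx]
    ext
    · show 3 ^ s - 1 - (3 ^ s - 1 - z.1) = z.1
      generalize 3 ^ s = a at h
      omega
    · rfl
  refine Finset.sum_bij' (fun z _ => rx s z) (fun z _ => rx s z) (fun z hz => rx_mem hz) (fun z hz => rx_mem hz)
    (fun z hz => key z hz) (fun z hz => key z hz) (fun z hz => rfl)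

private theorem a4_sw {s : ℕ} (f : ℕ × ℕ → ℝ) : ∑ z ∈ G s, f (sw z) = ∑ z ∈ G s, f z := by
  refine Finset.sum_bij' (fun z _ => sw z) (fun z _ => sw z) (fun z hz => sw_mem.2 hz) (fun z hz => sw_mem.2 hz)
    (fun z hz => rfl) (fun z hz => rfl) (fun z hz => rfl)

/-- a strip sum, after a symmetry e of the square compatible with the cells, is at most 3^j times the bound -/
private theorem a5_strip {j s : ℕ} {f : ℕ × ℕ → ℝ} {e e' e2 : ℕ × ℕ → ℕ × ℕ} {B : ℝ}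
    (h1 : ∀ v ∈ G j, ∀ z ∈ G s, e (emb s v z) = emb s (e' v) (e2 z))
    (h2 : ∀ v ∈ G j, e' v ∈ G j)
    (h3 : ∀ g : ℕ × ℕ → ℝ, ∑ z ∈ G s, g (e2 z) = ∑ z ∈ G s, g z)
    (hB : ∀ v ∈ G j, ∑ z ∈ G s, f (emb s v z) ≤ B) :
    ∑ c ∈ strip j s, f (e c) ≤ 3 ^ j * B := by
  rw [a1_strip (fun c => f (e c))]
  calc ∑ x ∈ Finset.range (3 ^ j), ∑ z ∈ G s, f (e (emb s (x, 0) z))
      ≤ ∑ x ∈ Finset.range (3 ^ j), B := by
        refine Finset.sum_le_sum fun x hx => ?_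
        have hx' := row_mem (Finset.mem_range.1 hx)
        calc ∑ z ∈ G s, f (e (emb s (x, 0) z)) = ∑ z ∈ G s, f (emb s (e' (x, 0)) (e2 z)) :=
              Finset.sum_congr rfl fun z hz => by rw [h1 _ hx' z hz]
          _ = ∑ z ∈ G s, f (emb s (e' (x, 0)) z) := h3 (fun z => f (emb s (e' (x, 0)) z))
          _ ≤ B := hB _ (h2 _ hx')
    _ = 3 ^ j * B := by
        rw [Finset.sum_const, Finset.card_range, nsmul_eq_mul]
        push_cast
        rfl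

/-- the whole sum is at most the inner cell plus 511 / 512 of the largest possible total -/
private theorem a6_lower {i s : ℕ} {f : ℕ × ℕ → ℝ} {B : ℝ} (hB : ∀ v ∈ G (3 + i), ∑ z ∈ G s, f (emb s v z) ≤ B) :
    ∑ z ∈ G (3 + i + s), f z ≤ ∑ z ∈ G (i + s), f (emb (i + s) (6, 6) z) + 511 * (8 ^ i * B) := by
  have e66 : ((6, 6) : ℕ × ℕ) ∈ G 3 := by
    rw [mem_G]
    unfold inG
    refine ⟨by norm_num, by norm_num, ?_⟩
    intro k hk
    interval_cases k <;> norm_num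
  rw [sum_G_add, sum_G_add, sum_G_add, ← Finset.add_sum_erase _ _ e66]
  refine add_le_add (le_of_eq ?_) ?_
  · refine Finset.sum_congr rfl fun b hb => Finset.sum_congr rfl fun z hz => ?_
    rw [emb_emb]
  · calc ∑ a ∈ (G 3).erase (6, 6), ∑ b ∈ G i, ∑ z ∈ G s, f (emb s (emb i a b) z)
        ≤ ∑ a ∈ (G 3).erase (6, 6), ∑ b ∈ G i, B := by
          refine Finset.sum_le_sum fun a ha => Finset.sum_le_sum fun b hb => ?_
          exact hB _ (emb_mem (Finset.mem_of_mem_erase ha) hb)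
      _ = 511 * (8 ^ i * B) := by
          rw [Finset.sum_const, Finset.sum_const, Finset.card_erase_of_mem e66, card_G, card_G, nsmul_eq_mul, nsmul_eq_mul]
          push_cast
          norm_num

theorem local_lemma {t ρ : ℝ} (ht : 1 < t) (hc : CapData t ρ) (hρ : 3 ^ t < 8 * ρ) : ∃ i : ℕ, ∀ (s : ℕ) (u ℓ : ℕ × ℕ → ℝ), 1 ≤ s →
    LocData t (3 + i + s) u ℓ → ∃ v ∈ G (3 + i),
      (1 + 1 / 1024) / 8 ^ (3 + i) * ∑ z ∈ G (3 + i + s), ℓ z ^ t ≤ ∑ z ∈ G s, ℓ (emb s v z) ^ t := by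
  obtain ⟨C, hC1, hC⟩ := inner_le ht.le
  have hρ0 := hc.pos
  obtain ⟨c, hc0, hcl⟩ := hc.lower
  obtain ⟨C', hcu⟩ := hc.upper
  have hC' : 0 < C' := lt_of_lt_of_le hc0 ((hcl 1 le_rfl).trans (hcu 1 le_rfl))
  have hC0 : 0 < C := by linarith
  have h3t : (0 : ℝ) < 3 ^ t := by positivity
  obtain ⟨κ, hκ⟩ : ∃ κ : ℝ, κ = 3 ^ t / (8 * ρ) := ⟨_, rfl⟩
  have hκ0 : 0 < κ := by rw [hκ]; positivity
  have hκ1 : κ < 1 := by rw [hκ, div_lt_one (by positivity)]; exact hρ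
  obtain ⟨A, hA⟩ : ∃ A : ℝ, A = 4 * C ^ 2 * C' / c * ρ ^ 3 := ⟨_, rfl⟩
  have hA0 : 0 < A := by rw [hA]; positivity
  obtain ⟨i, hi⟩ := exists_pow_lt_of_lt_one (show (0 : ℝ) < 1 / 1024 / A by positivity) hκ1
  have hi2 : A * κ ^ (3 + i) < 1 / 1024 := by
    have h1 : κ ^ (3 + i) ≤ κ ^ i := pow_le_pow_of_le_one hκ0.le hκ1.le (by omega)
    have h2 : κ ^ (3 + i) < 1 / 1024 / A := lt_of_le_of_lt h1 hi
    rw [lt_div_iff₀ hA0] at h2
    linarith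
  refine ⟨i, fun s u ℓ hs hL => ?_⟩
  by_contra hcon
  push Not at hcon
  obtain ⟨μ, hμ⟩ : ∃ μ : ℝ, μ = ∑ z ∈ G (3 + i + s), ℓ z ^ t := ⟨_, rfl⟩
  rw [← hμ] at hcon
  obtain ⟨B, hB⟩ : ∃ B : ℝ, B = (1 + 1 / 1024) / 8 ^ (3 + i) * μ := ⟨_, rfl⟩
  rw [← hB] at hcon
  have hB1 : ∀ v ∈ G (3 + i), ∑ z ∈ G s, ℓ (emb s v z) ^ t ≤ B := fun v hv => (hcon v hv).le
  have hμ0 : 0 < μ := by
    have h0 : ((0, 0) : ℕ × ℕ) ∈ G (3 + i) := row_mem (by positivity)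
    have h1 := hcon _ h0
    have h2 : 0 ≤ ∑ z ∈ G s, ℓ (emb s (0, 0) z) ^ t := Finset.sum_nonneg fun z _ => Real.rpow_nonneg (hL.nonneg _) _
    have h3 : 0 < B := lt_of_le_of_lt h2 h1
    rw [hB] at h3
    exact (pos_iff_pos_of_mul_pos h3).1 (by positivity)
  have hB0 : 0 < B := by rw [hB]; positivity
  -- L
  obtain ⟨M, hM⟩ : ∃ M : ℝ, M = 4 * C * ((3 : ℝ) ^ (3 + i)) ^ t / 8 ^ (3 + i) * μ * ρ ^ s / c := ⟨_, rfl⟩
  have hM0 : 0 < M := by rw [hM]; positivity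
  have hLt : (M ^ t⁻¹) ^ t = M := Real.rpow_inv_rpow hM0.le (by linarith)
  have hL0 : 0 < M ^ t⁻¹ := Real.rpow_pos_of_pos hM0 _
  have hcs := hcl s hs
  have hcis := hcu (i + s) (by omega)
  have hρs : 0 < ρ ^ s := pow_pos hρ0 s
  have hbig : C * ((3 : ℝ) ^ (3 + i)) ^ (t - 1) * (3 ^ (3 + i) * B) < (M ^ t⁻¹) ^ t * cap t s := by
    rw [hLt]
    have e1 : C * ((3 : ℝ) ^ (3 + i)) ^ (t - 1) * (3 ^ (3 + i) * B) = C * ((3 : ℝ) ^ (3 + i)) ^ t * B := by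
      have : ((3 : ℝ) ^ (3 + i)) ^ t = ((3 : ℝ) ^ (3 + i)) ^ (t - 1) * 3 ^ (3 + i) := by
        conv_rhs => rw [← Real.rpow_one ((3 : ℝ) ^ (3 + i)), ← Real.rpow_mul (by positivity), one_mul,
          ← Real.rpow_add (by positivity)]
        congr 1
        ring
      rw [this]
      ring
    rw [e1]
    have e2 : M * cap t s = 4 * C * ((3 : ℝ) ^ (3 + i)) ^ t / 8 ^ (3 + i) * μ * (cap t s * ρ ^ s) / c := by
      rw [hM]
      ring
    have e3 : 4 * C * ((3 : ℝ) ^ (3 + i)) ^ t / 8 ^ (3 + i) * μ ≤ M * cap t s := by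
      rw [e2, le_div_iff₀ hc0]
      exact mul_le_mul_of_nonneg_left hcs (by positivity)
    refine lt_of_lt_of_le ?_ e3
    rw [hB]
    have hpos : 0 < C * ((3 : ℝ) ^ (3 + i)) ^ t / 8 ^ (3 + i) * μ := by positivity
    have e4 : C * ((3 : ℝ) ^ (3 + i)) ^ t * ((1 + 1 / 1024) / 8 ^ (3 + i) * μ) =
        (1 + 1 / 1024) * (C * ((3 : ℝ) ^ (3 + i)) ^ t / 8 ^ (3 + i) * μ) := by ring
    have e5 : 4 * C * ((3 : ℝ) ^ (3 + i)) ^ t / 8 ^ (3 + i) * μ = 4 * (C * ((3 : ℝ) ^ (3 + i)) ^ t / 8 ^ (3 + i) * μ) := by ring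
    rw [e4, e5]
    linarith
  have hstrip : ∀ {S : ℝ}, S ≤ 3 ^ (3 + i) * B → C * ((3 : ℝ) ^ (3 + i)) ^ (t - 1) * S < (M ^ t⁻¹) ^ t * cap t s := by
    intro S hS
    exact lt_of_le_of_lt (mul_le_mul_of_nonneg_left hS (by positivity)) hbig
  have hin := hC i s u ℓ (M ^ t⁻¹) hs hL0 hL
    (hstrip (a5_strip (f := fun c => ℓ c ^ t) (e := fun c => c) (e' := fun c => c) (e2 := fun c => c)
      (fun v _ z _ => rfl) (fun v hv => hv) (fun g => rfl) hB1))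
    (hstrip (a5_strip (f := fun c => ℓ c ^ t) (e := ry (3 + i + s)) (e' := ry (3 + i)) (e2 := ry s)
      (fun v hv z hz => a3_ry hv hz) (fun v hv => ry_mem hv) a4_ry hB1))
    (hstrip (a5_strip (f := fun c => ℓ c ^ t) (e := sw) (e' := sw) (e2 := sw)
      (fun v hv z hz => rfl) (fun v hv => sw_mem.2 hv) a4_sw hB1))
    (hstrip (a5_strip (f := fun c => ℓ c ^ t) (e := fun c => rx (3 + i + s) (sw c)) (e' := fun c => rx (3 + i) (sw c))
      (e2 := fun c => rx s (sw c))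
      (fun v hv z hz => by
        show rx (3 + i + s) (sw (emb s v z)) = _
        rw [a3_sw, a3_rx (sw_mem.2 hv) (sw_mem.2 hz)]) (fun v hv => rx_mem (sw_mem.2 hv))
      (fun g => by
        rw [a4_sw (fun z => g (rx s z)), a4_rx]) hB1))
  rw [hLt] at hin
  have hlow := a6_lower (i := i) (s := s) (f := fun c => ℓ c ^ t) hB1
  rw [← hμ] at hlow
  have hup : C * M * cap t (i + s) ≤ A * κ ^ (3 + i) * μ := by
    have e1 : C * M * cap t (i + s) =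
        4 * C ^ 2 / c * (((3 : ℝ) ^ (3 + i)) ^ t / 8 ^ (3 + i)) * μ / ρ ^ i * (cap t (i + s) * ρ ^ (i + s)) := by
      rw [hM, pow_add ρ i s]
      field_simp
    have e2 : A * κ ^ (3 + i) * μ = 4 * C ^ 2 / c * (((3 : ℝ) ^ (3 + i)) ^ t / 8 ^ (3 + i)) * μ / ρ ^ i * C' := by
      have e3 : ((3 : ℝ) ^ (3 + i)) ^ t = ((3 : ℝ) ^ t) ^ (3 + i) := by
        rw [← Real.rpow_natCast, ← Real.rpow_mul (by norm_num), mul_comm, Real.rpow_mul (by norm_num), Real.rpow_natCast]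
      rw [e3, hA, hκ, div_pow, mul_pow, pow_add ρ 3 i]
      field_simp
    rw [e1, e2]
    exact mul_le_mul_of_nonneg_left hcis (by positivity)
  have hfin : A * κ ^ (3 + i) * μ < 1 / 1024 * μ := mul_lt_mul_of_pos_right hi2 hμ0
  have e511 : 511 * (8 ^ i * B) = 523775 / 524288 * μ := by
    rw [hB, pow_add]
    field_simp
    norm_num
  rw [e511] at hlow
  have hlow2 : μ ≤ ∑ z ∈ G (i + s), ℓ (emb (i + s) (6, 6) z) ^ t + 523775 / 524288 * μ := hlow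
  linarith

end Pool.Agent.NIF
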