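import Pool.Agent.NIF.MIN

/-!
LMN (80 lines). A minimiser is minimal in every cell, and its vertex energies in the interior of a cell are local.

PROOF. Let V c = if anc n c = w then v (loc n c) else u c. V is admissible: for c ∈ G (k+n) in the left or right column with anc n c = w, loc n c is a boundary cell
(c.1 = 0 → (loc n c).1 = 0; c.1 + 1 = 3^(k+n) → (loc n c).1 + 1 = 3^n), so V c = v (loc n c) = u (emb n w (loc n c)) = u c. Energy: split the ordered near pairs (c,d) of
G (k+n) into those with both ancestors w, which give En (G n) t (z ↦ u (emb n w z)) for u and En (G n) t v for V (near_emb, sum_G_add), and the others, where V = u at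
both: if anc n c = w and anc n d ≠ w then loc n c is a boundary cell (near_cross), so V c = u c. Hence En V - En u = En (G n) t v - En (G n) t (u∘emb) ≥ 0 by minimality.
ve_inner: for z ∈ G n not a boundary cell all cells near emb n w z have ancestor w (near_in), so the sum over G (k+n) reduces to b = emb n w z', z' ∈ G n near z.
-/

set_option autoImplicit false

namespace Pool.Agent.NIF

private theorem sum_pairs {k n : ℕ} {w : ℕ × ℕ} (hw : w ∈ G k) (F : ℕ × ℕ → ℕ × ℕ → ℝ) :
    ∑ p ∈ (G (k + n) ×ˢ G (k + n)).filter (fun p => anc n p.1 = w ∧ anc n p.2 = w), F p.1 p.2 =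
      ∑ z ∈ G n, ∑ z' ∈ G n, F (emb n w z) (emb n w z') := by
  rw [← Finset.sum_product' (G n) (G n) (fun z z' => F (emb n w z) (emb n w z'))]
  symm
  refine Finset.sum_nbij' (fun q => (emb n w q.1, emb n w q.2)) (fun p => (loc n p.1, loc n p.2)) ?_ ?_ ?_ ?_ ?_
  · intro q hq
    rw [Finset.mem_product] at hq
    have h1 := G_lt hq.1
    have h2 := G_lt hq.2
    rw [Finset.mem_filter, Finset.mem_product]
    exact ⟨⟨emb_mem hw hq.1, emb_mem hw hq.2⟩, anc_emb h1.1 h1.2, anc_emb h2.1 h2.2⟩
  · intro p hp
    rw [Finset.mem_filter, Finset.mem_product] at hp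
    rw [Finset.mem_product]
    exact ⟨loc_mem hp.1.1, loc_mem hp.1.2⟩
  · intro q hq
    rw [Finset.mem_product] at hq
    have h1 := G_lt hq.1
    have h2 := G_lt hq.2
    simp only [loc_emb h1.1 h1.2, loc_emb h2.1 h2.2]
  · intro p hp
    rw [Finset.mem_filter, Finset.mem_product] at hp
    have h1 : emb n w (loc n p.1) = p.1 := by
      have := emb_anc_loc n p.1
      rwa [hp.2.1] at this
    have h2 : emb n w (loc n p.2) = p.2 := by
      have := emb_anc_loc n p.2
      rwa [hp.2.2] at this
    simp only [h1, h2]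
  · intro q _
    rfl

theorem local_min {t : ℝ} {k n : ℕ} {u : ℕ × ℕ → ℝ} (h : IsMin t (k + n) u) {w : ℕ × ℕ} (hw : w ∈ G k) {v : ℕ × ℕ → ℝ}
    (hv : ∀ z ∈ G n, Bd n z → v z = u (emb n w z)) : En (G n) t (fun z => u (emb n w z)) ≤ En (G n) t v := by
  set V : ℕ × ℕ → ℝ := fun c => if anc n c = w then v (loc n c) else u c with hV
  -- `V = u` at boundary cells and outside
  have hVu : ∀ c ∈ G (k + n), (anc n c = w → Bd n (loc n c)) → V c = u c := by
    intro c hc hb
    simp only [hV]
    split_ifs with hA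
    · rw [hv _ (loc_mem hc) (hb hA)]
      have := emb_anc_loc n c
      rw [hA] at this
      rw [this]
    · rfl
  have hadm : Adm (k + n) V := by
    constructor
    · intro c hc h0
      rw [hVu c hc (fun _ => Or.inl (by simp [loc, h0]))]
      exact h.1.left c hc h0
    · intro c hc h1
      rw [hVu c hc (fun _ => Or.inr (Or.inr (Or.inl ?_)))]
      · exact h.1.right c hc h1
      · have h3 : 0 < 3 ^ n := by positivity
        have h4 : 0 < 3 ^ k := by positivity
        have h5 : c.1 = 3 ^ n * (3 ^ k - 1) + (3 ^ n - 1) := by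
          have h6 : 3 ^ n * (3 ^ k - 1) + 3 ^ n = 3 ^ (k + n) := by
            rw [← Nat.mul_succ, Nat.succ_eq_add_one, Nat.sub_add_cancel h4, pow_add, mul_comm]
          omega
        simp only [loc]
        rw [h5, Nat.mul_add_mod, Nat.mod_eq_of_lt (by omega)]
        omega
  have hmin := h.2.2 V hadm
  -- splitting
  have hsplit : ∀ f : ℕ × ℕ → ℝ, En (G (k + n)) t f =
      (∑ z ∈ G n, ∑ z' ∈ G n, if near (emb n w z) (emb n w z') then |f (emb n w z) - f (emb n w z')| ^ t else 0) +
      ∑ p ∈ (G (k + n) ×ˢ G (k + n)).filter (fun p => ¬ (anc n p.1 = w ∧ anc n p.2 = w)),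
        (if near p.1 p.2 then |f p.1 - f p.2| ^ t else 0) := by
    intro f
    rw [← sum_pairs (k := k) hw (fun c d => if near c d then |f c - f d| ^ t else 0), Finset.sum_filter_add_sum_filter_not]
    unfold En ve
    rw [Finset.sum_product]
  have hout : ∑ p ∈ (G (k + n) ×ˢ G (k + n)).filter (fun p => ¬ (anc n p.1 = w ∧ anc n p.2 = w)),
        (if near p.1 p.2 then |V p.1 - V p.2| ^ t else 0) =
      ∑ p ∈ (G (k + n) ×ˢ G (k + n)).filter (fun p => ¬ (anc n p.1 = w ∧ anc n p.2 = w)),
        (if near p.1 p.2 then |u p.1 - u p.2| ^ t else 0) := by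
    refine Finset.sum_congr rfl fun p hp => ?_
    rw [Finset.mem_filter, Finset.mem_product] at hp
    obtain ⟨⟨hp1, hp2⟩, hne⟩ := hp
    by_cases hnear : near p.1 p.2
    · rw [if_pos hnear, if_pos hnear]
      rw [hVu p.1 hp1, hVu p.2 hp2]
      · intro hA
        refine near_cross (near_symm hnear) ?_
        intro he
        exact hne ⟨by rw [← he, hA], hA⟩
      · intro hA
        refine near_cross hnear ?_
        intro he
        exact hne ⟨hA, by rw [← he, hA]⟩
    · rw [if_neg hnear, if_neg hnear]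
  rw [hsplit u, hsplit V, hout] at hmin
  have hmin' := le_of_add_le_add_right hmin
  have e1 : (∑ z ∈ G n, ∑ z' ∈ G n, if near (emb n w z) (emb n w z') then |u (emb n w z) - u (emb n w z')| ^ t else 0) =
      En (G n) t (fun z => u (emb n w z)) := by
    unfold En ve
    simp only [near_emb]
  have e2 : (∑ z ∈ G n, ∑ z' ∈ G n, if near (emb n w z) (emb n w z') then |V (emb n w z) - V (emb n w z')| ^ t else 0) =
      En (G n) t v := by
    have hVe : ∀ z ∈ G n, V (emb n w z) = v z := by
      intro z hz
      have h1 := G_lt hz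
      simp only [hV]
      rw [anc_emb h1.1 h1.2, if_pos rfl, loc_emb h1.1 h1.2]
    unfold En ve
    refine Finset.sum_congr rfl fun z hz => Finset.sum_congr rfl fun z' hz' => ?_
    rw [hVe z hz, hVe z' hz']
    simp only [near_emb]
  rw [e1, e2] at hmin'
  exact hmin'

theorem ve_inner {t : ℝ} {k n : ℕ} (u : ℕ × ℕ → ℝ) {w z : ℕ × ℕ} (hw : w ∈ G k) (hz : z ∈ G n) (hb : ¬ Bd n z) :
    ve (G (k + n)) t u (emb n w z) = ve (G n) t (fun y => u (emb n w y)) z := by
  have hzl := G_lt hz
  have hsub : (G n).image (emb n w) ⊆ G (k + n) := by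
    intro c hc
    rw [Finset.mem_image] at hc
    obtain ⟨y, hy, rfl⟩ := hc
    exact emb_mem hw hy
  unfold ve
  rw [← Finset.sum_subset hsub, Finset.sum_image]
  · simp only [near_emb]
  · intro a ha b hb' hab
    have h1 := G_lt ha
    have h2 := G_lt hb'
    have h3 := congrArg (loc n) hab
    rwa [loc_emb h1.1 h1.2, loc_emb h2.1 h2.2] at h3
  · intro b hbG hbn
    rw [if_neg]
    intro hnear
    obtain ⟨h1, h2⟩ := near_in hzl.1 hzl.2 hb hnear
    refine hbn ?_
    rw [Finset.mem_image]
    refine ⟨loc n b, loc_mem hbG, ?_⟩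
    have := emb_anc_loc n b
    rwa [h1] at this

end Pool.Agent.NIF
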