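import Pool.Agent.NIF.LC2
import Pool.Agent.NIF.LMN

/-!
LCG (70 lines). Global form: the energy measure of a minimiser is nowhere equidistributed.
-/

set_option autoImplicit false

namespace Pool.Agent.NIF

/-- the energy in the cell w of a level with n more levels below, total level N -/
noncomputable def mu (t : ℝ) (N n : ℕ) (u : ℕ × ℕ → ℝ) (w : ℕ × ℕ) : ℝ := ∑ z ∈ G n, ve (G N) t u (emb n w z)

theorem nonequi {t ρ : ℝ} (ht : 1 < t) (hc : CapData t ρ) (hρ : 3 ^ t < 8 * ρ) : ∃ j : ℕ, 1 ≤ j ∧ ∀ (k s : ℕ) (u : ℕ × ℕ → ℝ), 1 ≤ s →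
    IsMin t (k + (j + s)) u → ∀ w ∈ G k, ∃ v ∈ G j,
      (1 + 1 / 1024) / 8 ^ j * mu t (k + (j + s)) (j + s) u w ≤ mu t (k + (j + s)) s u (emb j w v) := by
  obtain ⟨i, hi⟩ := local_lemma ht hc hρ
  refine ⟨3 + i, by omega, ?_⟩
  intro k s u hs hu w hw
  have ht0 : t ≠ 0 := by positivity
  have hroot : ∀ r : ℝ, 0 ≤ r → (r ^ (1 / t)) ^ t = r := by
    intro r hr
    rw [← Real.rpow_mul hr, one_div, inv_mul_cancel₀ ht0, Real.rpow_one]
  have hroot' : ∀ r : ℝ, 0 ≤ r → (r ^ t) ^ (1 / t) = r := by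
    intro r hr
    rw [← Real.rpow_mul hr, one_div, mul_inv_cancel₀ ht0, Real.rpow_one]
  have hld : LocData t (3 + i + s) (fun z => u (emb (3 + i + s) w z))
      (fun z => (ve (G (k + (3 + i + s))) t u (emb (3 + i + s) w z)) ^ (1 / t)) := by
    refine ⟨?_, ?_, ?_, ?_⟩
    · intro c
      exact Real.rpow_nonneg (ve_nonneg _ _ _ _) _
    · intro x hx y hy hxy
      have h1 : |u (emb (3 + i + s) w x) - u (emb (3 + i + s) w y)| ^ t
          ≤ ve (G (k + (3 + i + s))) t u (emb (3 + i + s) w x) := le_ve (emb_mem hw hy) (near_emb.2 hxy)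
      have h2 := Real.rpow_le_rpow (Real.rpow_nonneg (abs_nonneg _) _) h1 (by positivity : (0 : ℝ) ≤ 1 / t)
      rw [hroot' _ (abs_nonneg _)] at h2
      exact h2
    · intro x hx hb
      show ((ve (G (k + (3 + i + s))) t u (emb (3 + i + s) w x)) ^ (1 / t)) ^ t = _
      rw [hroot _ (ve_nonneg _ _ _ _)]
      exact ve_inner u hw hx hb
    · intro v hv
      exact local_min hu hw hv
  obtain ⟨v, hv, hle⟩ := hi s _ _ hs hld
  refine ⟨v, hv, ?_⟩
  have e1 : ∑ z ∈ G (3 + i + s), ((ve (G (k + (3 + i + s))) t u (emb (3 + i + s) w z)) ^ (1 / t)) ^ t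
      = mu t (k + (3 + i + s)) (3 + i + s) u w := by
    unfold mu
    refine Finset.sum_congr rfl fun z _ => ?_
    rw [hroot _ (ve_nonneg _ _ _ _)]
  have e2 : ∑ z ∈ G s, ((ve (G (k + (3 + i + s))) t u (emb (3 + i + s) w (emb s v z))) ^ (1 / t)) ^ t
      = mu t (k + (3 + i + s)) s u (emb (3 + i) w v) := by
    unfold mu
    refine Finset.sum_congr rfl fun z _ => ?_
    rw [hroot _ (ve_nonneg _ _ _ _), emb_emb]
  rw [← e1, ← e2]
  exact hle

end Pool.Agent.NIF
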