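import Pool.Agent.NIF.AVP
import Pool.Agent.NIF.ITR

/-!
LMA (110 lines). The L^t limit of a hierarchical sequence.

PROOF. F_j z = f j (fl (2 + j*m0) z): bounded by 1 a.e. (ae_fl, unit), measurable, so in L^t. For z ∈ U with fl ... ∈ G:
anc m0 (fl (2+(j+1)*m0) z) = fl (2+j*m0) z (general: anc k (fl (n+k) z) = fl n z for z ∈ U, Nat.floor_div_natCast; or use that z = Fc (fl z) (fr z) and
fl_Fc_hi). So by integral_fl: ∫ |F_{j+1} - F_j|^t = 8^(-(2+(j+1)m0)) Σ_{x ∈ G(2+(j+1)m0)} |f (j+1) x - f j (anc m0 x)|^t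
≤ 8^(-(2+(j+1)m0)) Σ_{v ∈ G(2+j m0)} 8^m0 ve (f j) v = 8^(-(2+j m0)) En (f j) ≤ B (R/8^m0)^j =: B κ^j, κ < 1 (sum_G_add, card_G, close, energy).
So the L^t norms of F_{j+1} - F_j are at most B^(1/t) (κ^(1/t))^j, a geometric series: in Lp ℝ (ENNReal.ofReal t) m (complete; Fact (1 ≤ p))
the sequence is Cauchy (cauchySeq_of_le_geometric) with limit F and ‖F - F_j‖ ≤ B^(1/t) (κ^(1/t))^j / (1 - κ^(1/t)) (dist_le_of_le_geometric_of_tendsto).
Raise to the power t: ∫ |F - F_j|^t ≤ C κ^j, C = B / (1 - κ^(1/t))^t.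
-/

set_option autoImplicit false

namespace Pool.Agent.NIF

open MeasureTheory Pool.Agent.SCI

theorem anc_fl {n k : ℕ} {z : ℝ × ℝ} (hz : z ∈ U) : anc k (fl (n + k) z) = fl n z := by
  have key : ∀ x : ℝ, ⌊(3 : ℝ) ^ (n + k) * x⌋₊ / 3 ^ k = ⌊(3 : ℝ) ^ n * x⌋₊ := by
    intro x
    rw [← Nat.floor_div_natCast]
    congr 1
    push_cast
    rw [pow_add]
    field_simp
  exact Prod.ext (key z.1) (key z.2)

/-- the j-th function on the plane -/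
private noncomputable def ph (m0 : ℕ) (f : ℕ → ℕ × ℕ → ℝ) (j : ℕ) (z : ℝ × ℝ) : ℝ := f j (fl (2 + j * m0) z)

private theorem ph_memLp {K : Set (ℝ × ℝ)} {m : Measure (ℝ × ℝ)} (hK : IsCarpet K) (hm : IsCarpetMeasure K m) {t : ℝ}
    {m0 : ℕ} {B R : ℝ} {f : ℕ → ℕ × ℕ → ℝ} (h : Hier t m0 B R f) (p : ENNReal) (j : ℕ) : MemLp (ph m0 f j) p m := by
  have := hm.prob
  refine MemLp.of_bound (C := 1) ?_ ?_
  · exact ((Measurable.of_discrete (f := f j)).comp (measurable_fl _)).aestronglyMeasurable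
  · filter_upwards [ae_fl hK hm (2 + j * m0)] with z hz
    obtain ⟨h1, h2⟩ := h.unit j _ hz
    rw [Real.norm_eq_abs]
    exact abs_le.2 ⟨by unfold ph; linarith, h2⟩

private theorem step_le {K : Set (ℝ × ℝ)} {m : Measure (ℝ × ℝ)} (hK : IsCarpet K) (hm : IsCarpetMeasure K m) {t : ℝ}
    {m0 : ℕ} {B R : ℝ} (hB : 0 < B) (hR : 0 < R) {f : ℕ → ℕ × ℕ → ℝ} (h : Hier t m0 B R f) (j : ℕ) :
    ∫ z, |ph m0 f j z - ph m0 f (j + 1) z| ^ t ∂m ≤ B * (R / 8 ^ m0) ^ j := by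
  have e1 : 2 + (j + 1) * m0 = (2 + j * m0) + m0 := by ring
  have h1 : ∫ z, |ph m0 f j z - ph m0 f (j + 1) z| ^ t ∂m
      = ∫ z, (fun x : ℕ × ℕ => |f j (anc m0 x) - f (j + 1) x| ^ t) (fl (2 + (j + 1) * m0) z) ∂m := by
    refine integral_congr_ae ?_
    filter_upwards [ae_unit hK hm] with z hz
    have h2 : anc m0 (fl (2 + (j + 1) * m0) z) = fl (2 + j * m0) z := by
      rw [e1]
      exact anc_fl hz
    unfold ph
    rw [h2]
  rw [h1, integral_fl hK hm (2 + (j + 1) * m0) (fun x : ℕ × ℕ => |f j (anc m0 x) - f (j + 1) x| ^ t)]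
  have h3 : ∑ c ∈ G (2 + (j + 1) * m0), |f j (anc m0 c) - f (j + 1) c| ^ t
      ≤ 8 ^ m0 * (B * R ^ j) := by
    rw [e1, sum_G_add]
    have h4 : ∀ w ∈ G (2 + j * m0), ∑ z ∈ G m0, |f j (anc m0 (emb m0 w z)) - f (j + 1) (emb m0 w z)| ^ t
        ≤ 8 ^ m0 * ve (G (2 + j * m0)) t (f j) w := by
      intro w hw
      have h5 : ∀ z ∈ G m0, |f j (anc m0 (emb m0 w z)) - f (j + 1) (emb m0 w z)| ^ t
          ≤ ve (G (2 + j * m0)) t (f j) w := by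
        intro z hz
        have h6 := h.close j (emb m0 w z) (by rw [e1]; exact emb_mem hw hz)
        rw [abs_sub_comm]
        rw [anc_emb (G_lt hz).1 (G_lt hz).2] at h6 ⊢
        exact h6
      refine (Finset.sum_le_sum h5).trans ?_
      rw [Finset.sum_const, card_G, nsmul_eq_mul]
      push_cast
      exact le_refl _
    refine (Finset.sum_le_sum h4).trans ?_
    rw [← Finset.mul_sum]
    exact mul_le_mul_of_nonneg_left (h.energy j) (by positivity)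
  rw [div_le_iff₀ (by positivity)]
  refine h3.trans ?_
  rw [e1, pow_add, pow_add, pow_mul', div_pow]
  have h8 : (0 : ℝ) < (8 ^ m0) ^ j := by positivity
  have h9 : B * (R ^ j / (8 ^ m0) ^ j) * (8 ^ 2 * (8 ^ m0) ^ j * 8 ^ m0) = 64 * (8 ^ m0 * (B * R ^ j)) := by
    field_simp
    ring
  rw [h9]
  have h10 : (0 : ℝ) < 8 ^ m0 * (B * R ^ j) := by positivity
  linarith

theorem hier_limit {K : Set (ℝ × ℝ)} {m : Measure (ℝ × ℝ)} (hK : IsCarpet K) (hm : IsCarpetMeasure K m) {t : ℝ} (ht : 1 < t)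
    {m0 : ℕ} (hm0 : 1 ≤ m0) {B R : ℝ} (hB : 0 < B) (hR : 0 < R) (hR8 : R < 8 ^ m0) {f : ℕ → ℕ × ℕ → ℝ} (h : Hier t m0 B R f) :
    ∃ F : ℝ × ℝ → ℝ, MemLp F (ENNReal.ofReal t) m ∧
      ∃ C : ℝ, ∀ j, ∫ z, |F z - f j (fl (2 + j * m0) z)| ^ t ∂m ≤ C * (R / 8 ^ m0) ^ j := by
  have := hm.prob
  have ht0 : 0 < t := by linarith
  have hti : 0 < t⁻¹ := inv_pos.2 ht0
  set p : ENNReal := ENNReal.ofReal t with hp
  have hp1 : 1 ≤ p := by
    rw [hp, show (1 : ENNReal) = ENNReal.ofReal 1 by simp]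
    exact ENNReal.ofReal_le_ofReal ht.le
  haveI : Fact (1 ≤ p) := ⟨hp1⟩
  have hp0 : p ≠ 0 := by
    intro h0
    rw [h0] at hp1
    exact absurd hp1 (by simp)
  have hpt : p ≠ ⊤ := ENNReal.ofReal_ne_top
  have hpr : p.toReal = t := ENNReal.toReal_ofReal ht0.le
  set κ : ℝ := R / 8 ^ m0 with hκ
  have hκ0 : 0 ≤ κ := by positivity
  have hκ1 : κ < 1 := by
    rw [hκ, div_lt_one (by positivity)]
    exact hR8
  set g : ℕ → Lp ℝ p m := fun j => (ph_memLp hK hm h p j).toLp (ph m0 f j) with hg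
  -- distances
  have norm_int : ∀ {u : ℝ × ℝ → ℝ}, MemLp u p m → (eLpNorm u p m).toReal = (∫ z, |u z| ^ t ∂m) ^ t⁻¹ := by
    intro u hu
    rw [hu.eLpNorm_eq_integral_rpow_norm hp0 hpt, hpr, ENNReal.toReal_ofReal]
    · rfl
    · exact Real.rpow_nonneg (integral_nonneg fun z => Real.rpow_nonneg (norm_nonneg _) _) _
  have hd : ∀ j, dist (g j) (g (j + 1)) ≤ B ^ t⁻¹ * (κ ^ t⁻¹) ^ j := by
    intro j
    have h1 : dist (g j) (g (j + 1)) = (∫ z, |ph m0 f j z - ph m0 f (j + 1) z| ^ t ∂m) ^ t⁻¹ := by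
      rw [dist_eq_norm, hg]
      dsimp only
      rw [← MemLp.toLp_sub, Lp.norm_toLp]
      exact norm_int ((ph_memLp hK hm h p j).sub (ph_memLp hK hm h p (j + 1)))
    rw [h1]
    have h2 := Real.rpow_le_rpow (integral_nonneg fun z => Real.rpow_nonneg (abs_nonneg _) _)
      (step_le hK hm hB hR h j) hti.le
    refine h2.trans (le_of_eq ?_)
    rw [Real.mul_rpow hB.le (by positivity), ← Real.rpow_natCast, ← Real.rpow_natCast (κ ^ t⁻¹),
      ← Real.rpow_mul hκ0, ← Real.rpow_mul hκ0, mul_comm]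
    ring_nf
  have hr1 : κ ^ t⁻¹ < 1 := Real.rpow_lt_one hκ0 hκ1 hti
  have hr0 : 0 ≤ κ ^ t⁻¹ := Real.rpow_nonneg hκ0 _
  obtain ⟨a, ha⟩ := cauchySeq_tendsto_of_complete (cauchySeq_of_le_geometric (κ ^ t⁻¹) (B ^ t⁻¹) hr1 hd)
  have hla := fun j => dist_le_of_le_geometric_of_tendsto (κ ^ t⁻¹) (B ^ t⁻¹) hr1 hd ha j
  refine ⟨a, Lp.memLp a, (B ^ t⁻¹ / (1 - κ ^ t⁻¹)) ^ t, fun j => ?_⟩
  have h3 : dist (g j) a = (∫ z, |a z - ph m0 f j z| ^ t ∂m) ^ t⁻¹ := by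
    have h4 : MemLp (fun z => a z - ph m0 f j z) p m := (Lp.memLp a).sub (ph_memLp hK hm h p j)
    rw [← norm_int h4, dist_comm, dist_eq_norm, Lp.norm_def]
    congr 1
    refine eLpNorm_congr_ae ?_
    filter_upwards [Lp.coeFn_sub a (g j), (ph_memLp hK hm h p j).coeFn_toLp] with z h5 h6
    rw [h5, Pi.sub_apply]
    show a z - (g j) z = a z - ph m0 f j z
    rw [hg]
    dsimp only
    rw [h6]
  have hI0 : 0 ≤ ∫ z, |a z - ph m0 f j z| ^ t ∂m := integral_nonneg fun z => Real.rpow_nonneg (abs_nonneg _) _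
  have h7 := hla j
  rw [h3] at h7
  have h8 := Real.rpow_le_rpow (Real.rpow_nonneg hI0 _) h7 ht0.le
  rw [← Real.rpow_mul hI0, inv_mul_cancel₀ ht0.ne', Real.rpow_one] at h8
  refine h8.trans (le_of_eq ?_)
  have h9 : B ^ t⁻¹ * (κ ^ t⁻¹) ^ j / (1 - κ ^ t⁻¹) = B ^ t⁻¹ / (1 - κ ^ t⁻¹) * (κ ^ t⁻¹) ^ j := by ring
  rw [h9, Real.mul_rpow (div_nonneg (Real.rpow_nonneg hB.le _) (by linarith)) (pow_nonneg hr0 _)]
  congr 1
  rw [← Real.rpow_natCast, ← Real.rpow_natCast κ, ← Real.rpow_mul hκ0, ← Real.rpow_mul hκ0]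
  congr 1
  field_simp

end Pool.Agent.NIF
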