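import Pool.Agent.NIF.LMA

/-!
LMB (80 lines). The limit is not constant.

PROOF. Suppose F = c a.e. Let A0 = {z | fl 2 z = (0,0)}, A1 = {z | fl 2 z = (8,0)}: both have measure 1/64 (integral_fl for the indicators of (0,0), (8,0) ∈ G 2).
For a.e. z ∈ A0 and every j, x = fl (2+j*m0) z ∈ G (ae_fl) has anc (j*m0) x = fl 2 z = (0,0) (anc_fl), so x.1 < 3^(j*m0), f j x = 0; hence
|c|^t / 64 ≤ ∫ |F - F_j|^t ≤ C κ^j → 0, so c = 0 (κ = R / 8^m0 < 1, κ ≥ 0: tendsto_pow_atTop_nhds_zero_of_lt_one). For a.e. z ∈ A1: anc (j*m0) x = (8,0), so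
8 · 3^(j*m0) ≤ x.1 and f j x = 1: |c - 1|^t / 64 ≤ C κ^j → 0, c = 1. Contradiction.
-/

set_option autoImplicit false

namespace Pool.Agent.NIF

open MeasureTheory Pool.Agent.SCI

private theorem val_eq {K : Set (ℝ × ℝ)} {m : Measure (ℝ × ℝ)} (hK : IsCarpet K) (hm : IsCarpetMeasure K m) {t : ℝ} (ht : 1 < t)
    {m0 : ℕ} {B R : ℝ} (hR : 0 < R) (hR8 : R < 8 ^ m0) {f : ℕ → ℕ × ℕ → ℝ} (h : Hier t m0 B R f)
    {F : ℝ × ℝ → ℝ} (hF : MemLp F (ENNReal.ofReal t) m) {C : ℝ}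
    (hC : ∀ j, ∫ z, |F z - f j (fl (2 + j * m0) z)| ^ t ∂m ≤ C * (R / 8 ^ m0) ^ j) {c b : ℝ} (hc : F =ᵐ[m] fun _ => c)
    {v : ℕ × ℕ} (hv : v ∈ G 2) (hb : ∀ j, ∀ x ∈ G (2 + j * m0), anc (j * m0) x = v → f j x = b) : c = b := by
  have := hm.prob
  have ht0 : 0 < t := by linarith
  have hκ0 : 0 ≤ R / 8 ^ m0 := by positivity
  have hκ1 : R / 8 ^ m0 < 1 := by
    rw [div_lt_one (by positivity)]
    exact hR8
  have h1 : ∀ j, |c - b| ^ t / 8 ^ 2 ≤ C * (R / 8 ^ m0) ^ j := by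
    intro j
    refine le_trans ?_ (hC j)
    have h2 : ∫ z, (fun x : ℕ × ℕ => if x = v then |c - b| ^ t else 0) (fl 2 z) ∂m = |c - b| ^ t / 8 ^ 2 := by
      rw [integral_fl hK hm 2 (fun x : ℕ × ℕ => if x = v then |c - b| ^ t else 0)]
      congr 1
      rw [Finset.sum_ite_eq' (G 2) v (fun _ => |c - b| ^ t), if_pos hv]
    rw [← h2]
    refine integral_mono_ae (integrable_fl hK hm 2 (fun x : ℕ × ℕ => if x = v then |c - b| ^ t else 0)) ?_ ?_
    · have h3 : MemLp (fun z => F z - f j (fl (2 + j * m0) z)) (ENNReal.ofReal t) m := by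
        refine hF.sub (MemLp.of_bound (C := 1) ?_ ?_)
        · exact ((Measurable.of_discrete (f := f j)).comp (measurable_fl _)).aestronglyMeasurable
        · filter_upwards [ae_fl hK hm (2 + j * m0)] with z hz
          obtain ⟨h1, h2⟩ := h.unit j _ hz
          rw [Real.norm_eq_abs]
          exact abs_le.2 ⟨by linarith, h2⟩
      have h4 := h3.integrable_norm_rpow (by
        rw [Ne, ENNReal.ofReal_eq_zero, not_le]
        exact ht0) ENNReal.ofReal_ne_top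
      rw [ENNReal.toReal_ofReal ht0.le] at h4
      exact h4
    · filter_upwards [hc, ae_unit hK hm, ae_fl hK hm (2 + j * m0)] with z hz hu hg
      split_ifs with h5
      · have h6 : anc (j * m0) (fl (2 + j * m0) z) = v := by
          rw [anc_fl hu]
          exact h5
        rw [hb j _ hg h6, hz]
      · exact Real.rpow_nonneg (abs_nonneg _) _
  have h7 : Filter.Tendsto (fun j : ℕ => C * (R / 8 ^ m0) ^ j) Filter.atTop (nhds 0) := by
    have h8 := (tendsto_pow_atTop_nhds_zero_of_lt_one hκ0 hκ1).const_mul C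
    rwa [mul_zero] at h8
  have h9 : |c - b| ^ t / 8 ^ 2 ≤ 0 := ge_of_tendsto' h7 h1
  by_contra hne
  have h10 : 0 < |c - b| ^ t := Real.rpow_pos_of_pos (abs_pos.2 (sub_ne_zero.2 hne)) _
  have h11 : 0 < |c - b| ^ t / 8 ^ 2 := by positivity
  linarith

theorem hier_nonconst {K : Set (ℝ × ℝ)} {m : Measure (ℝ × ℝ)} (hK : IsCarpet K) (hm : IsCarpetMeasure K m) {t : ℝ} (ht : 1 < t)
    {m0 : ℕ} (hm0 : 1 ≤ m0) {B R : ℝ} (hR : 0 < R) (hR8 : R < 8 ^ m0) {f : ℕ → ℕ × ℕ → ℝ} (h : Hier t m0 B R f)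
    {F : ℝ × ℝ → ℝ} (hF : MemLp F (ENNReal.ofReal t) m) {C : ℝ}
    (hC : ∀ j, ∫ z, |F z - f j (fl (2 + j * m0) z)| ^ t ∂m ≤ C * (R / 8 ^ m0) ^ j) : ¬ ∃ c : ℝ, F =ᵐ[m] fun _ => c := by
  rintro ⟨c, hc⟩
  have h0 : c = 0 := by
    refine val_eq hK hm ht hR hR8 h hF hC hc (v := (0, 0)) (by decide) ?_
    intro j x hx ha
    have h1 : x.1 / 3 ^ (j * m0) = 0 := congrArg Prod.fst ha
    have h2 : x.1 < 3 ^ (j * m0) := (Nat.div_eq_zero_iff_lt (by positivity)).1 h1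
    exact h.zero j x hx (by omega)
  have h1 : c = 1 := by
    refine val_eq hK hm ht hR hR8 h hF hC hc (v := (8, 0)) (by decide) ?_
    intro j x hx ha
    have h1 : x.1 / 3 ^ (j * m0) = 8 := congrArg Prod.fst ha
    have h2 : 3 ^ (j * m0) * (x.1 / 3 ^ (j * m0)) ≤ x.1 := Nat.mul_div_le _ _
    rw [h1] at h2
    exact h.one j x hx (by omega)
  rw [h0] at h1
  exact zero_ne_one h1

end Pool.Agent.NIF
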