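import Pool.Agent.NIF.MEQ
import Pool.Agent.NIF.AVP

/-!
LPA (150 lines). Local oscillation of continuous elements of F_{t,r}, 8 r > 1: Σ_{c ∈ G n} ∫ |f ∘ Fc n c - av f n c|^t ≤ C r^(-n).

PROOF. M with r^n En (G n) t (av f n) ≤ M (mem_iff), M ≥ 0. E k z = av m f k (fl k z).
(1) ring: for a : ℕ×ℕ → ℝ and i, i' ∈ G 1: |a i - a i'|^t ≤ 14^t En (G 1) t a: go around the ring (0,0),(1,0),(2,0),(2,1),(2,2),(1,2),(0,2),(0,1), every step is ≤ (En)^(1/t)
(le_ve, ve_le_En), so |a i - a (0,0)| ≤ 7 (En)^(1/t). (2) For c = emb 1 v i ∈ G (k+1): av f k v = (1/8) Σ_{i'} av f (k+1) (emb 1 v i') (av_refine), so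
|av f (k+1) c - av f k v|^t ≤ max_i' ≤ 14^t En (G 1) t (i ↦ av f (k+1) (emb 1 v i)); summing over v ∈ G k, i ∈ G 1:
Σ_c |av f (k+1) c - av f k (anc 1 c)|^t ≤ 8 · 14^t En (G (k+1)) t (av f (k+1)) (pairs inside the cells v are part of all pairs) ≤ 8 · 14^t M r^(-(k+1)).
So ∫ |E (k+1) - E k|^t = 8^(-(k+1)) Σ_c ... ≤ 8 · 14^t M (8r)^(-(k+1)) (integral_fl, fl k z = anc 1 (fl (k+1) z) a.e.).
(3) E k → f uniformly a.e. (f uniformly continuous on K; for a.e. z ∈ K ∩ U: z and Fc k (fl k z) z' (z' ∈ K ∩ U) are in K and at distance ≤ 3^(-k) in each coordinate),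
so ∫ |f - E n|^t = lim_N ∫ |E N - E n|^t (or eLpNorm) and by Minkowski (∫|f - E n|^t)^(1/t) ≤ Σ_{k ≥ n} (8 · 14^t M)^(1/t) (8r)^(-(k+1)/t) ≤ C' (8r)^(-n/t), a convergent geometric series.
(4) ∫ |f - E n|^t = 8^(-n) Σ_c ∫ |f (Fc n c z) - av f n c|^t (integral_split, fl_Fc). So the sum is ≤ 8^n C'^t (8r)^(-n) = C'^t r^(-n).
-/

set_option autoImplicit false

namespace Pool.Agent.NIF

open MeasureTheory Pool.Agent.SCI

private theorem lpa_near {t : ℝ} (ht : 0 < t) {A : Finset (ℕ × ℕ)} (a : ℕ × ℕ → ℝ) {x y : ℕ × ℕ} (hx : x ∈ A) (hy : y ∈ A)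
    (h : near x y) : |a x - a y| ≤ (En A t a) ^ (1 / t) := by
  have h1 : |a x - a y| ^ t ≤ En A t a := (le_ve hy h).trans (ve_le_En hx)
  have h2 := Real.rpow_le_rpow (Real.rpow_nonneg (abs_nonneg _) t) h1 (by positivity : (0 : ℝ) ≤ 1 / t)
  rw [one_div, Real.rpow_rpow_inv (abs_nonneg _) ht.ne'] at h2
  rw [one_div]
  exact h2

private theorem lpa_G1 : G 1 = {(0, 0), (1, 0), (2, 0), (0, 1), (2, 1), (0, 2), (1, 2), (2, 2)} := by decide

private theorem lpa_ring {t : ℝ} (ht : 0 < t) (a : ℕ × ℕ → ℝ) {i j : ℕ × ℕ} (hi : i ∈ G 1) (hj : j ∈ G 1) :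
    |a i - a j| ≤ 14 * (En (G 1) t a) ^ (1 / t) := by
  have m1 : ((0, 0) : ℕ × ℕ) ∈ G 1 := by decide
  have m2 : ((1, 0) : ℕ × ℕ) ∈ G 1 := by decide
  have m3 : ((2, 0) : ℕ × ℕ) ∈ G 1 := by decide
  have m4 : ((2, 1) : ℕ × ℕ) ∈ G 1 := by decide
  have m5 : ((2, 2) : ℕ × ℕ) ∈ G 1 := by decide
  have m6 : ((1, 2) : ℕ × ℕ) ∈ G 1 := by decide
  have m7 : ((0, 2) : ℕ × ℕ) ∈ G 1 := by decide
  have m8 : ((0, 1) : ℕ × ℕ) ∈ G 1 := by decide
  have e1 := abs_le.1 (lpa_near ht a m1 m2 (by decide))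
  have e2 := abs_le.1 (lpa_near ht a m2 m3 (by decide))
  have e3 := abs_le.1 (lpa_near ht a m3 m4 (by decide))
  have e4 := abs_le.1 (lpa_near ht a m4 m5 (by decide))
  have e5 := abs_le.1 (lpa_near ht a m5 m6 (by decide))
  have e6 := abs_le.1 (lpa_near ht a m6 m7 (by decide))
  have e7 := abs_le.1 (lpa_near ht a m7 m8 (by decide))
  have hE : 0 ≤ (En (G 1) t a) ^ (1 / t) := Real.rpow_nonneg (En_nonneg _ _ _) _
  generalize (En (G 1) t a) ^ (1 / t) = e at *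
  have key : ∀ i ∈ G 1, |a i - a (0, 0)| ≤ 7 * e := by
    intro i hi
    rw [lpa_G1] at hi
    simp only [Finset.mem_insert, Finset.mem_singleton] at hi
    rw [abs_le]
    rcases hi with h | h | h | h | h | h | h | h <;> rw [h] <;> constructor <;> linarith [e1.1, e1.2, e2.1, e2.2,
      e3.1, e3.2, e4.1, e4.2, e5.1, e5.2, e6.1, e6.2, e7.1, e7.2]
  have h1 := abs_le.1 (key i hi)
  have h2 := abs_le.1 (key j hj)
  rw [abs_le]
  constructor <;> linarith [h1.1, h1.2, h2.1, h2.2]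

private theorem lpa_step {K : Set (ℝ × ℝ)} {m : Measure (ℝ × ℝ)} (hK : IsCarpet K) (hm : IsCarpetMeasure K m) {t : ℝ} (ht : 0 < t)
    {f : ℝ × ℝ → ℝ} (hf : Integrable f m) {k : ℕ} {v i : ℕ × ℕ} (hv : v ∈ G k) (hi : i ∈ G 1) :
    |av m f (k + 1) (emb 1 v i) - av m f k v| ^ t ≤
      14 ^ t * En (G 1) t (fun i => av m f (k + 1) (emb 1 v i)) := by
  set g : ℕ × ℕ → ℝ := fun i => av m f (k + 1) (emb 1 v i) with hg
  have h0 := av_refine hK hm hf 1 hv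
  have hc : ((G 1).card : ℝ) = 8 := by
    rw [card_G]; norm_num
  have h1 : av m f (k + 1) (emb 1 v i) - av m f k v = (∑ j ∈ G 1, (g i - g j)) / 8 := by
    rw [h0, Finset.sum_sub_distrib, Finset.sum_const, nsmul_eq_mul, hc]
    show g i - (∑ j ∈ G 1, g j) / 8 ^ 1 = _
    ring
  set e := (En (G 1) t g) ^ (1 / t) with he
  have hE : 0 ≤ En (G 1) t g := En_nonneg _ _ _
  have he0 : 0 ≤ e := Real.rpow_nonneg hE _
  have h2 : |av m f (k + 1) (emb 1 v i) - av m f k v| ≤ 14 * e := by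
    rw [h1, abs_div, abs_of_pos (by norm_num : (0 : ℝ) < 8), div_le_iff₀ (by norm_num)]
    calc |∑ j ∈ G 1, (g i - g j)| ≤ ∑ j ∈ G 1, |g i - g j| := Finset.abs_sum_le_sum_abs _ _
      _ ≤ ∑ _j ∈ G 1, 14 * e := Finset.sum_le_sum fun j hj => lpa_ring ht g hi hj
      _ = 14 * e * 8 := by rw [Finset.sum_const, nsmul_eq_mul, hc]; ring
  calc |av m f (k + 1) (emb 1 v i) - av m f k v| ^ t ≤ (14 * e) ^ t := Real.rpow_le_rpow (abs_nonneg _) h2 ht.le
    _ = 14 ^ t * e ^ t := Real.mul_rpow (by norm_num) he0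
    _ = 14 ^ t * En (G 1) t g := by
      rw [he, one_div, Real.rpow_inv_rpow hE ht.ne']

private theorem lpa_sub (k : ℕ) (t : ℝ) (a : ℕ × ℕ → ℝ) :
    ∑ v ∈ G k, En (G 1) t (fun i => a (emb 1 v i)) ≤ En (G (k + 1)) t a := by
  unfold En
  rw [sum_G_add]
  refine Finset.sum_le_sum fun v hv => Finset.sum_le_sum fun i hi => ?_
  have hinj : ∀ x ∈ G 1, ∀ y ∈ G 1, emb 1 v x = emb 1 v y → x = y := by
    intro x hx y hy h
    have h1 := G_lt hx
    have h2 := G_lt hy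
    rw [← loc_emb (w := v) h1.1 h1.2, h, loc_emb h2.1 h2.2]
  unfold ve
  have h1 : ∑ b ∈ G 1, (if near i b then |a (emb 1 v i) - a (emb 1 v b)| ^ t else 0) =
      ∑ c ∈ (G 1).image (emb 1 v), (if near (emb 1 v i) c then |a (emb 1 v i) - a c| ^ t else 0) := by
    rw [Finset.sum_image hinj]
    refine Finset.sum_congr rfl fun b _ => ?_
    simp only [near_emb]
  rw [h1]
  refine Finset.sum_le_sum_of_subset_of_nonneg ?_ fun c _ _ => ?_
  · intro c hc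
    obtain ⟨b, hb, rfl⟩ := Finset.mem_image.1 hc
    exact emb_mem hv hb
  · split_ifs
    · exact Real.rpow_nonneg (abs_nonneg _) _
    · exact le_rfl

/-- the oscillation between two levels -/
private theorem lpa_D {K : Set (ℝ × ℝ)} {m : Measure (ℝ × ℝ)} (hK : IsCarpet K) (hm : IsCarpetMeasure K m) {t : ℝ} (ht : 0 < t)
    {f : ℝ × ℝ → ℝ} (hf : Integrable f m) (k : ℕ) :
    ∑ x ∈ G (k + 1), |av m f (k + 1) x - av m f k (anc 1 x)| ^ t ≤ 8 * 14 ^ t * En (G (k + 1)) t (av m f (k + 1)) := by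
  have hc : ((G 1).card : ℝ) = 8 := by
    rw [card_G]; norm_num
  rw [sum_G_add]
  calc ∑ v ∈ G k, ∑ i ∈ G 1, |av m f (k + 1) (emb 1 v i) - av m f k (anc 1 (emb 1 v i))| ^ t
      ≤ ∑ v ∈ G k, ∑ _i ∈ G 1, 14 ^ t * En (G 1) t (fun i => av m f (k + 1) (emb 1 v i)) := by
        refine Finset.sum_le_sum fun v hv => Finset.sum_le_sum fun i hi => ?_
        have h1 := G_lt hi
        rw [anc_emb h1.1 h1.2]
        exact lpa_step hK hm ht hf hv hi
    _ = 8 * 14 ^ t * ∑ v ∈ G k, En (G 1) t (fun i => av m f (k + 1) (emb 1 v i)) := by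
        rw [Finset.mul_sum]
        refine Finset.sum_congr rfl fun v _ => ?_
        rw [Finset.sum_const, nsmul_eq_mul, hc]
        ring
    _ ≤ 8 * 14 ^ t * En (G (k + 1)) t (av m f (k + 1)) :=
        mul_le_mul_of_nonneg_left (lpa_sub k t _) (by positivity)

private theorem lpa_split {r t M : ℝ} (ht : 0 < t) (hr : 0 < r) (hM : 0 ≤ M) (n j : ℕ) {D E : ℝ} (hE : r ^ (n + j + 1) * E ≤ M)
    (hD0 : 0 ≤ D) (hD : D ≤ 8 * 14 ^ t * E) :
    (D / 8 ^ (j + 1)) ^ (1 / t) ≤ (8 * 14 ^ t * M / r ^ n) ^ (1 / t) * ((8 * r)⁻¹ ^ (1 / t)) ^ (j + 1) := by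
  have h1 : D / 8 ^ (j + 1) ≤ (8 * 14 ^ t * M / r ^ n) * (8 * r)⁻¹ ^ (j + 1) := by
    have h2 : E ≤ M / r ^ (n + j + 1) := by
      rw [le_div_iff₀ (by positivity), mul_comm]
      exact hE
    have h3 : D ≤ 8 * 14 ^ t * (M / r ^ (n + j + 1)) := hD.trans (mul_le_mul_of_nonneg_left h2 (by positivity))
    calc D / 8 ^ (j + 1) ≤ 8 * 14 ^ t * (M / r ^ (n + j + 1)) / 8 ^ (j + 1) := div_le_div_of_nonneg_right h3 (by positivity)
      _ = (8 * 14 ^ t * M / r ^ n) * (8 * r)⁻¹ ^ (j + 1) := by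
        rw [inv_pow, mul_pow, show n + j + 1 = n + (j + 1) by ring, pow_add r n (j + 1)]
        field_simp
  have h4 := Real.rpow_le_rpow (by positivity) h1 (by positivity : (0 : ℝ) ≤ 1 / t)
  rw [Real.mul_rpow (by positivity) (by positivity)] at h4
  have h5 : ((8 * r)⁻¹ ^ (j + 1)) ^ (1 / t) = ((8 * r)⁻¹ ^ (1 / t)) ^ (j + 1) := by
    rw [← Real.rpow_natCast, ← Real.rpow_natCast, ← Real.rpow_mul (by positivity), ← Real.rpow_mul (by positivity), mul_comm ((j + 1 : ℕ) : ℝ) (1 / t)]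
  rwa [h5] at h4

private theorem lpa_T {K : Set (ℝ × ℝ)} {m : Measure (ℝ × ℝ)} (hK : IsCarpet K) (hm : IsCarpetMeasure K m) {t r M : ℝ} (ht : 1 < t)
    (hr : 0 < r) (hM : 0 ≤ M) {f : ℝ × ℝ → ℝ} (hf : Integrable f m) (h : ∀ n : ℕ, r ^ n * En (G n) t (av m f n) ≤ M)
    (n : ℕ) : ∀ k : ℕ,
    ((∑ x ∈ G (n + k), |av m f (n + k) x - av m f n (anc k x)| ^ t) / 8 ^ k) ^ (1 / t) ≤
      (8 * 14 ^ t * M / r ^ n) ^ (1 / t) * ∑ j ∈ Finset.range k, ((8 * r)⁻¹ ^ (1 / t)) ^ (j + 1) := by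
  have ht0 : 0 < t := by linarith
  intro k
  induction k with
  | zero =>
    have h1 : ∑ x ∈ G (n + 0), |av m f (n + 0) x - av m f n (anc 0 x)| ^ t = 0 := by
      refine Finset.sum_eq_zero fun x _ => ?_
      have : anc 0 x = x := by
        unfold anc
        simp
      rw [this, add_zero, sub_self, abs_zero, Real.zero_rpow ht0.ne']
    rw [h1]
    simp [ht0.ne']
  | succ k ih =>
    have h8 : (0 : ℝ) < 8 ^ (k + 1) := by positivity
    set D := ∑ x ∈ G (n + k + 1), |av m f (n + k + 1) x - av m f (n + k) (anc 1 x)| ^ t with hD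
    set T := ∑ x ∈ G (n + k), |av m f (n + k) x - av m f n (anc k x)| ^ t with hT
    have hD0 : 0 ≤ D := Finset.sum_nonneg fun x _ => Real.rpow_nonneg (abs_nonneg _) _
    have hT0 : 0 ≤ T := Finset.sum_nonneg fun x _ => Real.rpow_nonneg (abs_nonneg _) _
    have h1 := Real.Lp_add_le (G (n + k + 1)) (fun x => av m f (n + k + 1) x - av m f (n + k) (anc 1 x))
      (fun x => av m f (n + k) (anc 1 x) - av m f n (anc k (anc 1 x))) ht.le
    have h2 : ∑ x ∈ G (n + k + 1), |av m f (n + k) (anc 1 x) - av m f n (anc k (anc 1 x))| ^ t = 8 * T := by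
      rw [sum_G_add, hT, Finset.mul_sum]
      refine Finset.sum_congr rfl fun v _ => ?_
      have h3 : ∀ i ∈ G 1, |av m f (n + k) (anc 1 (emb 1 v i)) - av m f n (anc k (anc 1 (emb 1 v i)))| ^ t =
          |av m f (n + k) v - av m f n (anc k v)| ^ t := by
        intro i hi
        have h4 := G_lt hi
        rw [anc_emb h4.1 h4.2]
      rw [Finset.sum_congr rfl h3, Finset.sum_const, nsmul_eq_mul, card_G]
      norm_num
    have h5 : ∀ x, (fun x => av m f (n + k + 1) x - av m f (n + k) (anc 1 x)) x +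
        (fun x => av m f (n + k) (anc 1 x) - av m f n (anc k (anc 1 x))) x =
        av m f (n + (k + 1)) x - av m f n (anc (k + 1) x) := by
      intro x
      have h6 : anc k (anc 1 x) = anc (k + 1) x := anc_anc k 1 x
      simp only [h6]
      show av m f (n + k + 1) x - av m f (n + k) (anc 1 x) + (av m f (n + k) (anc 1 x) - av m f n (anc (k + 1) x)) =
        av m f (n + k + 1) x - av m f n (anc (k + 1) x)
      ring
    simp only [h5] at h1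
    rw [h2] at h1
    have h7 : ((∑ x ∈ G (n + (k + 1)), |av m f (n + (k + 1)) x - av m f n (anc (k + 1) x)| ^ t) / 8 ^ (k + 1)) ^ (1 / t) ≤
        (D / 8 ^ (k + 1)) ^ (1 / t) + (T / 8 ^ k) ^ (1 / t) := by
      rw [Real.div_rpow (Finset.sum_nonneg fun x _ => Real.rpow_nonneg (abs_nonneg _) _) h8.le,
        div_le_iff₀ (Real.rpow_pos_of_pos h8 _), add_mul, ← Real.mul_rpow (by positivity) h8.le,
        ← Real.mul_rpow (by positivity) h8.le, div_mul_cancel₀ _ h8.ne']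
      have h9 : T / 8 ^ k * 8 ^ (k + 1) = 8 * T := by
        field_simp
        ring
      rw [h9]
      exact h1
    have h10 := lpa_split ht0 hr hM n k (h (n + k + 1)) hD0 (lpa_D hK hm ht0 hf (n + k))
    rw [Finset.sum_range_succ, mul_add]
    linarith

private theorem lpa_C0 {t r M : ℝ} (ht : 0 < t) (hr : 1 / 8 < r) (hM : 0 ≤ M) (n k : ℕ) {S : ℝ} (hS : 0 ≤ S)
    (h : S ^ (1 / t) ≤ (8 * 14 ^ t * M / r ^ n) ^ (1 / t) * ∑ j ∈ Finset.range k, ((8 * r)⁻¹ ^ (1 / t)) ^ (j + 1)) :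
    r ^ n * S ≤ 8 * 14 ^ t * M * ((1 - (8 * r)⁻¹ ^ (1 / t))⁻¹) ^ t := by
  have hr0 : 0 < r := by linarith
  have hq1 : (8 * r)⁻¹ < 1 := inv_lt_one_of_one_lt₀ (by linarith)
  have hq0 : 0 < (8 * r)⁻¹ := by positivity
  set q := (8 * r)⁻¹ ^ (1 / t) with hq
  have hqp : 0 ≤ q := by positivity
  have hql : q < 1 := Real.rpow_lt_one hq0.le hq1 (by positivity)
  have h1 : ∑ j ∈ Finset.range k, q ^ (j + 1) ≤ (1 - q)⁻¹ := by
    calc ∑ j ∈ Finset.range k, q ^ (j + 1) ≤ ∑ j ∈ Finset.range k, q ^ j :=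
          Finset.sum_le_sum fun j _ => pow_le_pow_of_le_one hqp hql.le (Nat.le_succ j)
      _ ≤ ∑' j, q ^ j := (summable_geometric_of_lt_one hqp hql).sum_le_tsum _ (fun j _ => by positivity)
      _ = (1 - q)⁻¹ := tsum_geometric_of_lt_one hqp hql
  have hq1' : 0 < (1 - q)⁻¹ := inv_pos.2 (by linarith)
  have h2 : S ^ (1 / t) ≤ (8 * 14 ^ t * M / r ^ n) ^ (1 / t) * (1 - q)⁻¹ :=
    h.trans (mul_le_mul_of_nonneg_left h1 (by positivity))
  have h3 := Real.rpow_le_rpow (by positivity) h2 ht.le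
  rw [Real.mul_rpow (by positivity) hq1'.le, one_div, Real.rpow_inv_rpow hS ht.ne',
    Real.rpow_inv_rpow (by positivity) ht.ne'] at h3
  calc r ^ n * S ≤ r ^ n * (8 * 14 ^ t * M / r ^ n * (1 - q)⁻¹ ^ t) := mul_le_mul_of_nonneg_left h3 (by positivity)
    _ = 8 * 14 ^ t * M * ((1 - q)⁻¹) ^ t := by
      field_simp

private theorem lpa_close {z y : ℝ × ℝ} {n k : ℕ} {c : ℕ × ℕ} (hz : z ∈ U) (hy : 0 ≤ y.1 ∧ y.1 ≤ 1 ∧ 0 ≤ y.2 ∧ y.2 ≤ 1) :
    dist (Fc n c z) (Fc (n + k) (emb k c (fl k z)) y) ≤ (1 / 3) ^ (n + k) := by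
  have key : ∀ (a b : ℝ) (d : ℕ), 0 ≤ a → 0 ≤ b → b ≤ 1 →
      |((d : ℝ) + a) / 3 ^ n - (((3 ^ k * d + ⌊3 ^ k * a⌋₊ : ℕ) : ℝ) + b) / 3 ^ (n + k)| ≤ (1 / 3) ^ (n + k) := by
    intro a b d ha hb hb1
    have h1 : ((⌊3 ^ k * a⌋₊ : ℕ) : ℝ) ≤ 3 ^ k * a := Nat.floor_le (by positivity)
    have h2 : 3 ^ k * a < (⌊3 ^ k * a⌋₊ : ℕ) + 1 := Nat.lt_floor_add_one _
    have h3 : ((d : ℝ) + a) / 3 ^ n - (((3 ^ k * d + ⌊3 ^ k * a⌋₊ : ℕ) : ℝ) + b) / 3 ^ (n + k) =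
        (3 ^ k * a - (⌊3 ^ k * a⌋₊ : ℕ) - b) * (1 / 3) ^ (n + k) := by
      push_cast
      rw [one_div, inv_pow, pow_add]
      field_simp
      ring
    rw [h3, abs_mul, abs_of_pos (by positivity : (0 : ℝ) < (1 / 3) ^ (n + k))]
    refine mul_le_of_le_one_left (by positivity) ?_
    rw [abs_le]
    constructor <;> linarith
  rw [Prod.dist_eq, max_le_iff]
  exact ⟨key z.1 y.1 c.1 hz.1.1 hy.1 hy.2.1, key z.2 y.2 c.2 hz.2.1 hy.2.2.1 hy.2.2.2⟩

private theorem lpa_unif {K : Set (ℝ × ℝ)} {m : Measure (ℝ × ℝ)} (hK : IsCarpet K) (hm : IsCarpetMeasure K m)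
    {f : ℝ × ℝ → ℝ} (hf : ContinuousOn f K) (hi : Integrable f m) {ε : ℝ} (hε : 0 < ε) (n : ℕ) {c : ℕ × ℕ} (hc : c ∈ G n) :
    ∃ k₀ : ℕ, ∀ k, k₀ ≤ k → ∀ᵐ z ∂m, |f (Fc n c z) - av m f (n + k) (emb k c (fl k z))| ≤ ε := by
  have := hm.prob
  have huc : UniformContinuousOn f K := hK.compact.uniformContinuousOn_of_continuous hf
  obtain ⟨δ, hδ, hfδ⟩ := Metric.uniformContinuousOn_iff.1 huc ε hε
  obtain ⟨k₀, hk₀⟩ := exists_pow_lt_of_lt_one hδ (by norm_num : (1 / 3 : ℝ) < 1)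
  have hKae : ∀ᵐ z ∂m, z ∈ K := by
    rw [ae_iff]
    exact hm.onK
  refine ⟨k₀, fun k hk => ?_⟩
  filter_upwards [hKae, ae_unit hK hm, ae_fl hK hm k] with z hzK hzU hzG
  have hw : emb k c (fl k z) ∈ G (n + k) := emb_mem hc hzG
  have h1 : f (Fc n c z) - av m f (n + k) (emb k c (fl k z)) =
      ∫ y, (f (Fc n c z) - f (Fc (n + k) (emb k c (fl k z)) y)) ∂m := by
    rw [integral_sub (integrable_const _) (integrable_Fc hK hm hi hw)]
    simp [av]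
  rw [h1]
  have h2 : ∀ᵐ y ∂m, ‖f (Fc n c z) - f (Fc (n + k) (emb k c (fl k z)) y)‖ ≤ ε := by
    filter_upwards [hKae] with y hyK
    have h3 : dist (Fc n c z) (Fc (n + k) (emb k c (fl k z)) y) < δ := by
      refine lt_of_le_of_lt (lpa_close hzU (carpet_sub hK y hyK)) ?_
      exact lt_of_le_of_lt (pow_le_pow_of_le_one (by norm_num) (by norm_num) (by omega)) hk₀
    have h4 := hfδ _ (Fc_mem hK hc hzK) _ (Fc_mem hK hw hyK) h3
    rw [Real.dist_eq] at h4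
    exact h4.le
  have h5 := norm_integral_le_of_norm_le_const h2
  simpa using h5

theorem local_osc {K : Set (ℝ × ℝ)} {m : Measure (ℝ × ℝ)} (hK : IsCarpet K) (hm : IsCarpetMeasure K m) {t r : ℝ} (ht : 1 < t)
    (hr : 1 / 8 < r) {f : ℝ × ℝ → ℝ} (hf : ContinuousOn f K) (h : Mem K m t r f) :
    ∃ C : ℝ, ∀ n : ℕ, r ^ n * ∑ c ∈ G n, ∫ z, |f (Fc n c z) - av m f n c| ^ t ∂m ≤ C := by
  have := hm.prob
  have ht0 : 0 < t := by linarith
  have hr0 : 0 < r := by linarith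
  obtain ⟨hL, M', hM'⟩ := (mem_iff hK hm ht).1 h
  have hi : Integrable f m := hL.integrable (by
    rw [show (1 : ENNReal) = ENNReal.ofReal 1 by simp]
    exact ENNReal.ofReal_le_ofReal ht.le)
  obtain ⟨M, hM0, hM⟩ : ∃ M : ℝ, 0 ≤ M ∧ ∀ n : ℕ, r ^ n * En (G n) t (av m f n) ≤ M :=
    ⟨max M' 0, le_max_right _ _, fun n => (hM' n).trans (le_max_left _ _)⟩
  refine ⟨2 ^ (t - 1) * (8 * 14 ^ t * M * ((1 - (8 * r)⁻¹ ^ (1 / t))⁻¹) ^ t + 1), fun n => ?_⟩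
  -- choice of the accuracy
  obtain ⟨ε, hε, hεn⟩ : ∃ ε : ℝ, 0 < ε ∧ r ^ n * (8 ^ n * ε ^ t) ≤ 1 := by
    refine ⟨((8 * r) ^ n)⁻¹ ^ (1 / t), by positivity, ?_⟩
    rw [one_div, Real.rpow_inv_rpow (by positivity) ht0.ne', ← mul_assoc, ← mul_pow, mul_comm r 8]
    exact (mul_inv_cancel₀ (by positivity)).le
  -- a common level
  obtain ⟨k, hk⟩ : ∃ k : ℕ, ∀ c ∈ G n, ∀ᵐ z ∂m, |f (Fc n c z) - av m f (n + k) (emb k c (fl k z))| ≤ ε := by
    have h1 : ∀ c : ℕ × ℕ, ∃ k₀ : ℕ, c ∈ G n → ∀ k, k₀ ≤ k → ∀ᵐ z ∂m,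
        |f (Fc n c z) - av m f (n + k) (emb k c (fl k z))| ≤ ε := by
      intro c
      by_cases hc : c ∈ G n
      · obtain ⟨k₀, hk₀⟩ := lpa_unif hK hm hf hi hε n hc
        exact ⟨k₀, fun _ => hk₀⟩
      · exact ⟨0, fun h => absurd h hc⟩
    choose k₀ hk₀ using h1
    exact ⟨(G n).sup k₀, fun c hc => hk₀ c hc _ (Finset.le_sup hc)⟩
  have h2 : ∀ c ∈ G n, ∫ z, |f (Fc n c z) - av m f n c| ^ t ∂m ≤
      2 ^ (t - 1) * ((∑ y ∈ G k, |av m f (n + k) (emb k c y) - av m f n c| ^ t) / 8 ^ k + ε ^ t) := by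
    intro c hc
    have i1 := integrable_fl hK hm k (fun y => |av m f (n + k) (emb k c y) - av m f n c| ^ t)
    have i2 : Integrable (fun z => 2 ^ (t - 1) *
        ((fun y => |av m f (n + k) (emb k c y) - av m f n c| ^ t) (fl k z) + ε ^ t)) m :=
      (i1.add (integrable_const _)).const_mul _
    have h3 : ∫ z, |f (Fc n c z) - av m f n c| ^ t ∂m ≤ ∫ z, 2 ^ (t - 1) *
        ((fun y => |av m f (n + k) (emb k c y) - av m f n c| ^ t) (fl k z) + ε ^ t) ∂m := by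
      refine integral_mono_of_nonneg (Filter.Eventually.of_forall fun z => Real.rpow_nonneg (abs_nonneg _) _) i2 ?_
      filter_upwards [hk c hc] with z hz
      have h4 : |f (Fc n c z) - av m f n c| ≤ |av m f (n + k) (emb k c (fl k z)) - av m f n c| + ε := by
        have e1 := abs_le.1 hz
        rcases abs_cases (f (Fc n c z) - av m f n c) with h5 | h5 <;>
          rcases abs_cases (av m f (n + k) (emb k c (fl k z)) - av m f n c) with h6 | h6 <;> linarith [e1.1, e1.2, h5.1, h6.1, h5.2, h6.2]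
      exact (Real.rpow_le_rpow (abs_nonneg _) h4 ht0.le).trans (rpow_add_le ht.le (abs_nonneg _) hε.le)
    refine h3.trans (le_of_eq ?_)
    have h4 := integral_fl hK hm k (fun y => |av m f (n + k) (emb k c y) - av m f n c| ^ t)
    rw [integral_const_mul, integral_add i1 (integrable_const _), h4]
    simp
  have h7 := Finset.sum_le_sum h2
  rw [← Finset.mul_sum, Finset.sum_add_distrib, ← Finset.sum_div, Finset.sum_const, card_G, nsmul_eq_mul] at h7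
  have h8 : ∑ c ∈ G n, ∑ y ∈ G k, |av m f (n + k) (emb k c y) - av m f n c| ^ t =
      ∑ x ∈ G (n + k), |av m f (n + k) x - av m f n (anc k x)| ^ t := by
    rw [sum_G_add]
    refine Finset.sum_congr rfl fun c _ => Finset.sum_congr rfl fun y hy => ?_
    have h9 := G_lt hy
    rw [anc_emb h9.1 h9.2]
  rw [h8] at h7
  have hS0 : 0 ≤ (∑ x ∈ G (n + k), |av m f (n + k) x - av m f n (anc k x)| ^ t) / 8 ^ k :=
    div_nonneg (Finset.sum_nonneg fun x _ => Real.rpow_nonneg (abs_nonneg _) _) (by positivity)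
  have h10 := lpa_C0 ht0 hr hM0 n k hS0 (lpa_T hK hm ht hr0 hM0 hi hM n k)
  have h11 := mul_le_mul_of_nonneg_left h7 (by positivity : (0 : ℝ) ≤ r ^ n)
  refine h11.trans ?_
  have h12 : r ^ n * (2 ^ (t - 1) * ((∑ x ∈ G (n + k), |av m f (n + k) x - av m f n (anc k x)| ^ t) / 8 ^ k +
      ((8 ^ n : ℕ) : ℝ) * ε ^ t)) = 2 ^ (t - 1) * (r ^ n * ((∑ x ∈ G (n + k), |av m f (n + k) x - av m f n (anc k x)| ^ t) / 8 ^ k) +
      r ^ n * (8 ^ n * ε ^ t)) := by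
    push_cast
    ring
  rw [h12]
  exact mul_le_mul_of_nonneg_left (add_le_add h10 hεn) (by positivity)

end Pool.Agent.NIF
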