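import Pool.Agent.NIF.LPA

/-!
LPB (70 lines). Continuous elements of F_{t,r} are stable under 1-Lipschitz maps, if 8 r > 1.

PROOF. f is bounded on the compact K and MemLp, φ ∘ f too (continuous on K; MemLp: |φ (f z)| ≤ |φ 0| + |f z|, aestronglyMeasurable because φ is continuous). On G n:
av (φ∘f) n c = φ (av f n c) + e c, |e c| = |∫ (φ (f (Fc n c z)) - φ (av f n c)) dm| ≤ ∫ |f (Fc n c z) - av f n c| dm, |e c|^t ≤ ∫ |f (Fc n c z) - av f n c|^t dm (Jensen, probability
measure). En_add_le, En_mono_fun (φ is 1-Lipschitz), En_le_sum: r^n En (av (φ∘f) n) ≤ 2^(t-1) (r^n En (av f n) + 9 · 2^t r^n Σ_c |e c|^t) ≤ const by mem_iff and local_osc.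
-/

set_option autoImplicit false

namespace Pool.Agent.NIF

open MeasureTheory Pool.Agent.SCI

private theorem lpb_jensen {m : Measure (ℝ × ℝ)} [IsProbabilityMeasure m] {t : ℝ} (ht : 1 ≤ t) {g h : ℝ × ℝ → ℝ} {B : ℝ}
    (hg : AEStronglyMeasurable g m) (hB : ∀ᵐ z ∂m, |g z| ≤ B) (hh : ∀ z, |h z| ≤ |g z|) :
    |∫ z, h z ∂m| ^ t ≤ ∫ z, |g z| ^ t ∂m := by
  have h1 : Integrable (fun z => |g z|) m := by
    refine Integrable.of_bound hg.norm B ?_
    filter_upwards [hB] with z hz
    simpa using hz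
  have h2 : Integrable (fun z => |g z| ^ t) m := by
    have hmeas : AEStronglyMeasurable (fun z => |g z| ^ t) m :=
      ((Real.continuous_rpow_const (by linarith)).comp continuous_abs).comp_aestronglyMeasurable hg
    refine Integrable.of_bound hmeas (B ^ t) ?_
    filter_upwards [hB] with z hz
    rw [Real.norm_eq_abs, abs_of_nonneg (Real.rpow_nonneg (abs_nonneg _) _)]
    exact Real.rpow_le_rpow (abs_nonneg _) hz (by linarith)
  have h3 : |∫ z, h z ∂m| ≤ ∫ z, |g z| ∂m := by
    have h4 : ‖∫ z, h z ∂m‖ ≤ ∫ z, |g z| ∂m :=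
      norm_integral_le_of_norm_le h1 (Filter.Eventually.of_forall fun z => by simpa using hh z)
    simpa using h4
  have h5 : (∫ z, |g z| ∂m) ^ t ≤ ∫ z, |g z| ^ t ∂m :=
    (convexOn_rpow ht).map_integral_le (Real.continuous_rpow_const (by linarith)).continuousOn isClosed_Ici
      (Filter.Eventually.of_forall fun z => abs_nonneg (g z)) h1 h2
  exact (Real.rpow_le_rpow (abs_nonneg _) h3 (by linarith)).trans h5

theorem mem_comp {K : Set (ℝ × ℝ)} {m : Measure (ℝ × ℝ)} (hK : IsCarpet K) (hm : IsCarpetMeasure K m) {t r : ℝ} (ht : 1 < t)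
    (hr : 1 / 8 < r) {f : ℝ × ℝ → ℝ} (hf : ContinuousOn f K) (h : Mem K m t r f) {φ : ℝ → ℝ} (hφ : ∀ x y, |φ x - φ y| ≤ |x - y|) :
    Mem K m t r (fun z => φ (f z)) := by
  have := hm.prob
  have ht0 : 0 < t := by linarith
  have hr0 : 0 < r := by linarith
  obtain ⟨hL, M, hM⟩ := (mem_iff hK hm ht).1 h
  obtain ⟨C, hC⟩ := local_osc hK hm ht hr hf h
  have hφc : Continuous φ := by
    have : LipschitzWith 1 φ := LipschitzWith.of_dist_le_mul fun x y => by
      simpa [Real.dist_eq] using hφ x y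
    exact this.continuous
  have hi : Integrable f m := hL.integrable (by rw [ENNReal.one_le_ofReal]; exact ht.le)
  have hLφ : MemLp (fun z => φ (f z)) (ENNReal.ofReal t) m := by
    have h1 : MemLp (fun z => φ (f z) - φ 0) (ENNReal.ofReal t) m := by
      refine MemLp.of_le hL ((hφc.comp_aestronglyMeasurable hL.aestronglyMeasurable).sub aestronglyMeasurable_const) ?_
      refine Filter.Eventually.of_forall fun z => ?_
      simpa using hφ (f z) 0
    have h2 := h1.add (memLp_const (φ 0))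
    have h3 : ((fun z => φ (f z) - φ 0) + fun _ => φ 0) = fun z => φ (f z) := by
      funext z
      simp
    rwa [h3] at h2
  have hiφ : Integrable (fun z => φ (f z)) m := hLφ.integrable (by rw [ENNReal.one_le_ofReal]; exact ht.le)
  refine (mem_iff hK hm ht).2 ⟨hLφ, 2 ^ (t - 1) * (M + 9 * 2 ^ t * C), fun n => ?_⟩
  obtain ⟨B, hB⟩ : ∃ B : ℝ, ∀ z ∈ K, |f z| ≤ B := by
    obtain ⟨B, hB⟩ := hK.compact.exists_bound_of_continuousOn hf
    exact ⟨B, fun z hz => by simpa using hB z hz⟩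
  have hKae : ∀ᵐ z ∂m, z ∈ K := by
    rw [ae_iff]
    exact hm.onK
  have he : ∀ c ∈ G n, |av m (fun z => φ (f z)) n c - φ (av m f n c)| ^ t ≤
      ∫ z, |f (Fc n c z) - av m f n c| ^ t ∂m := by
    intro c hc
    have h1 := integrable_Fc hK hm hiφ hc
    have h2 := integrable_Fc hK hm hi hc
    have h3 : av m (fun z => φ (f z)) n c - φ (av m f n c) = ∫ z, (φ (f (Fc n c z)) - φ (av m f n c)) ∂m := by
      rw [integral_sub h1 (integrable_const _)]
      simp [av]
    rw [h3]
    refine lpb_jensen ht.le (B := B + |av m f n c|) (h2.aestronglyMeasurable.sub aestronglyMeasurable_const) ?_ (fun z => hφ _ _)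
    filter_upwards [hKae] with z hz
    exact (abs_sub _ _).trans (add_le_add (hB _ (Fc_mem hK hc hz)) le_rfl)
  set u : ℕ × ℕ → ℝ := fun c => φ (av m f n c) with hu
  set e : ℕ × ℕ → ℝ := fun c => av m (fun z => φ (f z)) n c - φ (av m f n c) with hee
  have h1 : En (G n) t (av m (fun z => φ (f z)) n) ≤ 2 ^ (t - 1) * (En (G n) t u + En (G n) t e) := by
    have h2 := En_add_le (A := G n) ht.le u e
    have h3 : (fun a => u a + e a) = av m (fun z => φ (f z)) n := by
      funext a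
      simp [hu, hee]
    rwa [h3] at h2
  have h2 : En (G n) t u ≤ En (G n) t (av m f n) := En_mono_fun ht0.le fun a _ b _ _ => hφ _ _
  have h3 : En (G n) t e ≤ 9 * 2 ^ t * ∑ c ∈ G n, ∫ z, |f (Fc n c z) - av m f n c| ^ t ∂m :=
    (En_le_sum ht.le e).trans (mul_le_mul_of_nonneg_left (Finset.sum_le_sum he) (by positivity))
  have hrn : (0 : ℝ) < r ^ n := by positivity
  have h4 := hM n
  have h5 := hC n
  calc r ^ n * En (G n) t (av m (fun z => φ (f z)) n)
      ≤ r ^ n * (2 ^ (t - 1) * (En (G n) t (av m f n) + 9 * 2 ^ t * ∑ c ∈ G n, ∫ z, |f (Fc n c z) - av m f n c| ^ t ∂m)) := by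
        refine mul_le_mul_of_nonneg_left (h1.trans ?_) hrn.le
        exact mul_le_mul_of_nonneg_left (add_le_add h2 h3) (by positivity)
    _ = 2 ^ (t - 1) * (r ^ n * En (G n) t (av m f n) + 9 * 2 ^ t * (r ^ n * ∑ c ∈ G n, ∫ z, |f (Fc n c z) - av m f n c| ^ t ∂m)) := by
        ring
    _ ≤ 2 ^ (t - 1) * (M + 9 * 2 ^ t * C) := by
        refine mul_le_mul_of_nonneg_left (add_le_add h4 ?_) (by positivity)
        exact mul_le_mul_of_nonneg_left h5 (by positivity)

end Pool.Agent.NIF
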