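import Pool.Agent.NIF.GEO

/-!
NEA (70 lines). Facts about nearness.

PROOF. All by unfolding near and omega (for ry, rx: Nat.sub with c.1, c.2 < 3^n; generalize 3^n to a number first). near_anc: if a ≤ b + 1 then
a / d ≤ (b + 1) / d ≤ b / d + 1 (Nat.div_le_div_right, Nat.succ_div or (b+1)/d ≤ (b+d)/d = b/d+1). near_emb: additive translations.
near_card: the filter is contained in the product of {a.1-1, a.1, a.1+1} and the same for a.2 (card ≤ 9). near_in: if z is not a boundary cell of
the level m square, then the cells near emb m w z have ancestor w: coordinates 3^m w.1 + z.1 with 1 ≤ z.1 ≤ 3^m - 2. near_cross: if anc m a and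
anc m b differ and a, b are near then loc m a is a boundary cell (otherwise near_in gives anc m b = anc m a).
-/

set_option autoImplicit false

namespace Pool.Agent.NIF

private theorem lt_pow_three (m : ℕ) : 0 < 3 ^ m := by positivity

private theorem div_near {d a b : ℕ} (hd : 0 < d) (h : a ≤ b + 1) : a / d ≤ b / d + 1 := by
  calc a / d ≤ (b + d) / d := Nat.div_le_div_right (by omega)
    _ = b / d + 1 := Nat.add_div_right b hd

/-- one coordinate of near_in -/
private theorem coord {N w z b : ℕ} (hN : 0 < N) (h1 : z < N) (h0 : z ≠ 0) (h2 : z + 1 ≠ N) (ha : N * w + z ≤ b + 1)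
    (hb : b ≤ N * w + z + 1) : b / N = w ∧ z ≤ b % N + 1 ∧ b % N ≤ z + 1 := by
  obtain ⟨r, rfl⟩ : ∃ r, b = N * w + r := ⟨b - N * w, by omega⟩
  have hr : r < N := by omega
  rw [Nat.mul_add_div hN, Nat.div_eq_of_lt hr, Nat.mul_add_mod, Nat.mod_eq_of_lt hr]
  omega


theorem near_refl (a : ℕ × ℕ) : near a a := by
  unfold near
  omega

theorem near_symm {a b : ℕ × ℕ} (h : near a b) : near b a := by
  unfold near at *
  omega

theorem near_comm {a b : ℕ × ℕ} : near a b ↔ near b a := 
  ⟨near_symm, near_symm⟩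

theorem near_anc {m : ℕ} {a b : ℕ × ℕ} (h : near a b) : near (anc m a) (anc m b) := by
  have hm := lt_pow_three m
  exact ⟨div_near hm h.1, div_near hm h.2.1, div_near hm h.2.2.1, div_near hm h.2.2.2⟩

theorem near_emb {m : ℕ} {w a b : ℕ × ℕ} : near (emb m w a) (emb m w b) ↔ near a b := by
  unfold near emb
  dsimp only
  generalize 3 ^ m * w.1 = x
  generalize 3 ^ m * w.2 = y
  omega

theorem near_sw {a b : ℕ × ℕ} : near (sw a) (sw b) ↔ near a b := by
  unfold near sw
  dsimp only
  omega

theorem near_ry {n : ℕ} {a b : ℕ × ℕ} (ha : a.2 < 3 ^ n) (hb : b.2 < 3 ^ n) : near (ry n a) (ry n b) ↔ near a b := by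
  unfold near ry
  dsimp only
  generalize 3 ^ n = N at *
  omega

theorem near_rx {n : ℕ} {a b : ℕ × ℕ} (ha : a.1 < 3 ^ n) (hb : b.1 < 3 ^ n) : near (rx n a) (rx n b) ↔ near a b := by
  unfold near rx
  dsimp only
  generalize 3 ^ n = N at *
  omega

theorem near_card (A : Finset (ℕ × ℕ)) (a : ℕ × ℕ) : (A.filter (near a)).card ≤ 9 := by
  have hsub : A.filter (near a) ⊆ ({a.1 - 1, a.1, a.1 + 1} : Finset ℕ) ×ˢ ({a.2 - 1, a.2, a.2 + 1} : Finset ℕ) := by
    intro b hb
    have h : near a b := (Finset.mem_filter.1 hb).2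
    unfold near at h
    simp only [Finset.mem_product, Finset.mem_insert, Finset.mem_singleton]
    omega
  calc (A.filter (near a)).card ≤ (({a.1 - 1, a.1, a.1 + 1} : Finset ℕ) ×ˢ ({a.2 - 1, a.2, a.2 + 1} : Finset ℕ)).card :=
        Finset.card_le_card hsub
    _ = ({a.1 - 1, a.1, a.1 + 1} : Finset ℕ).card * ({a.2 - 1, a.2, a.2 + 1} : Finset ℕ).card := Finset.card_product _ _
    _ ≤ 3 * 3 := Nat.mul_le_mul Finset.card_le_three Finset.card_le_three
    _ = 9 := by norm_num

/-- cells near an interior cell of the square of w lie in that square -/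
theorem near_in {m : ℕ} {w z b : ℕ × ℕ} (h1 : z.1 < 3 ^ m) (h2 : z.2 < 3 ^ m) (hz : ¬ Bd m z) (h : near (emb m w z) b) :
    anc m b = w ∧ near z (loc m b) := by
  have hm := lt_pow_three m
  unfold Bd at hz
  push Not at hz
  obtain ⟨z1, z2, z3, z4⟩ := hz
  obtain ⟨a1, a2, a3, a4⟩ := h
  unfold emb at a1 a2 a3 a4
  dsimp only at a1 a2 a3 a4
  obtain ⟨e1, e2, e3⟩ := coord hm h1 z1 z3 a1 a2
  obtain ⟨f1, f2, f3⟩ := coord hm h2 z2 z4 a3 a4
  exact ⟨Prod.ext e1 f1, e2, e3, f2, f3⟩

theorem near_cross {m : ℕ} {a b : ℕ × ℕ} (h : near a b) (hne : anc m a ≠ anc m b) : Bd m (loc m a) := by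
  by_contra hb
  have hm := lt_pow_three m
  have h' : near (emb m (anc m a) (loc m a)) b := by
    rw [emb_anc_loc]
    exact h
  exact hne (near_in (Nat.mod_lt _ hm) (Nat.mod_lt _ hm) hb h').1.symm

/-- near cells with the same ancestor have near local positions -/
theorem near_loc {m : ℕ} {a b : ℕ × ℕ} (h : near a b) (he : anc m a = anc m b) : near (loc m a) (loc m b) := by
  have h' : near (emb m (anc m a) (loc m a)) (emb m (anc m a) (loc m b)) := by
    rw [emb_anc_loc, he, emb_anc_loc]
    exact h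
  exact near_emb.1 h'

end Pool.Agent.NIF
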