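import Mathlib
import Pool.Agent.BRW.BFIX

/-!
PMI (90 lines). The Poincare-Miranda theorem on a rectangle, from Brouwer's theorem (BRW.BFIX).

PROOF. Brouwer on the rectangle R = [0,a] × [0,b]: a continuous g : ℝ × ℝ → ℝ × ℝ with values in R has a fixed point: identify ℝ × ℝ with
EuclideanSpace ℝ (Fin 2) by a homeomorphism e (for instance EuclideanSpace.finTwo... or ContinuousLinearEquiv.ofFinrankEq as in Pool/Agent/FRX/BP2.lean); e '' R is bounded, take a
closed ball containing it; brouwer applied to e ∘ g ∘ e⁻¹ (maps the ball into e '' R, inside the ball) gives a fixed point.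
Miranda: g (s,t) = (proj_a (s - f1 (s,t)), proj_b (t - f2 (s,t))) where proj_a x = max 0 (min a x), and f evaluated at (proj_a s, proj_b t) to have globally defined
continuous functions. Fixed point (s,t) ∈ R. If f1 (s,t) > 0 then s = proj_a (s - f1) forces s = 0 (a value smaller than s is projected to s only if s = 0), but f1 ≤ 0 at
s = 0. If f1 (s,t) < 0 then s = a, but f1 ≥ 0 at s = a. So f1 = 0; the same for f2.
-/

set_option autoImplicit false

namespace Pool.Agent.NIF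

private theorem scalar_zero {a s f : ℝ} (ha : 0 ≤ a) (hs : 0 ≤ s) (hsa : s ≤ a) (hfix : max 0 (min a (s - f)) = s)
    (h0 : s = 0 → f ≤ 0) (h1 : s = a → 0 ≤ f) : f = 0 := by
  rcases lt_trichotomy f 0 with h | h | h
  · exfalso
    rcases le_total a (s - f) with h2 | h2
    · rw [min_eq_left h2, max_eq_right ha] at hfix
      have := h1 hfix.symm
      linarith
    · rw [min_eq_right h2, max_eq_right (by linarith)] at hfix
      linarith
  · exact h
  · exfalso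
    rw [min_eq_right (by linarith : s - f ≤ a)] at hfix
    rcases le_total 0 (s - f) with h2 | h2
    · rw [max_eq_right h2] at hfix
      linarith
    · rw [max_eq_left h2] at hfix
      have := h0 hfix.symm
      linarith

private theorem brouwer_plane {G : ℝ × ℝ → ℝ × ℝ} (hG : Continuous G) {M : ℝ} (hM : 0 ≤ M) (hm : ∀ z, ‖G z‖ ≤ M) :
    ∃ z, G z = z := by
  let L : (ℝ × ℝ) ≃L[ℝ] EuclideanSpace ℝ (Fin (Module.finrank ℝ (ℝ × ℝ))) :=
    ContinuousLinearEquiv.ofFinrankEq (by rw [finrank_euclideanSpace_fin])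
  let T : EuclideanSpace ℝ (Fin (Module.finrank ℝ (ℝ × ℝ))) →
      EuclideanSpace ℝ (Fin (Module.finrank ℝ (ℝ × ℝ))) := fun y => L (G (L.symm y))
  have hT : Continuous T := L.continuous.comp (hG.comp L.symm.continuous)
  let R : ℝ := ‖(L : (ℝ × ℝ) →L[ℝ] EuclideanSpace ℝ (Fin (Module.finrank ℝ (ℝ × ℝ))))‖ * M
  have hR : 0 ≤ R := mul_nonneg (norm_nonneg _) hM
  have hTm : ∀ y, ‖T y‖ ≤ R := by
    intro y
    refine ((L : (ℝ × ℝ) →L[ℝ] EuclideanSpace ℝ (Fin (Module.finrank ℝ (ℝ × ℝ)))).le_opNorm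
      (G (L.symm y))).trans ?_
    exact mul_le_mul_of_nonneg_left (hm _) (norm_nonneg _)
  obtain ⟨y, -, hy⟩ := Pool.Agent.BRW.brouwer hR hT.continuousOn (fun y _ => mem_closedBall_zero_iff.2 (hTm y))
  refine ⟨L.symm y, ?_⟩
  have h3 : L (G (L.symm y)) = y := hy
  rw [← L.symm_apply_apply (G (L.symm y)), h3]

theorem miranda {a b : ℝ} (ha : 0 ≤ a) (hb : 0 ≤ b) {f1 f2 : ℝ → ℝ → ℝ} (h1 : Continuous fun z : ℝ × ℝ => f1 z.1 z.2)
    (h2 : Continuous fun z : ℝ × ℝ => f2 z.1 z.2)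
    (l1 : ∀ t, 0 ≤ t → t ≤ b → f1 0 t ≤ 0) (r1 : ∀ t, 0 ≤ t → t ≤ b → 0 ≤ f1 a t)
    (l2 : ∀ s, 0 ≤ s → s ≤ a → f2 s 0 ≤ 0) (r2 : ∀ s, 0 ≤ s → s ≤ a → 0 ≤ f2 s b) :
    ∃ s t : ℝ, 0 ≤ s ∧ s ≤ a ∧ 0 ≤ t ∧ t ≤ b ∧ f1 s t = 0 ∧ f2 s t = 0 := by
  let P : ℝ → ℝ → ℝ := fun c x => max 0 (min c x)
  have hP0 : ∀ c x, 0 ≤ P c x := fun c x => le_max_left _ _
  have hP1 : ∀ c x, 0 ≤ c → P c x ≤ c := fun c x hc => max_le hc (min_le_left _ _)
  have hPi : ∀ c x, 0 ≤ x → x ≤ c → P c x = x := fun c x h0 hc => by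
    show max 0 (min c x) = x
    rw [min_eq_right hc, max_eq_right h0]
  have hPc : ∀ c, Continuous (P c) := fun c => continuous_const.max (continuous_const.min continuous_id)
  let Q : ℝ × ℝ → ℝ × ℝ := fun z => (P a z.1, P b z.2)
  have hQ : Continuous Q := ((hPc a).comp continuous_fst).prodMk ((hPc b).comp continuous_snd)
  let G : ℝ × ℝ → ℝ × ℝ := fun z =>
    (P a ((Q z).1 - f1 (Q z).1 (Q z).2), P b ((Q z).2 - f2 (Q z).1 (Q z).2))
  have hG : Continuous G := by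
    refine Continuous.prodMk ?_ ?_
    · exact (hPc a).comp ((continuous_fst.comp hQ).sub (h1.comp hQ))
    · exact (hPc b).comp ((continuous_snd.comp hQ).sub (h2.comp hQ))
  have hm : ∀ z, ‖G z‖ ≤ max a b := by
    intro z
    rw [Prod.norm_def]
    refine max_le_max ?_ ?_
    · rw [Real.norm_eq_abs, abs_of_nonneg (hP0 _ _)]
      exact hP1 _ _ ha
    · rw [Real.norm_eq_abs, abs_of_nonneg (hP0 _ _)]
      exact hP1 _ _ hb
  obtain ⟨z, hz⟩ := brouwer_plane hG (ha.trans (le_max_left a b)) hm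
  have hz1 : P a ((Q z).1 - f1 (Q z).1 (Q z).2) = z.1 := congrArg Prod.fst hz
  have hz2 : P b ((Q z).2 - f2 (Q z).1 (Q z).2) = z.2 := congrArg Prod.snd hz
  have b1 : 0 ≤ z.1 := by rw [← hz1]; exact hP0 _ _
  have b2 : z.1 ≤ a := by rw [← hz1]; exact hP1 _ _ ha
  have b3 : 0 ≤ z.2 := by rw [← hz2]; exact hP0 _ _
  have b4 : z.2 ≤ b := by rw [← hz2]; exact hP1 _ _ hb
  have q1 : (Q z).1 = z.1 := hPi _ _ b1 b2
  have q2 : (Q z).2 = z.2 := hPi _ _ b3 b4
  rw [q1, q2] at hz1 hz2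
  refine ⟨z.1, z.2, b1, b2, b3, b4, ?_, ?_⟩
  · refine scalar_zero ha b1 b2 hz1 (fun h => ?_) (fun h => ?_)
    · rw [h]; exact l1 _ b3 b4
    · rw [h]; exact r1 _ b3 b4
  · refine scalar_zero hb b3 b4 hz2 (fun h => ?_) (fun h => ?_)
    · rw [h]; exact l2 _ b1 b2
    · rw [h]; exact r2 _ b1 b2

end Pool.Agent.NIF
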