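import Pool.Agent.NIF.NEA
import Pool.Agent.NIF.PMI

/-!
PLN (110 lines). A left-right king path and a bottom-top king path of a rectangle come within king distance 1.

PROOF. Interpolation of a sequence x : ℕ → ℝ on [0,k]: I x k s = x 0 + Σ_{i<k} (max 0 (min 1 (s - i))) (x (i+1) - x i): continuous in s; for i < k and
i ≤ s ≤ i+1 it equals x i + (s - i) (x (i+1) - x i) (the terms below i telescope, those above i vanish); I x k 0 = x 0, I x k k = x k.
Consequences for s ∈ [0,k]: (i) if 0 ≤ x i ≤ M for all i ≤ k then 0 ≤ I x k s ≤ M; (ii) there is i ≤ k such that for both coordinates of the path γ: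
|I (γ·.1) k s - (γ i).1| ≤ 1/2 and |I (γ·.2) k s - (γ i).2| ≤ 1/2 (take i = ⌊s⌋ or ⌊s⌋+1, whichever is nearer to s; the steps have size ≤ 1 in each coordinate; k = 0: i = 0).
Miranda (PMI) on [0,k] × [0,l] with f1 (s,t) = I (γ.1) k s - I (τ.1) l t and f2 (s,t) = I (τ.2) l t - I (γ.2) k s: f1 (0,t) = 0 - I(τ.1) ≤ 0,
f1 (k,t) = M - I(τ.1) ≥ 0, f2 (s,0) = 0 - I(γ.2) ≤ 0, f2 (s,l) = N - I(γ.2) ≥ 0 (note: f2 increases with t). At the zero (s,t) take i for γ and j for τ from (ii): the coordinates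
of γ i and τ j differ by at most 1/2 + 1/2 = 1, so near (γ i) (τ j) (natural numbers).
cross_rev: the same with the second path from top to bottom: reverse it, τ' i = τ (l - i).
-/

set_option autoImplicit false

namespace Pool.Agent.NIF

/-- interpolation of a sequence -/
private noncomputable def itp (x : ℕ → ℝ) (k : ℕ) (s : ℝ) : ℝ :=
  x 0 + ∑ i ∈ Finset.range k, max 0 (min 1 (s - i)) * (x (i + 1) - x i)

private theorem itp_cont (x : ℕ → ℝ) (k : ℕ) : Continuous (itp x k) := by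
  unfold itp
  fun_prop

private theorem itp_zero (x : ℕ → ℝ) (k : ℕ) : itp x k 0 = x 0 := by
  unfold itp
  rw [Finset.sum_eq_zero, add_zero]
  intro i _
  have h : min 1 ((0 : ℝ) - i) ≤ 0 := (min_le_right _ _).trans (by
    have : (0 : ℝ) ≤ i := Nat.cast_nonneg i
    linarith)
  rw [max_eq_left h, zero_mul]

private theorem itp_end (x : ℕ → ℝ) (k : ℕ) : itp x k k = x k := by
  unfold itp
  have h : ∑ i ∈ Finset.range k, max 0 (min 1 ((k : ℝ) - i)) * (x (i + 1) - x i) =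
      ∑ i ∈ Finset.range k, (x (i + 1) - x i) := by
    refine Finset.sum_congr rfl fun i hi => ?_
    have h1 : (i : ℝ) + 1 ≤ k := by exact_mod_cast Finset.mem_range.mp hi
    rw [min_eq_left (by linarith), max_eq_right zero_le_one, one_mul]
  rw [h, Finset.sum_range_sub]
  ring

private theorem itp_val (x : ℕ → ℝ) {i : ℕ} {s : ℝ} (h1 : (i : ℝ) ≤ s) (h2 : s ≤ i + 1) :
    ∀ k : ℕ, i < k → itp x k s = x i + (s - i) * (x (i + 1) - x i) := by
  intro k hk
  induction k with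
  | zero => omega
  | succ k ih =>
    rcases Nat.lt_succ_iff_lt_or_eq.mp hk with h | h
    · have h3 := ih h
      have h4 : (i : ℝ) + 1 ≤ k := by exact_mod_cast h
      unfold itp at h3 ⊢
      rw [Finset.sum_range_succ, ← add_assoc, h3]
      have h5 : min 1 (s - k) ≤ 0 := (min_le_right _ _).trans (by linarith)
      rw [max_eq_left h5, zero_mul, add_zero]
    · subst h
      unfold itp
      rw [Finset.sum_range_succ]
      have h6 : ∑ m ∈ Finset.range i, max 0 (min 1 (s - m)) * (x (m + 1) - x m) =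
          ∑ m ∈ Finset.range i, (x (m + 1) - x m) := by
        refine Finset.sum_congr rfl fun m hm => ?_
        have h7 : (m : ℝ) + 1 ≤ i := by exact_mod_cast Finset.mem_range.mp hm
        rw [min_eq_left (by linarith), max_eq_right zero_le_one, one_mul]
      rw [h6, Finset.sum_range_sub, min_eq_right (by linarith), max_eq_right (by linarith)]
      ring

private theorem exists_cell {k : ℕ} {s : ℝ} (hk : 0 < k) (h0 : 0 ≤ s) (h1 : s ≤ k) :
    ∃ i : ℕ, i < k ∧ (i : ℝ) ≤ s ∧ s ≤ i + 1 := by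
  rcases h1.lt_or_eq with h | h
  · refine ⟨⌊s⌋₊, ?_, Nat.floor_le h0, (Nat.lt_floor_add_one s).le⟩
    exact (Nat.floor_lt h0).mpr h
  · refine ⟨k - 1, by omega, ?_, ?_⟩
    · rw [Nat.cast_sub (by omega), h]; simp
    · rw [Nat.cast_sub (by omega), h]; simp

private theorem itp_near {k : ℕ} {s : ℝ} (h0 : 0 ≤ s) (h1 : s ≤ k) :
    ∃ i ≤ k, ∀ x : ℕ → ℝ, (∀ m < k, |x (m + 1) - x m| ≤ 1) → |itp x k s - x i| ≤ 1 / 2 := by
  rcases Nat.eq_zero_or_pos k with hk | hk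
  · subst hk
    refine ⟨0, le_rfl, fun x _ => ?_⟩
    have : s = 0 := le_antisymm (by simpa using h1) h0
    rw [this, itp_zero]
    norm_num
  · obtain ⟨i, hik, hi, hi'⟩ := exists_cell hk h0 h1
    rcases le_or_gt (s - i) (1 / 2) with h | h
    · refine ⟨i, hik.le, fun x hx => ?_⟩
      rw [itp_val x hi hi' k hik]
      have h2 := hx i hik
      rw [add_sub_cancel_left, abs_mul, abs_of_nonneg (by linarith)]
      nlinarith [abs_nonneg (x (i + 1) - x i)]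
    · refine ⟨i + 1, hik, fun x hx => ?_⟩
      rw [itp_val x hi hi' k hik]
      have h2 := hx i hik
      have h3 : x i + (s - i) * (x (i + 1) - x i) - x (i + 1) = -((1 - (s - i)) * (x (i + 1) - x i)) := by ring
      rw [h3, abs_neg, abs_mul, abs_of_nonneg (by linarith)]
      nlinarith [abs_nonneg (x (i + 1) - x i)]

private theorem itp_bd {k : ℕ} {s M : ℝ} (h0 : 0 ≤ s) (h1 : s ≤ k) {x : ℕ → ℝ} (hx : ∀ m ≤ k, 0 ≤ x m ∧ x m ≤ M) :
    0 ≤ itp x k s ∧ itp x k s ≤ M := by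
  rcases Nat.eq_zero_or_pos k with hk | hk
  · subst hk
    have : s = 0 := le_antisymm (by simpa using h1) h0
    rw [this, itp_zero]
    exact hx 0 le_rfl
  · obtain ⟨i, hik, hi, hi'⟩ := exists_cell hk h0 h1
    rw [itp_val x hi hi' k hik]
    have h2 := hx i hik.le
    have h3 := hx (i + 1) hik
    have h4 : x i + (s - i) * (x (i + 1) - x i) = (1 - (s - i)) * x i + (s - i) * x (i + 1) := by ring
    rw [h4]
    have h5 : 0 ≤ s - i := by linarith
    have h6 : 0 ≤ 1 - (s - i) := by linarith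
    constructor
    · exact add_nonneg (mul_nonneg h6 h2.1) (mul_nonneg h5 h3.1)
    · nlinarith

private theorem step_bd {a b : ℕ} (h1 : a ≤ b + 1) (h2 : b ≤ a + 1) : |(b : ℝ) - a| ≤ 1 := by
  rw [abs_le]
  have h1' : (a : ℝ) ≤ b + 1 := by exact_mod_cast h1
  have h2' : (b : ℝ) ≤ a + 1 := by exact_mod_cast h2
  constructor <;> linarith

private theorem nat_near {a b : ℕ} {u : ℝ} (h1 : |u - a| ≤ 1 / 2) (h2 : |u - b| ≤ 1 / 2) : a ≤ b + 1 ∧ b ≤ a + 1 := by
  rw [abs_le] at h1 h2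
  constructor
  · have : (a : ℝ) ≤ b + 1 := by linarith
    exact_mod_cast this
  · have : (b : ℝ) ≤ a + 1 := by linarith
    exact_mod_cast this

theorem cross {M N k l : ℕ} {γ τ : ℕ → ℕ × ℕ} (hγ : ∀ i ≤ k, (γ i).1 ≤ M ∧ (γ i).2 ≤ N) (hγ1 : ∀ i < k, near (γ i) (γ (i + 1)))
    (hτ : ∀ i ≤ l, (τ i).1 ≤ M ∧ (τ i).2 ≤ N) (hτ1 : ∀ i < l, near (τ i) (τ (i + 1)))
    (g0 : (γ 0).1 = 0) (g1 : (γ k).1 = M) (t0 : (τ 0).2 = 0) (t1 : (τ l).2 = N) :
    ∃ i ≤ k, ∃ j ≤ l, near (γ i) (τ j) := by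
  set g1x : ℕ → ℝ := fun i => ((γ i).1 : ℝ) with hg1x
  set g2x : ℕ → ℝ := fun i => ((γ i).2 : ℝ) with hg2x
  set t1x : ℕ → ℝ := fun i => ((τ i).1 : ℝ) with ht1x
  set t2x : ℕ → ℝ := fun i => ((τ i).2 : ℝ) with ht2x
  have bg1 : ∀ m ≤ k, 0 ≤ g1x m ∧ g1x m ≤ (M : ℝ) := fun m hm =>
    ⟨Nat.cast_nonneg _, Nat.cast_le.mpr (hγ m hm).1⟩
  have bg2 : ∀ m ≤ k, 0 ≤ g2x m ∧ g2x m ≤ (N : ℝ) := fun m hm =>
    ⟨Nat.cast_nonneg _, Nat.cast_le.mpr (hγ m hm).2⟩
  have bt1 : ∀ m ≤ l, 0 ≤ t1x m ∧ t1x m ≤ (M : ℝ) := fun m hm =>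
    ⟨Nat.cast_nonneg _, Nat.cast_le.mpr (hτ m hm).1⟩
  have bt2 : ∀ m ≤ l, 0 ≤ t2x m ∧ t2x m ≤ (N : ℝ) := fun m hm =>
    ⟨Nat.cast_nonneg _, Nat.cast_le.mpr (hτ m hm).2⟩
  have sg1 : ∀ m < k, |g1x (m + 1) - g1x m| ≤ 1 := fun m hm => by
    obtain ⟨h1, h2, h3, h4⟩ := hγ1 m hm
    exact step_bd h1 h2
  have sg2 : ∀ m < k, |g2x (m + 1) - g2x m| ≤ 1 := fun m hm => by
    obtain ⟨h1, h2, h3, h4⟩ := hγ1 m hm
    exact step_bd h3 h4
  have st1 : ∀ m < l, |t1x (m + 1) - t1x m| ≤ 1 := fun m hm => by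
    obtain ⟨h1, h2, h3, h4⟩ := hτ1 m hm
    exact step_bd h1 h2
  have st2 : ∀ m < l, |t2x (m + 1) - t2x m| ≤ 1 := fun m hm => by
    obtain ⟨h1, h2, h3, h4⟩ := hτ1 m hm
    exact step_bd h3 h4
  obtain ⟨s, t, hs0, hs1, ht0, ht1, e1, e2⟩ := miranda (a := (k : ℝ)) (b := (l : ℝ)) (Nat.cast_nonneg _)
    (Nat.cast_nonneg _) (f1 := fun s t => itp g1x k s - itp t1x l t) (f2 := fun s t => itp t2x l t - itp g2x k s)
    (((itp_cont g1x k).comp continuous_fst).sub ((itp_cont t1x l).comp continuous_snd))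
    (((itp_cont t2x l).comp continuous_snd).sub ((itp_cont g2x k).comp continuous_fst))
    (fun t h0 h1 => by
      have h2 := (itp_bd h0 h1 bt1).1
      simp only [itp_zero]
      have h3 : g1x 0 = 0 := by simp [hg1x, g0]
      linarith)
    (fun t h0 h1 => by
      have h2 := (itp_bd h0 h1 bt1).2
      simp only [itp_end]
      have h3 : g1x k = M := by simp [hg1x, g1]
      linarith)
    (fun s h0 h1 => by
      have h2 := (itp_bd h0 h1 bg2).1
      simp only [itp_zero]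
      have h3 : t2x 0 = 0 := by simp [ht2x, t0]
      linarith)
    (fun s h0 h1 => by
      have h2 := (itp_bd h0 h1 bg2).2
      simp only [itp_end]
      have h3 : t2x l = N := by simp [ht2x, t1]
      linarith)
  obtain ⟨i, hi, hi'⟩ := itp_near hs0 hs1
  obtain ⟨j, hj, hj'⟩ := itp_near ht0 ht1
  have a1 := hi' g1x sg1
  have a2 := hi' g2x sg2
  have b1 := hj' t1x st1
  have b2 := hj' t2x st2
  have e1' : itp g1x k s = itp t1x l t := by linarith
  have e2' : itp g2x k s = itp t2x l t := by linarith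
  rw [e1'] at a1
  rw [e2'] at a2
  have c1 := nat_near a1 b1
  have c2 := nat_near a2 b2
  exact ⟨i, hi, j, hj, c1.1, c1.2, c2.1, c2.2⟩

theorem cross_rev {M N k l : ℕ} {γ τ : ℕ → ℕ × ℕ} (hγ : ∀ i ≤ k, (γ i).1 ≤ M ∧ (γ i).2 ≤ N) (hγ1 : ∀ i < k, near (γ i) (γ (i + 1)))
    (hτ : ∀ i ≤ l, (τ i).1 ≤ M ∧ (τ i).2 ≤ N) (hτ1 : ∀ i < l, near (τ i) (τ (i + 1)))
    (g0 : (γ 0).1 = 0) (g1 : (γ k).1 = M) (t0 : (τ 0).2 = N) (t1 : (τ l).2 = 0) :
    ∃ i ≤ k, ∃ j ≤ l, near (γ i) (τ j) := by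
  obtain ⟨i, hi, j, hj, h⟩ := cross (M := M) (N := N) (k := k) (l := l) (γ := γ) (τ := fun i => τ (l - i)) hγ hγ1
    (fun i _ => hτ (l - i) (Nat.sub_le _ _)) (fun i hi => by
      obtain ⟨h1, h2, h3, h4⟩ := hτ1 (l - (i + 1)) (by omega)
      have h5 : l - (i + 1) + 1 = l - i := by omega
      rw [h5] at h1 h2 h3 h4
      exact ⟨h2, h1, h4, h3⟩) g0 g1 (by simpa using t1) (by simpa using t0)
  exact ⟨i, hi, l - j, Nat.sub_le _ _, h⟩

end Pool.Agent.NIF
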