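import Pool.Agent.NIF.LCG
import Pool.Agent.NIF.HLD

/-!
REC (140 lines). The p-capacity in terms of the q-capacity, p < q, with exponential gain.

PROOF. θ = p/q ∈ (0,1), j ≥ 1 from nonequi (exponent q), κ from jensen_strict with N = 8^j ≥ 2, ε = 1/1024. Let m ≥ 1, u a q-minimiser of level m (exists_min, En = cap q m).
For a with a j + s = m, 1 ≤ s, put Z a = Σ_{w ∈ G (a j)} (mu q m s u w)^θ. CLAIM: Z a ≤ ((1-κ) (8^j)^(1-θ))^a (cap q m)^θ for every a, s with a j + s = m, 1 ≤ s.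
Induction on a. a = 0: s = m, G 0 = {(0,0)}, mu q m m u (0,0) = En (G m) q u (emb m (0,0) z = z). Step: (a+1) j + s = m = a j + (j + s): for w ∈ G (a j), nonequi (k = a j) gives v ∈ G j
with (1+ε)/8^j mu (j+s) w ≤ mu s (emb j w v), and mu q m (j+s) u w = Σ_{v ∈ G j} mu q m s u (emb j w v) (sum_G_add, emb_emb). jensen_strict over the finset G j
(card_G): Σ_v mu(emb j w v)^θ ≤ (1-κ) (8^j)^(1-θ) (mu w)^θ; sum over w: sum_G_add with G (a j + j).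
Choose s with 1 ≤ s ≤ j: s = (m-1) % j + 1, a = (m-1)/j. Then En (G m) p u = Σ_x Σ_{y near x} |u x - u y|^p ≤ Σ_x 9 (ve (G m) q u x)^θ (|d|^p = (|d|^q)^θ ≤ ve^θ, near_card)
= 9 Σ_{w ∈ G (a j)} Σ_{z ∈ G s} (ve (emb s w z))^θ ≤ 9 (8^s)^(1-θ) Z a (jensen_pow). So
cap p m ≤ 9 (8^s)^(1-θ) (1-κ)^a ((8^j)^(1-θ))^a (cap q m)^θ = 9 (1-κ)^a (8^(1-θ))^m (cap q m)^θ. With η = (1-κ)^(1/j) ∈ (0,1): η^m = (1-κ)^(m/j) ≥ (1-κ)^(a+1) as m ≤ (a+1) j, so
(1-κ)^a ≤ η^m / (1-κ). C = 9/(1-κ).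
-/

set_option autoImplicit false

namespace Pool.Agent.NIF

private theorem mu_nonneg (t : ℝ) (N n : ℕ) (u : ℕ × ℕ → ℝ) (w : ℕ × ℕ) : 0 ≤ mu t N n u w :=
  Finset.sum_nonneg fun _ _ => ve_nonneg _ _ _ _

private theorem mu_split (t : ℝ) (N j s : ℕ) (u : ℕ × ℕ → ℝ) (w : ℕ × ℕ) :
    mu t N (j + s) u w = ∑ v ∈ G j, mu t N s u (emb j w v) := by
  unfold mu
  rw [sum_G_add]
  apply Finset.sum_congr rfl
  intro v _
  apply Finset.sum_congr rfl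
  intro z _
  rw [emb_emb]

private theorem claim {q θ κ : ℝ} {j : ℕ} (hκ1 : κ < 1)
    (hne : ∀ (k s : ℕ) (u : ℕ × ℕ → ℝ), 1 ≤ s → IsMin q (k + (j + s)) u → ∀ w ∈ G k, ∃ v ∈ G j,
      (1 + 1 / 1024) / 8 ^ j * mu q (k + (j + s)) (j + s) u w ≤ mu q (k + (j + s)) s u (emb j w v))
    (hJ : ∀ (s : Finset (ℕ × ℕ)) (a : ℕ × ℕ → ℝ), s.card = 8 ^ j → (∀ i ∈ s, 0 ≤ a i) →
      (∃ i0 ∈ s, (1 + 1 / 1024) / ((8 ^ j : ℕ) : ℝ) * ∑ i ∈ s, a i ≤ a i0) →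
      ∑ i ∈ s, a i ^ θ ≤ (1 - κ) * (((8 ^ j : ℕ) : ℝ)) ^ (1 - θ) * (∑ i ∈ s, a i) ^ θ)
    (u : ℕ × ℕ → ℝ) (m : ℕ) (hu : IsMin q m u) :
    ∀ a s : ℕ, 1 ≤ s → m = a * j + s →
      ∑ w ∈ G (a * j), (mu q m s u w) ^ θ ≤
        ((1 - κ) * (((8 ^ j : ℕ) : ℝ)) ^ (1 - θ)) ^ a * (cap q m) ^ θ := by
  intro a
  induction a with
  | zero =>
    intro s hs hm
    have hms : m = s := by omega
    subst hms
    rw [Nat.zero_mul, G_zero, Finset.sum_singleton, pow_zero, one_mul]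
    have h1 : mu q m m u (0, 0) = En (G m) q u := by
      unfold mu En
      apply Finset.sum_congr rfl
      intro z _
      have : emb m (0, 0) z = z := by
        unfold emb
        simp
      rw [this]
    rw [h1, hu.eq_cap]
  | succ a ih =>
    intro s hs hm
    have hm' : m = a * j + (j + s) := by rw [hm]; ring
    have h0 : (a + 1) * j = a * j + j := by ring
    rw [h0, sum_G_add]
    have ih' := ih (j + s) (by omega) hm'
    have hstep : ∀ w ∈ G (a * j), ∑ v ∈ G j, (mu q m s u (emb j w v)) ^ θ ≤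
        (1 - κ) * (((8 ^ j : ℕ) : ℝ)) ^ (1 - θ) * (mu q m (j + s) u w) ^ θ := by
      intro w hw
      rw [mu_split q m j s u w]
      apply hJ (G j) (fun v => mu q m s u (emb j w v)) (card_G j) (fun v _ => mu_nonneg _ _ _ _ _)
      have hu2 : IsMin q (a * j + (j + s)) u := hm' ▸ hu
      obtain ⟨v, hv, hle⟩ := hne (a * j) s u hs hu2 w hw
      refine ⟨v, hv, ?_⟩
      rw [← hm', mu_split q m j s u w] at hle
      push_cast
      exact hle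
    calc ∑ w ∈ G (a * j), ∑ v ∈ G j, (mu q m s u (emb j w v)) ^ θ
        ≤ ∑ w ∈ G (a * j), (1 - κ) * (((8 ^ j : ℕ) : ℝ)) ^ (1 - θ) * (mu q m (j + s) u w) ^ θ :=
          Finset.sum_le_sum hstep
      _ = (1 - κ) * (((8 ^ j : ℕ) : ℝ)) ^ (1 - θ) * ∑ w ∈ G (a * j), (mu q m (j + s) u w) ^ θ := by
          rw [Finset.mul_sum]
      _ ≤ (1 - κ) * (((8 ^ j : ℕ) : ℝ)) ^ (1 - θ) *
            (((1 - κ) * (((8 ^ j : ℕ) : ℝ)) ^ (1 - θ)) ^ a * (cap q m) ^ θ) := by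
          apply mul_le_mul_of_nonneg_left ih'
          apply mul_nonneg (by linarith)
          exact Real.rpow_nonneg (by positivity) _
      _ = ((1 - κ) * (((8 ^ j : ℕ) : ℝ)) ^ (1 - θ)) ^ (a + 1) * (cap q m) ^ θ := by
          rw [pow_succ]; ring

private theorem ve_pow_le {p q : ℝ} (hp : 0 < p) (hpq : p < q) (A : Finset (ℕ × ℕ)) (u : ℕ × ℕ → ℝ)
    (a : ℕ × ℕ) : ve A p u a ≤ 9 * (ve A q u a) ^ (p / q) := by
  have hq : 0 < q := lt_trans hp hpq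
  have hcard := near_card A a
  unfold ve
  rw [← Finset.sum_filter]
  calc ∑ b ∈ A.filter (near a), |u a - u b| ^ p
      ≤ ∑ _b ∈ A.filter (near a), (ve A q u a) ^ (p / q) := by
        apply Finset.sum_le_sum
        intro b hb
        rw [Finset.mem_filter] at hb
        have h1 : |u a - u b| ^ p = (|u a - u b| ^ q) ^ (p / q) := by
          rw [← Real.rpow_mul (abs_nonneg _)]
          congr 1
          field_simp
        rw [h1]
        exact Real.rpow_le_rpow (Real.rpow_nonneg (abs_nonneg _) _) (le_ve hb.1 hb.2)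
          (div_nonneg hp.le hq.le)
    _ = ((A.filter (near a)).card : ℝ) * (ve A q u a) ^ (p / q) := by
        rw [Finset.sum_const, nsmul_eq_mul]
    _ ≤ 9 * (ve A q u a) ^ (p / q) := by
        apply mul_le_mul_of_nonneg_right
        · exact_mod_cast hcard
        · exact Real.rpow_nonneg (ve_nonneg _ _ _ _) _

theorem cap_rec {p q ρ : ℝ} (hp : 1 < p) (hpq : p < q) (hc : CapData q ρ) (hρ : 3 ^ q < 8 * ρ) :
    ∃ C η : ℝ, 0 < C ∧ 0 < η ∧ η < 1 ∧ ∀ m : ℕ, 1 ≤ m →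
      cap p m ≤ C * (η * 8 ^ (1 - p / q)) ^ m * cap q m ^ (p / q) := by
  have hq : 1 < q := lt_trans hp hpq
  have hq0 : 0 < q := by linarith
  obtain ⟨j, hj, hne⟩ := nonequi hq hc hρ
  have hθ0 : 0 < p / q := div_pos (by linarith) hq0
  have hθ1 : p / q < 1 := (div_lt_one hq0).mpr hpq
  have h8 : 2 ≤ 8 ^ j := by
    calc 2 ≤ 8 ^ 1 := by norm_num
      _ ≤ 8 ^ j := Nat.pow_le_pow_right (by norm_num) hj
  obtain ⟨κ, hκ0, hκ1, hJ⟩ := jensen_strict hθ0 hθ1 (show (0:ℝ) < 1 / 1024 by norm_num) h8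
  have hk : 0 < 1 - κ := by linarith
  have hjR : (0:ℝ) < (j:ℝ) := by exact_mod_cast hj
  have hη0 : 0 < (1 - κ) ^ (1 / (j:ℝ)) := Real.rpow_pos_of_pos hk _
  have hη1 : (1 - κ) ^ (1 / (j:ℝ)) < 1 :=
    Real.rpow_lt_one hk.le (by linarith) (by positivity)
  refine ⟨9 / (1 - κ), (1 - κ) ^ (1 / (j:ℝ)), by positivity, hη0, hη1, ?_⟩
  intro m hm
  obtain ⟨u, hu⟩ := exists_min hq.le hm
  set θ := p / q with hθ
  set a := (m - 1) / j with ha
  set s := (m - 1) % j + 1 with hs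
  have hms : m = a * j + s := by
    have := Nat.div_add_mod (m - 1) j
    rw [← ha] at this
    have h2 : j * a = a * j := Nat.mul_comm _ _
    omega
  have hsj : s ≤ j := by
    have := Nat.mod_lt (m - 1) hj
    omega
  have hcl := claim hκ1 hne hJ u m hu a s (by omega) hms
  have hcap0 : 0 ≤ cap q m := (cap_pos hq.le hm).le
  -- energy bound
  have h1 : cap p m ≤ En (G m) p u := cap_le hu.1
  have h2 : En (G m) p u ≤ 9 * ∑ x ∈ G m, (ve (G m) q u x) ^ θ := by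
    unfold En
    rw [Finset.mul_sum]
    exact Finset.sum_le_sum fun x _ => ve_pow_le (by linarith) hpq _ _ _
  have h3 : ∑ x ∈ G m, (ve (G m) q u x) ^ θ ≤
      ((8 ^ s : ℕ) : ℝ) ^ (1 - θ) * ∑ w ∈ G (a * j), (mu q m s u w) ^ θ := by
    have h4 : ∑ x ∈ G m, (ve (G m) q u x) ^ θ =
        ∑ w ∈ G (a * j), ∑ z ∈ G s, (ve (G m) q u (emb s w z)) ^ θ := by
      have h5 := sum_G_add (n := a * j) (m := s) (fun x => (ve (G m) q u x) ^ θ)
      rw [← hms] at h5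
      exact h5
    rw [h4, Finset.mul_sum]
    apply Finset.sum_le_sum
    intro w _
    have h6 := jensen_pow hθ0 hθ1 (G s) (fun z => ve (G m) q u (emb s w z))
      (fun z _ => ve_nonneg _ _ _ _)
    rw [card_G] at h6
    exact h6
  have h7 : cap p m ≤ 9 * (((8 ^ s : ℕ) : ℝ) ^ (1 - θ) *
      (((1 - κ) * (((8 ^ j : ℕ) : ℝ)) ^ (1 - θ)) ^ a * (cap q m) ^ θ)) := by
    refine le_trans h1 (le_trans h2 ?_)
    apply mul_le_mul_of_nonneg_left _ (by norm_num)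
    refine le_trans h3 ?_
    exact mul_le_mul_of_nonneg_left hcl (Real.rpow_nonneg (by positivity) _)
  have hE : ((8 ^ s : ℕ) : ℝ) ^ (1 - θ) * ((((8 ^ j : ℕ) : ℝ)) ^ (1 - θ)) ^ a =
      ((8:ℝ) ^ (1 - θ)) ^ m := by
    push_cast
    have e1 : ∀ n : ℕ, ((8:ℝ) ^ n) ^ (1 - θ) = ((8:ℝ) ^ (1 - θ)) ^ n := by
      intro n
      rw [← Real.rpow_natCast, ← Real.rpow_natCast, ← Real.rpow_mul (by norm_num),
        ← Real.rpow_mul (by norm_num), mul_comm]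
    rw [e1, e1, ← pow_mul, ← pow_add]
    congr 1
    rw [hms, Nat.mul_comm j a, Nat.add_comm]
  have hη : (1 - κ) ^ a ≤ ((1 - κ) ^ (1 / (j:ℝ))) ^ m / (1 - κ) := by
    rw [le_div_iff₀ hk, ← pow_succ]
    have e2 : (1 - κ) = ((1 - κ) ^ (1 / (j:ℝ))) ^ j := by
      rw [← Real.rpow_natCast, ← Real.rpow_mul hk.le, one_div, inv_mul_cancel₀ hjR.ne',
        Real.rpow_one]
    calc (1 - κ) ^ (a + 1) = (((1 - κ) ^ (1 / (j:ℝ))) ^ j) ^ (a + 1) := by rw [← e2]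
      _ = ((1 - κ) ^ (1 / (j:ℝ))) ^ (j * (a + 1)) := by rw [← pow_mul]
      _ ≤ ((1 - κ) ^ (1 / (j:ℝ))) ^ m := by
          apply pow_le_pow_of_le_one hη0.le hη1.le
          calc m = a * j + s := hms
            _ ≤ a * j + j := by omega
            _ = j * (a + 1) := by ring
  have hpos : 0 ≤ 9 * (((8:ℝ) ^ (1 - θ)) ^ m * (cap q m) ^ θ) := by
    have : 0 ≤ (cap q m) ^ θ := Real.rpow_nonneg hcap0 _
    positivity
  calc cap p m ≤ 9 * (((8 ^ s : ℕ) : ℝ) ^ (1 - θ) *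
      (((1 - κ) * (((8 ^ j : ℕ) : ℝ)) ^ (1 - θ)) ^ a * (cap q m) ^ θ)) := h7
    _ = (1 - κ) ^ a * (9 * ((((8 ^ s : ℕ) : ℝ) ^ (1 - θ) * ((((8 ^ j : ℕ) : ℝ)) ^ (1 - θ)) ^ a) *
          (cap q m) ^ θ)) := by rw [mul_pow]; ring
    _ = (1 - κ) ^ a * (9 * (((8:ℝ) ^ (1 - θ)) ^ m * (cap q m) ^ θ)) := by rw [hE]
    _ ≤ (((1 - κ) ^ (1 / (j:ℝ))) ^ m / (1 - κ)) * (9 * (((8:ℝ) ^ (1 - θ)) ^ m * (cap q m) ^ θ)) :=
        mul_le_mul_of_nonneg_right hη hpos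
    _ = 9 / (1 - κ) * ((1 - κ) ^ (1 / (j:ℝ)) * 8 ^ (1 - θ)) ^ m * cap q m ^ θ := by
        rw [mul_pow]; ring

end Pool.Agent.NIF
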