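import Pool.Agent.NIF.CPL
import Pool.Agent.NIF.CPU
import Pool.Agent.NIF.FLX

/-!
SS1 (70 lines). Strict monotonicity of ρ(p)^(1/p): log ρp / p < log ρq / q for 1 < p < q.

PROOF. c > 0 with c ≤ cap q n · ρq^n (cap_lower). (1) cap_upper_lt with ε = c/2: for some n ≥ 1, cap q n ρp^n ≤ c/2 < c ≤ cap q n ρq^n, cap q n > 0, so ρp^n < ρq^n and
ρp < ρq. If log ρp ≤ 0: log ρp / p ≤ log ρp / q < log ρq / q. (2) If log ρp > 0: κ = (q-1)/(p-1); cap q n ≤ (cap p n)^κ ≤ (C ρp^(-n))^κ (cap_upper, C > 0), so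
c ≤ C^κ (ρp^κ)^(-n) ρq^n, i.e. c C^(-κ) (ρp^κ)^n ≤ ρq^n for all n ≥ 1, hence ρp^κ ≤ ρq (otherwise ((ρp^κ)/ρq)^n → ∞). So log ρq / q ≥ κ log ρp / q > log ρp / p because
κ/q > 1/p iff p (q-1) > q (p-1) iff q > p.
-/

set_option autoImplicit false

namespace Pool.Agent.NIF

open MeasureTheory Pool.Agent.SCI

theorem mono_strict {K : Set (ℝ × ℝ)} {m : Measure (ℝ × ℝ)} (hK : IsCarpet K) (hm : IsCarpetMeasure K m) {p q ρp ρq : ℝ} (hp : 1 < p)
    (hpq : p < q) (h1 : IsRho K m p ρp) (h2 : IsRho K m q ρq) : Real.log ρp / p < Real.log ρq / q := by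
  have hq : 1 < q := hp.trans hpq
  have hp0 : 0 < p := by linarith
  have hq0 : 0 < q := by linarith
  have hρp := h1.pos
  have hρq := h2.pos
  obtain ⟨c, hc, hlow⟩ := cap_lower hK hm hq h2
  -- step 1: the constants are strictly increasing
  obtain ⟨N, hN⟩ := cap_upper_lt hK hm hp hpq h1 (c / 2) (by linarith)
  have hlt : ρp < ρq := by
    have e1 := hN (N + 1) (by omega)
    have e2 := hlow (N + 1) (by omega)
    have e3 := cap_pos (t := q) hq.le (n := N + 1) (by omega)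
    have e4 : cap q (N + 1) * ρp ^ (N + 1) < cap q (N + 1) * ρq ^ (N + 1) := by linarith
    exact lt_of_pow_lt_pow_left₀ (N + 1) hρq.le (lt_of_mul_lt_mul_left e4 e3.le)
  have hlog : Real.log ρp < Real.log ρq := Real.log_lt_log hρp hlt
  rcases le_or_gt (Real.log ρp) 0 with hneg | hpos
  · rw [div_lt_div_iff₀ hp0 hq0]
    nlinarith
  -- step 2: the flux bound
  obtain ⟨C, hC⟩ := cap_upper hK hm hp h1
  set κ := (q - 1) / (p - 1) with hκ
  have hp1 : 0 < p - 1 := by linarith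
  have hκ0 : 0 < κ := div_pos (by linarith) hp1
  have hC0 : 0 < C := lt_of_lt_of_le (mul_pos (cap_pos hp.le le_rfl) (pow_pos hρp 1)) (hC 1 le_rfl)
  have hx : 0 < ρp ^ κ := Real.rpow_pos_of_pos hρp _
  have key : ∀ n : ℕ, 1 ≤ n → c * (ρp ^ κ) ^ n ≤ C ^ κ * ρq ^ n := by
    intro n hn
    have e1 := hlow n hn
    have e2 := cap_flux (p := p) (q := q) hp hpq hn
    have e3 := hC n hn
    have e4 := cap_pos (t := p) hp.le hn
    have e5 : (cap p n * ρp ^ n) ^ κ ≤ C ^ κ :=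
      Real.rpow_le_rpow (mul_nonneg e4.le (pow_nonneg hρp.le n)) e3 hκ0.le
    rw [Real.mul_rpow e4.le (pow_nonneg hρp.le n)] at e5
    have e6 : (ρp ^ n) ^ κ = (ρp ^ κ) ^ n := by
      rw [← Real.rpow_natCast, ← Real.rpow_mul hρp.le, mul_comm, Real.rpow_mul hρp.le, Real.rpow_natCast]
    rw [e6] at e5
    calc c * (ρp ^ κ) ^ n ≤ cap q n * ρq ^ n * (ρp ^ κ) ^ n := by
          exact mul_le_mul_of_nonneg_right e1 (pow_nonneg hx.le n)
      _ ≤ cap p n ^ κ * ρq ^ n * (ρp ^ κ) ^ n := by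
          exact mul_le_mul_of_nonneg_right (mul_le_mul_of_nonneg_right e2 (pow_nonneg hρq.le n)) (pow_nonneg hx.le n)
      _ = cap p n ^ κ * (ρp ^ κ) ^ n * ρq ^ n := by ring
      _ ≤ C ^ κ * ρq ^ n := mul_le_mul_of_nonneg_right e5 (pow_nonneg hρq.le n)
  have hle : ρp ^ κ ≤ ρq := by
    by_contra hcon
    rw [not_le] at hcon
    have hr1 : 1 < ρp ^ κ / ρq := by rwa [one_lt_div hρq]
    obtain ⟨n, hn⟩ := pow_unbounded_of_one_lt (C ^ κ / c) hr1
    have hCκ : 0 < C ^ κ := Real.rpow_pos_of_pos hC0 _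
    have e1 := key (n + 1) (by omega)
    have e2 : (ρp ^ κ / ρq) ^ n < (ρp ^ κ / ρq) ^ (n + 1) := pow_lt_pow_right₀ hr1 (by omega)
    have e3 : C ^ κ / c < (ρp ^ κ / ρq) ^ (n + 1) := hn.trans e2
    rw [div_pow, div_lt_div_iff₀ hc (pow_pos hρq _)] at e3
    linarith
  have e7 : κ * Real.log ρp ≤ Real.log ρq := by
    rw [← Real.log_rpow hρp]
    exact Real.log_le_log hx hle
  have e8 : Real.log ρp / p < κ * Real.log ρp / q := by
    rw [hκ, div_mul_eq_mul_div, div_div, div_lt_div_iff₀ hp0 (mul_pos hp1 hq0)]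
    nlinarith
  exact e8.trans_le (div_le_div_of_nonneg_right e7 hq0.le)

end Pool.Agent.NIF
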