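import Pool.Agent.NIF.NEA
import Pool.Agent.SCI.MEAS

/-!
STP (140 lines). The maps fl, fr, Fc and the carpet measure.

PROOF. ae_unit: m-a.e. z is in K ⊂ [0,1]² (hm.onK, carpet_sub) and the faces z.1 = 1, z.2 = 1 are null (meas_faces).
fl_Fc_lo: 3^(n+k) · (c.1 + z.1) / 3^n = 3^k c.1 + 3^k z.1, Nat.floor_natCast_add-type lemma (floor of natural number + nonnegative real).
fl_Fc_hi: 3^n · (c.1 + z.1)/3^(n+k) = (c.1 + z.1)/3^k has floor c.1 / 3^k as 0 ≤ z.1 < 1 (Nat.floor_div_natCast: ⌊a / n⌋₊ = ⌊a⌋₊ / n).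
fr_Fc: fr n (Fc n c z) = z for z ∈ [0,1)². Fc_Fc: ring. Fc_unit: Fc n c z ∈ [0,1)² if c ∈ G n, z ∈ [0,1)². meas_fl: Nat.floor measurable
(Nat.measurable_floor), measurable_fr: Nat.cast ∘ floor. integral_split: meas_split of SCI.MEAS is n = 1 (∑ over S = ∑ over G 1 via i ↦ (i.1.1, i.1.2));
induction on n with Fc (n+1) (emb 1 c i) = Fc n c ∘ Fc 1 i and sum_G_add; the integrability of f ∘ Fc n c comes along the induction
(meas_int_comp for one map). Use Fi i = Fc 1 (i.1.1, i.1.2). integral_fl: g ∘ fl n is measurable; ∫ g (fl n z) = 8^(-n) Σ_c ∫ g (fl n (Fc n c z)) and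
fl n (Fc n c z) = c a.e. (fl_Fc_hi with k = 0 or fl_Fc_lo with k = 0); integrability: a measurable function which takes a.e. finitely many values;
to avoid circularity prove ae_fl first: a.e. fl n z ∈ G n, for instance from meas_set (SCI.MEAS) iterated, or by induction on n: a.e. z ∈ K, so z =
Fi i z' with z' ∈ K; K \ {bad faces}. Simplest: every z ∈ K with z ∈ [0,1)² minus the null sets... Alternative: the set A = {z | fl n z ∉ G n} is measurable;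
meas_set: (m A).toReal = (Σ_j (m (Fi j ⁻¹' A)).toReal)/8, and for z ∈ [0,1)² with fl (n-1) z ∈ G (n-1): fl n (Fi j z) = emb (n-1) j (fl (n-1) z) ∈ G n; so by
induction every Fi j ⁻¹' A is null.
integral_pieces: the same statement as integral_split for nonnegative functions is not needed; memLp_of_bdd: bounded measurable function on a
probability measure (MemLp.of_bound).
-/

set_option autoImplicit false

namespace Pool.Agent.NIF

open MeasureTheory Pool.Agent.SCI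

/-- the half-open unit square -/
def U : Set (ℝ × ℝ) := {z | (0 ≤ z.1 ∧ z.1 < 1) ∧ 0 ≤ z.2 ∧ z.2 < 1}

theorem ae_unit {K : Set (ℝ × ℝ)} {m : Measure (ℝ × ℝ)} (hK : IsCarpet K) (hm : IsCarpetMeasure K m) : ∀ᵐ z ∂m, z ∈ U := by
  obtain ⟨_, h1, _, h2⟩ := meas_faces hK hm
  have hK1 : ∀ᵐ z ∂m, z ∈ K := by
    rw [ae_iff]
    exact hm.onK
  have hz1 : ∀ᵐ z ∂m, ¬ z.1 = 1 := by
    rw [ae_iff]
    simpa using h1
  have hz2 : ∀ᵐ z ∂m, ¬ z.2 = 1 := by
    rw [ae_iff]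
    simpa using h2
  filter_upwards [hK1, hz1, hz2] with z hz ha hb
  obtain ⟨p1, p2, p3, p4⟩ := carpet_sub hK z hz
  exact ⟨⟨p1, lt_of_le_of_ne p2 ha⟩, p3, lt_of_le_of_ne p4 hb⟩

private theorem floor_lo (n k a : ℕ) (x : ℝ) (hx : 0 ≤ x) :
    ⌊(3 : ℝ) ^ (n + k) * (((a : ℝ) + x) / 3 ^ n)⌋₊ = 3 ^ k * a + ⌊(3 : ℝ) ^ k * x⌋₊ := by
  have h1 : (3 : ℝ) ^ (n + k) * (((a : ℝ) + x) / 3 ^ n) = 3 ^ k * x + ((3 ^ k * a : ℕ) : ℝ) := by
    rw [pow_add]
    push_cast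
    field_simp
    ring
  rw [h1, Nat.floor_add_natCast (by positivity), add_comm]

private theorem floor_hi (n k a : ℕ) (x : ℝ) (hx : 0 ≤ x) (hx1 : x < 1) :
    ⌊(3 : ℝ) ^ n * (((a : ℝ) + x) / 3 ^ (n + k))⌋₊ = a / 3 ^ k := by
  have h1 : (3 : ℝ) ^ n * (((a : ℝ) + x) / 3 ^ (n + k)) = (x + (a : ℝ)) / ((3 ^ k : ℕ) : ℝ) := by
    rw [pow_add]
    push_cast
    field_simp
    ring
  rw [h1, Nat.floor_div_natCast, Nat.floor_add_natCast hx, Nat.floor_eq_zero.2 hx1, zero_add]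

theorem fl_Fc_lo {n k : ℕ} {c : ℕ × ℕ} {z : ℝ × ℝ} (hz : z ∈ U) : fl (n + k) (Fc n c z) = emb k c (fl k z) := by
  have h1 := floor_lo n k c.1 z.1 hz.1.1
  have h2 := floor_lo n k c.2 z.2 hz.2.1
  exact Prod.ext h1 h2

theorem fl_Fc_hi {n k : ℕ} {c : ℕ × ℕ} {z : ℝ × ℝ} (hz : z ∈ U) : fl n (Fc (n + k) c z) = anc k c := by
  have h1 := floor_hi n k c.1 z.1 hz.1.1 hz.1.2
  have h2 := floor_hi n k c.2 z.2 hz.2.1 hz.2.2
  exact Prod.ext h1 h2

theorem fl_Fc {n : ℕ} {c : ℕ × ℕ} {z : ℝ × ℝ} (hz : z ∈ U) : fl n (Fc n c z) = c := by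
  have h1 := fl_Fc_hi (n := n) (k := 0) (c := c) hz
  rw [Nat.add_zero] at h1
  rw [h1]
  simp [anc]

theorem fr_Fc {n : ℕ} {c : ℕ × ℕ} {z : ℝ × ℝ} (hz : z ∈ U) : fr n (Fc n c z) = z := by
  have h1 := fl_Fc (n := n) (c := c) hz
  have h2 : ⌊(3 : ℝ) ^ n * (Fc n c z).1⌋₊ = c.1 := congrArg Prod.fst h1
  have h3 : ⌊(3 : ℝ) ^ n * (Fc n c z).2⌋₊ = c.2 := congrArg Prod.snd h1
  unfold fr
  rw [h2, h3]
  unfold Fc
  refine Prod.ext ?_ ?_
  · dsimp
    field_simp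
    ring
  · dsimp
    field_simp
    ring

theorem Fc_Fc (n k : ℕ) (w c : ℕ × ℕ) (z : ℝ × ℝ) : Fc n w (Fc k c z) = Fc (n + k) (emb k w c) z := by
  unfold Fc emb
  refine Prod.ext ?_ ?_
  · dsimp
    rw [pow_add]
    push_cast
    field_simp
    try ring
  · dsimp
    rw [pow_add]
    push_cast
    field_simp
    try ring

theorem Fc_unit {n : ℕ} {c : ℕ × ℕ} {z : ℝ × ℝ} (hc : c ∈ G n) (hz : z ∈ U) : Fc n c z ∈ U := by
  have h1 := G_lt hc
  have h2 : (c.1 : ℝ) + 1 ≤ 3 ^ n := by exact_mod_cast h1.1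
  have h3 : (c.2 : ℝ) + 1 ≤ 3 ^ n := by exact_mod_cast h1.2
  have h4 : (0 : ℝ) < 3 ^ n := by positivity
  obtain ⟨⟨a1, a2⟩, a3, a4⟩ := hz
  have h5 : (0 : ℝ) ≤ c.1 := Nat.cast_nonneg _
  have h6 : (0 : ℝ) ≤ c.2 := Nat.cast_nonneg _
  refine ⟨⟨?_, ?_⟩, ?_, ?_⟩
  · exact div_nonneg (by linarith) h4.le
  · unfold Fc
    dsimp
    rw [div_lt_one h4]
    linarith
  · exact div_nonneg (by linarith) h4.le
  · unfold Fc
    dsimp
    rw [div_lt_one h4]
    linarith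

theorem measurable_Fc (n : ℕ) (c : ℕ × ℕ) : Measurable (Fc n c) := by
  unfold Fc
  fun_prop

theorem measurable_fl (n : ℕ) : Measurable (fl n) := by
  unfold fl
  exact (Nat.measurable_floor.comp (measurable_fst.const_mul _)).prodMk
    (Nat.measurable_floor.comp (measurable_snd.const_mul _))

theorem measurable_fr (n : ℕ) : Measurable (fr n) := by
  unfold fr
  have h1 : Measurable fun z : ℝ × ℝ => ((⌊(3 : ℝ) ^ n * z.1⌋₊ : ℕ) : ℝ) :=
    measurable_from_top.comp (Nat.measurable_floor.comp (measurable_fst.const_mul _))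
  have h2 : Measurable fun z : ℝ × ℝ => ((⌊(3 : ℝ) ^ n * z.2⌋₊ : ℕ) : ℝ) :=
    measurable_from_top.comp (Nat.measurable_floor.comp (measurable_snd.const_mul _))
  exact ((measurable_fst.const_mul _).sub h1).prodMk ((measurable_snd.const_mul _).sub h2)

/-- the digits of i form a cell of level 1 -/
private theorem dig_mem (i : S) : (((i.1.1 : ℕ), (i.1.2 : ℕ)) : ℕ × ℕ) ∈ G 1 := by
  rw [mem_G]
  have h1 := i.1.1.isLt
  have h2 := i.1.2.isLt
  refine ⟨by rw [pow_one]; exact h1, by rw [pow_one]; exact h2, ?_⟩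
  intro k hk hc
  have hk0 : k = 0 := by omega
  subst hk0
  rw [pow_zero, Nat.div_one, Nat.div_one] at hc
  dsimp at hc
  apply i.2
  refine Prod.ext ?_ ?_
  · apply Fin.ext
    change (i.1.1 : ℕ) = 1
    omega
  · apply Fin.ext
    change (i.1.2 : ℕ) = 1
    omega

private theorem dig_surj {d : ℕ × ℕ} (hd : d ∈ G 1) : ∃ i : S, (((i.1.1 : ℕ), (i.1.2 : ℕ)) : ℕ × ℕ) = d := by
  rw [mem_G] at hd
  obtain ⟨h1, h2, h3⟩ := hd
  rw [pow_one] at h1 h2
  have h4 := h3 0 (by norm_num)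
  rw [pow_zero, Nat.div_one, Nat.div_one, Nat.mod_eq_of_lt h1, Nat.mod_eq_of_lt h2] at h4
  refine ⟨⟨(⟨d.1, h1⟩, ⟨d.2, h2⟩), fun h => h4 ⟨?_, ?_⟩⟩, rfl⟩
  · exact congrArg Fin.val (congrArg Prod.fst h)
  · exact congrArg Fin.val (congrArg Prod.snd h)

private theorem Fi_Fc (i : S) (z : ℝ × ℝ) : Fi i z = Fc 1 (((i.1.1 : ℕ), (i.1.2 : ℕ)) : ℕ × ℕ) z := by
  unfold Fi Fc
  refine Prod.ext ?_ ?_
  · dsimp
    rw [pow_one, add_comm]
  · dsimp
    rw [pow_one, add_comm]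

private theorem Fc_zero (z : ℝ × ℝ) : Fc 0 (0, 0) z = z := by
  unfold Fc
  refine Prod.ext ?_ ?_ <;> simp

private theorem Fc_succ {n : ℕ} {c : ℕ × ℕ} (hc : c ∈ G (n + 1)) : ∃ w ∈ G n, ∃ i : S,
    ∀ z : ℝ × ℝ, Fc (n + 1) c z = Fc n w (Fi i z) := by
  obtain ⟨h1, h2⟩ := mem_G_add.1 hc
  obtain ⟨i, hi⟩ := dig_surj h2
  refine ⟨anc 1 c, h1, i, fun z => ?_⟩
  rw [Fi_Fc, hi, Fc_Fc, emb_anc_loc]

private theorem sum_G_one (F : ℕ × ℕ → ℝ) :
    ∑ d ∈ G 1, F d = ∑ i : S, F (((i.1.1 : ℕ), (i.1.2 : ℕ)) : ℕ × ℕ) := by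
  symm
  refine Finset.sum_nbij (fun i : S => (((i.1.1 : ℕ), (i.1.2 : ℕ)) : ℕ × ℕ)) ?_ ?_ ?_ ?_
  · intro i _
    exact dig_mem i
  · intro i _ j _ hij
    have h1 := congrArg Prod.fst hij
    have h2 := congrArg Prod.snd hij
    dsimp at h1 h2
    exact Subtype.ext (Prod.ext (Fin.ext h1) (Fin.ext h2))
  · intro d hd
    obtain ⟨i, hi⟩ := dig_surj (Finset.mem_coe.1 hd)
    exact ⟨i, Finset.mem_coe.2 (Finset.mem_univ i), hi⟩
  · intro i _
    rfl

theorem ae_fl {K : Set (ℝ × ℝ)} {m : Measure (ℝ × ℝ)} (hK : IsCarpet K) (hm : IsCarpetMeasure K m) (n : ℕ) :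
    ∀ᵐ z ∂m, fl n z ∈ G n := by
  haveI := hm.prob
  induction n with
  | zero =>
    filter_upwards [ae_unit hK hm] with z hz
    rw [G_zero, Finset.mem_singleton]
    unfold fl
    rw [pow_zero, one_mul, one_mul, Nat.floor_eq_zero.2 hz.1.2, Nat.floor_eq_zero.2 hz.2.2]
  | succ n ih =>
    rw [ae_iff]
    have hA : MeasurableSet {z : ℝ × ℝ | ¬ fl (n + 1) z ∈ G (n + 1)} :=
      (measurable_fl (n + 1)) (MeasurableSet.of_discrete (s := {c | ¬ c ∈ G (n + 1)}))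
    have h0 : ∀ j : S, m (Fi j ⁻¹' {z : ℝ × ℝ | ¬ fl (n + 1) z ∈ G (n + 1)}) = 0 := by
      intro j
      have h1 : ∀ᵐ z ∂m, ¬ ¬ fl (n + 1) (Fi j z) ∈ G (n + 1) := by
        filter_upwards [ae_unit hK hm, ih] with z hz hn
        rw [not_not, Fi_Fc, add_comm n 1, fl_Fc_lo hz]
        exact emb_mem (dig_mem j) hn
      rw [ae_iff] at h1
      simpa using h1
    have h2 := meas_set hm hA
    rw [Finset.sum_eq_zero (fun j _ => by rw [h0 j]; rfl), zero_div] at h2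
    rcases (ENNReal.toReal_eq_zero_iff _).1 h2 with h3 | h3
    · exact h3
    · exact absurd h3 (measure_ne_top m _)

/-- K is invariant under the maps Fc n c, c ∈ G n -/
theorem Fc_mem {K : Set (ℝ × ℝ)} (hK : IsCarpet K) {n : ℕ} {c : ℕ × ℕ} (hc : c ∈ G n) {z : ℝ × ℝ} (hz : z ∈ K) : Fc n c z ∈ K := by
  induction n generalizing c z with
  | zero =>
    rw [G_zero, Finset.mem_singleton] at hc
    rw [hc, Fc_zero]
    exact hz
  | succ n ih =>
    obtain ⟨w, hw, i, hi⟩ := Fc_succ hc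
    rw [hi]
    exact ih hw (geo2_image hK i z hz)

theorem integrable_Fc {K : Set (ℝ × ℝ)} {m : Measure (ℝ × ℝ)} (hK : IsCarpet K) (hm : IsCarpetMeasure K m) {f : ℝ × ℝ → ℝ}
    (hf : Integrable f m) {n : ℕ} {c : ℕ × ℕ} (hc : c ∈ G n) : Integrable (fun z => f (Fc n c z)) m := by
  induction n generalizing c with
  | zero =>
    rw [G_zero, Finset.mem_singleton] at hc
    subst hc
    simpa only [Fc_zero] using hf
  | succ n ih =>
    obtain ⟨w, hw, i, hi⟩ := Fc_succ hc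
    simp only [hi]
    exact meas_int_comp hm i (ih hw)

theorem integral_split {K : Set (ℝ × ℝ)} {m : Measure (ℝ × ℝ)} (hK : IsCarpet K) (hm : IsCarpetMeasure K m) {f : ℝ × ℝ → ℝ}
    (hf : Integrable f m) (n : ℕ) : ∫ z, f z ∂m = (∑ c ∈ G n, ∫ z, f (Fc n c z) ∂m) / 8 ^ n := by
  induction n with
  | zero =>
    rw [G_zero, Finset.sum_singleton, pow_zero, div_one]
    simp only [Fc_zero]
  | succ n ih =>
    rw [ih, sum_G_add (n := n) (m := 1) (fun c => ∫ z, f (Fc (n + 1) c z) ∂m)]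
    have h1 : ∀ w ∈ G n, ∑ d ∈ G 1, ∫ z, f (Fc (n + 1) (emb 1 w d) z) ∂m
        = 8 * ∫ z, f (Fc n w z) ∂m := by
      intro w hw
      have h2 := meas_split hm (integrable_Fc hK hm hf hw)
      rw [h2, sum_G_one]
      have h3 : ∀ i : S, ∫ z, f (Fc (n + 1) (emb 1 w (((i.1.1 : ℕ), (i.1.2 : ℕ)) : ℕ × ℕ)) z) ∂m
          = ∫ z, f (Fc n w (Fi i z)) ∂m := by
        intro i
        refine integral_congr_ae (Filter.Eventually.of_forall fun z => ?_)
        dsimp only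
        rw [Fi_Fc, Fc_Fc]
      rw [Finset.sum_congr rfl (fun i _ => h3 i)]
      ring
    rw [Finset.sum_congr rfl h1, ← Finset.mul_sum, pow_succ]
    field_simp

theorem integrable_fl {K : Set (ℝ × ℝ)} {m : Measure (ℝ × ℝ)} (hK : IsCarpet K) (hm : IsCarpetMeasure K m) (n : ℕ)
    (g : ℕ × ℕ → ℝ) : Integrable (fun z => g (fl n z)) m := by
  haveI := hm.prob
  refine Integrable.mono' (integrable_const (∑ c ∈ G n, |g c|)) ?_ ?_
  · exact ((Measurable.of_discrete (f := g)).comp (measurable_fl n)).aestronglyMeasurable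
  · filter_upwards [ae_fl hK hm n] with z hz
    rw [Real.norm_eq_abs]
    exact Finset.single_le_sum (f := fun c => |g c|) (fun c _ => abs_nonneg _) hz

theorem integral_fl {K : Set (ℝ × ℝ)} {m : Measure (ℝ × ℝ)} (hK : IsCarpet K) (hm : IsCarpetMeasure K m) (n : ℕ)
    (g : ℕ × ℕ → ℝ) : ∫ z, g (fl n z) ∂m = (∑ c ∈ G n, g c) / 8 ^ n := by
  haveI := hm.prob
  rw [integral_split hK hm (integrable_fl hK hm n g) n]
  congr 1
  refine Finset.sum_congr rfl fun c hc => ?_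
  have h1 : ∫ z, g (fl n (Fc n c z)) ∂m = ∫ _z, g c ∂m := by
    refine integral_congr_ae ?_
    filter_upwards [ae_unit hK hm] with z hz
    rw [fl_Fc hz]
  rw [h1]
  simp

end Pool.Agent.NIF
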