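import Pool.Agent.NIF.ENA

/-!
SUA (120 lines). The local part of the substitution: bilinear interpolation between the corners of the cells.

Corners: touch v c means that the lattice point c is a corner of the square of the cell v. Every corner c of a cell of G n gets a cell
pick n c ∈ G n with corner c (choice); corners are valued by k c = g (pick n c). Bilinear function of the cell v:
bil k v a b = (1-a)(1-b) k(v) + a(1-b) k(v+(1,0)) + (1-a) b k(v+(0,1)) + a b k(v+(1,1)).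
The substituted function: sub n m u g x = bil k (anc m x) (u (loc m x)) (u (sw (loc m x))).

PROOFS. pick: if h : ∃ v ∈ G n, touch v c then h.choose else (0,0). touch_near: two cells touching the same corner are near (omega).
bil_diff: with D = a bound for all |k c - k c'|, c, c' corners of v: bil k v a b - bil k v a' b' = [bil k v a b - bil k v a' b] + [bil k v a' b - bil k v a' b'],
the first bracket is (a - a') ((1-b)(k10 - k00) + b (k11 - k01)), absolute value ≤ |a - a'| D as b ∈ [0,1]; same for the second.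
bil_hull: convex combination.
step_diff: let x, y ∈ G (n+m) be near, v = anc m x, w = anc m y, z = loc m x, z' = loc m y (in G m). CLAIM: there are z1, z2 ∈ G m near z
with |sub x - sub y| ≤ D (|u z - u z1| + |u (sw z) - u (sw z2)|), D = bound of |k c - k c'| over the corners of v. Cases for w - v ∈ {-1,0,1}²:
(0,0): z1 = z2 = z' and bil_diff.
w = v + (1,0): z.1 = 3^m - 1 and z'.1 = 0 (near), so u z = 1, u z' = 0 (Adm). sub x = (1-β) k(v+(1,0)) + β k(v+(1,1)), β = u (sw z), and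
sub y = (1-β') k(w) + β' k(w+(0,1)), β' = u (sw z'), the same two corners. So |sub x - sub y| ≤ D |β - β'|. Put z2 = rx m z' = (3^m - 1, z'.2) ∈ G m,
near z; sw z2 = ry m (sw z') so u (sw z2) = u (sw z') by the symmetry of u. z1 = z.
w = v - (1,0): z.1 = 0, z'.1 = 3^m - 1, the same with z2 = rx m z' = (0, z'.2).
w = v ± (0,1): the same with coordinates exchanged: now u (sw z), u (sw z') ∈ {0,1}, z1 = ry m z' (near z), u z1 = u z' by symmetry; z2 = z.
w = v ± (1,1) or v ± (1,-1): x and y are corner cells touching the common corner, sub x = sub y = k(common corner): difference 0, z1 = z2 = z.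
-/

set_option autoImplicit false

namespace Pool.Agent.NIF

/-- the lattice point c is a corner of the square of the cell v -/
def touch (v c : ℕ × ℕ) : Prop := (c.1 = v.1 ∨ c.1 = v.1 + 1) ∧ (c.2 = v.2 ∨ c.2 = v.2 + 1)

open Classical in
/-- a cell of G n touching the lattice point c, if there is one -/
noncomputable def pick (n : ℕ) (c : ℕ × ℕ) : ℕ × ℕ := if h : ∃ v ∈ G n, touch v c then h.choose else (0, 0)

/-- bilinear interpolation in the square of the cell v -/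
noncomputable def bil (k : ℕ × ℕ → ℝ) (v : ℕ × ℕ) (a b : ℝ) : ℝ :=
  (1 - a) * (1 - b) * k (v.1, v.2) + a * (1 - b) * k (v.1 + 1, v.2) + (1 - a) * b * k (v.1, v.2 + 1)
    + a * b * k (v.1 + 1, v.2 + 1)

/-- the substituted function of level n + m -/
noncomputable def sub (n m : ℕ) (u g : ℕ × ℕ → ℝ) (x : ℕ × ℕ) : ℝ :=
  bil (fun c => g (pick n c)) (anc m x) (u (loc m x)) (u (sw (loc m x)))

theorem pick_spec {n : ℕ} {v c : ℕ × ℕ} (hv : v ∈ G n) (h : touch v c) : pick n c ∈ G n ∧ touch (pick n c) c := by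
  have hex : ∃ v ∈ G n, touch v c := ⟨v, hv, h⟩
  have he : pick n c = hex.choose := by
    unfold pick
    rw [dif_pos hex]
  rw [he]
  exact hex.choose_spec

theorem touch_near {v w c : ℕ × ℕ} (h1 : touch v c) (h2 : touch w c) : near v w := by
  unfold touch at h1 h2
  unfold near
  omega

private theorem sua_conv {a x y D : ℝ} (ha : 0 ≤ a ∧ a ≤ 1) (hx : |x| ≤ D) (hy : |y| ≤ D) :
    |(1 - a) * x + a * y| ≤ D := by
  obtain ⟨hx1, hx2⟩ := abs_le.1 hx
  obtain ⟨hy1, hy2⟩ := abs_le.1 hy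
  have h1 : 0 ≤ 1 - a := by linarith [ha.2]
  rw [abs_le]
  constructor
  · have e1 := mul_nonneg h1 (by linarith : (0 : ℝ) ≤ x + D)
    have e2 := mul_nonneg ha.1 (by linarith : (0 : ℝ) ≤ y + D)
    linarith
  · have e1 := mul_nonneg h1 (by linarith : (0 : ℝ) ≤ D - x)
    have e2 := mul_nonneg ha.1 (by linarith : (0 : ℝ) ≤ D - y)
    linarith

theorem bil_diff {k : ℕ × ℕ → ℝ} {v : ℕ × ℕ} {D a b a' b' : ℝ}
    (hD : ∀ c c', touch v c → touch v c' → |k c - k c'| ≤ D)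
    (ha' : 0 ≤ a' ∧ a' ≤ 1) (hb : 0 ≤ b ∧ b ≤ 1) :
    |bil k v a b - bil k v a' b'| ≤ D * (|a - a'| + |b - b'|) := by
  have t00 : touch v (v.1, v.2) := ⟨Or.inl rfl, Or.inl rfl⟩
  have t10 : touch v (v.1 + 1, v.2) := ⟨Or.inr rfl, Or.inl rfl⟩
  have t01 : touch v (v.1, v.2 + 1) := ⟨Or.inl rfl, Or.inr rfl⟩
  have t11 : touch v (v.1 + 1, v.2 + 1) := ⟨Or.inr rfl, Or.inr rfl⟩
  have e1 : bil k v a b - bil k v a' b' =
      (a - a') * ((1 - b) * (k (v.1 + 1, v.2) - k (v.1, v.2)) +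
        b * (k (v.1 + 1, v.2 + 1) - k (v.1, v.2 + 1))) +
      (b - b') * ((1 - a') * (k (v.1, v.2 + 1) - k (v.1, v.2)) +
        a' * (k (v.1 + 1, v.2 + 1) - k (v.1 + 1, v.2))) := by
    unfold bil
    ring
  have h1 := sua_conv hb (hD _ _ t10 t00) (hD _ _ t11 t01)
  have h2 := sua_conv ha' (hD _ _ t01 t00) (hD _ _ t11 t10)
  rw [e1]
  refine (abs_add_le _ _).trans ?_
  rw [abs_mul, abs_mul]
  have h3 := mul_le_mul_of_nonneg_left h1 (abs_nonneg (a - a'))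
  have h4 := mul_le_mul_of_nonneg_left h2 (abs_nonneg (b - b'))
  linarith

theorem bil_hull {k : ℕ × ℕ → ℝ} {v : ℕ × ℕ} {lo hi a b : ℝ} (hk : ∀ c, touch v c → lo ≤ k c ∧ k c ≤ hi)
    (ha : 0 ≤ a ∧ a ≤ 1) (hb : 0 ≤ b ∧ b ≤ 1) : lo ≤ bil k v a b ∧ bil k v a b ≤ hi := by
  have t00 := hk (v.1, v.2) ⟨Or.inl rfl, Or.inl rfl⟩
  have t10 := hk (v.1 + 1, v.2) ⟨Or.inr rfl, Or.inl rfl⟩
  have t01 := hk (v.1, v.2 + 1) ⟨Or.inl rfl, Or.inr rfl⟩
  have t11 := hk (v.1 + 1, v.2 + 1) ⟨Or.inr rfl, Or.inr rfl⟩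
  have a0 := ha.1
  have a1 : 0 ≤ 1 - a := by linarith [ha.2]
  have b0 := hb.1
  have b1 : 0 ≤ 1 - b := by linarith [hb.2]
  unfold bil
  constructor
  · have e1 := mul_nonneg (mul_nonneg a1 b1) (sub_nonneg.2 t00.1)
    have e2 := mul_nonneg (mul_nonneg a0 b1) (sub_nonneg.2 t10.1)
    have e3 := mul_nonneg (mul_nonneg a1 b0) (sub_nonneg.2 t01.1)
    have e4 := mul_nonneg (mul_nonneg a0 b0) (sub_nonneg.2 t11.1)
    linarith
  · have e1 := mul_nonneg (mul_nonneg a1 b1) (sub_nonneg.2 t00.2)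
    have e2 := mul_nonneg (mul_nonneg a0 b1) (sub_nonneg.2 t10.2)
    have e3 := mul_nonneg (mul_nonneg a1 b0) (sub_nonneg.2 t01.2)
    have e4 := mul_nonneg (mul_nonneg a0 b0) (sub_nonneg.2 t11.2)
    linarith

private theorem sua_coord {N v w z z' : ℕ} (hz : z < N) (hz' : z' < N)
    (h1 : N * v + z ≤ N * w + z' + 1) (h2 : N * w + z' ≤ N * v + z + 1) :
    (w = v ∧ z ≤ z' + 1 ∧ z' ≤ z + 1) ∨ (w = v + 1 ∧ z + 1 = N ∧ z' = 0) ∨
      (v = w + 1 ∧ z = 0 ∧ z' + 1 = N) := by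
  rcases lt_trichotomy v w with h | h | h
  · obtain ⟨e, rfl⟩ := Nat.exists_eq_add_of_lt h
    have e1 : N * (v + e + 1) = N * v + N * e + N := by ring
    rw [e1] at h1 h2
    rcases Nat.eq_zero_or_pos e with he | he
    · subst he
      rw [Nat.mul_zero] at h1 h2
      right
      left
      omega
    · have e2 : N ≤ N * e := Nat.le_mul_of_pos_right N he
      omega
  · subst h
    left
    omega
  · obtain ⟨e, rfl⟩ := Nat.exists_eq_add_of_lt h
    have e1 : N * (w + e + 1) = N * w + N * e + N := by ring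
    rw [e1] at h1 h2
    rcases Nat.eq_zero_or_pos e with he | he
    · subst he
      rw [Nat.mul_zero] at h1 h2
      right
      right
      omega
    · have e2 : N ≤ N * e := Nat.le_mul_of_pos_right N he
      omega

private theorem sua_s1 (k : ℕ × ℕ → ℝ) (p q : ℕ) (b : ℝ) : bil k (p + 1, q) 0 b = bil k (p, q) 1 b := by
  unfold bil
  ring

private theorem sua_s2 (k : ℕ × ℕ → ℝ) (p q : ℕ) (a : ℝ) : bil k (p, q + 1) a 0 = bil k (p, q) a 1 := by
  unfold bil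
  ring

private theorem sua_c1 {m : ℕ} {x y : ℕ × ℕ} (h : near x y) :
    ((anc m y).1 = (anc m x).1 ∧ (loc m x).1 ≤ (loc m y).1 + 1 ∧ (loc m y).1 ≤ (loc m x).1 + 1) ∨
      ((anc m y).1 = (anc m x).1 + 1 ∧ (loc m x).1 + 1 = 3 ^ m ∧ (loc m y).1 = 0) ∨
      ((anc m x).1 = (anc m y).1 + 1 ∧ (loc m x).1 = 0 ∧ (loc m y).1 + 1 = 3 ^ m) := by
  have hN : 0 < 3 ^ m := by positivity
  have ex : 3 ^ m * (x.1 / 3 ^ m) + x.1 % 3 ^ m = x.1 := Nat.div_add_mod _ _
  have ey : 3 ^ m * (y.1 / 3 ^ m) + y.1 % 3 ^ m = y.1 := Nat.div_add_mod _ _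
  have h1 : 3 ^ m * (x.1 / 3 ^ m) + x.1 % 3 ^ m ≤ 3 ^ m * (y.1 / 3 ^ m) + y.1 % 3 ^ m + 1 := by
    rw [ex, ey]
    exact h.1
  have h2 : 3 ^ m * (y.1 / 3 ^ m) + y.1 % 3 ^ m ≤ 3 ^ m * (x.1 / 3 ^ m) + x.1 % 3 ^ m + 1 := by
    rw [ex, ey]
    exact h.2.1
  exact sua_coord (Nat.mod_lt _ hN) (Nat.mod_lt _ hN) h1 h2

private theorem sua_c2 {m : ℕ} {x y : ℕ × ℕ} (h : near x y) :
    ((anc m y).2 = (anc m x).2 ∧ (loc m x).2 ≤ (loc m y).2 + 1 ∧ (loc m y).2 ≤ (loc m x).2 + 1) ∨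
      ((anc m y).2 = (anc m x).2 + 1 ∧ (loc m x).2 + 1 = 3 ^ m ∧ (loc m y).2 = 0) ∨
      ((anc m x).2 = (anc m y).2 + 1 ∧ (loc m x).2 = 0 ∧ (loc m y).2 + 1 = 3 ^ m) := by
  have hN : 0 < 3 ^ m := by positivity
  have ex : 3 ^ m * (x.2 / 3 ^ m) + x.2 % 3 ^ m = x.2 := Nat.div_add_mod _ _
  have ey : 3 ^ m * (y.2 / 3 ^ m) + y.2 % 3 ^ m = y.2 := Nat.div_add_mod _ _
  have h1 : 3 ^ m * (x.2 / 3 ^ m) + x.2 % 3 ^ m ≤ 3 ^ m * (y.2 / 3 ^ m) + y.2 % 3 ^ m + 1 := by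
    rw [ex, ey]
    exact h.2.2.1
  have h2 : 3 ^ m * (y.2 / 3 ^ m) + y.2 % 3 ^ m ≤ 3 ^ m * (x.2 / 3 ^ m) + x.2 % 3 ^ m + 1 := by
    rw [ex, ey]
    exact h.2.2.2
  exact sua_coord (Nat.mod_lt _ hN) (Nat.mod_lt _ hN) h1 h2

/-- the first weight of the neighbour seen from the cell of x -/
private noncomputable def suaA (m : ℕ) (u : ℕ × ℕ → ℝ) (x y : ℕ × ℕ) : ℝ :=
  if (anc m y).1 = (anc m x).1 then u (loc m y) else u (loc m x)

/-- the second weight of the neighbour seen from the cell of x -/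
private noncomputable def suaB (m : ℕ) (u : ℕ × ℕ → ℝ) (x y : ℕ × ℕ) : ℝ :=
  if (anc m y).2 = (anc m x).2 then u (sw (loc m y)) else u (sw (loc m x))

private theorem sua_shift1 {n m : ℕ} {u : ℕ × ℕ → ℝ} (hu : Adm m u) {x y : ℕ × ℕ}
    (hx : x ∈ G (n + m)) (hy : y ∈ G (n + m)) (h : near x y) (k : ℕ × ℕ → ℝ) (q : ℕ) (b : ℝ) :
    bil k ((anc m y).1, q) (u (loc m y)) b = bil k ((anc m x).1, q) (suaA m u x y) b := by
  unfold suaA
  rcases sua_c1 (m := m) h with ⟨e, _, _⟩ | ⟨e, e1, e2⟩ | ⟨e, e1, e2⟩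
  · rw [if_pos e, e]
  · have hne : ¬ ((anc m y).1 = (anc m x).1) := by omega
    rw [if_neg hne, e, hu.left _ (loc_mem hy) e2, hu.right _ (loc_mem hx) e1]
    exact sua_s1 k _ _ _
  · have hne : ¬ ((anc m y).1 = (anc m x).1) := by omega
    rw [if_neg hne, e, hu.left _ (loc_mem hx) e1, hu.right _ (loc_mem hy) e2]
    exact (sua_s1 k _ _ _).symm

private theorem sua_shift2 {n m : ℕ} {u : ℕ × ℕ → ℝ} (hu : Adm m u) {x y : ℕ × ℕ}
    (hx : x ∈ G (n + m)) (hy : y ∈ G (n + m)) (h : near x y) (k : ℕ × ℕ → ℝ) (p : ℕ) (a : ℝ) :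
    bil k (p, (anc m y).2) a (u (sw (loc m y))) = bil k (p, (anc m x).2) a (suaB m u x y) := by
  unfold suaB
  have hsx : sw (loc m x) ∈ G m := sw_mem.2 (loc_mem hx)
  have hsy : sw (loc m y) ∈ G m := sw_mem.2 (loc_mem hy)
  rcases sua_c2 (m := m) h with ⟨e, _, _⟩ | ⟨e, e1, e2⟩ | ⟨e, e1, e2⟩
  · rw [if_pos e, e]
  · have hne : ¬ ((anc m y).2 = (anc m x).2) := by omega
    rw [if_neg hne, e, hu.left _ hsy e2, hu.right _ hsx e1]
    exact sua_s2 k _ _ _
  · have hne : ¬ ((anc m y).2 = (anc m x).2) := by omega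
    rw [if_neg hne, e, hu.left _ hsx e1, hu.right _ hsy e2]
    exact (sua_s2 k _ _ _).symm

private theorem sua_z1 {n m : ℕ} {u : ℕ × ℕ → ℝ}
    (hs : ∀ c ∈ G m, u (ry m c) = u c) {x y : ℕ × ℕ}
    (hx : x ∈ G (n + m)) (hy : y ∈ G (n + m)) (h : near x y) :
    ∃ z1 ∈ G m, near (loc m x) z1 ∧ u z1 = suaA m u x y := by
  unfold suaA
  by_cases e1 : (anc m y).1 = (anc m x).1
  · rw [if_pos e1]
    by_cases e2 : (anc m y).2 = (anc m x).2
    · refine ⟨loc m y, loc_mem hy, ?_, rfl⟩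
      exact near_loc h (Prod.ext e1.symm e2.symm)
    · refine ⟨ry m (loc m y), ry_mem (loc_mem hy), ?_, hs _ (loc_mem hy)⟩
      have c1 := sua_c1 (m := m) h
      have c2 := sua_c2 (m := m) h
      unfold near ry
      dsimp only
      generalize 3 ^ m = N at *
      omega
  · rw [if_neg e1]
    exact ⟨loc m x, loc_mem hx, near_refl _, rfl⟩

private theorem sua_z2 {n m : ℕ} {u : ℕ × ℕ → ℝ}
    (hs : ∀ c ∈ G m, u (ry m c) = u c) {x y : ℕ × ℕ}
    (hx : x ∈ G (n + m)) (hy : y ∈ G (n + m)) (h : near x y) :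
    ∃ z2 ∈ G m, near (loc m x) z2 ∧ u (sw z2) = suaB m u x y := by
  unfold suaB
  by_cases e1 : (anc m y).2 = (anc m x).2
  · rw [if_pos e1]
    by_cases e2 : (anc m y).1 = (anc m x).1
    · refine ⟨loc m y, loc_mem hy, ?_, rfl⟩
      exact near_loc h (Prod.ext e2.symm e1.symm)
    · refine ⟨rx m (loc m y), rx_mem (loc_mem hy), ?_, hs _ (sw_mem.2 (loc_mem hy))⟩
      have c1 := sua_c1 (m := m) h
      have c2 := sua_c2 (m := m) h
      unfold near rx
      dsimp only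
      generalize 3 ^ m = N at *
      omega
  · rw [if_neg e1]
    exact ⟨loc m x, loc_mem hx, near_refl _, rfl⟩

theorem step_diff {n m : ℕ} (hm : 1 ≤ m) {u g : ℕ × ℕ → ℝ} (hu : Adm m u) (hu1 : ∀ c, 0 ≤ u c ∧ u c ≤ 1)
    (hs : ∀ c ∈ G m, u (ry m c) = u c) {x y : ℕ × ℕ} (hx : x ∈ G (n + m)) (hy : y ∈ G (n + m)) (h : near x y) {D : ℝ}
    (hD : ∀ c c', touch (anc m x) c → touch (anc m x) c' → |g (pick n c) - g (pick n c')| ≤ D) :
    ∃ z1 ∈ G m, ∃ z2 ∈ G m, near (loc m x) z1 ∧ near (loc m x) z2 ∧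
      |sub n m u g x - sub n m u g y| ≤ D * (|u (loc m x) - u z1| + |u (sw (loc m x)) - u (sw z2)|) := by
  obtain ⟨z1, hz1, hn1, he1⟩ := sua_z1 hs hx hy h
  obtain ⟨z2, hz2, hn2, he2⟩ := sua_z2 hs hx hy h
  refine ⟨z1, hz1, z2, hz2, hn1, hn2, ?_⟩
  have hy' : sub n m u g y =
      bil (fun c => g (pick n c)) (anc m x) (u z1) (u (sw z2)) := by
    rw [he1, he2]
    have s1 := sua_shift1 hu hx hy h (fun c => g (pick n c)) (anc m y).2 (u (sw (loc m y)))
    have s2 := sua_shift2 hu hx hy h (fun c => g (pick n c)) (anc m x).1 (suaA m u x y)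
    exact s1.trans s2
  rw [hy']
  exact bil_diff hD (hu1 _) (hu1 _)

end Pool.Agent.NIF
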