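import Pool.Agent.NIF.SUA

/-!
SUB (90 lines). The substitution theorem.

PROOF. h = sub n m u g, A = 18 · 2^(t-1) · 2^t (any A ≥ this is fine; A ≥ 1).
Corner differences: for corners c, c' of v ∈ G n, pick n c and pick n c' are near v (pick_spec, touch_near), so
|g (pick c) - g (pick c')| ≤ |g v - g (pick c)| + |g v - g (pick c')| ≤ 2 (ve (G n) t g v)^(1/t) =: D v (le_ve, Real.rpow_le_rpow / rpow_le_iff),
so (D v)^t = 2^t ve (G n) t g v. By step_diff and rpow_add_le, for x ∈ G (n+m), v = anc m x, z = loc m x and each y near x: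
|h x - h y|^t ≤ (D v)^t 2^(t-1) (|u z - u z1|^t + |u (sw z) - u (sw z2)|^t) ≤ (D v)^t 2^(t-1) (ve (G m) t u z + ve (G m) t u (sw z)) by le_ve.
There are at most 9 such y. Sum over x = emb m v z (sum_G_add): total ≤ 9 · 2^(t-1) Σ_v 2^t ve (G n) t g v · Σ_z (ve u z + ve u (sw z)) and
Σ_{z ∈ G m} ve u (sw z) = En u (bijection sw of G m). Hence En h ≤ 18 · 2^(t-1) · 2^t En u En g.
Hull: bil_hull, the corners c of v = anc m x have pick n c near v. Admissible: x.1 = 0: anc and loc have first coordinate 0, u (loc m x) = 0, the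
value is (1-b) k(0,·) + b k(0,·+1), and a cell touching a lattice point with first coordinate 0 has first coordinate 0 (it is in G n), so g = 0;
x.1 + 1 = 3^(n+m): (anc m x).1 + 1 = 3^n and (loc m x).1 + 1 = 3^m, u (loc m x) = 1, and a cell v' ∈ G n touching a lattice point with first
coordinate 3^n has v'.1 + 1 = 3^n (as v'.1 < 3^n), so g = 1.
-/

set_option autoImplicit false

namespace Pool.Agent.NIF

private theorem sub_corner {t : ℝ} (ht : 1 ≤ t) {n : ℕ} (g : ℕ × ℕ → ℝ) {v : ℕ × ℕ} (hv : v ∈ G n) :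
    ∀ c c', touch v c → touch v c' →
      |g (pick n c) - g (pick n c')| ≤ 2 * (ve (G n) t g v) ^ (1 / t) := by
  have h0 : ∀ c, touch v c → |g v - g (pick n c)| ≤ (ve (G n) t g v) ^ (1 / t) := by
    intro c hc
    obtain ⟨h1, h2⟩ := pick_spec hv hc
    have h3 : |g v - g (pick n c)| ^ t ≤ ve (G n) t g v := le_ve h1 (touch_near hc h2)
    have ht0 : 0 < t := by linarith
    have h4 := Real.rpow_le_rpow (Real.rpow_nonneg (abs_nonneg _) t) h3
      (by positivity : (0 : ℝ) ≤ 1 / t)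
    rwa [← Real.rpow_mul (abs_nonneg _), mul_one_div_cancel ht0.ne', Real.rpow_one] at h4
  intro c c' hc hc'
  have h1 := h0 c hc
  have h2 := h0 c' hc'
  have h3 : g (pick n c) - g (pick n c') = (g v - g (pick n c')) - (g v - g (pick n c)) := by ring
  rw [h3]
  refine (abs_sub _ _).trans ?_
  linarith

private theorem sub_near_sum (A : Finset (ℕ × ℕ)) (x : ℕ × ℕ) {c : ℝ} (hc : 0 ≤ c) :
    ∑ y ∈ A, (if near x y then c else 0) ≤ 9 * c := by
  rw [← Finset.sum_filter, Finset.sum_const, nsmul_eq_mul]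
  have h : ((A.filter (near x)).card : ℝ) ≤ 9 := by exact_mod_cast near_card A x
  exact mul_le_mul_of_nonneg_right h hc

private theorem sub_step {t : ℝ} (ht : 1 ≤ t) {n m : ℕ} (hm : 1 ≤ m) {u g : ℕ × ℕ → ℝ} (hu : Adm m u)
    (hu1 : ∀ c, 0 ≤ u c ∧ u c ≤ 1) (hs : ∀ c ∈ G m, u (ry m c) = u c) {x y : ℕ × ℕ}
    (hx : x ∈ G (n + m)) (hy : y ∈ G (n + m)) (h : near x y) :
    |sub n m u g x - sub n m u g y| ^ t ≤
      2 ^ t * 2 ^ (t - 1) * (ve (G n) t g (anc m x) *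
        (ve (G m) t u (loc m x) + ve (G m) t u (sw (loc m x)))) := by
  have ht0 : 0 < t := by linarith
  obtain ⟨z1, hz1, z2, hz2, hn1, hn2, hle⟩ := step_diff hm hu hu1 hs hx hy h
    (sub_corner ht g (anc_mem hx))
  have e0 : 0 ≤ ve (G n) t g (anc m x) := ve_nonneg _ _ _ _
  have e1 : |u (loc m x) - u z1| ^ t ≤ ve (G m) t u (loc m x) := le_ve hz1 hn1
  have e2 : |u (sw (loc m x)) - u (sw z2)| ^ t ≤ ve (G m) t u (sw (loc m x)) :=
    le_ve (sw_mem.2 hz2) (near_sw.2 hn2)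
  have hD : 0 ≤ 2 * (ve (G n) t g (anc m x)) ^ (1 / t) := by positivity
  have hDt : (2 * (ve (G n) t g (anc m x)) ^ (1 / t)) ^ t = 2 ^ t * ve (G n) t g (anc m x) := by
    rw [Real.mul_rpow (by norm_num) (Real.rpow_nonneg e0 _), ← Real.rpow_mul e0,
      one_div_mul_cancel ht0.ne', Real.rpow_one]
  have h1 := Real.rpow_le_rpow (abs_nonneg _) hle ht0.le
  rw [Real.mul_rpow hD (by positivity), hDt] at h1
  have h2 := rpow_add_le ht (abs_nonneg (u (loc m x) - u z1)) (abs_nonneg (u (sw (loc m x)) - u (sw z2)))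
  have h5 : (0 : ℝ) ≤ (2 : ℝ) ^ (t - 1) := by positivity
  have h6 : (0 : ℝ) ≤ (2 : ℝ) ^ t * ve (G n) t g (anc m x) := mul_nonneg (by positivity) e0
  calc |sub n m u g x - sub n m u g y| ^ t
      ≤ 2 ^ t * ve (G n) t g (anc m x) *
          (|u (loc m x) - u z1| + |u (sw (loc m x)) - u (sw z2)|) ^ t := h1
    _ ≤ 2 ^ t * ve (G n) t g (anc m x) *
          (2 ^ (t - 1) * (|u (loc m x) - u z1| ^ t + |u (sw (loc m x)) - u (sw z2)| ^ t)) :=
        mul_le_mul_of_nonneg_left h2 h6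
    _ ≤ 2 ^ t * ve (G n) t g (anc m x) *
          (2 ^ (t - 1) * (ve (G m) t u (loc m x) + ve (G m) t u (sw (loc m x)))) :=
        mul_le_mul_of_nonneg_left (mul_le_mul_of_nonneg_left (add_le_add e1 e2) h5) h6
    _ = _ := by ring

private theorem sub_sw_sum (m : ℕ) (f : ℕ × ℕ → ℝ) : ∑ z ∈ G m, f (sw z) = ∑ z ∈ G m, f z := by
  refine Finset.sum_bij' (fun z _ => sw z) (fun z _ => sw z) ?_ ?_ ?_ ?_ ?_
  · intro z hz
    exact sw_mem.2 hz
  · intro z hz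
    exact sw_mem.2 hz
  · intro z _
    rfl
  · intro z _
    rfl
  · intro z _
    rfl

private theorem sub_energy {t : ℝ} (ht : 1 ≤ t) {n m : ℕ} (hm : 1 ≤ m) {u g : ℕ × ℕ → ℝ} (hu : Adm m u)
    (hu1 : ∀ c, 0 ≤ u c ∧ u c ≤ 1) (hs : ∀ c ∈ G m, u (ry m c) = u c) :
    En (G (n + m)) t (sub n m u g) ≤ 18 * 2 ^ (t - 1) * 2 ^ t * En (G m) t u * En (G n) t g := by
  have h1 : ∀ x ∈ G (n + m), ve (G (n + m)) t (sub n m u g) x ≤
      9 * (2 ^ t * 2 ^ (t - 1) * (ve (G n) t g (anc m x) *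
        (ve (G m) t u (loc m x) + ve (G m) t u (sw (loc m x))))) := by
    intro x hx
    have hc : (0 : ℝ) ≤ 2 ^ t * 2 ^ (t - 1) * (ve (G n) t g (anc m x) *
        (ve (G m) t u (loc m x) + ve (G m) t u (sw (loc m x)))) :=
      mul_nonneg (by positivity) (mul_nonneg (ve_nonneg _ _ _ _)
        (add_nonneg (ve_nonneg _ _ _ _) (ve_nonneg _ _ _ _)))
    refine le_trans (Finset.sum_le_sum fun y hy => ?_) (sub_near_sum (G (n + m)) x hc)
    split_ifs with hn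
    · exact sub_step ht hm hu hu1 hs hx hy hn
    · exact le_refl _
  have h2 : En (G (n + m)) t (sub n m u g) ≤ ∑ x ∈ G (n + m),
      9 * (2 ^ t * 2 ^ (t - 1) * (ve (G n) t g (anc m x) *
        (ve (G m) t u (loc m x) + ve (G m) t u (sw (loc m x))))) := Finset.sum_le_sum h1
  rw [sum_G_add] at h2
  have h3 : ∑ w ∈ G n, ∑ z ∈ G m, 9 * (2 ^ t * 2 ^ (t - 1) * (ve (G n) t g (anc m (emb m w z)) *
        (ve (G m) t u (loc m (emb m w z)) + ve (G m) t u (sw (loc m (emb m w z)))))) =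
      ∑ w ∈ G n, ∑ z ∈ G m, 9 * (2 ^ t * 2 ^ (t - 1)) * ve (G n) t g w *
        (ve (G m) t u z + ve (G m) t u (sw z)) := by
    refine Finset.sum_congr rfl fun w _ => Finset.sum_congr rfl fun z hz => ?_
    rw [anc_emb (G_lt hz).1 (G_lt hz).2, loc_emb (G_lt hz).1 (G_lt hz).2]
    ring
  rw [h3] at h2
  refine h2.trans (le_of_eq ?_)
  have h4 : ∀ w ∈ G n, ∑ z ∈ G m, 9 * (2 ^ t * 2 ^ (t - 1)) * ve (G n) t g w *
        (ve (G m) t u z + ve (G m) t u (sw z)) =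
      9 * (2 ^ t * 2 ^ (t - 1)) * (2 * En (G m) t u) * ve (G n) t g w := by
    intro w _
    rw [← Finset.mul_sum, Finset.sum_add_distrib, sub_sw_sum m (fun z => ve (G m) t u z)]
    unfold En
    ring
  rw [Finset.sum_congr rfl h4, ← Finset.mul_sum]
  unfold En
  ring

private theorem sub_last {n m x : ℕ} (h : x + 1 = 3 ^ (n + m)) :
    x / 3 ^ m + 1 = 3 ^ n ∧ x % 3 ^ m + 1 = 3 ^ m := by
  have hN : 0 < 3 ^ m := by positivity
  have hb := Nat.mod_lt x hN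
  have hx : 3 ^ m * (x / 3 ^ m) + x % 3 ^ m = x := Nat.div_add_mod _ _
  have hlt : x / 3 ^ m < 3 ^ n := by
    rw [Nat.div_lt_iff_lt_mul hN, ← pow_add]
    omega
  have h1 : 3 ^ m * (x / 3 ^ m) + x % 3 ^ m + 1 = 3 ^ m * 3 ^ n := by
    rw [hx, h, pow_add, mul_comm]
  have h2 : 3 ^ m * (x / 3 ^ m + 1) ≤ 3 ^ m * 3 ^ n := Nat.mul_le_mul_left _ hlt
  have h3 : 3 ^ m * (x / 3 ^ m + 1) = 3 ^ m * (x / 3 ^ m) + 3 ^ m := by ring
  have h4 : x % 3 ^ m + 1 = 3 ^ m := by omega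
  refine ⟨?_, h4⟩
  have h5 : 3 ^ m * (x / 3 ^ m + 1) = 3 ^ m * 3 ^ n := by omega
  exact Nat.eq_of_mul_eq_mul_left hN h5

private theorem sub_adm {n m : ℕ} {u g : ℕ × ℕ → ℝ} (hu : Adm m u) (hg : Adm n g) :
    Adm (n + m) (sub n m u g) := by
  constructor
  · intro x hx h0
    have h1 : (anc m x).1 = 0 := by
      change x.1 / 3 ^ m = 0
      rw [h0, Nat.zero_div]
    have h2 : (loc m x).1 = 0 := by
      change x.1 % 3 ^ m = 0
      rw [h0, Nat.zero_mod]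
    have h3 : ∀ c, touch (anc m x) c → c.1 = 0 → g (pick n c) = 0 := by
      intro c hc hc0
      obtain ⟨h4, h5⟩ := pick_spec (anc_mem hx) hc
      apply hg.left _ h4
      have := h5.1
      omega
    unfold sub bil
    beta_reduce
    rw [hu.left _ (loc_mem hx) h2,
      h3 ((anc m x).1, (anc m x).2) ⟨Or.inl rfl, Or.inl rfl⟩ h1,
      h3 ((anc m x).1, (anc m x).2 + 1) ⟨Or.inl rfl, Or.inr rfl⟩ h1]
    ring
  · intro x hx h0
    obtain ⟨h1, h2⟩ := sub_last h0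
    have h1' : (anc m x).1 + 1 = 3 ^ n := h1
    have h2' : (loc m x).1 + 1 = 3 ^ m := h2
    have h3 : ∀ c, touch (anc m x) c → c.1 = 3 ^ n → g (pick n c) = 1 := by
      intro c hc hc0
      obtain ⟨h4, h5⟩ := pick_spec (anc_mem hx) hc
      apply hg.right _ h4
      have h6 := h5.1
      have h7 := (G_lt h4).1
      omega
    unfold sub bil
    beta_reduce
    rw [hu.right _ (loc_mem hx) h2',
      h3 ((anc m x).1 + 1, (anc m x).2) ⟨Or.inr rfl, Or.inl rfl⟩ h1',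
      h3 ((anc m x).1 + 1, (anc m x).2 + 1) ⟨Or.inr rfl, Or.inr rfl⟩ h1']
    ring

theorem exists_subst {t : ℝ} (ht : 1 ≤ t) : ∃ A : ℝ, 1 ≤ A ∧ ∀ (m : ℕ) (u : ℕ × ℕ → ℝ), 1 ≤ m → Adm m u →
    (∀ c, 0 ≤ u c ∧ u c ≤ 1) → (∀ c ∈ G m, u (ry m c) = u c) → ∀ (n : ℕ) (g : ℕ × ℕ → ℝ), ∃ h : ℕ × ℕ → ℝ,
    En (G (n + m)) t h ≤ A * En (G m) t u * En (G n) t g ∧
    (∀ x ∈ G (n + m), ∀ lo hi : ℝ, (∀ v ∈ G n, near v (anc m x) → lo ≤ g v ∧ g v ≤ hi) → lo ≤ h x ∧ h x ≤ hi) ∧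
    (Adm n g → Adm (n + m) h) := by
  refine ⟨18 * 2 ^ (t - 1) * 2 ^ t, ?_, ?_⟩
  · have h1 : (1 : ℝ) ≤ 2 ^ (t - 1) := Real.one_le_rpow (by norm_num) (by linarith)
    have h2 : (1 : ℝ) ≤ 2 ^ t := Real.one_le_rpow (by norm_num) (by linarith)
    nlinarith
  · intro m u hm hu hu1 hs n g
    refine ⟨sub n m u g, sub_energy ht hm hu hu1 hs, ?_, fun hg => sub_adm hu hg⟩
    intro x hx lo hi hv
    unfold sub
    apply bil_hull _ (hu1 _) (hu1 _)
    intro c hc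
    obtain ⟨h1, h2⟩ := pick_spec (anc_mem hx) hc
    exact hv _ h1 (touch_near h2 hc)

end Pool.Agent.NIF
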